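import Pool.Agent.P.MP_1206ce_ag.CB.Defs

/-! The Weyl group action on cocharacters and fractions; Euler classes. -/

open MvPolynomial

noncomputable section

namespace Pool.Agent.HK

theorem CBAlgW_F {V Λ : Type} [Fintype V] [DecidableEq V] (lab : V → Λ) (s : Finset (V × V)) :
    ∃ (N : ℕ) (u v : Fin N → MvPolynomial V ℂ), ∀ a,
      Artin_F lab s a = ∑ j, u j * Alt lab (a * v j) := by
  induction s using Finset.induction_on with
  | empty => exact ⟨1, fun _ => 1, fun _ => 1, fun a => by simp [Artin_F_empty]⟩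
  | insert p s hp ih =>
    obtain ⟨N, u, v, h⟩ := ih
    refine ⟨N + N, Fin.append (fun j => X p.1 * u j) fun j => -u j,
      Fin.append v fun j => X p.2 * v j, fun a => ?_⟩
    rw [Artin_F_insert lab hp, h, h, Fin.sum_univ_add, Finset.mul_sum, sub_eq_add_neg,
      ← Finset.sum_neg_distrib]
    congr 1
    · refine Finset.sum_congr rfl fun j _ => ?_
      rw [Fin.append_left, Fin.append_left, mul_assoc]
    · refine Finset.sum_congr rfl fun j _ => ?_
      rw [Fin.append_right, Fin.append_right, mul_assoc, neg_mul]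

/-- Dual bases for the trace form. -/
theorem dual_bases {V Λ : Type} [Fintype V] [DecidableEq V] (lab : V → Λ) :
    ∃ (N : ℕ) (u v : Fin N → MvPolynomial V ℂ), ∀ a,
      Dl lab * a = ∑ j, u j * Alt lab (a * v j) := by
  obtain ⟨N, u, v, h⟩ := CBAlgW_F lab (Artin_pairs lab)
  exact ⟨N, u, v, fun a => by rw [← h, Artin_F_pairs]⟩

/-- The norm of a polynomial is invariant. -/
theorem CBAlgW_norm_mem {V Λ : Type} [Fintype V] [DecidableEq V] (lab : V → Λ)
    (e : MvPolynomial V ℂ) : ∏ w ∈ Wl lab, rename w e ∈ Rinv lab := by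
  refine mem_Rinv.2 fun u hu => ?_
  rw [map_prod]
  refine Finset.prod_nbij' (fun w => u * w) (fun w => u⁻¹ * w) (fun w hw => mul_mem_Wl hu hw)
    (fun w hw => mul_mem_Wl (inv_mem_Wl hu) hw) (fun w _ => by simp) (fun w _ => by simp)
    fun w _ => Sym_rename_mul u w e

theorem CBAlgW_norm_ne {V Λ : Type} [Fintype V] [DecidableEq V] (lab : V → Λ)
    {e : MvPolynomial V ℂ} (h : e ≠ 0) : ∏ w ∈ Wl lab, rename w e ≠ 0 := by
  refine Finset.prod_ne_zero_iff.2 fun w _ h0 => h ?_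
  exact rename_injective _ w.injective (by rw [h0, map_zero])

theorem CBAlgW_norm_eq {V Λ : Type} [Fintype V] [DecidableEq V] (lab : V → Λ)
    (e : MvPolynomial V ℂ) :
    ∏ w ∈ Wl lab, rename w e = (∏ w ∈ (Wl lab).erase 1, rename w e) * e := by
  rw [← Finset.prod_erase_mul _ _ (one_mem_Wl lab)]
  simp

open Classical in
/-- Comparison of the Vandermonde products for a labelling and its refinement by levels. -/
theorem CBAlgW_Dl {V Λ : Type} [Fintype V] [DecidableEq V] (lab : V → Λ) (v : V → ℤ) :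
    ∃ ε : ℂ, ε ≠ 0 ∧ Dl lab = ε • (Dl (fun x => (lab x, v x)) *
      ∏ p ∈ Finset.univ.filter (fun p : V × V => lab p.1 = lab p.2 ∧ v p.2 < v p.1),
        (X p.1 - X p.2)) := by
  set f : V × V → MvPolynomial V ℂ := fun p => X p.1 - X p.2 with hf
  set A := Finset.univ.filter
    (fun p : V × V => lab p.1 = lab p.2 ∧ v p.2 < v p.1 ∧ ordV p.1 < ordV p.2) with hA
  set B := Finset.univ.filter
    (fun p : V × V => lab p.1 = lab p.2 ∧ v p.2 < v p.1 ∧ ordV p.2 < ordV p.1) with hB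
  set B' := Finset.univ.filter
    (fun p : V × V => lab p.1 = lab p.2 ∧ v p.1 < v p.2 ∧ ordV p.1 < ordV p.2) with hB'
  have h1 : Artin_pairs lab = (Artin_pairs fun x => (lab x, v x)) ∪ (A ∪ B') := by
    ext p
    simp only [Finset.mem_union, Artin_mem_pairs, hA, hB', Finset.mem_filter, Finset.mem_univ,
      true_and, Prod.mk.injEq]
    constructor
    · rintro ⟨h1, h2⟩
      rcases lt_trichotomy (v p.1) (v p.2) with h | h | h
      · exact Or.inr (Or.inr ⟨h1, h, h2⟩)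
      · exact Or.inl ⟨⟨h1, h⟩, h2⟩
      · exact Or.inr (Or.inl ⟨h1, h, h2⟩)
    · rintro (h | h | h)
      · exact ⟨h.1.1, h.2⟩
      · exact ⟨h.1, h.2.2⟩
      · exact ⟨h.1, h.2.2⟩
  have h2 : Finset.univ.filter (fun p : V × V => lab p.1 = lab p.2 ∧ v p.2 < v p.1) = A ∪ B := by
    ext p
    simp only [Finset.mem_union, hA, hB, Finset.mem_filter, Finset.mem_univ, true_and]
    constructor
    · rintro ⟨h1, h2⟩
      rcases lt_trichotomy (ordV p.1) (ordV p.2) with h | h | h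
      · exact Or.inl ⟨h1, h2, h⟩
      · rw [ordV_injective h] at h2
        exact absurd h2 (lt_irrefl _)
      · exact Or.inr ⟨h1, h2, h⟩
    · rintro (h | h)
      · exact ⟨h.1, h.2.1⟩
      · exact ⟨h.1, h.2.1⟩
  have d1 : Disjoint (Artin_pairs fun x => (lab x, v x)) (A ∪ B') := by
    rw [Finset.disjoint_left]
    intro p hp hq
    simp only [Finset.mem_union, Artin_mem_pairs, hA, hB', Finset.mem_filter, Finset.mem_univ,
      true_and, Prod.mk.injEq] at hp hq
    omega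
  have d2 : Disjoint A B' := by
    rw [Finset.disjoint_left]
    intro p hp hq
    simp only [hA, hB', Finset.mem_filter, Finset.mem_univ, true_and] at hp hq
    omega
  have d3 : Disjoint A B := by
    rw [Finset.disjoint_left]
    intro p hp hq
    simp only [hA, hB, Finset.mem_filter, Finset.mem_univ, true_and] at hp hq
    omega
  have h3 : ∏ p ∈ B', f p = ∏ p ∈ B, (C (-1 : ℂ) * f p) := by
    refine Finset.prod_nbij' Prod.swap Prod.swap (fun p hp => ?_) (fun p hp => ?_)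
      (fun p _ => rfl) (fun p _ => rfl) fun p _ => ?_
    · simp only [hB, hB', Finset.mem_filter, Finset.mem_univ, true_and] at hp ⊢
      exact ⟨hp.1.symm, hp.2⟩
    · simp only [hB, hB', Finset.mem_filter, Finset.mem_univ, true_and] at hp ⊢
      exact ⟨hp.1.symm, hp.2⟩
    · simp [hf]
  refine ⟨(-1) ^ B.card, pow_ne_zero _ (by norm_num), ?_⟩
  rw [Artin_Dl_eq, Artin_Dl_eq, h1, h2, Finset.prod_union d1, Finset.prod_union d2,
    Finset.prod_union d3, h3, Finset.prod_mul_distrib, Finset.prod_const, smul_eq_C_mul, map_pow]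
  ring

namespace Qv

variable (Q : Qv) {w w' : Equiv.Perm Q.Var} {l l' : Q.Lam} {m m' d : ℕ}

theorem card_WI : Fintype.card ↥Q.WI = Q.dimN := Fintype.card_coe _

theorem CBAlgW_xv (a : Option (Fin Q.nB)) :
    ∑ k : Fin Q.nB, C (((if a = some k then 1 else 0 : ℤ) : ℂ)) * (X (Sum.inl k) : Q.Pol) =
      Q.xv a := by
  cases a with
  | none => simp [xv]
  | some j =>
    rw [Finset.sum_eq_single j]
    · simp [xv]
    · intro k _ hk
      rw [if_neg fun h => hk (Option.some.inj h).symm]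
      simp
    · simp

theorem linF_chP (p : Q.Ps) : linF (Q.chP p) = Q.wtP p := by
  rw [linF, Fintype.sum_sum_type, wtP, ← CBAlgW_xv, ← CBAlgW_xv, ← Finset.sum_sub_distrib, bw]
  congr 1
  refine Finset.sum_congr rfl fun k _ => ?_
  rw [← sub_mul, ← map_sub, ← Int.cast_sub]
  rfl

theorem refines_labl (l : Q.Lam) : Refines (Q.labl l) Q.lab :=
  fun _ _ h => congrArg Prod.fst h

theorem w_inr (hw : w ∈ Wl Q.lab) (a : Fin Q.nT) : w (Sum.inr a) = Sum.inr a := by
  have h := mem_Wl.1 hw (Sum.inr a)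
  rcases hx : w (Sum.inr a) with k | b
  · rw [hx] at h
    simp [lab] at h
  · rw [hx] at h
    simpa [lab] using h

/-- A Weyl group element permutes the basis of `V` inside the vertices. -/
theorem exists_perm (hw : w ∈ Wl Q.lab) : ∃ σ : Equiv.Perm (Fin Q.nB),
    (∀ k, w (Sum.inl k) = Sum.inl (σ k)) ∧ (∀ k, Q.vt (σ k) = Q.vt k) ∧
    ∀ l k, Q.wl w l (σ k) = l k := by
  have h : ∀ k, ∃ k', w (Sum.inl k) = Sum.inl k' ∧ Q.vt k' = Q.vt k := by
    intro k
    have h := mem_Wl.1 hw (Sum.inl k)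
    rcases hx : w (Sum.inl k) with k' | b
    · rw [hx] at h
      exact ⟨k', rfl, by simpa [lab] using h⟩
    · rw [hx] at h
      simp [lab] at h
  choose f hf hf' using h
  have hi : Function.Injective f := fun a b hab => by
    have h1 : w (Sum.inl a) = w (Sum.inl b) := by rw [hf, hf, hab]
    exact Sum.inl_injective (w.injective h1)
  refine ⟨Equiv.ofBijective f (Finite.injective_iff_bijective.1 hi), hf, hf', fun l k => ?_⟩
  change Sum.elim l 0 (w.symm (Sum.inl (f k))) = l k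
  rw [← hf, Equiv.symm_apply_apply]
  rfl

theorem wl_one (l : Q.Lam) : Q.wl 1 l = l := rfl

theorem wl_mul (hw : w ∈ Wl Q.lab) (hw' : w' ∈ Wl Q.lab) (l : Q.Lam) :
    Q.wl (w * w') l = Q.wl w (Q.wl w' l) := by
  obtain ⟨σ, h1, -, h3⟩ := Q.exists_perm hw
  obtain ⟨σ', h1', -, h3'⟩ := Q.exists_perm hw'
  funext k
  obtain ⟨j, rfl⟩ := σ.surjective k
  obtain ⟨i, rfl⟩ := σ'.surjective j
  rw [h3, h3']
  change Sum.elim l 0 ((w * w').symm (Sum.inl (σ (σ' i)))) = l i
  rw [← h1, ← h1', ← Equiv.Perm.mul_apply w w', Equiv.symm_apply_apply]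
  rfl

theorem wl_inv_wl (hw : w ∈ Wl Q.lab) (l : Q.Lam) : Q.wl w⁻¹ (Q.wl w l) = l := by
  rw [← Q.wl_mul (inv_mem_Wl hw) hw, inv_mul_cancel, wl_one]

theorem wl_wl_inv (hw : w ∈ Wl Q.lab) (l : Q.Lam) : Q.wl w (Q.wl w⁻¹ l) = l := by
  rw [← Q.wl_mul hw (inv_mem_Wl hw), mul_inv_cancel, wl_one]

theorem wl_eq_iff (hw : w ∈ Wl Q.lab) : Q.wl w l = l ↔ w ∈ Wl (Q.labl l) := by
  obtain ⟨σ, h1, -, h3⟩ := Q.exists_perm hw
  rw [mem_Wl]
  constructor
  · intro h x
    refine Prod.ext (mem_Wl.1 hw x) ?_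
    rcases x with k | a
    · change Sum.elim l 0 (w (Sum.inl k)) = l k
      rw [h1, ← h3 l k, h]
      rfl
    · rw [Q.w_inr hw]
  · intro h
    funext k
    obtain ⟨j, rfl⟩ := σ.surjective k
    have h4 := congrArg Prod.snd (h (Sum.inl j))
    rw [h1] at h4
    rw [h3]
    exact h4.symm

theorem nsq_wl (hw : w ∈ Wl Q.lab) (l : Q.Lam) : Q.nsq (Q.wl w l) = Q.nsq l := by
  obtain ⟨σ, -, -, h3⟩ := Q.exists_perm hw
  rw [nsq, nsq, ← Equiv.sum_comp σ]
  exact Finset.sum_congr rfl fun k _ => by rw [h3]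

theorem mem_Box : l ∈ Q.Box m ↔ ∀ k, |l k| ≤ m := by
  simp only [Box, Fintype.mem_piFinset, Finset.mem_Icc, abs_le]

theorem wl_mem_Box (hw : w ∈ Wl Q.lab) (hl : l ∈ Q.Box m) : Q.wl w l ∈ Q.Box m := by
  obtain ⟨σ, -, -, h3⟩ := Q.exists_perm hw
  refine Q.mem_Box.2 fun k => ?_
  obtain ⟨j, rfl⟩ := σ.surjective k
  rw [h3]
  exact Q.mem_Box.1 hl j

theorem Box_mono (h : m ≤ m') : Q.Box m ⊆ Q.Box m' := fun _ hl =>
  Q.mem_Box.2 fun k => (Q.mem_Box.1 hl k).trans (by exact_mod_cast h)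

theorem zero_mem_Box (m : ℕ) : (0 : Q.Lam) ∈ Q.Box m := Q.mem_Box.2 fun k => by simp

theorem add_mem_Box (hl : l ∈ Q.Box m) (hl' : l' ∈ Q.Box m') : l + l' ∈ Q.Box (m + m') := by
  refine Q.mem_Box.2 fun k => ?_
  rw [Pi.add_apply, Nat.cast_add]
  exact (abs_add_le _ _).trans (add_le_add (Q.mem_Box.1 hl k) (Q.mem_Box.1 hl' k))

theorem exists_Box (s : Finset Q.Lam) : ∃ m, s ⊆ Q.Box m := by
  refine ⟨s.sup fun l => Finset.univ.sup fun k => (l k).natAbs, fun l hl => ?_⟩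
  refine Q.mem_Box.2 fun k => ?_
  rw [← Int.natCast_natAbs]
  exact Int.ofNat_le.2 ((Finset.le_sup (f := fun k => (l k).natAbs) (Finset.mem_univ k)).trans
    (Finset.le_sup (f := fun l : Q.Lam => Finset.univ.sup fun k => (l k).natAbs) hl))

theorem abs_lv_le (hl : l ∈ Q.Box m) (a : Option (Fin Q.nB)) : |Q.lv l a| ≤ m := by
  cases a with
  | none => simp [lv]
  | some k => exact Q.mem_Box.1 hl k

theorem abs_prP_le (hl : l ∈ Q.Box m) (p : Q.Ps) : |Q.prP l p| ≤ 2 * m := by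
  have h1 := abs_le.1 (Q.abs_lv_le hl p.2.1)
  have h2 := abs_le.1 (Q.abs_lv_le hl p.2.2)
  rw [prP, abs_le]
  omega

theorem lv_add (l l' : Q.Lam) (a : Option (Fin Q.nB)) : Q.lv (l + l') a = Q.lv l a + Q.lv l' a := by
  cases a with
  | none => simp [lv]
  | some k => rfl

theorem prP_add (l l' : Q.Lam) (p : Q.Ps) : Q.prP (l + l') p = Q.prP l p + Q.prP l' p := by
  simp only [prP, lv_add]
  ring

theorem prP_zero (p : Q.Ps) : Q.prP 0 p = 0 := by
  have h := Q.prP_add 0 0 p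
  rw [add_zero] at h
  omega

theorem CBAlgW_wtP_ne {p : Q.Ps} (h : p.2.1 ≠ p.2.2) : Q.wtP p ≠ 0 := by
  rw [← linF_chP]
  intro h0
  have h1 := linF_eq_zero.1 h0
  have h2 : ∀ k, (if p.2.1 = some k then (1 : ℤ) else 0) - (if p.2.2 = some k then 1 else 0) = 0 :=
    fun k => congrFun h1 (Sum.inl k)
  apply h
  rcases ha : p.2.1 with _ | a <;> rcases hb : p.2.2 with _ | b
  · rfl
  · have h3 := h2 b
    simp [ha, hb] at h3
  · have h3 := h2 a
    simp [ha, hb] at h3
  · have h3 := h2 a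
    by_contra hc
    rw [ha, hb, if_pos rfl, if_neg fun e => hc e.symm] at h3
    simp at h3

theorem phi_ne_zero (l : Q.Lam) : Q.phi l ≠ 0 := by
  refine Finset.prod_ne_zero_iff.2 fun p _ => ?_
  by_cases h : p.2.1 = p.2.2
  · have h1 : Q.prP l p = 0 := by rw [prP, h, sub_self]
    rw [h1]
    simp
  · exact pow_ne_zero _ (Q.CBAlgW_wtP_ne h)

theorem phi_zero : Q.phi 0 = 1 := by
  simp [phi, prP_zero]

theorem phi_wl (hw : w ∈ Wl Q.lab) (l : Q.Lam) : Q.phi (Q.wl w l) = rename w (Q.phi l) := by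
  obtain ⟨σ, h1, h2, h3⟩ := Q.exists_perm hw
  have hvb : ∀ a, Q.vb (Option.map σ a) = Q.vb a := fun a => by
    cases a with
    | none => rfl
    | some k => exact congrArg some (h2 k)
  have hlv : ∀ a, Q.lv (Q.wl w l) (Option.map σ a) = Q.lv l a := fun a => by
    cases a with
    | none => rfl
    | some k => exact h3 l k
  have hxv : ∀ a, rename w (Q.xv a) = Q.xv (Option.map σ a) := fun a => by
    cases a with
    | none => exact map_zero _
    | some k =>
      change rename w (X (Sum.inl k)) = X (Sum.inl (σ k))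
      rw [rename_X, h1]
  have hbw : ∀ h, rename w (Q.bw h) = Q.bw h := fun h => by
    rw [bw, map_sum]
    refine Finset.sum_congr rfl fun a _ => ?_
    rw [map_mul, rename_C, rename_X, Q.w_inr hw]
  rw [phi, phi, map_prod]
  refine (Finset.prod_equiv ((Equiv.refl _).prodCongr
    ((Equiv.optionCongr σ).prodCongr (Equiv.optionCongr σ))) (fun p => ?_) fun p _ => ?_).symm
  · simp only [WI, Finset.mem_filter, Finset.mem_univ, true_and]
    change _ ↔ Q.vb (Option.map σ p.2.1) = Q.tgt p.1 ∧ Q.vb (Option.map σ p.2.2) = Q.src p.1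
    rw [hvb, hvb]
  · change _ = (Q.xv (Option.map σ p.2.1) - Q.xv (Option.map σ p.2.2) + Q.bw p.1) ^
      (-(Q.lv (Q.wl w l) (Option.map σ p.2.1) - Q.lv (Q.wl w l) (Option.map σ p.2.2))).toNat
    rw [map_pow, hlv, hlv, wtP, map_add, map_sub, hxv, hxv, hbw, prP]

theorem phi_hom (hl : l ∈ Q.Box m) (hd : 2 * m ≤ d) :
    ∃ e : ℕ, (Q.phi l).IsHomogeneous e ∧ e + (Q.PU l d).card = d * Q.dimN := by
  refine ⟨∑ p ∈ Q.WI, (-Q.prP l p).toNat, ?_, ?_⟩
  · refine IsHomogeneous.prod _ _ _ fun p _ => ?_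
    have h1 : (Q.wtP p).IsHomogeneous 1 := by
      rw [← linF_chP]
      exact linF_isHomogeneous _
    simpa using h1.pow (-Q.prP l p).toNat
  · rw [PU, Finset.card_filter, Finset.sum_product, ← Finset.sum_add_distrib, ← card_WI,
      Fintype.card_coe, mul_comm, ← smul_eq_mul, ← Finset.sum_const]
    refine Finset.sum_congr rfl fun p _ => ?_
    have h1 := abs_le.1 (Q.abs_prP_le hl p)
    have h2 : (Finset.range d).filter (fun i : ℕ => -Q.prP l p ≤ (i : ℤ)) =
        Finset.Ico (-Q.prP l p).toNat d := by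
      ext i
      simp only [Finset.mem_filter, Finset.mem_range, Finset.mem_Ico]
      omega
    rw [← Finset.card_filter (fun i : ℕ => -Q.prP l p ≤ (i : ℤ)), h2, Nat.card_Ico]
    omega

theorem CBAlgW_eN (l : Q.Lam) : Q.eN l =
    ∏ p ∈ Finset.univ.filter (fun p : Fin Q.nB × Fin Q.nB => Q.vt p.1 = Q.vt p.2),
      (X (Sum.inl p.1) - X (Sum.inl p.2)) ^ ((l p.1 - l p.2).toNat - 1) := by
  rw [eN, NL, Finset.prod_biUnion]
  · refine Finset.prod_congr rfl fun p _ => ?_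
    rw [Finset.prod_image fun a _ b _ h => (Prod.mk.inj h).2]
    have h1 : ∀ i : ℕ, linF (Q.chN (p, i)) = X (Sum.inl p.1) - X (Sum.inl p.2) := fun i => by
      rw [chN, sub_eq_add_neg, linF_add, linF_neg, linF_single, linF_single, sub_eq_add_neg]
    rw [Finset.prod_congr rfl fun i _ => h1 i, Finset.prod_const, Nat.card_Ico]
  · intro p _ q _ hpq
    refine Finset.disjoint_left.2 fun x hx hy => hpq ?_
    obtain ⟨i, -, rfl⟩ := Finset.mem_image.1 hx
    obtain ⟨j, -, hj⟩ := Finset.mem_image.1 hy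
    exact (Prod.mk.inj hj).1.symm

theorem eN_ne_zero (l : Q.Lam) : Q.eN l ≠ 0 := by
  rw [CBAlgW_eN]
  refine Finset.prod_ne_zero_iff.2 fun p _ => ?_
  by_cases h : p.1 = p.2
  · rw [h, sub_self (l p.2)]
    simp
  · exact pow_ne_zero _ (sub_ne_zero.2 fun e => h (Sum.inl_injective (X_injective e)))

theorem eN_mem (l : Q.Lam) : Q.eN l ∈ Rinv (Q.labl l) := by
  refine mem_Rinv.2 fun w hw => ?_
  have hw' := Wl_mono (Q.refines_labl l) hw
  obtain ⟨σ, h1, h2, h3⟩ := Q.exists_perm hw'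
  have h4 : ∀ k, l (σ k) = l k := fun k => by
    rw [← h3 l k, (Q.wl_eq_iff hw').2 hw]
  rw [CBAlgW_eN, map_prod]
  refine Finset.prod_equiv (σ.prodCongr σ) (fun p => ?_) fun p _ => ?_
  · simp only [Finset.mem_filter, Finset.mem_univ, true_and]
    change _ ↔ Q.vt (σ p.1) = Q.vt (σ p.2)
    rw [h2, h2]
  · change _ = (X (Sum.inl (σ p.1)) - X (Sum.inl (σ p.2))) ^ ((l (σ p.1) - l (σ p.2)).toNat - 1)
    rw [map_pow, map_sub, rename_X, rename_X, h1, h1, h4, h4]

/-- The roots between different levels of `λ`. -/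
theorem exists_cross (l : Q.Lam) : ∃ (D : Q.Pol) (ε : ℂ), ε ≠ 0 ∧ D ∈ Rinv (Q.labl l) ∧
    Q.eul l = Q.eN l * D ∧ Dl Q.lab = ε • (Dl (Q.labl l) * D) := by
  classical
  obtain ⟨ε, hε, h⟩ := CBAlgW_Dl Q.lab (Sum.elim l 0)
  refine ⟨_, ε, hε, mem_Rinv.2 fun w hw => ?_, ?_, h⟩
  · rw [map_prod]
    refine Finset.prod_equiv (w.prodCongr w) (fun p => ?_) fun p _ => ?_
    · have h1 : ∀ x, Q.lab (w x) = Q.lab x := fun x => congrArg Prod.fst (mem_Wl.1 hw x)
      have h2 : ∀ x, Sum.elim l 0 (w x) = Sum.elim l (0 : Fin Q.nT → ℤ) x :=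
        fun x => congrArg Prod.snd (mem_Wl.1 hw x)
      simp only [Finset.mem_filter, Finset.mem_univ, true_and]
      change _ ↔ Q.lab (w p.1) = Q.lab (w p.2) ∧
        Sum.elim l (0 : Fin Q.nT → ℤ) (w p.2) < Sum.elim l (0 : Fin Q.nT → ℤ) (w p.1)
      rw [h1, h1, h2, h2]
    · rw [map_sub, rename_X, rename_X]
      rfl
  · have h1 : ∏ p ∈ (Finset.univ.filter
          (fun p : Fin Q.nB × Fin Q.nB => Q.vt p.1 = Q.vt p.2)).filter (fun p => l p.2 < l p.1),
          (X (Sum.inl p.1) - X (Sum.inl p.2) : Q.Pol) =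
        ∏ p ∈ Finset.univ.filter (fun p : Q.Var × Q.Var => Q.lab p.1 = Q.lab p.2 ∧
          Sum.elim l (0 : Fin Q.nT → ℤ) p.2 < Sum.elim l (0 : Fin Q.nT → ℤ) p.1),
          (X p.1 - X p.2) := by
      refine Finset.prod_bij (fun p _ => (Sum.inl p.1, Sum.inl p.2)) (fun p hp => ?_)
        (fun p _ q _ e => ?_) (fun p hp => ?_) fun p _ => rfl
      · simp only [Finset.mem_filter, Finset.mem_univ, true_and] at hp ⊢
        exact ⟨congrArg Sum.inl hp.1, hp.2⟩
      · exact Prod.ext (Sum.inl_injective (Prod.mk.inj e).1) (Sum.inl_injective (Prod.mk.inj e).2)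
      · simp only [Finset.mem_filter, Finset.mem_univ, true_and] at hp ⊢
        obtain ⟨a | a, b | b⟩ := p
        · exact ⟨(a, b), ⟨Sum.inl_injective hp.1, hp.2⟩, rfl⟩
        · simp [lab] at hp
        · simp [lab] at hp
        · simp at hp
    refine Eq.trans ?_ (congrArg (Q.eN l * ·) (h1.trans ?_))
    · rw [CBAlgW_eN, Finset.prod_filter (fun p : Fin Q.nB × Fin Q.nB => l p.2 < l p.1),
        ← Finset.prod_mul_distrib, eul]
      refine Finset.prod_congr rfl fun p _ => ?_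
      split_ifs with hp
      · rw [← pow_succ]
        congr 1
        omega
      · rw [mul_one]
        congr 1
        omega
    · congr

theorem wF_algebraMap (w : Equiv.Perm Q.Var) (p : Q.Pol) :
    Q.wF w (algebraMap Q.Pol Q.Frac p) = algebraMap Q.Pol Q.Frac (rename w p) :=
  IsFractionRing.ringEquivOfRingEquiv_algebraMap _ p

theorem wF_mul (w w' : Equiv.Perm Q.Var) (x : Q.Frac) : Q.wF (w * w') x = Q.wF w (Q.wF w' x) := by
  obtain ⟨a, b, -, rfl⟩ := IsFractionRing.div_surjective (A := Q.Pol) x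
  simp only [map_div₀, wF_algebraMap, Sym_rename_mul]

theorem wF_one (x : Q.Frac) : Q.wF 1 x = x := by
  obtain ⟨a, b, -, rfl⟩ := IsFractionRing.div_surjective (A := Q.Pol) x
  simp [map_div₀, wF_algebraMap]

/-- Invariant denominators. -/
theorem exists_inv_denom (x : Q.Frac) : ∃ a : Q.Pol, ∃ b ∈ Rinv Q.lab, b ≠ 0 ∧
    x * algebraMap Q.Pol Q.Frac b = algebraMap Q.Pol Q.Frac a := by
  obtain ⟨a, b, hb, rfl⟩ := IsFractionRing.div_surjective (A := Q.Pol) x
  have hb0 : b ≠ 0 := nonZeroDivisors.ne_zero hb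
  refine ⟨a * ∏ w ∈ (Wl Q.lab).erase 1, rename w b, _, CBAlgW_norm_mem Q.lab b,
    CBAlgW_norm_ne Q.lab hb0, ?_⟩
  have h1 : algebraMap Q.Pol Q.Frac b ≠ 0 := IsFractionRing.to_map_ne_zero_of_mem_nonZeroDivisors hb
  rw [CBAlgW_norm_eq, map_mul, map_mul]
  field_simp

/-- Every nonzero invariant of the stabiliser divides a nonzero invariant. -/
theorem exists_norm {e : Q.Pol} (he : e ∈ Rinv (Q.labl l)) (h0 : e ≠ 0) :
    ∃ b ∈ Rinv Q.lab, b ≠ 0 ∧ ∃ g ∈ Rinv (Q.labl l), b = g * e := by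
  refine ⟨_, CBAlgW_norm_mem Q.lab e, CBAlgW_norm_ne Q.lab h0, _, mem_Rinv.2 fun u hu => ?_,
    CBAlgW_norm_eq Q.lab e⟩
  have h1 := mem_Rinv.1 (CBAlgW_norm_mem Q.lab e) u (Wl_mono (Q.refines_labl l) hu)
  rw [CBAlgW_norm_eq, map_mul, mem_Rinv.1 he u hu] at h1
  exact mul_right_cancel₀ h0 h1


end Qv

end Pool.Agent.HK
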