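import Pool.Agent.P.MP_1206ce_ag.CB.EM
import Pool.Agent.P.MP_1206ce_ag.CB.AlgW

/-! The actions of `K` on `N`, on jets and on pairs. -/

open scoped Topology
open Filter Set

noncomputable section

namespace Pool.Agent.HK

theorem CBAct_frob {n : Type} [Fintype n] (M : Matrix n n ℂ) :
    ((∑ k, ∑ l, ‖M k l‖ ^ 2 : ℝ) : ℂ) = Matrix.trace (M * star M) := by
  simp only [Matrix.trace, Matrix.diag_apply, Matrix.mul_apply, Matrix.star_apply, Complex.star_def,
    Complex.mul_conj, Complex.normSq_eq_norm_sq]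
  push_cast
  rfl

theorem CBAct_frob_conj {n : Type} [Fintype n] [DecidableEq n] {U : Matrix n n ℂ}
    (hU : U ∈ Matrix.unitaryGroup n ℂ) {c : ℂ} (hc : ‖c‖ = 1) (M : Matrix n n ℂ) :
    ∑ k, ∑ l, ‖(c • (U * M * star U)) k l‖ ^ 2 = ∑ k, ∑ l, ‖M k l‖ ^ 2 := by
  have h1 : star U * U = 1 := Matrix.mem_unitaryGroup_iff'.1 hU
  have h2 : ∑ k, ∑ l, ‖(U * M * star U) k l‖ ^ 2 = ∑ k, ∑ l, ‖M k l‖ ^ 2 := by
    apply Complex.ofReal_injective
    rw [CBAct_frob, CBAct_frob, star_mul, star_mul, star_star, mul_assoc (U * M),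
      ← mul_assoc (star U), h1, one_mul, mul_assoc U, Matrix.trace_mul_comm, mul_assoc M,
      mul_assoc (star M), h1, mul_one]
  rw [← h2]
  simp only [Matrix.smul_apply, smul_eq_mul, norm_mul, hc, one_mul]

theorem CBAct_cont_comp {V X Z : Type} [Fintype V] [DecidableEq V] [TopologicalSpace X]
    [TopologicalSpace Z] {L : Set (Matrix V V ℂ)} {act : Matrix V V ℂ → X → X} (h : IsAct L act)
    {f : Z → X} (hf : Continuous f) :
    ContinuousOn (fun p : Matrix V V ℂ × Z => act p.1 (f p.2)) (L ×ˢ univ) :=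
  h.cont.comp (continuous_fst.prodMk (hf.comp continuous_snd)).continuousOn
    fun _ hp => ⟨hp.1, mem_univ _⟩

namespace Qv

variable (Q : Qv)

theorem CBAct_nn (u : Matrix Q.Var Q.Var ℂ) : Q.gau u none none = 1 := rfl
theorem CBAct_ns (u : Matrix Q.Var Q.Var ℂ) (k : Fin Q.nB) : Q.gau u none (some k) = 0 := rfl
theorem CBAct_sn (u : Matrix Q.Var Q.Var ℂ) (k : Fin Q.nB) : Q.gau u (some k) none = 0 := rfl
theorem CBAct_ss (u : Matrix Q.Var Q.Var ℂ) (k j : Fin Q.nB) :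
    Q.gau u (some k) (some j) = u (Sum.inl k) (Sum.inl j) := rfl

theorem CBAct_lr {u : Matrix Q.Var Q.Var ℂ} (hu : u ∈ Q.KK) (k : Fin Q.nB) (a : Fin Q.nT) :
    u (Sum.inl k) (Sum.inr a) = 0 :=
  hu.2 _ _ (by simp [lab])

theorem CBAct_diag {u : Matrix Q.Var Q.Var ℂ} (hu : u ∈ Q.KK) (v : Matrix Q.Var Q.Var ℂ)
    (a : Fin Q.nT) :
    (u * v) (Sum.inr a) (Sum.inr a) = u (Sum.inr a) (Sum.inr a) * v (Sum.inr a) (Sum.inr a) := by
  rw [Matrix.mul_apply, Finset.sum_eq_single (Sum.inr a)]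
  · intro x _ hx
    rw [hu.2 (Sum.inr a) x, zero_mul]
    rcases x with x | x
    · simp [lab]
    · simpa [lab, eq_comm] using hx
  · simp

theorem CBAct_norm_diag {u : Matrix Q.Var Q.Var ℂ} (hu : u ∈ Q.KK) (a : Fin Q.nT) :
    ‖u (Sum.inr a) (Sum.inr a)‖ = 1 := by
  have h1 := Q.CBAct_diag hu (star u) a
  rw [Matrix.mem_unitaryGroup_iff.1 hu.1, Matrix.one_apply_eq, Matrix.star_apply] at h1
  have h2 := congrArg norm h1
  rw [norm_one, norm_mul, norm_star] at h2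
  have h3 := norm_nonneg (u (Sum.inr a) (Sum.inr a))
  nlinarith

theorem gau_one : Q.gau 1 = 1 := by
  ext a b
  rcases a with _ | a <;> rcases b with _ | b <;>
    simp [CBAct_nn, CBAct_ns, CBAct_sn, CBAct_ss, Matrix.one_apply]
theorem gau_mul {u v : Matrix Q.Var Q.Var ℂ} (hu : u ∈ Q.KK) (hv : v ∈ Q.KK) :
    Q.gau (u * v) = Q.gau u * Q.gau v := by
  have _ := hv
  ext a b
  rw [Matrix.mul_apply, Fintype.sum_option]
  rcases a with _ | a <;> rcases b with _ | b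
  · simp [CBAct_nn, CBAct_ns]
  · simp [CBAct_nn, CBAct_ns]
  · simp [CBAct_sn]
  · simp [CBAct_sn, CBAct_ss, Matrix.mul_apply, Fintype.sum_sum_type, Q.CBAct_lr hu]
theorem gau_star (u : Matrix Q.Var Q.Var ℂ) : Q.gau (star u) = star (Q.gau u) := by
  ext a b
  rcases a with _ | a <;> rcases b with _ | b <;>
    simp [CBAct_nn, CBAct_ns, CBAct_sn, CBAct_ss, Matrix.star_apply]
theorem gau_unitary {u : Matrix Q.Var Q.Var ℂ} (hu : u ∈ Q.KK) :
    Q.gau u ∈ Matrix.unitaryGroup (Option (Fin Q.nB)) ℂ := by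
  rw [Matrix.mem_unitaryGroup_iff', ← gau_star, ← Q.gau_mul ((isGrp_KG Q.lab).star u hu) hu,
    Matrix.mem_unitaryGroup_iff'.1 hu.1, gau_one]
theorem gau_block {u : Matrix Q.Var Q.Var ℂ} (hu : u ∈ Q.KK) {a b : Option (Fin Q.nB)}
    (h : Q.vb a ≠ Q.vb b) : Q.gau u a b = 0 := by
  rcases a with _ | a <;> rcases b with _ | b
  · exact absurd rfl h
  · rfl
  · rfl
  · refine hu.2 _ _ fun e => h ?_
    simpa [lab, vb] using e
theorem continuous_gau : Continuous Q.gau := by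
  refine continuous_pi fun a => continuous_pi fun b => ?_
  rcases a with _ | a <;> rcases b with _ | b
  · exact continuous_const
  · exact continuous_const
  · exact continuous_const
  · exact (continuous_apply (Sum.inl b)).comp (continuous_apply (Sum.inl a))
theorem norm_chi {u : Matrix Q.Var Q.Var ℂ} (hu : u ∈ Q.KK) (h : Fin Q.nA) :
    ‖Q.chi (fun a => u (Sum.inr a) (Sum.inr a)) h‖ = 1 := by
  simp only [chi, norm_prod, norm_zpow, Q.CBAct_norm_diag hu, one_zpow, Finset.prod_const_one]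

theorem CBAct_cont_chi (h : Fin Q.nA) :
    ContinuousOn (fun u : Matrix Q.Var Q.Var ℂ => Q.chi (fun a => u (Sum.inr a) (Sum.inr a)) h)
      Q.KK := by
  unfold chi
  refine continuousOn_finsetProd _ fun a _ => ContinuousOn.zpow₀ ?_ _ fun u hu => Or.inl ?_
  · exact ((continuous_apply (Sum.inr a)).comp (continuous_apply (Sum.inr a))).continuousOn
  · intro (e : u (Sum.inr a) (Sum.inr a) = 0)
    have h1 := Q.CBAct_norm_diag hu a
    rw [e, norm_zero] at h1
    exact zero_ne_one h1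

theorem CBAct_actN (u : Matrix Q.Var Q.Var ℂ) (x : Q.Arr) (h : Fin Q.nA) :
    Q.actN u x h =
      Q.chi (fun a => u (Sum.inr a) (Sum.inr a)) h • (Q.gau u * x h * star (Q.gau u)) := rfl

theorem CBAct_cont_conj {Z : Type} [TopologicalSpace Z] {u : Z → Matrix Q.Var Q.Var ℂ}
    {x : Z → Q.Mat} (hu : Continuous u) (hx : Continuous x) :
    Continuous fun z => Q.gau (u z) * x z * star (Q.gau (u z)) :=
  ((Q.continuous_gau.comp hu).matrix_mul hx).matrix_mul (Q.continuous_gau.comp hu).star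

theorem isAct_N : IsAct Q.KK Q.actN := by
  refine ⟨isGrp_KG _, fun x => funext fun h => ?_, fun u hu v hv x => funext fun h => ?_,
    continuousOn_pi.2 fun h => ?_⟩
  · rw [CBAct_actN, gau_one, star_one, one_mul, mul_one]
    simp [chi]
  · rw [CBAct_actN, CBAct_actN, CBAct_actN, Q.gau_mul hu hv, star_mul]
    simp only [chi, Q.CBAct_diag hu, mul_zpow, Finset.prod_mul_distrib, mul_assoc, mul_smul_comm,
      smul_mul_assoc, smul_smul]
  · exact ((Q.CBAct_cont_chi h).comp continuous_fst.continuousOn fun p hp => hp.1).smul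
      (Q.CBAct_cont_conj continuous_fst
        ((continuous_apply h).comp continuous_snd)).continuousOn
theorem isAct_J : IsAct Q.KK Q.actJ := by
  refine ⟨isGrp_KG _, fun s => funext fun i => Q.isAct_N.one (s i),
    fun u hu v hv s => funext fun i => Q.isAct_N.mul u hu v hv (s i), ?_⟩
  rw [continuousOn_pi]
  intro i
  exact CBAct_cont_comp Q.isAct_N (f := fun s : ℕ → Q.Arr => s i) (continuous_apply i)
theorem isAct_R : IsAct Q.KK Q.actR := by
  refine ⟨isGrp_KG _, fun p => Prod.ext (funext fun k => ?_) (Q.isAct_J.one _),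
    fun u hu v hv p => Prod.ext (funext fun k => ?_) (Q.isAct_J.mul u hu v hv _),
    ContinuousOn.prodMk (continuous_pi fun k => ?_).continuousOn ?_⟩
  · show Q.gau 1 * p.1 k * star (Q.gau 1) = p.1 k
    rw [gau_one, star_one, one_mul, mul_one]
  · show Q.gau (u * v) * p.1 k * star (Q.gau (u * v)) =
      Q.gau u * (Q.gau v * p.1 k * star (Q.gau v)) * star (Q.gau u)
    rw [Q.gau_mul hu hv, star_mul]
    simp only [mul_assoc]
  · exact Q.CBAct_cont_conj continuous_fst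
      ((continuous_apply k).comp (continuous_fst.comp continuous_snd))
  · exact CBAct_cont_comp Q.isAct_J (f := fun p : Q.Tr => p.2) continuous_snd
theorem isAct_RR : IsAct Q.KK Q.actRR := Q.isAct_R.prod Q.isAct_R
theorem isAct_NT : IsAct (TT Q.Var) Q.actN := Q.isAct_N.mono (isGrp_KG _) (TT_subset _)
theorem isAct_JT : IsAct (TT Q.Var) Q.actJ := Q.isAct_J.mono (isGrp_KG _) (TT_subset _)
theorem isAct_RT : IsAct (TT Q.Var) Q.actR := Q.isAct_R.mono (isGrp_KG _) (TT_subset _)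
theorem isAct_RRT : IsAct (TT Q.Var) Q.actRR := Q.isAct_RR.mono (isGrp_KG _) (TT_subset _)
theorem actN_zero (u : Matrix Q.Var Q.Var ℂ) : Q.actN u 0 = 0 := by
  funext h
  rw [CBAct_actN, Pi.zero_apply, mul_zero, zero_mul, smul_zero]
theorem actN_sub (u : Matrix Q.Var Q.Var ℂ) (x y : Q.Arr) :
    Q.actN u (x - y) = Q.actN u x - Q.actN u y := by
  funext h
  rw [Pi.sub_apply, CBAct_actN, CBAct_actN, CBAct_actN, Pi.sub_apply, mul_sub, sub_mul, smul_sub]

theorem CBAct_actN_add (u : Matrix Q.Var Q.Var ℂ) (x y : Q.Arr) :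
    Q.actN u (x + y) = Q.actN u x + Q.actN u y := by
  funext h
  rw [Pi.add_apply, CBAct_actN, CBAct_actN, CBAct_actN, Pi.add_apply, mul_add, add_mul, smul_add]

theorem CBAct_actN_smul (u : Matrix Q.Var Q.Var ℂ) (c : ℂ) (x : Q.Arr) :
    Q.actN u (c • x) = c • Q.actN u x := by
  funext h
  rw [Pi.smul_apply, CBAct_actN, CBAct_actN, Pi.smul_apply, mul_smul_comm, smul_mul_assoc,
    smul_comm]

/-- Products with block diagonal matrices preserve `N`. -/
theorem mul_mem_NN {x : Q.Arr} (hx : x ∈ Q.NN) {g g' : Q.Mat}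
    (hg : ∀ a b, Q.vb a ≠ Q.vb b → g a b = 0) (hg' : ∀ a b, Q.vb a ≠ Q.vb b → g' a b = 0) :
    (fun h => g * x h * g') ∈ Q.NN := by
  intro h a b (hab : (g * x h * g') a b ≠ 0)
  rw [Matrix.mul_apply] at hab
  obtain ⟨e, -, he⟩ := Finset.exists_ne_zero_of_sum_ne_zero hab
  have h1 := left_ne_zero_of_mul he
  rw [Matrix.mul_apply] at h1
  obtain ⟨c, -, hc⟩ := Finset.exists_ne_zero_of_sum_ne_zero h1
  obtain ⟨h2, h3⟩ := hx h c e (right_ne_zero_of_mul hc)
  have h4 : Q.vb a = Q.vb c := by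
    by_contra hne
    exact left_ne_zero_of_mul hc (hg a c hne)
  have h5 : Q.vb e = Q.vb b := by
    by_contra hne
    exact right_ne_zero_of_mul he (hg' e b hne)
  exact ⟨h4.trans h2, h5.symm.trans h3⟩

theorem CBAct_gau_off {u : Matrix Q.Var Q.Var ℂ} (hu : u ∈ TT Q.Var) {a b : Option (Fin Q.nB)}
    (h : a ≠ b) : Q.gau u a b = 0 := by
  rcases a with _ | a <;> rcases b with _ | b
  · exact absurd rfl h
  · rfl
  · rfl
  · exact hu.2 _ _ fun e => h (congrArg some (Sum.inl_injective e))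

theorem CBAct_gau_norm {u : Matrix Q.Var Q.Var ℂ} (hu : u ∈ TT Q.Var) (a : Option (Fin Q.nB)) :
    ‖Q.gau u a a‖ = 1 := by
  rcases a with _ | a
  · exact norm_one
  · exact Top_norm_diag hu _

theorem CBAct_prod_ind (u : Matrix Q.Var Q.Var ℂ) (a : Option (Fin Q.nB)) :
    ∏ k, u (Sum.inl k) (Sum.inl k) ^ (if a = some k then (1 : ℤ) else 0) = Q.gau u a a := by
  rcases a with _ | a
  · simp [CBAct_nn]
  · rw [Finset.prod_eq_single a]
    · simp [CBAct_ss]
    · intro k _ hk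
      rw [if_neg (fun e => hk (Option.some_injective _ e).symm), zpow_zero]
    · simp

theorem actN_T {u : Matrix Q.Var Q.Var ℂ} (hu : u ∈ TT Q.Var) (x : Q.Arr) (h : Fin Q.nA)
    (a b : Option (Fin Q.nB)) : Q.actN u x h a b = chr (Q.chP (h, a, b)) u * x h a b := by
  have h1 : (Q.gau u * x h * star (Q.gau u)) a b =
      Q.gau u a a * x h a b * star (Q.gau u b b) := by
    rw [Matrix.mul_apply, Finset.sum_eq_single b, Matrix.mul_apply, Finset.sum_eq_single a,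
      Matrix.star_apply]
    · intro c _ hc
      rw [Q.CBAct_gau_off hu hc.symm, zero_mul]
    · simp
    · intro c _ hc
      rw [Matrix.star_apply, Q.CBAct_gau_off hu hc.symm, star_zero, mul_zero]
    · simp
  have h2 : chr (Q.chP (h, a, b)) u = Q.gau u a a / Q.gau u b b *
      Q.chi (fun a => u (Sum.inr a) (Sum.inr a)) h := by
    rw [chr, Fintype.prod_sum_type, ← CBAct_prod_ind, ← CBAct_prod_ind, ← Finset.prod_div_distrib]
    congr 1
    exact Finset.prod_congr rfl fun k _ => zpow_sub₀ (Top_diag_ne hu _) _ _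
  have h3 : star (Q.gau u b b) = (Q.gau u b b)⁻¹ :=
    (inv_eq_of_mul_eq_one_right (Line_mul_star (Q.CBAct_gau_norm hu b))).symm
  rw [CBAct_actN, Matrix.smul_apply, smul_eq_mul, h1, h2, h3, div_eq_mul_inv]
  ring
theorem invX_NN : InvX Q.KK Q.actN Q.NN := by
  intro u hu x hx h a b hab
  rw [CBAct_actN, Matrix.smul_apply, smul_eq_mul] at hab
  refine Q.mul_mem_NN hx (fun a b => Q.gau_block hu) (fun a b hab => ?_) h a b
    (right_ne_zero_of_mul hab)
  rw [Matrix.star_apply, Q.gau_block hu hab.symm, star_zero]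
theorem invX_Jet (d : ℕ) : InvX Q.KK Q.actJ (Q.Jet d) := by
  intro u hu s hs
  refine ⟨fun i => Q.invX_NN u hu _ (hs.1 i), fun i hi => ?_⟩
  show Q.actN u (s i) = 0
  rw [hs.2 i hi, actN_zero]

theorem CBAct_mem_WI {p : Q.Ps} :
    p ∈ Q.WI ↔ Q.vb p.2.1 = Q.tgt p.1 ∧ Q.vb p.2.2 = Q.src p.1 := by
  simp [WI]

theorem CBAct_mem_NN {x : Q.Arr} : x ∈ Q.NN ↔ ∀ h a b, (h, a, b) ∉ Q.WI → x h a b = 0 := by
  refine forall_congr' fun h => forall_congr' fun a => forall_congr' fun b => ?_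
  rw [CBAct_mem_WI]
  exact not_imp_comm

theorem CBAct_cont_entry (h : Fin Q.nA) (a b : Option (Fin Q.nB)) :
    Continuous fun x : Q.Arr => x h a b :=
  (continuous_apply b).comp ((continuous_apply a).comp (continuous_apply h))

theorem isClosed_NN : IsClosed Q.NN := by
  have h : Q.NN = ⋂ h, ⋂ a, ⋂ b, ⋂ (_ : (h, a, b) ∉ Q.WI), {x : Q.Arr | x h a b = 0} := by
    ext x
    simp only [CBAct_mem_NN, mem_iInter, mem_ofPred_eq]
  rw [h]
  exact isClosed_iInter fun h => isClosed_iInter fun a => isClosed_iInter fun b =>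
    isClosed_iInter fun _ => isClosed_eq (Q.CBAct_cont_entry h a b) continuous_const
theorem isClosed_Jet (d : ℕ) : IsClosed (Q.Jet d) := by
  have h : Q.Jet d = (⋂ i, (fun s : ℕ → Q.Arr => s i) ⁻¹' Q.NN) ∩
      ⋂ i, ⋂ (_ : d ≤ i), {s : ℕ → Q.Arr | s i = 0} := by
    ext s
    simp only [Jet, mem_inter_iff, mem_iInter, mem_ofPred_eq, mem_preimage]
  rw [h]
  exact (isClosed_iInter fun i => Q.isClosed_NN.preimage (continuous_apply i)).inter
    (isClosed_iInter fun i => isClosed_iInter fun _ =>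
      isClosed_eq (continuous_apply i) continuous_const)

/-- The point of `N` with given coordinates. -/
def CBAct_gN (v : ↥Q.WI → ℂ) : Q.Arr := fun h a b =>
  if hp : (h, a, b) ∈ Q.WI then v ⟨_, hp⟩ else 0

/-- The jet with given coordinates. -/
def CBAct_gJ (d : ℕ) (v : ↥(Q.WI ×ˢ Finset.range d) → ℂ) : ℕ → Q.Arr := fun i h a b =>
  if hp : ((h, a, b), i) ∈ Q.WI ×ˢ Finset.range d then v ⟨_, hp⟩ else 0

theorem CBAct_cont_coN : Continuous Q.coN :=
  continuous_pi fun p => Q.CBAct_cont_entry p.1.1 p.1.2.1 p.1.2.2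

theorem CBAct_cont_coJ (d : ℕ) : Continuous (Q.coJ d) :=
  continuous_pi fun q =>
    (Q.CBAct_cont_entry q.1.1.1 q.1.1.2.1 q.1.1.2.2).comp (continuous_apply q.1.2)

theorem CBAct_cont_gN : Continuous Q.CBAct_gN := by
  refine continuous_pi fun h => continuous_pi fun a => continuous_pi fun b => ?_
  unfold CBAct_gN
  split_ifs with hp
  · exact continuous_apply _
  · exact continuous_const

theorem CBAct_homeo_N : HomeoOn Q.coN Q.CBAct_gN Q.NN univ := by
  refine ⟨Q.CBAct_cont_coN.continuousOn, Q.CBAct_cont_gN.continuousOn, fun _ _ => mem_univ _,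
    fun v _ => Q.CBAct_mem_NN.2 fun h a b hp => dif_neg hp, fun x hx => ?_, fun v _ => ?_⟩
  · funext h a b
    unfold CBAct_gN
    split_ifs with hp
    · rfl
    · exact (Q.CBAct_mem_NN.1 hx h a b hp).symm
  · funext p
    exact dif_pos p.2

theorem CBAct_homeo_J (d : ℕ) : HomeoOn (Q.coJ d) (Q.CBAct_gJ d) (Q.Jet d) univ := by
  refine ⟨(Q.CBAct_cont_coJ d).continuousOn, Continuous.continuousOn ?_, fun _ _ => mem_univ _,
    fun v _ => ⟨fun i => Q.CBAct_mem_NN.2 fun h a b hp =>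
      dif_neg fun hq => hp (Finset.mem_product.1 hq).1, fun i hi => ?_⟩, fun s hs => ?_,
    fun v _ => ?_⟩
  · refine continuous_pi fun i => continuous_pi fun h => continuous_pi fun a =>
      continuous_pi fun b => ?_
    unfold CBAct_gJ
    split_ifs with hp
    · exact continuous_apply _
    · exact continuous_const
  · funext h a b
    exact dif_neg fun hq => absurd (Finset.mem_range.1 (Finset.mem_product.1 hq).2) (not_lt.2 hi)
  · funext i h a b
    unfold CBAct_gJ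
    split_ifs with hp
    · rfl
    · by_cases hi : i < d
      · exact (Q.CBAct_mem_NN.1 (hs.1 i) h a b fun hw =>
          hp (Finset.mem_product.2 ⟨hw, Finset.mem_range.2 hi⟩)).symm
      · rw [hs.2 i (not_lt.1 hi)]
        rfl
  · funext q
    exact dif_pos q.2

theorem lc_Jet (d : ℕ) : LC (Q.Jet d) := LC.of_homeoOn (Q.CBAct_homeo_J d) LC.univ
theorem cd_N : Cd Q.lab Q.KK Q.actN Q.NN Q.coN :=
  ⟨Q.isAct_N, subset_rfl, Q.invX_NN, _, Q.CBAct_homeo_N⟩
theorem isCoord_N : IsCoord (TT Q.Var) Q.actN Q.NN Q.coN fun p => Q.chP p.1 :=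
  ⟨Q.CBAct_cont_coN.continuousOn, fun _ hu x _ p => Q.actN_T hu x p.1.1 p.1.2.1 p.1.2.2⟩
theorem exists_isMod_N : ∃ ρ, IsMod Q.lab ρ (fun p : ↥Q.WI => Q.chP p.1) ∧
    ∀ u ∈ Q.KK, ∀ x ∈ Q.NN, Q.coN (Q.actN u x) = ρ u (Q.coN x) := by
  have hg := Q.CBAct_homeo_N
  have hm : ∀ v, Q.CBAct_gN v ∈ Q.NN := fun v => hg.2.2.2.1 (mem_univ v)
  have hr : ∀ v, Q.coN (Q.CBAct_gN v) = v := fun v => hg.2.2.2.2.2 v (mem_univ v)
  refine ⟨fun u v => Q.coN (Q.actN u (Q.CBAct_gN v)), ⟨⟨isGrp_KG _, fun v => ?_,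
    fun u hu v hv x => ?_, ?_⟩, fun u _ => ⟨fun v w => ?_, fun c v => ?_⟩, fun u hu v p => ?_⟩,
    fun u _ x hx => ?_⟩
  · rw [Q.isAct_N.one, hr]
  · rw [Q.isAct_N.mul u hu v hv, hg.2.2.2.2.1 _ (Q.invX_NN v hv _ (hm x))]
  · exact Q.CBAct_cont_coN.comp_continuousOn (CBAct_cont_comp Q.isAct_N Q.CBAct_cont_gN)
  · have h1 : Q.CBAct_gN (v + w) = Q.CBAct_gN v + Q.CBAct_gN w := by
      funext h a b
      show Q.CBAct_gN (v + w) h a b = Q.CBAct_gN v h a b + Q.CBAct_gN w h a b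
      unfold CBAct_gN
      split_ifs
      · rfl
      · exact (add_zero _).symm
    rw [h1, CBAct_actN_add]
    rfl
  · have h1 : Q.CBAct_gN (c • v) = c • Q.CBAct_gN v := by
      funext h a b
      show Q.CBAct_gN (c • v) h a b = c * Q.CBAct_gN v h a b
      unfold CBAct_gN
      split_ifs
      · rfl
      · exact (mul_zero _).symm
    rw [h1, CBAct_actN_smul]
    rfl
  · have h1 := Q.isCoord_N.2 u hu _ (hm v) p
    rwa [hr] at h1
  · show _ = Q.coN (Q.actN u (Q.CBAct_gN (Q.coN x)))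
    rw [hg.2.2.2.2.1 x hx]
theorem cd_J (d : ℕ) : Cd Q.lab Q.KK Q.actJ (Q.Jet d) (Q.coJ d) :=
  ⟨Q.isAct_J, subset_rfl, Q.invX_Jet d, _, Q.CBAct_homeo_J d⟩
theorem isCoord_J (d : ℕ) :
    IsCoord (TT Q.Var) Q.actJ (Q.Jet d) (Q.coJ d) (Q.chQ (Q.WI ×ˢ Finset.range d)) :=
  ⟨(Q.CBAct_cont_coJ d).continuousOn,
    fun _ hu s _ q => Q.actN_T hu (s q.1.2) q.1.1.1 q.1.1.2.1 q.1.1.2.2⟩
theorem isCoord_P (S : Set Q.Tr) (J : Finset (Q.Ps × ℕ)) :
    IsCoord (TT Q.Var) Q.actR S (Q.coP J) (Q.chQ J) :=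
  ⟨(continuous_pi fun q : ↥J => (Q.CBAct_cont_entry q.1.1.1 q.1.1.2.1 q.1.1.2.2).comp
      ((continuous_apply q.1.2).comp continuous_snd)).continuousOn,
    fun _ hu p _ q => Q.actN_T hu (p.2 q.1.2) q.1.1.1 q.1.1.2.1 q.1.1.2.2⟩
theorem nrm_act (d : ℕ) {u : Matrix Q.Var Q.Var ℂ} (hu : u ∈ Q.KK) (s : ℕ → Q.Arr) :
    Q.nrm d (Q.actJ u s) = Q.nrm d s :=
  Finset.sum_congr rfl fun i _ => Finset.sum_congr rfl fun h _ =>
    CBAct_frob_conj (Q.gau_unitary hu) (Q.norm_chi hu h) (s i h)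
theorem continuous_nrm (d : ℕ) : Continuous (Q.nrm d) :=
  continuous_finsetSum _ fun i _ => continuous_finsetSum _ fun h _ =>
    continuous_finsetSum _ fun k _ => continuous_finsetSum _ fun l _ =>
      ((Q.CBAct_cont_entry h k l).comp (continuous_apply i)).norm.pow 2
theorem em_evJ (d i : ℕ) : EM Q.lab Q.KK Q.actJ (Q.Jet d) Q.KK Q.actN Q.NN fun s => s i :=
  ⟨Q.isAct_J, Q.isAct_N, subset_rfl, subset_rfl, Q.invX_Jet d, Q.invX_NN, fun _ _ _ _ => rfl,
    (continuous_apply i).continuousOn, fun _ hs => hs.1 i⟩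

theorem CBAct_zero_mem_NN : (0 : Q.Arr) ∈ Q.NN := Q.CBAct_mem_NN.2 fun _ _ _ _ => rfl

theorem CBAct_cont_trunc (d : ℕ) :
    Continuous fun (s : ℕ → Q.Arr) (i : ℕ) => if i < d then s i else 0 := by
  refine continuous_pi fun i => ?_
  split_ifs
  · exact continuous_apply i
  · exact continuous_const

theorem CBAct_trunc_mem (d : ℕ) {s : ℕ → Q.Arr} (hs : ∀ i, s i ∈ Q.NN) :
    (fun i => if i < d then s i else 0) ∈ Q.Jet d := by
  refine ⟨fun i => ?_, fun i hi => if_neg (not_lt.2 hi)⟩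
  show (if i < d then s i else 0) ∈ Q.NN
  split_ifs
  · exact hs i
  · exact Q.CBAct_zero_mem_NN

theorem em_truncJ (d : ℕ) : EM Q.lab Q.KK Q.actJ (Q.Jet (d + 1)) Q.KK Q.actJ (Q.Jet d)
    fun s i => if i < d then s i else 0 := by
  refine ⟨Q.isAct_J, Q.isAct_J, subset_rfl, subset_rfl, Q.invX_Jet _, Q.invX_Jet _,
    fun u _ s _ => funext fun i => ?_, (Q.CBAct_cont_trunc d).continuousOn,
    fun s hs => Q.CBAct_trunc_mem d hs.1⟩
  show (if i < d then Q.actN u (s i) else 0) = Q.actN u (if i < d then s i else 0)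
  split_ifs
  · rfl
  · exact (Q.actN_zero u).symm
theorem homeo_Jet (d : ℕ) : ∃ g, HomeoOn
    (fun s : ℕ → Q.Arr => ((fun i => if i < d then s i else 0 : ℕ → Q.Arr), s d)) g
    (Q.Jet (d + 1)) (Q.Jet d ×ˢ Q.NN) := by
  refine ⟨fun p i => if i = d then p.2 else p.1 i,
    ((Q.CBAct_cont_trunc d).prodMk (continuous_apply d)).continuousOn,
    (continuous_pi fun i => ?_).continuousOn,
    fun s hs => ⟨Q.CBAct_trunc_mem d hs.1, hs.1 d⟩, fun p hp => ⟨fun i => ?_, fun i hi => ?_⟩,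
    fun s hs => funext fun i => ?_, fun p hp => Prod.ext (funext fun i => ?_) (if_pos rfl)⟩
  · split_ifs
    · exact continuous_snd
    · exact (continuous_apply i).comp continuous_fst
  · show (if i = d then p.2 else p.1 i) ∈ Q.NN
    split_ifs
    · exact hp.2
    · exact hp.1.1 i
  · show (if i = d then p.2 else p.1 i) = 0
    rw [if_neg (by omega)]
    exact hp.1.2 i (by omega)
  · show (if i = d then s d else if i < d then s i else 0) = s i
    split_ifs with h1 h2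
    · rw [h1]
    · rfl
    · exact (hs.2 i (by omega)).symm
  · show (if i < d then (if i = d then p.2 else p.1 i) else 0) = p.1 i
    split_ifs with h1 h2
    · omega
    · rfl
    · exact (hp.1.2 i (by omega)).symm

/-- Positions of `d + 1`-jets. -/
def CBAct_succ (d : ℕ) :
    ↥(Q.WI ×ˢ Finset.range (d + 1)) ≃ ↥(Q.WI ×ˢ Finset.range d) ⊕ ↥Q.WI where
  toFun q := if h : q.1.2 < d then
      Sum.inl ⟨q.1, Finset.mem_product.2 ⟨(Finset.mem_product.1 q.2).1, Finset.mem_range.2 h⟩⟩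
    else Sum.inr ⟨q.1.1, (Finset.mem_product.1 q.2).1⟩
  invFun := Sum.elim
    (fun q => ⟨q.1, Finset.mem_product.2 ⟨(Finset.mem_product.1 q.2).1, Finset.mem_range.2
      (Nat.lt_succ_of_lt (Finset.mem_range.1 (Finset.mem_product.1 q.2).2))⟩⟩)
    fun p => ⟨(p.1, d), Finset.mem_product.2 ⟨p.2, Finset.mem_range.2 (Nat.lt_succ_self d)⟩⟩
  left_inv q := by
    have h1 := Finset.mem_range.1 (Finset.mem_product.1 q.2).2
    dsimp only
    split_ifs with h
    · rfl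
    · exact Subtype.ext (Prod.ext rfl (by show d = q.1.2; omega))
  right_inv q := by
    rcases q with q | q
    · exact dif_pos (Finset.mem_range.1 (Finset.mem_product.1 q.2).2)
    · exact dif_neg (lt_irrefl d)

theorem exists_coJ_succ (d : ℕ) :
    ∃ A : (↥(Q.WI ×ˢ Finset.range d) ⊕ ↥Q.WI → ℂ) ≃ₗ[ℂ] (↥(Q.WI ×ˢ Finset.range (d + 1)) → ℂ),
      ∀ s, Q.coJ (d + 1) s =
        A (Sum.elim (Q.coJ d fun i => if i < d then s i else 0) (Q.coN (s d))) := by
  refine ⟨LinearEquiv.funCongrLeft ℂ ℂ (Q.CBAct_succ d), fun s => funext fun q => ?_⟩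
  have h1 := Finset.mem_range.1 (Finset.mem_product.1 q.2).2
  show Q.coJ (d + 1) s q =
    Sum.elim (Q.coJ d fun i => if i < d then s i else 0) (Q.coN (s d)) (Q.CBAct_succ d q)
  by_cases h : q.1.2 < d
  · have e : Q.CBAct_succ d q = Sum.inl ⟨q.1, Finset.mem_product.2
        ⟨(Finset.mem_product.1 q.2).1, Finset.mem_range.2 h⟩⟩ := dif_pos h
    rw [e, Sum.elim_inl]
    show s q.1.2 q.1.1.1 q.1.1.2.1 q.1.1.2.2 =
      (if q.1.2 < d then s q.1.2 else 0) q.1.1.1 q.1.1.2.1 q.1.1.2.2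
    rw [if_pos h]
  · have e : Q.CBAct_succ d q = Sum.inr ⟨q.1.1, (Finset.mem_product.1 q.2).1⟩ := dif_neg h
    rw [e, Sum.elim_inr]
    show s q.1.2 q.1.1.1 q.1.1.2.1 q.1.1.2.2 = s d q.1.1.1 q.1.1.2.1 q.1.1.2.2
    rw [show q.1.2 = d by omega]
theorem em_fst {L : Set (Matrix Q.Var Q.Var ℂ)} (hL : IsGrp L) (hs : L ⊆ Q.KK) {S₁ S₂ : Set Q.Tr}
    (h₁ : InvX L Q.actR S₁) (h₂ : InvX L Q.actR S₂) :
    EM Q.lab L Q.actRR (S₁ ×ˢ S₂) L Q.actR S₁ Prod.fst :=
  ⟨Q.isAct_RR.mono hL hs, Q.isAct_R.mono hL hs, subset_rfl, hs,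
    fun u hu _ hp => ⟨h₁ u hu _ hp.1, h₂ u hu _ hp.2⟩, h₁, fun _ _ _ _ => rfl,
    continuous_fst.continuousOn, fun _ hp => hp.1⟩
theorem em_snd {L : Set (Matrix Q.Var Q.Var ℂ)} (hL : IsGrp L) (hs : L ⊆ Q.KK) {S₁ S₂ : Set Q.Tr}
    (h₁ : InvX L Q.actR S₁) (h₂ : InvX L Q.actR S₂) :
    EM Q.lab L Q.actRR (S₁ ×ˢ S₂) L Q.actR S₂ Prod.snd :=
  ⟨Q.isAct_RR.mono hL hs, Q.isAct_R.mono hL hs, subset_rfl, hs,
    fun u hu _ hp => ⟨h₁ u hu _ hp.1, h₂ u hu _ hp.2⟩, h₂, fun _ _ _ _ => rfl,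
    continuous_snd.continuousOn, fun _ hp => hp.2⟩

end Qv

end Pool.Agent.HK
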