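import Pool.Agent.P.MP_1206ce_ag.CB.EM

/-! Sets of frames with cohomology generated by characteristic classes. -/

open scoped Topology
open Filter Set

noncomputable section

namespace Pool.Agent.HK

variable {V Λ Λ₀ X : Type} [Fintype V] [DecidableEq V] [TopologicalSpace X] {lab : V → Λ}
  {lab₀ : V → Λ₀} {E E' : Set (Fr V)}

theorem CBGenF_fin {Y ι : Type} [TopologicalSpace Y] [Fintype ι] {S : Set Y} {w : ι → Coch Y}
    (h : IsBasisOn S w) : FiniteDimensional ℂ (Hc S) := by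
  refine Module.Finite.of_surjective (Fintype.linearCombination ℂ fun i => clc S (w i)) fun x => ?_
  obtain ⟨z, hz⟩ := h.2.2 x
  exact ⟨z, by rw [Fintype.linearCombination_apply]; exact hz⟩

theorem CBGenF_gen {ι : Type} [Fintype ι] (hC : IsCompact E) {n : ℕ}
    (hI : E ⊆ Inj (id : V → V) n) {x : ι → MvPolynomial V ℂ}
    (hb : IsBasisOn (BS (TT V) ptAct univ E) fun i => polyC (x i)) (k : ℤ) (w : Coch (BT V))
    (hw : w ∈ ZZ ⊥ (BS (TT V) ptAct univ E)) (hk : HomC k w) :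
    ∃ p : MvPolynomial V ℂ, (p = 0 ∨ ∃ d : ℕ, k = 2 * (d : ℤ) ∧ p.IsHomogeneous d) ∧
      w - polyC p ∈ BB ⊥ (BS (TT V) ptAct univ E) := by
  obtain ⟨z, hz⟩ := (Proj_basis_iff.1 hb).2.2 (clc _ w)
  rw [Proj_clc_sum hC hI, eq_comm, cls_eq_iff (ZZ_cc_eq_bot (Proj_compact_BS hC) ▸ hw)
    (Proj_polyC_ZZ hC hI _), BB_cc_eq_bot (Proj_compact_BS hC)] at hz
  have h1 := prC_mem_BB k hz
  rw [Basic_prC_sub, hk.prC_self] at h1
  by_cases hneg : k < 0
  · refine ⟨0, Or.inl rfl, ?_⟩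
    rw [hk.eq_zero hw.1.1.1 hneg, map_zero, sub_zero]
    exact zero_mem _
  · rcases Int.even_or_odd k with ⟨d, hd⟩ | hodd
    · obtain ⟨d, rfl⟩ := Int.eq_ofNat_of_zero_le (a := d) (by omega)
      obtain rfl : k = 2 * (d : ℤ) := by omega
      rw [prC_polyC] at h1
      exact ⟨_, Or.inr ⟨d, rfl, MvPolynomial.homogeneousComponent_isHomogeneous d _⟩, h1⟩
    · rw [prC_polyC_odd _ hodd] at h1
      exact ⟨0, Or.inl rfl, by rwa [map_zero]⟩

theorem genF_St (lab₀ : V → Λ₀) (n : ℕ) : GenF lab₀ (St lab₀ n) := by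
  have hb := isBasisOn_StE lab₀ n (fun _ => Proj_FN n) fun _ _ hv => hv
  rw [← Proj_St_eq] at hb
  exact ⟨⟨⟨n, Subset.rfl⟩, isCompact_St lab₀ n, invF_St Subset.rfl n⟩,
    fun _ _ hw hk => polyC_surj lab₀ n hw hk, CBGenF_fin hb⟩
theorem mem_orb (lab₀ : V → Λ₀) (e : Fr V) : e ∈ orb lab₀ e :=
  ⟨1, (isGrp_KG lab₀).one, (frAct_one e).symm⟩
theorem orb_subset {n : ℕ} {e : Fr V} (he : e ∈ St lab₀ n) : orb lab₀ e ⊆ St lab₀ n := by
  rintro _ ⟨u, hu, rfl⟩
  exact invF_St Subset.rfl n u hu e he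

theorem CBGenF_frOK_orb {n : ℕ} {e : Fr V} (he : e ∈ St lab₀ n) : FrOK lab₀ (orb lab₀ e) := by
  refine ⟨⟨n, orb_subset he⟩, Proj_orbit_compact lab₀ e, ?_⟩
  rintro u hu _ ⟨v, hv, rfl⟩
  exact ⟨u * v, (isGrp_KG lab₀).mul u hu v hv, (frAct_mul u v e).symm⟩

theorem genF_orb {n : ℕ} {e : Fr V} (he : e ∈ St lab₀ n) : GenF lab₀ (orb lab₀ e) := by
  have hb := isBasisOn_orbit lab₀ (St_subset_Inj lab₀ n he)
  exact ⟨CBGenF_frOK_orb he, CBGenF_gen (Proj_orbit_compact lab₀ e)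
    ((orb_subset he).trans ((St_subset_Inj lab₀ n).trans (Inj_subset_id lab₀ n))) hb,
    CBGenF_fin hb⟩

theorem CBGenF_inv (hE : FrOK lab₀ E) (hr : Refines lab lab₀) : InvF (KG lab) E :=
  fun u hu => hE.inv u (KG_mono hr hu)

/-- Averaging over the Weyl group. -/
theorem GenF.ch_surj (hE : GenF lab₀ E) (hr : Refines lab lab₀) {n : ℕ} (hn : E ⊆ St lab₀ n)
    {k : ℤ} {w : Coch (Bor (KG lab) (ptAct (V := V)))} (hw : w ∈ ZZ ⊥ (BS (KG lab) ptAct univ E))
    (hk : HomC k w) : ∃ h ∈ Rinv lab, (h = 0 ∨ ∃ d : ℕ, k = 2 * (d : ℤ) ∧ h.IsHomogeneous d) ∧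
      w - chC lab h n ∈ BB ⊥ (BS (KG lab) ptAct univ E) := by
  have hs := hn.trans (Ch_St_sub hr n)
  have hi := CBGenF_inv hE.ok hr
  obtain ⟨p, hp, hb⟩ := hE.gen k _ (Ch_pi_ZZ lab hw) (hk.pb _)
  have h2 := Ch_avg (ι := Unit) hi (hs.trans (Inj_subset_id lab n)) ∅
    (b := fun _ => 0) (fun _ _ => zero_mem _) (fun _ => 0) (a := w) (h := -p)
    (by rw [Finset.sum_empty, sub_zero, map_neg, ← sub_eq_add_neg]; exact hb)
  rw [Finset.sum_empty, sub_zero, map_neg, map_neg, ← sub_eq_add_neg] at h2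
  have h3 := Submodule.smul_mem _ ((Wl lab).card : ℂ)⁻¹ h2
  rw [smul_sub, smul_smul, inv_mul_cancel₀ (card_Wl_ne_zero lab), one_smul, ← map_smul] at h3
  have hh : ((Wl lab).card : ℂ)⁻¹ • Sym lab p ∈ Rinv lab :=
    Subalgebra.smul_mem _ (Sym_mem_Rinv lab p) _
  refine ⟨_, hh, ?_, Ch_lh_inj hi hE.ok.cpt hs
    (sub_mem hw (Ch_ZZ_mono (Ch_BS_mono hs) (chC_spec hh n).1)) ?_⟩
  · rcases hp with rfl | ⟨d, hd, hp⟩
    · left
      rw [map_zero, smul_zero]
    · right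
      refine ⟨d, hd, ?_⟩
      rw [MvPolynomial.smul_eq_C_mul]
      exact (Sym_isHomogeneous lab hp).C_mul _
  · have h4 := sub_mem h3 (VB_BB_mono (Ch_BS_mono hs) (chC_spec hh n).2)
    rwa [sub_sub_sub_cancel_right, ← pb_sub] at h4
theorem GenF.pt_even (hE : GenF lab₀ E) (hr : Refines lab lab₀) {k : ℤ} (hk : Odd k)
    (x : Hc (BS (KG lab) (ptAct (V := V)) univ E)) : prH _ _ k x = 0 := by
  obtain ⟨n, hn⟩ := hE.ok.sub
  obtain ⟨c, hc, rfl⟩ := cls_surj x
  have hA := Ch_compact_BS (L := KG lab) hE.ok.cpt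
  rw [prH_cls k hc, cls_eq_zero_iff (prC_mem_ZZ k hc), BB_cc_eq_bot hA]
  obtain ⟨h, -, hd, hb⟩ := hE.ch_surj hr hn (ZZ_cc_le_bot _ (prC_mem_ZZ k hc)) (HomC.prC k c)
  rcases hd with rfl | ⟨d, hd, -⟩
  · rwa [chC_zero, sub_zero] at hb
  · obtain ⟨j, hj⟩ := hk
    omega
theorem GenF.pt_fin (hE : GenF lab₀ E) (hr : Refines lab lab₀) :
    FiniteDimensional ℂ (Hc (BS (KG lab) (ptAct (V := V)) univ E)) := by
  obtain ⟨n, hn⟩ := hE.ok.sub
  have hf := hE.fin
  have hi := tw_toK_injective (Ch_actK lab) (P := univ ×ˢ E)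
    (Inv.prod (fun _ _ _ _ => mem_univ _) (CBGenF_inv hE.ok hr))
    (LC.of_isCompact (isCompact_univ.prod hE.ok.cpt)) (n := n)
    fun p hp => Ch_St_sub hr n (hn hp.2)
  rw [BS_eq] at hf ⊢
  exact FiniteDimensional.of_injective _ hi
theorem GenF.pt_onto (hE : GenF lab₀ E) (hE' : GenF lab₀ E') (hs : E' ⊆ E)
    (hr : Refines lab lab₀) : Function.Surjective
      (res (BS (KG lab) (ptAct (V := V)) univ E) (BS (KG lab) ptAct univ E')) := by
  obtain ⟨n, hn⟩ := hE.ok.sub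
  have hA := Ch_compact_BS (L := KG lab) hE.ok.cpt
  have hA' := Ch_compact_BS (L := KG lab) hE'.ok.cpt
  have := (Ch_actK lab).nice
  have hp : ProperOn id (BS (KG lab) (ptAct (V := V)) univ E') (BS (KG lab) ptAct univ E) :=
    ProperOn.of_isCompact hA' continuousOn_id (Ch_BS_mono hs)
  intro y
  rw [← LinearMap.mem_range]
  obtain ⟨N, hN⟩ := sum_prH y
  rw [hN N le_rfl]
  refine sum_mem fun k _ => ?_
  obtain ⟨c, hc, rfl⟩ := cls_surj y
  obtain ⟨h, hh, -, hb⟩ := hE'.ch_surj hr (hs.trans hn) (ZZ_cc_le_bot _ (prC_mem_ZZ k hc))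
    (HomC.prC k c)
  have hz : chC lab h n ∈ ZZ ⊥ (BS (KG lab) (ptAct (V := V)) univ E) :=
    Ch_ZZ_mono (Ch_BS_mono (hn.trans (Ch_St_sub hr n))) (chC_spec hh n).1
  have hz' : chC lab h n ∈ ZZ (cc (BS (KG lab) (ptAct (V := V)) univ E'))
      (BS (KG lab) (ptAct (V := V)) univ E') := by
    rw [ZZ_cc_eq_bot hA']
    exact Ch_ZZ_mono (Ch_BS_mono hs) hz
  refine ⟨clc _ (chC lab h n), ?_⟩
  rw [tw_cls (hp.twOK (one_mem_ZZ _)) (by rwa [ZZ_cc_eq_bot hA]), pb_id,
    cup_one (Ch_bdd hz).1, prH_cls _ hc, eq_comm, cls_eq_iff (prC_mem_ZZ _ hc) hz',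
    BB_cc_eq_bot hA']
  exact hb
/-- The Borel quotient over an orbit of frames is the space itself. -/
theorem fib_bijective [Nice X] {act : Matrix V V ℂ → X → X} (h : IsAct (KG lab₀) act) {A : Set X}
    (hA : InvX (KG lab₀) act A) (hl : LC A) {n : ℕ} {e : Fr V} (he : e ∈ St lab₀ n) :
    Function.Bijective
      (tw (BS (KG lab₀) act A (orb lab₀ e)) A (fib (KG lab₀) act e) one) := by
  have := h.nice
  have hE := CBGenF_frOK_orb he
  have hp := hE.proper_fib h Subset.rfl hA (mem_orb lab₀ e)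
  refine ProperOn.tw_bijective (hE.lc_BS h Subset.rfl hA hl) hp
    ⟨hp.2.1, fun x _ y _ hxy => ?_, ?_⟩
  · obtain ⟨u, hu, hq⟩ := h.bmk_eq_iff.1 hxy
    have h1 : y = act u x := congrArg Prod.fst hq
    have h2 : e = frAct u e := congrArg Prod.snd hq
    have h3 : u = 1 := freeOn_Inj Subset.rfl n u hu e (St_subset_Inj lab₀ n he) h2.symm
    rw [h1, h3, h.one]
  · rintro _ ⟨x, hx, _, ⟨u, hu, rfl⟩, rfl⟩
    have hu' := h.grp.star u hu
    refine ⟨act (star u) x, hA _ hu' x hx, ?_⟩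
    have h1 : bact act (star u) (x, frAct u e) = (act (star u) x, e) := by
      rw [bact, ← frAct_mul, h.grp.star_mul hu, frAct_one]
    rw [← bmk_bact hu' (x, frAct u e), h1]

/-- A frame that is orthogonal to all frames in `ℂ^m`. -/
def CBGenF_g (V : Type) [Fintype V] (m : ℕ) : Fr V := fun j k => if j = m + ordV k then 1 else 0

/-- The path from `e` to the far frame. -/
def CBGenF_path (m : ℕ) (e : Fr V) (s : ℝ) : Fr V :=
  fun j k => (Real.sqrt (1 - s) : ℂ) * e j k + (Real.sqrt s : ℂ) * CBGenF_g V m j k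

omit [DecidableEq V] in
theorem CBGenF_path_cont (m : ℕ) (e : Fr V) : Continuous (CBGenF_path m e) := by
  refine continuous_pi fun j => continuous_pi fun k => ?_
  unfold CBGenF_path
  fun_prop

omit [DecidableEq V] in
theorem CBGenF_path_zero (m : ℕ) (e : Fr V) : CBGenF_path m e 0 = e := by
  funext j k
  simp [CBGenF_path]

omit [DecidableEq V] in
theorem CBGenF_path_one (m : ℕ) (e : Fr V) : CBGenF_path m e 1 = CBGenF_g V m := by
  funext j k
  simp [CBGenF_path]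

omit [DecidableEq V] in
theorem CBGenF_ordV_lt (k : V) : ordV k < Fintype.card V := (Fintype.equivFin V k).2

theorem CBGenF_g_ip (m : ℕ) (k l : V) :
    ∑ j ∈ Finset.range (m + Fintype.card V), star (CBGenF_g V m j k) * CBGenF_g V m j l =
      if k = l then 1 else 0 := by
  rw [Finset.sum_eq_single (m + ordV k)]
  · by_cases hkl : k = l
    · subst hkl
      simp [CBGenF_g]
    · have : ordV k ≠ ordV l := fun h => hkl (ordV_injective h)
      simp [CBGenF_g, hkl, this]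
  · intro j _ hj
    simp [CBGenF_g, hj]
  · intro hj
    exact absurd (Finset.mem_range.2 (Nat.add_lt_add_left (CBGenF_ordV_lt k) m)) hj

theorem CBGenF_path_mem {m : ℕ} {e : Fr V} (he : e ∈ St lab₀ m) {s : ℝ} (hs : s ∈ Icc (0 : ℝ) 1) :
    CBGenF_path m e s ∈ St lab₀ (m + Fintype.card V) := by
  have he' := St_mono lab₀ (Nat.le_add_right m (Fintype.card V)) he
  have hg : ∀ j k, j < m → CBGenF_g V m j k = 0 := fun j k hj => if_neg (by omega)
  refine ⟨fun j hj => ?_, fun k l hkl => ?_⟩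
  · funext k
    have h1 : CBGenF_g V m j k = 0 := if_neg (by have := CBGenF_ordV_lt k; omega)
    simp [CBGenF_path, h1, he'.1 j hj]
  · have h1 : ((Real.sqrt (1 - s) : ℝ) : ℂ) * (Real.sqrt (1 - s) : ℝ) = ((1 - s : ℝ) : ℂ) := by
      rw [← Complex.ofReal_mul, Real.mul_self_sqrt (sub_nonneg.2 hs.2)]
    have h2 : ((Real.sqrt s : ℝ) : ℂ) * (Real.sqrt s : ℝ) = (s : ℂ) := by
      rw [← Complex.ofReal_mul, Real.mul_self_sqrt hs.1]
    have h3 : ∀ j, star (CBGenF_path m e s j k) * CBGenF_path m e s j l =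
        ((1 - s : ℝ) : ℂ) * (star (e j k) * e j l) +
          (s : ℂ) * (star (CBGenF_g V m j k) * CBGenF_g V m j l) := by
      intro j
      rw [← h1, ← h2]
      simp only [CBGenF_path, star_add, star_mul', Complex.star_def, Complex.conj_ofReal]
      by_cases hj : j < m
      · rw [hg j k hj, hg j l hj, map_zero]
        ring
      · have h4 := he.1 j (not_lt.1 hj)
        rw [congrFun h4 k, congrFun h4 l]
        simp only [Pi.zero_apply, map_zero]
        ring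
    rw [Finset.sum_congr rfl fun j _ => h3 j, Finset.sum_add_distrib, ← Finset.mul_sum,
      ← Finset.mul_sum, he'.2 k l hkl, CBGenF_g_ip, ← add_mul]
    push_cast
    rw [sub_add_cancel, one_mul]

theorem CBGenF_far [Nice X] {L : Set (Matrix V V ℂ)} {act : Matrix V V ℂ → X → X}
    (h : IsAct L act) (hL : L ⊆ KG lab₀) {A : Set X} (hA : InvX L act A) (hl : LC A) {m : ℕ}
    {w : Coch (Bor L act)} (hw : w ∈ ZZ (cc (BS L act A (St lab₀ (m + Fintype.card V))))
      (BS L act A (St lab₀ (m + Fintype.card V)))) {e : Fr V} (he : e ∈ St lab₀ m) :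
    pb (fib L act e) w - pb (fib L act (CBGenF_g V m)) w ∈ BB (cc A) A := by
  have hc : Continuous fun p : X × ℝ => (p.1, CBGenF_path m e p.2) :=
    continuous_fst.prodMk ((CBGenF_path_cont m e).comp continuous_snd)
  have hp : ProperOn (fun p : X × ℝ => bmk L act (p.1, CBGenF_path m e p.2)) (A ×ˢ Icc 0 1)
      (BS L act A (St lab₀ (m + Fintype.card V))) := by
    refine ⟨(continuous_bmk.comp hc).continuousOn,
      fun p hp => ⟨p.1, hp.1, _, CBGenF_path_mem he hp.2, rfl⟩, fun C hC hCA => ?_⟩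
    have hK := h.isCompact_preimage hC
    have hI : Inv L act (A ×ˢ St lab₀ (m + Fintype.card V)) := Inv.prod hA (invF_St hL _)
    have h1 : A ×ˢ Icc (0 : ℝ) 1 ∩
        (fun p : X × ℝ => bmk L act (p.1, CBGenF_path m e p.2)) ⁻¹' C =
        ((Prod.fst '' (bmk L act ⁻¹' C)) ×ˢ Icc (0 : ℝ) 1) ∩
          (fun p : X × ℝ => (p.1, CBGenF_path m e p.2)) ⁻¹' (bmk L act ⁻¹' C) := by
      ext p
      constructor
      · rintro ⟨hp, hp'⟩
        exact ⟨⟨⟨_, hp', rfl⟩, hp.2⟩, hp'⟩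
      · rintro ⟨hp, hp'⟩
        refine ⟨⟨?_, hp.2⟩, hp'⟩
        have h2 := hCA hp'
        rw [BS_eq] at h2
        exact ((h.mem_BI hI).1 h2).1
    rw [h1]
    exact ((hK.image continuous_fst).prod isCompact_Icc).inter_right (hK.isClosed.preimage hc)
  have := homotopy_BB_cc hl hp hw
  simp only [CBGenF_path_zero, CBGenF_path_one] at this
  exact this

/-- The restriction of a family to a fibre does not depend on the frame. -/
theorem fib_indep [Nice X] {L : Set (Matrix V V ℂ)} {act : Matrix V V ℂ → X → X} (h : IsAct L act)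
    (hL : L ⊆ KG lab₀) {A : Set X} (hA : InvX L act A) (hl : LC A) {a : Fam (Bor L act)}
    (ha : IsFam True (BL L act A lab₀) a) {n n' : ℕ} {e e' : Fr V} (he : e ∈ St lab₀ n)
    (he' : e' ∈ St lab₀ n') :
    pb (fib L act e) (a n) - pb (fib L act e') (a n') ∈ BB (cc A) A := by
  have key : ∀ {k : ℕ} {f : Fr V}, f ∈ St lab₀ k → k ≤ n + n' →
      pb (fib L act f) (a k) -
        pb (fib L act (CBGenF_g V (n + n'))) (a (n + n' + Fintype.card V)) ∈ BB (cc A) A := by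
    intro k f hf hk
    have h1 := CBGenF_far h hL hA hl (cocycle_true.1 (ha.1 (n + n' + Fintype.card V)))
      (St_mono lab₀ hk hf)
    have h2 := pb_mem_BB_cc ((frOK_St lab₀ k).proper_fib h hL hA hf)
      (ha.compat (closedIn_BL h hL hA) (hk.trans (Nat.le_add_right _ (Fintype.card V)))).2
    rw [pb_sub] at h2
    have h3 := sub_mem h1 h2
    rwa [sub_sub_sub_cancel_left, ← neg_sub, neg_mem_iff, ← neg_mem_iff, neg_sub] at h3
  have h4 := sub_mem (key he (Nat.le_add_right n n')) (key he' (Nat.le_add_left n' n))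
  rwa [sub_sub_sub_cancel_right] at h4

end Pool.Agent.HK
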