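import Pool.Agent.P.MP_1206ce_ag.CB.Tr
import Pool.Agent.P.MP_1206ce_ag.CB.GenF

/-! Cohomology of induced cells. -/

set_option linter.unusedSectionVars false

open scoped Topology
open Filter Set

noncomputable section

namespace Pool.Agent.HK

section Aux

variable {Y Y' : Type} [TopologicalSpace Y] [TopologicalSpace Y']

theorem CBCell_tw_one {A : Set Y} {A' : Set Y'} {π : Y' → Y} (h : ProperOn π A' A) {a : Coch Y}
    (ha : a ∈ ZZ (cc A) A) : tw A A' π one (clc A a) = clc A' (pb π a) := by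
  rw [tw_cls (h.twOK (one_mem_ZZ _)) ha, cup_one (pb_mem_ZZ_cc h ha).1.1.1]

theorem CBCell_res {A A' : Set Y} (h : ClosedIn A' A) {a : Coch Y} (ha : a ∈ ZZ (cc A) A) :
    a ∈ ZZ (cc A') A' ∧ res A A' (clc A a) = clc A' a := by
  have h1 := pb_mem_ZZ_cc h.properOn ha
  have h2 := CBCell_tw_one h.properOn ha
  rw [pb_id] at h1 h2
  exact ⟨h1, h2⟩

theorem CBCell_square {A A₁ : Set Y} {B B₁ : Set Y'} {π : Y' → Y} {w : Coch Y'}
    (hA : ClosedIn A₁ A) (hB : ClosedIn B₁ B) (h : TwOK A B π w) (h₁ : TwOK A₁ B₁ π w)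
    (x : Hc A) : res B B₁ (tw A B π w x) = tw A₁ B₁ π w (res A A₁ x) := by
  obtain ⟨a, ha, rfl⟩ := cls_surj x
  have h1 := CBCell_res hA ha
  have h2 := tw_cls h ha
  have h3 := CBCell_res hB (h.mem_ZZ ha)
  exact (congrArg (res B B₁) h2).trans (h3.2.trans
    ((tw_cls h₁ h1.1).symm.trans (congrArg (tw A₁ B₁ π w) h1.2.symm)))

theorem CBCell_prH_one {A : Set Y} {A' : Set Y'} {π : Y' → Y} (h : ProperOn π A' A) (k : ℤ)
    (x : Hc A) : prH _ A' k (tw A A' π one x) = tw A A' π one (prH _ A k x) := by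
  have := tw_prH (h.twOK (one_mem_ZZ _)) HomC.one k x
  rwa [add_zero] at this

end Aux

variable {V Λ Λ₀ X ι : Type} [Fintype V] [DecidableEq V] [TopologicalSpace X] [Nice X] [Fintype ι]
  {lab : V → Λ} {lab₀ : V → Λ₀} {act : Matrix V V ℂ → X → X} {C : Set X} {co : X → ι → ℂ}
  {ρ : Matrix V V ℂ → (ι → ℂ) → ι → ℂ} {χ : ι → V → ℤ}

omit [Nice X] in
theorem invX_SatX (h : IsAct (KG lab₀) act) (C : Set X) : InvX (KG lab₀) act (SatX lab₀ act C) := by
  rintro v hv p ⟨u, hu, hp⟩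
  refine ⟨u * star v, h.grp.mul _ hu _ (h.grp.star _ hv), ?_⟩
  rw [← h.mul _ (h.grp.mul _ hu _ (h.grp.star _ hv)) _ hv, mul_assoc, h.grp.star_mul hv, mul_one]
  exact hp
omit [Nice X] in
theorem subset_SatX (h : IsAct (KG lab₀) act) (C : Set X) : C ⊆ SatX lab₀ act C :=
  fun p hp => ⟨1, h.grp.one, by rw [h.one]; exact hp⟩
theorem CellD.cd (h : CellD lab₀ lab act C co ρ χ) : Cd lab₀ (KG lab) act C co :=
  ⟨h.ha.mono (isGrp_KG lab) (KG_mono h.ref), KG_mono h.ref, h.inv, h.homeo⟩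
theorem CellD.cdT (h : CellD lab₀ lab act C co ρ χ) :
    Cd lab₀ (TT V) act C co ∧ IsCoord (TT V) act C co χ := by
  refine ⟨h.cd.mono (isGrp_KG id) (TT_subset lab), ?_, fun u hu x hx i => ?_⟩
  · obtain ⟨g, hg⟩ := h.homeo
    exact hg.1
  · rw [h.eqv u (TT_subset lab hu) x hx, h.md.wt u hu]
/-- Induction of spaces. -/
theorem CellD.ind (h : CellD lab₀ lab act C co ρ χ) {E : Set (Fr V)} (hE : FrOK lab₀ E) :
    ProperOn (bmap (KG lab₀) act id id : Bor (KG lab) act → _) (BS (KG lab) act C E)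
      (BS (KG lab₀) act (SatX lab₀ act C) E) ∧
    Function.Bijective (tw (BS (KG lab₀) act (SatX lab₀ act C) E) (BS (KG lab) act C E)
      (bmap (KG lab₀) act id id) one) := by
  have := h.ha.nice
  have := h.cd.ha.nice
  have hc : ClosedIn (C ×ˢ E) (SatX lab₀ act C ×ˢ E) := by
    obtain ⟨F, hF, e⟩ := h.cl
    refine ⟨F ×ˢ univ, hF.prod isClosed_univ, ?_⟩
    rw [prod_inter_prod, ← e, inter_univ]
  have hp : ProperOn (bmap (KG lab₀) act id id : Bor (KG lab) act → _) (BS (KG lab) act C E)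
      (BS (KG lab₀) act (SatX lab₀ act C) E) := by
    rw [BS_eq, BS_eq]
    exact h.ha.ind_proper (isGrp_KG lab) (KG_mono h.ref)
      (hE.inv_prod subset_rfl (invX_SatX h.ha C)) (hE.inv_prod (KG_mono h.ref) h.inv) hc
  refine ⟨hp, hp.tw_bijective (hE.lc_BS h.ha subset_rfl (invX_SatX h.ha C) h.lc) ?_⟩
  have he : BI (KG lab₀) act (SatX lab₀ act C ×ˢ E) = BI (KG lab₀) act (C ×ˢ E) := by
    refine Subset.antisymm ?_ (BI_mono (prod_mono (subset_SatX h.ha C) subset_rfl))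
    rintro _ ⟨p, ⟨⟨u, hu, hp⟩, he⟩, rfl⟩
    exact ⟨bact act u p, ⟨hp, hE.inv u hu _ he⟩, bmk_bact hu p⟩
  rw [BS_eq, BS_eq, he]
  exact h.ha.ind_bijOn (isGrp_KG lab) (KG_mono h.ref) fun p hp u hu hq =>
    ⟨u, h.stab p.1 hp.1 u hu hq.1, rfl⟩

theorem CBCell_sq (h : CellD lab₀ lab act C co ρ χ) {E E' : Set (Fr V)} (hE : FrOK lab₀ E)
    (hE' : FrOK lab₀ E') (hs : E' ⊆ E) (x : Hc (BS (KG lab₀) act (SatX lab₀ act C) E)) :
    res (BS (KG lab) act C E) (BS (KG lab) act C E')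
      (tw (BS (KG lab₀) act (SatX lab₀ act C) E) (BS (KG lab) act C E)
        (bmap (KG lab₀) act id id) one x) =
      tw (BS (KG lab₀) act (SatX lab₀ act C) E') (BS (KG lab) act C E')
        (bmap (KG lab₀) act id id) one
        (res (BS (KG lab₀) act (SatX lab₀ act C) E) (BS (KG lab₀) act (SatX lab₀ act C) E') x) :=
  CBCell_square (hE.closedIn_frames hE' hs h.ha subset_rfl (invX_SatX h.ha C))
    (hE.closedIn_frames hE' hs h.cd.ha h.cd.le h.inv) ((h.ind hE).1.twOK (one_mem_ZZ _))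
    ((h.ind hE').1.twOK (one_mem_ZZ _)) x

theorem CBCell_exists_th (h : CellD lab₀ lab act C co ρ χ) {E : Set (Fr V)} (hE : FrOK lab₀ E) :
    ∃ t, IsTh (KG lab) act C E co t := by
  obtain ⟨τ, hτ⟩ := exists_isTh h.ref h.cd h.md h.eqv
  obtain ⟨n, hn⟩ := hE.sub
  exact ⟨τ n, (hτ n).mono h.cd (frOK_St lab₀ n) hE hn⟩

theorem CellD.good (h : CellD lab₀ lab act C co ρ χ) : Good lab₀ act (SatX lab₀ act C) := by
  refine ⟨invX_SatX h.ha C, h.lc, fun E hE k x hk => ?_, fun E hE => ?_,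
    fun E E' hE hE' hs z => ?_⟩
  · obtain ⟨t, ht⟩ := CBCell_exists_th h hE.ok
    obtain ⟨hp, hb⟩ := h.ind hE.ok
    obtain ⟨hok, htb⟩ := ht.bij h.cd hE.ok
    apply hb.1
    rw [map_zero, ← CBCell_prH_one hp]
    obtain ⟨y, hy⟩ := htb.2 (tw (BS (KG lab₀) act (SatX lab₀ act C) E) (BS (KG lab) act C E)
      (bmap (KG lab₀) act id id) one x)
    have h1 := tw_prH hok ht.hom (k - 2 * (Fintype.card ι : ℤ)) y
    rw [sub_add_cancel, hy, hE.pt_even h.ref (hk.sub_even (even_two_mul _)), map_zero] at h1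
    exact h1
  · obtain ⟨t, ht⟩ := CBCell_exists_th h hE.ok
    obtain ⟨-, hb⟩ := h.ind hE.ok
    obtain ⟨-, htb⟩ := ht.bij h.cd hE.ok
    have h1 := hE.pt_fin h.ref
    have h2 := Module.Finite.of_surjective _ htb.2
    exact Module.Finite.of_injective _ hb.1
  · obtain ⟨t, ht⟩ := CBCell_exists_th h hE.ok
    have ht' := ht.mono h.cd hE.ok hE'.ok hs
    obtain ⟨-, hb⟩ := h.ind hE.ok
    obtain ⟨-, hb'⟩ := h.ind hE'.ok
    obtain ⟨hok, htb⟩ := ht.bij h.cd hE.ok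
    obtain ⟨hok', htb'⟩ := ht'.bij h.cd hE'.ok
    obtain ⟨y', hy'⟩ := htb'.2 (tw (BS (KG lab₀) act (SatX lab₀ act C) E') (BS (KG lab) act C E')
      (bmap (KG lab₀) act id id) one z)
    obtain ⟨y, rfl⟩ := hE.pt_onto hE' hs h.ref y'
    obtain ⟨x, hx⟩ := hb.2 (tw (BS (KG lab) ptAct univ E) (BS (KG lab) act C E)
      (bmap (KG lab) ptAct (fun _ => ()) id) t y)
    refine ⟨x, hb'.1 ?_⟩
    rw [← CBCell_sq h hE.ok hE'.ok hs, hx, ← hy']
    exact CBCell_square (hE.ok.closedIn_frames hE'.ok hs (isAct_pt (isGrp_KG lab)) h.cd.le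
      fun _ _ _ _ => mem_univ _) (hE.ok.closedIn_frames hE'.ok hs h.cd.ha h.cd.le h.inv) hok hok' y

/-- Homogeneous families on the cell come from the saturation. -/
theorem CBCell_lift (h : CellD lab₀ lab act C co ρ χ) {b : Fam (Bor (KG lab) act)}
    (hb : IsFam True (BL (KG lab) act C lab₀) b) {k : ℤ} (hk : Homog k b) :
    ∃ a, IsFam True (BL (KG lab₀) act (SatX lab₀ act C) lab₀) a ∧
      FamEq True (BL (KG lab) act C lab₀) b (pbF (bmap (KG lab₀) act id id) a) := by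
  have hZ := (isFam_true.1 hb).1
  choose x hx using fun n => (h.ind (frOK_St lab₀ n)).2.2 (clc (BL (KG lab) act C lab₀ n) (b n))
  obtain ⟨a, ha, -, hax⟩ := exists_fam (A := BL (KG lab₀) act (SatX lab₀ act C) lab₀)
    (closedIn_BL h.ha subset_rfl (invX_SatX h.ha C)) x (fun n => by
      apply (h.ind (frOK_St lab₀ n)).2.1
      rw [← CBCell_sq h (frOK_St lab₀ (n + 1)) (frOK_St lab₀ n) (St_mono lab₀ (Nat.le_succ n)),
        hx, hx]
      exact hb.res_clc (closedIn_BL h.cd.ha h.cd.le h.inv) n) (k := k) (fun n => by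
      apply (h.ind (frOK_St lab₀ n)).2.1
      rw [← CBCell_prH_one (h.ind (frOK_St lab₀ n)).1, hx, prH_cls k (hZ n),
        (homog_iff.1 hk n).prC_self])
  refine ⟨a, ha, famEq_true.2 fun n => ?_⟩
  have hZa := (isFam_true.1 ha).1 n
  refine (cls_eq_iff (hZ n) (pb_mem_ZZ_cc (h.ind (frOK_St lab₀ n)).1 hZa)).1 ?_
  have h1 := CBCell_tw_one (h.ind (frOK_St lab₀ n)).1 hZa
  rw [hax, hx] at h1
  exact h1

theorem CBCell_toK_comp (h : CellD lab₀ lab act C co ρ χ) :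
    (bmap (KG lab₀) act id id : Bor (KG lab) act → _) ∘
      (bmap (KG lab) act id id : Bor (TT V) act → _) = bmap (KG lab₀) act id id := by
  funext q
  rw [← bmk_out q, Function.comp_apply, h.cd.ha.toK_bmk (isGrp_KG id) (TT_subset lab),
    h.ha.toK_bmk (isGrp_KG lab) (KG_mono h.ref), h.ha.toK_bmk (isGrp_KG id) (TT_subset lab₀)]

theorem CBCell_em (h : CellD lab₀ lab act C co ρ χ) :
    EM lab₀ (TT V) act C (KG lab) act C id :=
  EM.of_subset h.cd.ha (isGrp_KG id) (TT_subset lab) h.cd.le h.cdT.1.inv h.inv subset_rfl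

theorem CBCell_hom (h : CellD lab₀ lab act C co ρ χ) {g : MvPolynomial V ℂ}
    (hg : g ∈ Rinv lab) {d : ℕ} (hd : g.IsHomogeneous d) :
    ∃ a, IsFam True (BL (KG lab₀) act (SatX lab₀ act C) lab₀) a ∧
      TRel act C lab₀ co χ (pbF (bmap (KG lab₀) act id id) a) g := by
  obtain ⟨τ, hτ⟩ := exists_isTh h.ref h.cd h.md h.eqv
  have hτF := IsTh.isFam h.cd hτ
  have hb := isFam_mul h.cd.ha (isGrp_KG lab) subset_rfl h.cd.le h.inv
    (u := chC lab g) (isFam_chC h.ref hg) hτF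
  obtain ⟨a, ha, he⟩ := CBCell_lift h hb (k := 2 * (d : ℤ) + 2 * (Fintype.card ι : ℤ))
    (homog_iff.2 fun n => ((chC_homC lab hd n).pb _).cup (hτ n).hom)
  refine ⟨a, ha, ?_⟩
  have hid : HomeoOn (id : X → X) id C C :=
    ⟨continuousOn_id, continuousOn_id, mapsTo_id _, mapsTo_id _, fun _ _ => rfl, fun _ _ => rfl⟩
  have h1 := (CBCell_em h).famEq hid.properOn he
  have h2 : pbF (bmap (KG lab) act id id : Bor (TT V) act → _)
      (pbF (bmap (KG lab₀) act id id) a) = pbF (bmap (KG lab₀) act id id) a := by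
    funext n
    simp only [pbF]
    rw [pb_pb, CBCell_toK_comp h]
  have h3 : pbF (bmap (KG lab) act id id : Bor (TT V) act → _)
      (cupF (pbF (bmap (KG lab) ptAct (fun _ => ()) id) (chC lab g)) τ) =
      cupF (fun n => chX lab (TT V) act g n) (pbF (bmap (KG lab) act id id) τ) := by
    funext n
    simp only [pbF, cupF]
    rw [pb_cup, ← pb_chX h.cd.ha subset_rfl id g n]
    rfl
  rw [h2, h3] at h1
  have h4 : TRel act C lab₀ co χ (pbF (bmap (KG lab) act id id) τ) 1 :=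
    tRel_of_isTh h.cdT.1 h.cdT.2 fun n => IsTh.pb (CBCell_em h) hid (frOK_St lab₀ n) (hτ n)
  have h5 := TRel.mul h.cdT.1 h.cdT.2 ((CBCell_em h).isFam hid.properOn hτF) h4
    (v := fun n => chX lab (TT V) act g n) (q := g) fun n => by
      have hn : ∀ p ∈ C ×ˢ St lab₀ n, p.2 ∈ Inj lab n := fun p hp =>
        Inj_anti h.ref n (St_subset_Inj lab₀ n hp.2)
      rw [BS_eq]
      exact ⟨chX_mem_ZZ h.cdT.1.ha (TT_subset lab) hn hg,
        chX_sub_polyX h.cdT.1.ha subset_rfl hn hg⟩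
  rw [mul_one] at h5
  exact h5.congr h1

theorem CellD.exists_fam (h : CellD lab₀ lab act C co ρ χ) {g : MvPolynomial V ℂ}
    (hg : g ∈ Rinv lab) : ∃ a, IsFam True (BL (KG lab₀) act (SatX lab₀ act C) lab₀) a ∧
      TRel act C lab₀ co χ (pbF (bmap (KG lab₀) act id id) a) g := by
  choose a ha hr using fun d => CBCell_hom h (homogeneousComponent_mem_Rinv hg d)
    (MvPolynomial.homogeneousComponent_isHomogeneous d g)
  refine ⟨∑ d ∈ Finset.range (g.totalDegree + 1), a d, IsFam.sum _ fun d _ => ha d, ?_⟩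
  have h1 := TRel.sum (Finset.range (g.totalDegree + 1)) fun d _ => hr d
  rw [MvPolynomial.sum_homogeneousComponent] at h1
  have h2 : pbF (bmap (KG lab₀) act id id : Bor (TT V) act → _)
      (∑ d ∈ Finset.range (g.totalDegree + 1), a d) =
      ∑ d ∈ Finset.range (g.totalDegree + 1), pbF (bmap (KG lab₀) act id id) (a d) := by
    funext n
    simp only [pbF, Finset.sum_apply]
    rw [pb_sum]
  rw [h2]
  exact h1
theorem CellD.isFam (h : CellD lab₀ lab act C co ρ χ) {a : Fam (Bor (KG lab₀) act)}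
    (ha : IsFam True (BL (KG lab₀) act (SatX lab₀ act C) lab₀) a) :
    IsFam True (BL (TT V) act C lab₀) (pbF (bmap (KG lab₀) act id id) a) :=
  (EM.of_subset h.ha (isGrp_KG id) (TT_subset lab₀) subset_rfl h.cdT.1.inv (invX_SatX h.ha C)
    (subset_SatX h.ha C)).isFam h.cl.properOn ha
theorem CellD.inj (h : CellD lab₀ lab act C co ρ χ) {a : Fam (Bor (KG lab₀) act)}
    (ha : IsFam True (BL (KG lab₀) act (SatX lab₀ act C) lab₀) a)
    (h0 : TRel act C lab₀ co χ (pbF (bmap (KG lab₀) act id id) a) 0) :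
    FamEq True (BL (KG lab₀) act (SatX lab₀ act C) lab₀) a 0 := by
  have h1 := famEq_true.1 (h0.famEq TRel.zero)
  refine famEq_true.2 fun n => ?_
  have hZ := (isFam_true.1 ha).1 n
  have hp := (h.ind (frOK_St lab₀ n)).1
  have hp' := (CBCell_em h).proper (frOK_St lab₀ n) (ClosedIn.refl C).properOn
  have hi : Function.Injective (tw (BS (KG lab) act C (St lab₀ n)) (BS (TT V) act C (St lab₀ n))
      (bmap (KG lab) act id id) one) := by
    rw [BS_eq, BS_eq]
    exact tw_toK_injective h.cd.ha ((frOK_St lab₀ n).inv_prod h.cd.le h.inv)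
      (h.cd.lc.prod (LC.of_isCompact (isCompact_St lab₀ n))) (n := n)
      fun p hp => Inj_anti h.ref n (St_subset_Inj lab₀ n hp.2)
  have h2 := h1 n
  rw [Pi.zero_apply, sub_zero] at h2 ⊢
  rw [← cls_eq_zero_iff hZ]
  apply (h.ind (frOK_St lab₀ n)).2.1
  apply hi
  rw [map_zero, map_zero, CBCell_tw_one hp hZ, CBCell_tw_one hp' (pb_mem_ZZ_cc hp hZ), pb_pb,
    CBCell_toK_comp h]
  exact (cls_eq_zero_iff ((isFam_true.1 (h.isFam ha)).1 n)).2 h2

end Pool.Agent.HK
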