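import Pool.Agent.P.MP_1206ce_ag.CB.GenF

/-! Gluing of equivariantly formal sets; extension and lifting of families. -/

open scoped Topology
open Filter Set

noncomputable section

namespace Pool.Agent.HK

variable {V Λ₀ X : Type} [Fintype V] [DecidableEq V] [TopologicalSpace X] [Nice X]
  {lab₀ : V → Λ₀} {act : Matrix V V ℂ → X → X} {A A' U : Set X}

section Abs

variable {Y : Type} [TopologicalSpace Y]

theorem CBGood_twOK {B C : Set Y} (h : ClosedIn C B) : TwOK B C id one :=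
  h.properOn.twOK (one_mem_ZZ C)

theorem CBGood_ZZ {B C : Set Y} (h : ClosedIn C B) {a : Coch Y} (ha : a ∈ ZZ (cc B) B) :
    a ∈ ZZ (cc C) C := by
  have h1 := pb_mem_ZZ_cc h.properOn ha
  rwa [pb_id] at h1

theorem CBGood_res_res {B C D : Set Y} (h : ClosedIn C B) (h' : ClosedIn D C) (x : Hc B) :
    res C D (res B C x) = res B D x := by
  obtain ⟨a, ha, rfl⟩ := cls_surj x
  rw [LES_res h ha, LES_res h' (CBGood_ZZ h ha), LES_res (h'.trans h) ha]

theorem CBGood_tw_prH {Y' : Type} [TopologicalSpace Y'] {B : Set Y} {C : Set Y'} {π : Y' → Y}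
    (h : TwOK B C π one) (k : ℤ) (x : Hc B) :
    prH _ C k (tw B C π one x) = tw B C π one (prH _ B k x) := by
  have h1 := tw_prH h HomC.one k x
  rwa [add_zero] at h1

theorem CBGood_seq {M : ℕ → Type} (P : ∀ n, M n → Prop) (R : ∀ n, M (n + 1) → M n → Prop)
    {x₀ : M 0} (h₀ : P 0 x₀) (step : ∀ n x, P n x → ∃ y, P (n + 1) y ∧ R n y x) :
    ∃ x : ∀ n, M n, x 0 = x₀ ∧ (∀ n, P n (x n)) ∧ ∀ n, R n (x (n + 1)) (x n) := by
  choose f hf using step
  let x : ∀ n, {y : M n // P n y} := fun n =>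
    Nat.rec (motive := fun n => {y : M n // P n y}) ⟨x₀, h₀⟩
      (fun n y => ⟨f n y.1 y.2, (hf n y.1 y.2).1⟩) n
  exact ⟨fun n => (x n).1, rfl, fun n => (x n).2, fun n => (hf n (x n).1 (x n).2).2⟩

variable [Nice Y]

theorem CBGood_res_ext {B C W W' : Set Y} (h : ClosedIn C B) (ho : OpenIn W B) (hW : W' = C ∩ W)
    (x : Hc W) : res B C (ext W B x) = ext W' C (res W W' x) :=
  LinearMap.congr_fun (tw_ext (CBGood_twOK h) ho hW) x

theorem CBGood_short {B B' W : Set Y} (hB : LC B) (h : ClosedIn B' B) (hW : W = B \ B')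
    (h1 : ∀ (k : ℤ) (x : Hc W), Odd k → prH _ _ k x = 0)
    (h2 : ∀ (k : ℤ) (x : Hc B'), Odd k → prH _ _ k x = 0) :
    Function.Injective (ext W B) ∧ Function.Exact (ext W B) (res B B') ∧
      Function.Surjective (res B B') := by
  obtain ⟨δ, e1, e2, e3, hd, -⟩ := les hB h hW
  have h0 : ∀ x, δ x = 0 := fun x => eq_zero_of_prH fun k => by
    rcases Int.even_or_odd k with hk | hk
    · have h3 := hd (k - 1) x
      rwa [sub_add_cancel, h2 _ x (hk.sub_odd odd_one), map_zero] at h3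
    · exact h1 k _ hk
  refine ⟨(injective_iff_map_eq_zero _).2 fun y hy => ?_, e1, fun x => (e2 x).1 (h0 x)⟩
  obtain ⟨x, rfl⟩ := (e3 y).1 hy
  exact h0 x

/-- Simultaneous lifting. -/
theorem CBGood_sq {B₁ B₁' W₁ B₀ B₀' W₀ : Set Y} (c₁ : ClosedIn B₁' B₁) (c₀ : ClosedIn B₀' B₀)
    (c : ClosedIn B₀ B₁) (c' : ClosedIn B₀' B₁') (o₁ : OpenIn W₁ B₁) (hW : W₀ = B₀ ∩ W₁)
    (e₁ : Function.Exact (ext W₁ B₁) (res B₁ B₁')) (s₁ : Function.Surjective (res B₁ B₁'))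
    (e₀ : Function.Exact (ext W₀ B₀) (res B₀ B₀')) (sW : Function.Surjective (res W₁ W₀))
    {x : Hc B₀} {β : Hc B₁'} (h : res B₀ B₀' x = res B₁' B₀' β) :
    ∃ y : Hc B₁, res B₁ B₀ y = x ∧ res B₁ B₁' y = β := by
  obtain ⟨y, rfl⟩ := s₁ β
  have h1 : res B₀ B₀' (res B₁ B₀ y - x) = 0 := by
    rw [map_sub, h, CBGood_res_res c c₀, CBGood_res_res c₁ c', sub_self]
  obtain ⟨z, hz⟩ := (e₀ _).1 h1
  obtain ⟨w, rfl⟩ := sW z
  refine ⟨y - ext W₁ B₁ w, ?_, ?_⟩
  · rw [map_sub, CBGood_res_ext c o₁ hW, hz, sub_sub_cancel]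
  · rw [map_sub, e₁.apply_apply_eq_zero, sub_zero]

theorem CBGood_ext {B W : ℕ → Set Y} (ho : ∀ n, OpenIn (W n) (B n)) (hB : ∀ n, B n ⊆ B (n + 1))
    (hW : ∀ n, W n = B n ∩ W (n + 1)) {u : Fam Y} (hu : IsFam True W u) :
    ∃ a, IsFam True B a ∧ IsFam True W a ∧ FamEq True W a u ∧ ∀ n, supp (B n) (a n) ⊆ W n := by
  obtain ⟨N, hN⟩ := hu.eq_sum
  obtain ⟨hz, hb, -⟩ := isFam_true.1 hu
  choose a' h1 h2 h3 h4 _ using fun n => exists_ext_rep (ho n) (hz n).1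
  have hz' : ∀ n, a' n ∈ ZZ (cc (B n)) (B n) := fun n => ⟨h1 n, (h3 n).trans (hz n).2⟩
  obtain ⟨a, ha⟩ : ∃ a : Fam Y, ∀ n, a n = ∑ k ∈ Finset.range N, prC k (a' n) := ⟨_, fun _ => rfl⟩
  have a1 : ∀ n, a n ∈ ZZ (cc (B n)) (B n) := fun n =>
    ha n ▸ sum_mem fun k _ => prC_mem_ZZ _ (hz' n)
  have a2 : ∀ n, supp (B n) (a n) ⊆ W n := fun n => by
    have h5 : a n ∈ CC (𝓟 (W n)ᶜ) (B n) := ha n ▸ sum_mem fun k _ =>
      Basic_prC_mem_CC _ ⟨(h1 n).1, compl_subset_compl.2 ((h2 n).le.trans (supp_subset _ _))⟩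
    exact compl_subset_compl.1 h5.2
  have a3 : ∀ n, a n - u n ∈ N0 (W n) := fun n => by
    have h5 : u n = ∑ k ∈ Finset.range N, prC k (u n) := by
      conv_lhs => rw [hN, Finset.sum_apply]
      rfl
    rw [ha, h5, ← Finset.sum_sub_distrib]
    exact sum_mem fun k _ => Basic_prC_sub _ (a' n) (u n) ▸ Basic_prC_mem_N0 _ (h4 n)
  have a4 : ∃ M : ℕ, ∀ (n : ℕ) (l : List Y), M < l.length → a n l = 0 := ⟨N, fun n l hl => by
    rw [ha, Finset.sum_apply]
    refine Finset.sum_eq_zero fun k hk => if_neg ?_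
    have := Finset.mem_range.1 hk
    omega⟩
  have a5 : ∀ n, a (n + 1) - a n ∈ BB (cc (W n)) (W n) := fun n => by
    have e : a (n + 1) - a n = (a (n + 1) - u (n + 1)) + (u (n + 1) - u n) - (a n - u n) := by
      abel
    rw [e]
    exact sub_mem (add_mem (N0_le_BB _ _ (Tw_N0_mono ((hW n).le.trans inter_subset_right)
      (a3 (n + 1)))) (hb n)) (N0_le_BB _ _ (a3 n))
  refine ⟨a, isFam_true.2 ⟨a1, fun n => Tw_BB_of_supp (ho n) ?_ (a5 n), a4⟩,
    isFam_true.2 ⟨fun n => Tw_ZZ_of_supp (ho n) (a1 n) (a2 n), a5, a4⟩, FamEq.of_N0 a3, a2⟩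
  refine (supp_sub _ _ _).trans (union_subset ?_ (a2 n))
  exact (subset_inter (supp_subset _ _) ((supp_mono (hB n) _).trans (a2 (n + 1)))).trans (hW n).ge

/-- The hypotheses for a tower of short exact sequences. -/
structure CBGood_Tow (B B' W : ℕ → Set Y) : Prop where
  c : ∀ n, ClosedIn (B n) (B (n + 1))
  c' : ∀ n, ClosedIn (B' n) (B' (n + 1))
  cW : ∀ n, ClosedIn (W n) (W (n + 1))
  cl : ∀ n, ClosedIn (B' n) (B n)
  op : ∀ n, OpenIn (W n) (B n)
  hW : ∀ n, W n = B n ∩ W (n + 1)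
  inj : ∀ n, Function.Injective (ext (W n) (B n))
  ex : ∀ n, Function.Exact (ext (W n) (B n)) (res (B n) (B' n))
  surj : ∀ n, Function.Surjective (res (B n) (B' n))
  onto : ∀ n, Function.Surjective (res (W (n + 1)) (W n))

theorem CBGood_lift1 {B B' W : ℕ → Set Y} (T : CBGood_Tow B B' W) {b : Fam Y}
    (hb : IsFam True B' b) {k : ℤ} (hk : Homog k b) : ∃ a, IsFam True B a ∧ FamEq True B' a b := by
  have hz := (isFam_true.1 hb).1
  have hp : ∀ n, prH _ _ k (clc (B' n) (b n)) = clc (B' n) (b n) := fun n => by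
    rw [prH_cls k (hz n), (homog_iff.1 hk n).prC_self]
  have hpp : ∀ n (y : Hc (B n)), prH _ _ k (prH _ _ k y) = prH _ _ k y := fun n y => by
    rw [prH_prH, if_pos rfl]
  obtain ⟨y₀, hy₀⟩ := T.surj 0 (clc (B' 0) (b 0))
  obtain ⟨x, -, h1, h2⟩ := CBGood_seq (M := fun n => Hc (B n))
    (fun n x => prH _ _ k x = x ∧ res (B n) (B' n) x = clc (B' n) (b n))
    (fun n y x => res (B (n + 1)) (B n) y = x) (x₀ := prH _ _ k y₀)
    ⟨hpp 0 y₀, by rw [← CBGood_tw_prH (CBGood_twOK (T.cl 0)), hy₀, hp]⟩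
    (fun n x hx => by
      obtain ⟨y, e1, e2⟩ := CBGood_sq (T.cl (n + 1)) (T.cl n) (T.c n) (T.c' n) (T.op (n + 1))
        (T.hW n) (T.ex (n + 1)) (T.surj (n + 1)) (T.ex n) (T.onto n)
        (hx.2.trans (hb.res_clc T.c' n).symm)
      refine ⟨prH _ _ k y, ⟨hpp _ y, ?_⟩, ?_⟩
      · rw [← CBGood_tw_prH (CBGood_twOK (T.cl (n + 1))), e2, hp]
      · rw [← CBGood_tw_prH (CBGood_twOK (T.c n)), e1, hx.1])
  obtain ⟨a, ha, -, h3⟩ := exists_fam T.c x h2 fun n => (h1 n).1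
  refine ⟨a, ha, famEq_true.2 fun n => ?_⟩
  have h4 := (isFam_true.1 ha).1 n
  rw [← cls_eq_iff (CBGood_ZZ (T.cl n) h4) (hz n)]
  exact (LES_res (T.cl n) h4).symm.trans (h3 n ▸ (h1 n).2)

theorem CBGood_lift {B B' W : ℕ → Set Y} (T : CBGood_Tow B B' W) {b : Fam Y}
    (hb : IsFam True B' b) : ∃ a, IsFam True B a ∧ FamEq True B' a b := by
  obtain ⟨N, hN⟩ := hb.eq_sum
  choose a h1 h2 using fun k : ℕ => CBGood_lift1 T (hb.prF k) (homog_prF k b)
  refine ⟨∑ k ∈ Finset.range N, a k, IsFam.sum _ fun k _ => h1 k, ?_⟩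
  conv => arg 4; rw [hN]
  exact FamEq.sum _ fun k _ => h2 k

theorem CBGood_ker1 {B B' W : ℕ → Set Y} (T : CBGood_Tow B B' W) {a : Fam Y}
    (ha : IsFam True B a) (h0 : FamEq True B' a 0) {k : ℤ} (hk : Homog k a) :
    ∃ u, IsFam True W u ∧ ∀ n, ext (W n) (B n) (clc _ (u n)) = clc _ (a n) := by
  have hz := (isFam_true.1 ha).1
  have h1 : ∀ n, ∃ z, ext (W n) (B n) z = clc _ (a n) := fun n => by
    refine (T.ex n _).1 ?_
    rw [LES_res (T.cl n) (hz n), cls_eq_zero_iff (CBGood_ZZ (T.cl n) (hz n))]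
    have h2 := famEq_true.1 h0 n
    rwa [Pi.zero_apply, sub_zero] at h2
  choose z hz' using h1
  obtain ⟨u, hu, -, h3⟩ := exists_fam T.cW z (k := k) (fun n => T.inj n (by
      rw [← CBGood_res_ext (T.c n) (T.op (n + 1)) (T.hW n), hz', hz', ha.res_clc T.c n]))
    fun n => T.inj n (by
      rw [← ext_prH (T.op n), hz', prH_cls k (hz n), (homog_iff.1 hk n).prC_self])
  exact ⟨u, hu, fun n => by rw [h3, hz']⟩

theorem CBGood_ker {B B' W : ℕ → Set Y} (T : CBGood_Tow B B' W) {a : Fam Y}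
    (ha : IsFam True B a) (h0 : FamEq True B' a 0) :
    ∃ b, IsFam True B b ∧ IsFam True W b ∧ FamEq True B a b ∧ ∀ n, supp (B n) (b n) ⊆ W n := by
  obtain ⟨N, hN⟩ := ha.eq_sum
  have h1 : ∀ k : ℤ, FamEq True B' (prF k a) 0 := fun k => by
    have h2 := h0.prF k
    have h3 : prF k (0 : Fam Y) = 0 := funext fun _ => (HomC.zero k).prC_self
    rwa [h3] at h2
  choose u hu he using fun k : ℕ => CBGood_ker1 T (ha.prF k) (h1 k) (homog_prF k a)
  have hU := IsFam.sum (Finset.range N) fun k _ => hu k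
  obtain ⟨b, b1, b2, b3, b4⟩ := CBGood_ext T.op (fun n => (T.c n).subset) T.hW hU
  refine ⟨b, b1, b2, famEq_true.2 fun n => ?_, b4⟩
  have z1 := (isFam_true.1 b1).1 n
  rw [← cls_eq_iff ((isFam_true.1 ha).1 n) z1]
  have e1 : clc (W n) (b n) = clc (W n) ((∑ k ∈ Finset.range N, u k) n) :=
    (cls_eq_iff ((isFam_true.1 b2).1 n) ((isFam_true.1 hU).1 n)).2 (famEq_true.1 b3 n)
  have e2 := (ext_cls_of_supp (T.op n) z1 (b4 n)).2
  rw [e1, Finset.sum_apply, clc, cls_sum _ fun k _ => (isFam_true.1 (hu k)).1 n, map_sum,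
    Finset.sum_congr rfl fun k _ => he k n,
    ← cls_sum _ fun (k : ℕ) _ => (isFam_true.1 (ha.prF k)).1 n, ← Finset.sum_apply, ← hN] at e2
  exact e2

end Abs

theorem CBGood_short' (h : IsAct (KG lab₀) act) (hA : InvX (KG lab₀) act A) (hl : LC A)
    (hc : ClosedIn A' A) (g' : Good lab₀ act A') (gU : Good lab₀ act (A \ A')) {E : Set (Fr V)}
    (hE : GenF lab₀ E) :
    Function.Injective (ext (BS (KG lab₀) act (A \ A') E) (BS (KG lab₀) act A E)) ∧
    Function.Exact (ext (BS (KG lab₀) act (A \ A') E) (BS (KG lab₀) act A E))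
      (res (BS (KG lab₀) act A E) (BS (KG lab₀) act A' E)) ∧
    Function.Surjective (res (BS (KG lab₀) act A E) (BS (KG lab₀) act A' E)) := by
  have := h.nice
  exact CBGood_short (hE.ok.lc_BS h Subset.rfl hA hl) (hE.ok.closedIn_BS h Subset.rfl hA hc)
    (hE.ok.BS_diff h Subset.rfl A g'.inv) (gU.even E hE) (g'.even E hE)

theorem CBGood_tow [Nice (Bor (KG lab₀) act)] (h : IsAct (KG lab₀) act)
    (hA : InvX (KG lab₀) act A) (hl : LC A) (hc : ClosedIn A' A) (g' : Good lab₀ act A')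
    (gU : Good lab₀ act (A \ A')) : CBGood_Tow (BL (KG lab₀) act A lab₀)
      (BL (KG lab₀) act A' lab₀) (BL (KG lab₀) act (A \ A') lab₀) :=
  ⟨closedIn_BL h Subset.rfl hA, closedIn_BL h Subset.rfl g'.inv, closedIn_BL h Subset.rfl gU.inv,
    fun n => (frOK_St lab₀ n).closedIn_BS h Subset.rfl hA hc,
    fun n => (frOK_St lab₀ n).openIn_BS h Subset.rfl hA hc.diff,
    fun n => (frOK_St lab₀ (n + 1)).BS_inter (frOK_St lab₀ n) (St_mono lab₀ n.le_succ) h Subset.rfl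
      gU.inv sdiff_subset,
    fun n => (CBGood_short' h hA hl hc g' gU (genF_St lab₀ n)).1,
    fun n => (CBGood_short' h hA hl hc g' gU (genF_St lab₀ n)).2.1,
    fun n => (CBGood_short' h hA hl hc g' gU (genF_St lab₀ n)).2.2,
    fun n => gU.onto _ _ (genF_St lab₀ (n + 1)) (genF_St lab₀ n) (St_mono lab₀ n.le_succ)⟩

theorem Good.empty (lab₀ : V → Λ₀) (act : Matrix V V ℂ → X → X) : Good lab₀ act ∅ := by
  have h0 : ∀ E, Subsingleton (Hc (BS (KG lab₀) act ∅ E)) := fun E => by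
    have h1 : BS (KG lab₀) act ∅ E = ∅ := eq_empty_of_forall_notMem fun _ ⟨_, hx, _⟩ => hx
    rw [h1]
    infer_instance
  exact ⟨fun _ _ _ hx => hx.elim, fun _ hx => hx.elim, fun _ _ _ _ _ => Subsingleton.elim _ _,
    fun _ _ => Module.Finite.of_finite, fun _ _ _ _ _ y => ⟨0, Subsingleton.elim _ _⟩⟩

theorem Good.glue (h : IsAct (KG lab₀) act) (hA : InvX (KG lab₀) act A) (hl : LC A)
    (hc : ClosedIn A' A) (g' : Good lab₀ act A') (gU : Good lab₀ act (A \ A')) :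
    Good lab₀ act A := by
  have := h.nice
  refine ⟨hA, hl, fun E hE k x hk => ?_, fun E hE => ?_, fun E E' hE hE' hs x => ?_⟩
  · exact LinearMap.congr_fun (prH_eq_zero_total (hE.ok.lc_BS h Subset.rfl hA hl)
      (hE.ok.closedIn_BS h Subset.rfl hA hc) (hE.ok.BS_diff h Subset.rfl A g'.inv)
      (LinearMap.ext fun y => gU.even E hE k y hk) (LinearMap.ext fun y => g'.even E hE k y hk)) x
  · obtain ⟨-, h1, h2⟩ := CBGood_short' h hA hl hc g' gU hE
    have := gU.fin E hE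
    have := g'.fin E hE
    exact Module.Finite.of_exact h1 h2
  · obtain ⟨-, h1, h2⟩ := CBGood_short' h hA hl hc g' gU hE
    obtain ⟨-, h3, -⟩ := CBGood_short' h hA hl hc g' gU hE'
    obtain ⟨β, hβ⟩ := g'.onto E E' hE hE' hs (res _ _ x)
    obtain ⟨y, hy, -⟩ := CBGood_sq (hE.ok.closedIn_BS h Subset.rfl hA hc)
      (hE'.ok.closedIn_BS h Subset.rfl hA hc) (hE.ok.closedIn_frames hE'.ok hs h Subset.rfl hA)
      (hE.ok.closedIn_frames hE'.ok hs h Subset.rfl g'.inv)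
      (hE.ok.openIn_BS h Subset.rfl hA hc.diff)
      (hE.ok.BS_inter hE'.ok hs h Subset.rfl gU.inv sdiff_subset) h1 h2 h3
      (gU.onto E E' hE hE' hs) hβ.symm
    exact ⟨y, hy⟩

/-- The long exact sequence splits. -/
theorem Good.short (h : IsAct (KG lab₀) act) (hA : InvX (KG lab₀) act A) (hl : LC A)
    (hc : ClosedIn A' A) (g' : Good lab₀ act A') (gU : Good lab₀ act (A \ A')) {E : Set (Fr V)}
    (hE : GenF lab₀ E) :
    Function.Injective (ext (BS (KG lab₀) act (A \ A') E) (BS (KG lab₀) act A E)) ∧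
    Function.Exact (ext (BS (KG lab₀) act (A \ A') E) (BS (KG lab₀) act A E))
      (res (BS (KG lab₀) act A E) (BS (KG lab₀) act A' E)) ∧
    Function.Surjective (res (BS (KG lab₀) act A E) (BS (KG lab₀) act A' E)) :=
  CBGood_short' h hA hl hc g' gU hE

/-- Extension by zero from an open subset. -/
theorem fam_ext (h : IsAct (KG lab₀) act) (hA : InvX (KG lab₀) act A) (hU : InvX (KG lab₀) act U)
    (ho : OpenIn U A) {u : Fam (Bor (KG lab₀) act)} (hu : IsFam True (BL (KG lab₀) act U lab₀) u) :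
    ∃ a, IsFam True (BL (KG lab₀) act A lab₀) a ∧ IsFam True (BL (KG lab₀) act U lab₀) a ∧
      FamEq True (BL (KG lab₀) act U lab₀) a u ∧
      ∀ n, supp (BL (KG lab₀) act A lab₀ n) (a n) ⊆ BL (KG lab₀) act U lab₀ n := by
  have := h.nice
  exact CBGood_ext (fun n => (frOK_St lab₀ n).openIn_BS h Subset.rfl hA ho)
    (fun n => (closedIn_BL h Subset.rfl hA n).subset)
    (fun n => (frOK_St lab₀ (n + 1)).BS_inter (frOK_St lab₀ n) (St_mono lab₀ n.le_succ) h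
      Subset.rfl hU ho.subset) hu

/-- Lifting from a closed subset. -/
theorem fam_lift (h : IsAct (KG lab₀) act) (hA : InvX (KG lab₀) act A) (hl : LC A)
    (hc : ClosedIn A' A) (g' : Good lab₀ act A') (gU : Good lab₀ act (A \ A'))
    {b : Fam (Bor (KG lab₀) act)} (hb : IsFam True (BL (KG lab₀) act A' lab₀) b) :
    ∃ a, IsFam True (BL (KG lab₀) act A lab₀) a ∧ FamEq True (BL (KG lab₀) act A' lab₀) a b := by
  have := h.nice
  exact CBGood_lift (CBGood_tow h hA hl hc g' gU) hb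

/-- A family that vanishes on the closed subset comes from the open complement. -/
theorem fam_ker (h : IsAct (KG lab₀) act) (hA : InvX (KG lab₀) act A) (hl : LC A)
    (hc : ClosedIn A' A) (g' : Good lab₀ act A') (gU : Good lab₀ act (A \ A'))
    {a : Fam (Bor (KG lab₀) act)} (ha : IsFam True (BL (KG lab₀) act A lab₀) a)
    (h0 : FamEq True (BL (KG lab₀) act A' lab₀) a 0) :
    ∃ b, IsFam True (BL (KG lab₀) act A lab₀) b ∧ IsFam True (BL (KG lab₀) act (A \ A') lab₀) b ∧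
      FamEq True (BL (KG lab₀) act A lab₀) a b ∧
      ∀ n, supp (BL (KG lab₀) act A lab₀ n) (b n) ⊆ BL (KG lab₀) act (A \ A') lab₀ n := by
  have := h.nice
  exact CBGood_ker (CBGood_tow h hA hl hc g' gU) ha h0

theorem famEq_zero_of_supp (h : IsAct (KG lab₀) act) (hA : InvX (KG lab₀) act A) (ho : OpenIn U A)
    {b : Fam (Bor (KG lab₀) act)}
    (hs : ∀ n, supp (BL (KG lab₀) act A lab₀ n) (b n) ⊆ BL (KG lab₀) act U lab₀ n)
    (h0 : FamEq True (BL (KG lab₀) act U lab₀) b 0) : FamEq True (BL (KG lab₀) act A lab₀) b 0 := by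
  have := h.nice
  refine famEq_true.2 fun n => Tw_BB_of_supp ((frOK_St lab₀ n).openIn_BS h Subset.rfl hA ho) ?_
    (famEq_true.1 h0 n)
  rw [Pi.zero_apply, sub_zero]
  exact hs n

theorem Good.fin_fib (h : IsAct (KG lab₀) act) (g : Good lab₀ act A) :
    FiniteDimensional ℂ (Hc A) := by
  obtain ⟨e, he⟩ := St_nonempty lab₀ le_rfl
  have := g.fin _ (genF_orb he)
  exact Module.Finite.of_surjective _ (fib_bijective h g.inv g.lc he).2

theorem Good.even_fib (h : IsAct (KG lab₀) act) (g : Good lab₀ act A) {k : ℤ} (hk : Odd k)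
    (x : Hc A) : prH _ _ k x = 0 := by
  obtain ⟨e, he⟩ := St_nonempty lab₀ le_rfl
  obtain ⟨y, rfl⟩ := (fib_bijective h g.inv g.lc he).2 x
  rw [CBGood_tw_prH (((genF_orb he).ok.proper_fib h Subset.rfl g.inv (mem_orb lab₀ e)).twOK
    (one_mem_ZZ A)), g.even _ (genF_orb he) k y hk, map_zero]

/-- Every class of the fibre extends to a family. -/
theorem Good.exists_fam (h : IsAct (KG lab₀) act) (g : Good lab₀ act A) {k : ℤ} {x : Hc A}
    (hx : prH _ _ k x = x) : ∃ a, IsFam True (BL (KG lab₀) act A lab₀) a ∧ Homog k a ∧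
      ∀ n, ∀ e ∈ St lab₀ n, clc A (pb (fib (KG lab₀) act e) (a n)) = x := by
  obtain ⟨m, e₀, he₀⟩ : ∃ m, (St lab₀ m).Nonempty := ⟨_, St_nonempty lab₀ le_rfl⟩
  have hp := (genF_orb he₀).ok.proper_fib h Subset.rfl g.inv (mem_orb lab₀ e₀)
  have hpp : ∀ (B : Set (Bor (KG lab₀) act)) (y : Hc B), prH _ _ k (prH _ _ k y) = prH _ _ k y :=
    fun B y => by rw [prH_prH, if_pos rfl]
  have hc : ∀ n, ClosedIn (BL (KG lab₀) act A lab₀ (m + n))
      (BL (KG lab₀) act A lab₀ (m + (n + 1))) := fun n => closedIn_BL h Subset.rfl g.inv (m + n)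
  have hco := (frOK_St lab₀ m).closedIn_frames (genF_orb he₀).ok (orb_subset he₀) h Subset.rfl
    g.inv
  obtain ⟨y, hy⟩ := (fib_bijective h g.inv g.lc he₀).2 x
  obtain ⟨y₀, hy₀⟩ := g.onto _ _ (genF_St lab₀ m) (genF_orb he₀) (orb_subset he₀) y
  obtain ⟨z, z0, z1, z2⟩ := CBGood_seq (M := fun n => Hc (BL (KG lab₀) act A lab₀ (m + n)))
    (fun n z => prH _ _ k z = z) (fun n y z => res _ _ y = z) (x₀ := prH _ _ k y₀) (hpp _ y₀)
    (fun n z hz => by
      obtain ⟨w, hw⟩ := g.onto _ _ (genF_St lab₀ (m + (n + 1))) (genF_St lab₀ (m + n))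
        (St_mono lab₀ (by omega)) z
      exact ⟨prH _ _ k w, hpp _ w, by rw [← CBGood_tw_prH (CBGood_twOK (hc n)), hw, hz]⟩)
  obtain ⟨a, ha, hk, h1⟩ := Pool.Agent.HK.exists_fam hc z z2 z1
  have ha' : IsFam True (BL (KG lab₀) act A lab₀) a := ha.restrict fun n =>
    (frOK_St lab₀ (m + n)).closedIn_frames (frOK_St lab₀ n) (St_mono lab₀ (by omega)) h
      Subset.rfl g.inv
  refine ⟨a, ha', hk, fun n e he => ?_⟩
  have h2 := fib_indep h Subset.rfl g.inv g.lc ha' he he₀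
  have h3 := pb_mem_BB_cc ((frOK_St lab₀ m).proper_fib h Subset.rfl g.inv he₀)
    (ha.compat hc (Nat.zero_le m)).2
  have h4 : a 0 ∈ ZZ (cc (BL (KG lab₀) act A lab₀ m)) (BL (KG lab₀) act A lab₀ m) :=
    (isFam_true.1 ha).1 0
  have h5 := CBGood_ZZ hco h4
  have h6 : clc A (pb (fib (KG lab₀) act e₀) (a 0)) = x := by
    have h7 : clc (BL (KG lab₀) act A lab₀ m) (a 0) = prH _ _ k y₀ := (h1 0).trans z0
    rw [← cup_one (pb_mem_ZZ_cc hp h5).1.1.1, ← tw_cls (hp.twOK (one_mem_ZZ A)) h5,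
      ← LES_res hco h4, h7, ← CBGood_tw_prH (CBGood_twOK hco), hy₀,
      ← CBGood_tw_prH (hp.twOK (one_mem_ZZ A)), hy, hx]
  rw [← h6, cls_eq_iff (pb_mem_ZZ_cc ((frOK_St lab₀ n).proper_fib h Subset.rfl g.inv he)
    ((isFam_true.1 ha').1 n)) (pb_mem_ZZ_cc hp h5), ← sub_add_sub_cancel, ← pb_sub (fib _ _ e₀)]
  exact add_mem h2 h3

end Pool.Agent.HK
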