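import Pool.Agent.P.MP_1206ce_ag.CB.FiltA
import Pool.Agent.P.MP_1206ce_ag.CB.Good
import Pool.Agent.P.MP_1206ce_ag.BG.Strata

/-! The image and the kernel of the evaluation maps; weights. -/

open scoped Topology
open Filter Set

noncomputable section

namespace Pool.Agent.HK

namespace Qv

variable {Q : Qv} {ζ : ℂ} {l : Q.Lam} {m d : ℕ} {RC : Q.Lam → Set Q.Tr} {B : Finset Q.Lam}
  {a : Fam Q.YR}

theorem CBFiltB_OB_empty (Q : Qv) (RC : Q.Lam → Set Q.Tr) : Q.OB RC ∅ = ∅ := by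
  simp [OB]

/-- Restriction of a family to a closed subset. -/
theorem CBFiltB_res {S S' : Set Q.Tr} (hS : InvX Q.KK Q.actR S) (hc : ClosedIn S' S)
    (ha : IsFam True (Q.BR S) a) : IsFam True (Q.BR S') a :=
  ha.restrict fun n => (frOK_St Q.lab n).closedIn_BS Q.isAct_R Subset.rfl hS hc

theorem Strat.good_Sat (h : Q.Strat m d RC) (hl : l ∈ Q.Box m) :
    Good Q.lab Q.actR (Q.Sat (RC l)) := by
  obtain ⟨co, ρ, hc, -⟩ := h.cell hl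
  exact hc.good
theorem Strat.good_OB (h : Q.Strat m d RC) (hB : Q.Up m B) :
    Good Q.lab Q.actR (Q.OB RC B) := by
  refine h.up_induct (P := fun B => Good Q.lab Q.actR (Q.OB RC B)) ?_ ?_ hB
  · rw [CBFiltB_OB_empty]
    exact Good.empty _ _
  · intro B B' l hB _ _ hl hcl hdiff ih
    exact Good.glue Q.isAct_R (Q.invX_OB RC B) (h.lc_OB hB) hcl (h.good_Sat (hB.sub hl))
      (hdiff ▸ ih)
theorem good_RR (Q : Qv) (hd : 2 * m ≤ d) : Good Q.lab Q.actR (Q.RR m d) := by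
  obtain ⟨RC, h⟩ := Q.exists_strat m d hd
  exact h.OB_Box ▸ h.good_OB (Q.up_Box m)

/-- A family whose evaluation vanishes is zero on the stratum. -/
theorem CBFiltB_inj_Sat (h : Q.Strat m d RC) (hζ : ζ ≠ 0) (hl : l ∈ Q.Box m)
    (ha : IsFam True (Q.BR (Q.Sat (RC l))) a) (h0 : Q.ev ζ l d a = 0) :
    FamEq True (Q.BR (Q.Sat (RC l))) a 0 := by
  obtain ⟨co, ρ, hc, hev⟩ := h.cell hl
  obtain ⟨g, hg, -⟩ := exists_tRel hc.cdT.1 hc.cdT.2 (hc.isFam ha)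
  have h1 := hev ζ a g hg
  rw [h0, eq_comm, smul_eq_zero, mul_eq_zero] at h1
  obtain rfl : g = 0 :=
    (h1.resolve_left (inv_ne_zero (pow_ne_zero _ hζ))).resolve_right (Q.eN_ne_zero l)
  exact hc.inj ha hg

theorem CBFiltB_inj (h : Q.Strat m d RC) (hζ : ζ ≠ 0) (hB : Q.Up m B) :
    ∀ a, IsFam True (Q.BR (Q.OB RC B)) a → (∀ l ∈ B, Q.ev ζ l d a = 0) →
      FamEq True (Q.BR (Q.OB RC B)) a 0 := by
  refine h.up_induct (P := fun B => ∀ a, IsFam True (Q.BR (Q.OB RC B)) a →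
    (∀ l ∈ B, Q.ev ζ l d a = 0) → FamEq True (Q.BR (Q.OB RC B)) a 0) ?_ ?_ hB
  · intro a _ _
    refine FamEq.of_N0 fun n => mem_N0.2 (subset_empty_iff.1 ((supp_subset _ _).trans ?_))
    rw [CBFiltB_OB_empty]
    rintro q ⟨x, hx, -⟩
    exact hx
  · intro B B' l hB hB' hsub hl hcl hdiff ih a ha h0
    have hI := Q.invX_OB RC B
    have h1 := CBFiltB_inj_Sat h hζ (hB.sub hl) (CBFiltB_res hI hcl ha) (h0 l hl)
    obtain ⟨b, -, hb2, hab, hs⟩ := fam_ker Q.isAct_R hI (h.lc_OB hB) hcl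
      (h.good_Sat (hB.sub hl)) (hdiff ▸ h.good_OB hB') ha h1
    rw [← hdiff] at hb2 hs
    have h2 := ih b hb2 fun l' hl' => by
      rw [← ev_congr hI (h.UL_subset_OB hB.sub (hsub hl')) hab ζ]
      exact h0 l' (hsub hl')
    exact hab.trans (famEq_zero_of_supp Q.isAct_R hI (hdiff ▸ hcl.diff) hs h2)

theorem ev_inj (hd : 2 * m ≤ d) (hζ : ζ ≠ 0) (ha : IsFam True (Q.BR (Q.RR m d)) a)
    (h0 : ∀ l ∈ Q.Box m, Q.ev ζ l d a = 0) : FamEq True (Q.BR (Q.RR m d)) a 0 := by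
  obtain ⟨RC, h⟩ := Q.exists_strat m d hd
  rw [← h.OB_Box] at ha ⊢
  exact CBFiltB_inj h hζ (Q.up_Box m) a ha h0
theorem ev_inj' (hd : 2 * m ≤ d) (hζ : ζ ≠ 0) (ha : IsFam True (Q.BR (Q.RR m d)) a)
    {b : Fam Q.YR} (hb : IsFam True (Q.BR (Q.RR m d)) b)
    (h0 : ∀ l ∈ Q.Box m, Q.ev ζ l d a = Q.ev ζ l d b) : FamEq True (Q.BR (Q.RR m d)) a b := by
  refine famEq_sub_zero.1 (ev_inj hd hζ (ha.sub hb) fun l hl => ?_)
  have hU := Q.UL_subset_RR hl d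
  rw [show a - b = a + (-1 : ℂ) • b by rw [neg_one_smul, sub_eq_add_neg],
    ev_add (Q.invX_RR m d) hU ha (hb.smul _), ev_smul (Q.invX_RR m d) hU hb, h0 l hl,
    neg_one_smul, add_neg_cancel]
theorem ev_ex (hd : 2 * m ≤ d) (hζ : ζ ≠ 0) (hl : l ∈ Q.Box m) {g : Q.Pol}
    (hg : g ∈ Rinv (Q.labl l)) : ∃ a, IsFam True (Q.BR (Q.RR m d)) a ∧
      Q.ev ζ l d a = g * Q.eN l ∧ ∀ l' ∈ Q.Box m, Q.nsq l' ≤ Q.nsq l →
        (∀ w ∈ Wl Q.lab, l' ≠ Q.wl w l) → Q.ev ζ l' d a = 0 := by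
  obtain ⟨RC, h⟩ := Q.exists_strat m d hd
  obtain ⟨B, hB, hlB, hmin, hle⟩ := exists_up hl
  obtain ⟨B', hB', -, hdiff⟩ := h.exists_step hB hlB hmin
  obtain ⟨co, ρ, hc, hev⟩ := h.cell hl
  obtain ⟨a₀, ha₀, hT⟩ := hc.exists_fam ((Rinv (Q.labl l)).smul_mem hg (ζ ^ d))
  have hI := Q.invX_OB RC B
  obtain ⟨a₁, ha₁, e₁⟩ := fam_lift Q.isAct_R hI (h.lc_OB hB) (h.closedIn_Sat hB hlB hmin)
    (h.good_Sat hl) (hdiff ▸ h.good_OB hB') ha₀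
  obtain ⟨a₂, ha₂, -, e₂, hs⟩ := fam_ext Q.isAct_R (Q.invX_RR m d) hI (h.openIn_OB hB) ha₁
  refine ⟨a₂, ha₂, ?_, fun l' hl' hn hw => ?_⟩
  · rw [ev_congr hI (h.UL_subset_OB hB.sub hlB) e₂ ζ,
      ev_congr (Q.invX_Sat _) (h.UL_subset hl) e₁ ζ, hev ζ a₀ _ hT, smul_mul_assoc, smul_smul,
      inv_mul_cancel₀ (pow_ne_zero _ hζ), one_smul]
  · refine ev_of_supp (Q.invX_RR m d) (Q.UL_subset_RR hl' d) hI
      (h.disjoint_UL hB hl' fun hn' => ?_) hs ζ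
    obtain ⟨w, hw', e⟩ := hle l' hn' hn
    exact hw w hw' e
theorem locData (Q : Qv) (hd : 2 * m ≤ d) (hζ : ζ ≠ 0) :
    Q.LocData (Q.Box m) (Q.EvSet ζ m d) := by
  have hI := Q.invX_RR m d
  refine ⟨fun w hw l hl => Q.wl_mem_Box hw hl, ?_, ?_, ?_, ?_⟩
  · rintro f ⟨a, ha, hf⟩ g ⟨b, hb, hg⟩
    refine ⟨a + b, ha.add hb, fun l hl => ?_⟩
    rw [ev_add hI (Q.UL_subset_RR hl d) ha hb, Pi.add_apply, hf l hl, hg l hl]
  · rintro p hp f ⟨a, ha, hf⟩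
    have hu : IsFam False Q.BK (chC Q.lab p) := isFam_chC (fun _ _ h => h) hp
    refine ⟨cupF (pbF Q.toPt (chC Q.lab p)) a,
      isFam_mul Q.isAct_R (isGrp_KG _) Subset.rfl Subset.rfl hI hu ha, fun l hl => ?_⟩
    rw [ev_mul hI (Q.UL_subset_RR hl d) ha hu, val_chC hp, Pi.smul_apply, smul_eq_mul, hf l hl]
  · rintro f ⟨a, ha, hf⟩ w hw l hl
    rw [hf _ (Q.wl_mem_Box hw hl), hf l hl, ev_wl hI (Q.UL_subset_RR hl d) ha hw]
  · intro l hl g hg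
    obtain ⟨a, ha, h1, h2⟩ := ev_ex hd hζ hl hg
    exact ⟨fun l => Q.ev ζ l d a, ⟨a, ha, fun _ _ => rfl⟩, h1, h2⟩

variable {θ : Fin Q.nI → ℤ} {k : ℤ}

/-- Characters of the circle are distinct. -/
theorem CBFiltB_circle {x y : ℤ} (h : ∀ z : ℂ, ‖z‖ = 1 → z ^ x = z ^ y) : x = y := by
  by_contra hne
  have hc : ((x - y : ℤ) : ℝ) ≠ 0 := Int.cast_ne_zero.2 (sub_ne_zero.2 hne)
  have hz := Complex.norm_exp_ofReal_mul_I (Real.pi / ((x - y : ℤ) : ℝ))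
  have h0 := Complex.exp_ne_zero (((Real.pi / ((x - y : ℤ) : ℝ) : ℝ) : ℂ) * Complex.I)
  have h1 : Complex.exp (((Real.pi / ((x - y : ℤ) : ℝ) : ℝ) : ℂ) * Complex.I) ^ (x - y) = 1 := by
    rw [zpow_sub₀ h0, h _ hz, div_self (zpow_ne_zero _ h0)]
  rw [← Complex.exp_int_mul, ← mul_assoc, ← Complex.ofReal_intCast, ← Complex.ofReal_mul,
    mul_div_cancel₀ _ hc, Complex.exp_pi_mul_I] at h1
  norm_num at h1

theorem CBFiltB_zpow_sum {J : Type} (s : Finset J) (f : J → ℤ) {z : ℂ} (hz : z ≠ 0) :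
    ∏ i ∈ s, z ^ f i = z ^ ∑ i ∈ s, f i := by
  classical
  induction s using Finset.induction_on with
  | empty => simp
  | insert i s hi ih => rw [Finset.prod_insert hi, Finset.sum_insert hi, ih, zpow_add₀ hz]

/-- The block determinant. -/
abbrev CBFiltB_det (Q : Qv) (m : ℕ) (i : Fin Q.nI) (z : ℂ) (p : Q.Tr) : ℂ :=
  Matrix.det (Matrix.of fun a b => if Q.vb a = some i ∧ Q.vb b = some i then
    Q.evl m p.1 z a b else if a = b then 1 else 0)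

theorem CBFiltB_prod (h : Q.Strat m d RC) (hl : l ∈ Q.Box m) {p : Q.Tr} (hp : p ∈ Q.Sat (RC l))
    (θ : Fin Q.nI → ℤ) {z : ℂ} (hz : ‖z‖ = 1) :
    ∏ i, Q.CBFiltB_det m i z p ^ θ i = z ^ Q.wtL θ l := by
  have h0 : z ≠ 0 := by
    rintro rfl
    simp at hz
  simp only [h.charge l hl p hp _ z hz, ← zpow_mul]
  rw [CBFiltB_zpow_sum _ _ h0, wtL, ← Finset.sum_fiberwise Finset.univ Q.vt]
  congr 1
  refine Finset.sum_congr rfl fun i _ => ?_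
  rw [Finset.sum_mul]
  refine Finset.sum_congr rfl fun k hk => ?_
  rw [(Finset.mem_filter.1 hk).2, mul_comm]

theorem CBFiltB_mem (h : Q.Strat m d RC) (hl : l ∈ Q.Box m) {p : Q.Tr} (hp : p ∈ Q.Sat (RC l))
    (θ : Fin Q.nI → ℤ) : p ∈ Q.RRk θ (Q.wtL θ l) m d :=
  ⟨h.Sat_subset hl hp, fun _ hz => CBFiltB_prod h hl hp θ hz⟩

theorem CBFiltB_unique {k' : ℤ} {p : Q.Tr} (h : p ∈ Q.RRk θ k m d) (h' : p ∈ Q.RRk θ k' m d) :
    k = k' :=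
  CBFiltB_circle fun z hz => (h.2 z hz).symm.trans (h'.2 z hz)

theorem CBFiltB_cont (Q : Qv) (m : ℕ) (i : Fin Q.nI) (z : ℂ) :
    Continuous (Q.CBFiltB_det m i z) := by
  refine Continuous.matrix_det (continuous_matrix fun a b => ?_)
  simp only [Matrix.of_apply]
  split_ifs
  · simp only [evl, Matrix.sum_apply, Matrix.smul_apply]
    fun_prop
  · exact continuous_const
  · exact continuous_const

theorem CBFiltB_closed (hd : 2 * m ≤ d) (θ : Fin Q.nI → ℤ) (k : ℤ) :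
    IsClosed (Q.RRk θ k m d) := by
  obtain ⟨RC, h⟩ := Q.exists_strat m d hd
  have e : Q.RRk θ k m d = Q.RR m d ∩ ⋂ z : ℂ, ⋂ _ : ‖z‖ = 1,
      Q.RR m d ∩ (fun p => ∏ i, Q.CBFiltB_det m i z p ^ θ i) ⁻¹' {z ^ k} := by
    ext p
    simp only [mem_inter_iff, mem_iInter, mem_preimage, mem_singleton_iff]
    exact ⟨fun hp => ⟨hp.1, fun z hz => ⟨hp.1, hp.2 z hz⟩⟩,
      fun hp => ⟨hp.1, fun z hz => (hp.2 z hz).2⟩⟩
  rw [e]
  refine (Q.isClosed_RR m d).inter (isClosed_iInter fun z => isClosed_iInter fun hz => ?_)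
  refine ContinuousOn.preimage_isClosed_of_isClosed ?_ (Q.isClosed_RR m d) isClosed_singleton
  refine continuousOn_finsetProd _ fun i _ =>
    (Q.CBFiltB_cont m i z).continuousOn.zpow₀ _ fun p hp => Or.inl ?_
  obtain ⟨l, hl, hp'⟩ := h.cover p hp
  have h0 : z ≠ 0 := by
    rintro rfl
    simp at hz
  rw [CBFiltB_det, h.charge l hl p hp' i z hz]
  exact zpow_ne_zero _ h0

theorem Strat.RRk_eq (h : Q.Strat m d RC) (θ : Fin Q.nI → ℤ) (k : ℤ) :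
    Q.RRk θ k m d = Q.OB RC ((Q.Box m).filter fun l => Q.wtL θ l = k) := by
  ext p
  rw [mem_OB]
  constructor
  · intro hp
    obtain ⟨l, hl, hp'⟩ := h.cover p hp.1
    exact ⟨l, Finset.mem_filter.2 ⟨hl, CBFiltB_unique (CBFiltB_mem h hl hp' θ) hp⟩, hp'⟩
  · rintro ⟨l, hl, hp⟩
    obtain ⟨hl', rfl⟩ := Finset.mem_filter.1 hl
    exact CBFiltB_mem h hl' hp θ
theorem invX_RRk (hd : 2 * m ≤ d) (θ : Fin Q.nI → ℤ) (k : ℤ) :
    InvX Q.KK Q.actR (Q.RRk θ k m d) := by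
  obtain ⟨RC, h⟩ := Q.exists_strat m d hd
  rw [h.RRk_eq]
  exact Q.invX_OB _ _
theorem closedIn_RRk (hd : 2 * m ≤ d) (θ : Fin Q.nI → ℤ) (k : ℤ) :
    ClosedIn (Q.RRk θ k m d) (Q.RR m d) :=
  ⟨_, CBFiltB_closed hd θ k, (inter_eq_right.2 fun _ hp => hp.1).symm⟩
theorem openIn_RRk (hd : 2 * m ≤ d) (θ : Fin Q.nI → ℤ) (k : ℤ) :
    OpenIn (Q.RRk θ k m d) (Q.RR m d) := by
  obtain ⟨RC, h⟩ := Q.exists_strat m d hd
  refine ⟨(⋃ l ∈ (Q.Box m).filter fun l => Q.wtL θ l ≠ k, Q.RRk θ (Q.wtL θ l) m d)ᶜ,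
    (isClosed_biUnion_finset fun l _ => CBFiltB_closed hd θ _).isOpen_compl, ?_⟩
  ext p
  simp only [mem_inter_iff, mem_compl_iff, mem_iUnion, Finset.mem_filter, not_exists]
  refine ⟨fun hp => ⟨hp.1, fun l hl hp' => hl.2 (CBFiltB_unique hp' hp)⟩, fun hp => ?_⟩
  obtain ⟨l, hl, hp'⟩ := h.cover p hp.1
  have h1 := CBFiltB_mem h hl hp' θ
  by_cases e : Q.wtL θ l = k
  · exact e ▸ h1
  · exact absurd h1 (hp.2 l ⟨hl, e⟩)
theorem UL_subset_RRk (hd : 2 * m ≤ d) (hl : l ∈ Q.Box m) (hk : Q.wtL θ l = k) :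
    Q.UL l d ⊆ Q.RRk θ k m d := by
  obtain ⟨RC, h⟩ := Q.exists_strat m d hd
  exact fun p hp => hk ▸ CBFiltB_mem h hl (h.UL_subset hl hp) θ
/-- Cutting off the components of weight `k`. -/
theorem exists_cut (hd : 2 * m ≤ d) (ha : IsFam True (Q.BR (Q.RR m d)) a) (θ : Fin Q.nI → ℤ)
    (k : ℤ) (ζ : ℂ) : ∃ a', IsFam True (Q.BR (Q.RR m d)) a' ∧
      FamEq True (Q.BR (Q.RRk θ k m d)) a' 0 ∧
      ∀ l ∈ Q.Box m, Q.ev ζ l d a' = if Q.wtL θ l = k then 0 else Q.ev ζ l d a := by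
  have hI := Q.invX_RR m d
  have hk := invX_RRk hd θ k
  have hO := InvX.diff Q.isAct_R hI hk
  obtain ⟨a', h1, -, h2, hs⟩ := fam_ext Q.isAct_R hI hO (closedIn_RRk hd θ k).diff
    (CBFiltB_res hI (openIn_RRk hd θ k).diff ha)
  refine ⟨a', h1, FamEq.of_N0 fun n => mem_N0.2 (eq_empty_of_forall_notMem fun q hq => ?_),
    fun l hl => ?_⟩
  · rw [Pi.zero_apply, sub_zero] at hq
    have h3 := hs n (supp_mono (CBEM_mono fun _ hp => hp.1) _ hq)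
    simp only [BL] at h3
    rw [(frOK_St Q.lab n).BS_diff Q.isAct_R Subset.rfl _ hk] at h3
    exact h3.2 (supp_subset _ _ hq)
  · split_ifs with e
    · exact ev_of_supp hI (Q.UL_subset_RR hl d) hO
        (disjoint_left.2 fun p hp hp' => hp'.2 (UL_subset_RRk hd hl e hp)) hs ζ
    · exact ev_congr hO (fun p hp => ⟨Q.UL_subset_RR hl d hp, fun hp' =>
        e (CBFiltB_unique (UL_subset_RRk hd hl rfl hp) hp')⟩) h2 ζ

end Qv

end Pool.Agent.HK
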