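import Pool.Agent.P.MP_1206ce_ag.CB.Fam

/-! Gysin images of families. -/

open scoped Topology
open Filter Set

noncomputable section

namespace Pool.Agent.HK

variable {Y Y' Z : Type} [TopologicalSpace Y] [TopologicalSpace Y'] [TopologicalSpace Z]

theorem IsGysin.smul {A C : Set Y} {B : Set Z} {ball : ℝ → Set Z} {σ : Y → Z} {t₀ : Coch Z}
    {β ω : Coch Y} (h : IsGysin A C B ball σ t₀ β ω) (z z' : ℂ) :
    IsGysin A C B ball σ (z • t₀) (z' • β) ((z * z') • ω) := by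
  obtain ⟨ε, a, t, hε, ha, hb, hd, h1, hc, hs, h2⟩ := h
  rw [adm_true] at ha
  rw [cohom_true] at hb hc h2
  rw [cocycle_true] at h1
  refine ⟨ε, z' • a, z • t, hε, adm_true.2 ((CC _ _).smul_mem z' ha), cohom_true.2 ?_,
    fun y hy => ?_, cocycle_true.2 ((ZZ _ _).smul_mem z h1), cohom_true.2 ?_,
    (supp_smul B z t).trans hs, cohom_true.2 ?_⟩
  · rw [← smul_sub]
    exact (BB _ _).smul_mem z' hb
  · rw [dd_smul] at hy
    exact hd y (supp_smul A z' _ hy)
  · rw [← smul_sub]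
    exact (BB _ _).smul_mem z hc
  · rw [pb_smul, smul_cup, cup_smul, smul_smul, mul_comm z' z, ← smul_sub]
    exact (BB _ _).smul_mem _ h2
theorem IsGysin.congr_map {A C : Set Y} {B : Set Z} {ball : ℝ → Set Z} {σ σ' : Y → Z}
    {t₀ : Coch Z} {β ω : Coch Y} (h : IsGysin A C B ball σ t₀ β ω) (he : EqOn σ σ' A) :
    IsGysin A C B ball σ' t₀ β ω := by
  obtain ⟨ε, a, t, hε, ha, hb, hd, h1, hc, hs, h2⟩ := h
  refine ⟨ε, a, t, hε, ha, hb, fun y hy => ?_, h1, hc, hs, cohom_true.2 ?_⟩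
  · rw [← he (supp_subset A _ hy)]
    exact hd y hy
  · have e : ω - cup a (Pool.Agent.HK.pb σ' t) = (ω - cup a (Pool.Agent.HK.pb σ t)) +
        cup a (Pool.Agent.HK.pb σ t - Pool.Agent.HK.pb σ' t) := by
      rw [cup_sub]
      abel
    rw [e]
    exact (BB _ _).add_mem (cohom_true.1 h2)
      (N0_le_BB _ _ (Basic_N0_cup_right a (mem_N0.2 (supp_pb_congr he t))))
theorem GysinData.congr_map {A C : Set Y} {B : Set Z} {ball : ℝ → Set Z} {σ σ' : Y → Z}
    {ν : Z → ℝ} (h : GysinData A C B ball σ ν) (he : EqOn σ σ' A) : GysinData A C B ball σ' ν :=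
  { lcA := h.lcA
    lcB := h.lcB
    cont := h.cont.congr he.symm
    maps := fun y hy => by
      rw [← he hy]
      exact h.maps hy
    contν := h.contν
    nonneg := h.nonneg
    ball_iff := h.ball_iff
    zero := by
      rw [h.zero]
      ext y
      refine and_congr_right fun hy => ?_
      simp only [mem_ofPred_eq, he hy]
    out := h.out }
theorem GysinData.pb {A C : Set Y} {B : Set Z} {ball : ℝ → Set Z} {σ : Y → Z} {ν : Z → ℝ}
    (h : GysinData A C B ball σ ν) {A' C' : Set Y'} (hl : LC A') {f : Y' → Y}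
    (hf : ContinuousOn f A') (hm : MapsTo f A' A) (hC : C' = A' ∩ f ⁻¹' C) :
    GysinData A' C' B ball (σ ∘ f) ν :=
  { lcA := hl
    lcB := h.lcB
    cont := h.cont.comp hf hm
    maps := h.maps.comp hm
    contν := h.contν
    nonneg := h.nonneg
    ball_iff := h.ball_iff
    zero := by
      rw [hC, h.zero]
      ext y
      exact ⟨fun hy => ⟨hy.1, hy.2.2⟩, fun hy => ⟨hy.1, hm hy.1, hy.2⟩⟩
    out := h.out }

variable [Nice Y] [Nice Z]

omit [Nice Y] in
/-- The Gysin map is homogeneous. -/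
theorem GysinData.prC {A C : Set Y} {B : Set Z} {ball : ℝ → Set Z} {σ : Y → Z} {ν : Z → ℝ}
    (hG : GysinData A C B ball σ ν) {t₀ : Coch Z} {r : ℤ} (hr : HomC r t₀) {β ω : Coch Y}
    (h : IsGysin A C B ball σ t₀ β ω) (k : ℤ) :
    IsGysin A C B ball σ t₀ (prC k β) (prC (k + r) ω) := by
  obtain ⟨ε, a, t, hε, ha, hb, hd, h1, hc, hs, h2⟩ := h
  rw [adm_true] at ha
  rw [cohom_true] at hb hc h2
  rw [cocycle_true] at h1
  have h3 : Pool.Agent.HK.prC r t - t₀ ∈ BB (cc B) B := by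
    have := prC_mem_BB r hc
    rwa [Basic_prC_sub, hr.prC_self] at this
  have h4 : Pool.Agent.HK.prC r t ∈ ZZ (cc B) B := prC_mem_ZZ r h1
  have h5 : supp B (Pool.Agent.HK.prC r t) ⊆ ball ε := (supp_prC B r t).trans hs
  have h6 : t - Pool.Agent.HK.prC r t ∈ BB (cc B) B := by
    have e : t - Pool.Agent.HK.prC r t = (t - t₀) - (Pool.Agent.HK.prC r t - t₀) := by abel
    rw [e]
    exact (BB _ _).sub_mem hc h3
  have h7 := Gysin_stepA hG ha hε hd h1 h4 h6 hs h5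
  have h8 : ω - cup a (Pool.Agent.HK.pb σ (Pool.Agent.HK.prC r t)) ∈ BB (cc A) A := by
    have := (BB _ _).add_mem h2 h7
    rwa [sub_add_sub_cancel] at this
  refine ⟨ε, Pool.Agent.HK.prC k a, Pool.Agent.HK.prC r t, hε,
    adm_true.2 (Basic_prC_mem_CC k ha), cohom_true.2 ?_, fun y hy => ?_, cocycle_true.2 h4,
    cohom_true.2 h3, h5, cohom_true.2 ?_⟩
  · rw [← Basic_prC_sub]
    exact prC_mem_BB k hb
  · rw [← prC_dd] at hy
    exact hd y (supp_prC A _ _ hy)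
  · rw [← prC_cup_right k a ((HomC.prC r t).pb σ), ← Basic_prC_sub]
    exact prC_mem_BB _ h8
theorem exists_gysin_fam {A C : ℕ → Set Y} {B : ℕ → Set Z} {ball : ℝ → Set Z} {σ : Y → Z}
    {ν : Z → ℝ} (hG : ∀ n, GysinData (A n) (C n) (B n) ball σ ν)
    (hA : ∀ n, ClosedIn (A n) (A (n + 1))) (hB : ∀ n, ClosedIn (B n) (B (n + 1))) {t₀ : Fam Z}
    (ht : IsFam True B t₀) {r : ℤ} (hr : Homog r t₀) {β : Fam Y} (hβ : IsFam True C β) :
    ∃ ω, IsFam True A ω ∧ ∀ n, IsGysin (A n) (C n) (B n) ball σ (t₀ n) (β n) (ω n) := by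
  obtain ⟨ht1, ht2, -⟩ := ht
  obtain ⟨hβ1, hβ2, N, hN⟩ := hβ
  have hex := fun n => (hG n).exists (cocycle_true.1 (ht1 n)) (cocycle_true.1 (hβ1 n))
  choose ω₀ hω₀ hI using hex
  set M : ℕ := N + r.toNat with hM
  have hhigh : ∀ n, ∀ j : ℕ, M ≤ j → prC (j : ℤ) (ω₀ n) ∈ BB (cc (A n)) (A n) := by
    intro n j hj
    have h1 := (hG n).prC (r := r) (hr n) (hI n) ((j : ℤ) - r)
    have h2 : prC ((j : ℤ) - r) (β n) = (0 : ℂ) • β n := by
      funext l
      rw [zero_smul]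
      by_cases h : (l.length : ℤ) = (j : ℤ) - r + 1
      · exact (if_pos h).trans (hN n l (by omega))
      · exact if_neg h
    have h3 := (hI n).smul 1 0
    rw [sub_add_cancel, h2] at h1
    have h4 := (hG n).unique (by rw [one_smul, sub_self]; exact (BB _ _).zero_mem)
      (by rw [sub_self]; exact (BB _ _).zero_mem) h1 h3
    rwa [mul_zero, zero_smul, sub_zero] at h4
  have hclose : ∀ n, ω₀ n - ∑ j ∈ Finset.range M, prC (j : ℤ) (ω₀ n) ∈ BB (cc (A n)) (A n) := by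
    intro n
    obtain ⟨N', hN'⟩ := (mem_CC.1 (mem_ZZ.1 (hω₀ n)).1).1.sum_prC
    have h1 := hN' (M + N') (Nat.le_add_left _ _)
    rw [Finset.sum_range_add] at h1
    have h2 : ω₀ n - ∑ j ∈ Finset.range M, prC (j : ℤ) (ω₀ n) =
        ∑ j ∈ Finset.range N', prC ((M + j : ℕ) : ℤ) (ω₀ n) := sub_eq_of_eq_add' h1
    rw [h2]
    exact (BB _ _).sum_mem fun j _ => hhigh n _ (Nat.le_add_right _ _)
  have hI' : ∀ n, IsGysin (A n) (C n) (B n) ball σ (t₀ n) (β n)
      (∑ j ∈ Finset.range M, prC (j : ℤ) (ω₀ n)) := fun n =>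
    (hI n).congr (by rw [sub_self]; exact (BB _ _).zero_mem)
      (by rw [sub_self]; exact (BB _ _).zero_mem) (hclose n)
  refine ⟨fun n => ∑ j ∈ Finset.range M, prC (j : ℤ) (ω₀ n), ⟨fun n => cocycle_true.2
    ((ZZ _ _).sum_mem fun j _ => prC_mem_ZZ _ (hω₀ n)), fun n => cohom_true.2 ?_, M,
    fun n l hl => ?_⟩, hI'⟩
  · have hC : C n = A n ∩ id ⁻¹' C (n + 1) := by
      rw [(hG n).zero, (hG (n + 1)).zero]
      ext y
      exact ⟨fun hy => ⟨hy.1, (hA n).subset hy.1, hy.2⟩, fun hy => ⟨hy.1, hy.2.2⟩⟩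
    have h1 := ((hI' (n + 1)).pb (Gysin_closedC (hG (n + 1))).subset (hA n).properOn
      hC).restrict_target (hB n)
    rw [pb_id, pb_id, Function.comp_id] at h1
    exact (hG n).unique (cohom_true.1 (ht2 n)) (cohom_true.1 (hβ2 n)) h1 (hI' n)
  · refine (Finset.sum_apply l _ _).trans ?_
    refine Finset.sum_eq_zero fun j hj => if_neg ?_
    have := Finset.mem_range.1 hj
    omega

end Pool.Agent.HK
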