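import Pool.Agent.P.MP_1206ce_ag.CB.Tr
import Pool.Agent.P.MP_1206ce_ag.CB.GysF

/-! The Gysin map of a section over a coordinate space. -/

open scoped Topology
open Filter Set

noncomputable section

namespace Pool.Agent.HK

variable {V Λ₀ X X' ι ι₀ κ κ₀ : Type} [Fintype V] [DecidableEq V] [TopologicalSpace X]
  [TopologicalSpace X'] [Nice X] [Nice X'] [Fintype ι] [Fintype ι₀] [Fintype κ] [Fintype κ₀]

section Aux

variable {Y : Type} [TopologicalSpace Y] {A : Set Y} {a b : Coch Y}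

theorem CBGysT_left (ha : a ∈ ZZ ⊥ A) (hb : b ∈ BB (cc A) A) : cup a b ∈ BB (cc A) A := by
  obtain ⟨e, he, h⟩ := hb
  have h1 := Gysin_right (σ := id) continuousOn_id (mapsTo_id A) ha.1.1 he.1 h
    (fun y hy => by
      rw [mem_N0.1 ha.2] at hy
      exact hy.elim) (mem_CC_cc.1 he).2 (supp_subset A e) inter_subset_right
  rwa [pb_id] at h1

theorem CBGysT_right (ha : a ∈ BB ⊥ A) (hb : b ∈ ZZ (cc A) A) : cup a b ∈ BB (cc A) A := by
  obtain ⟨e, he, h⟩ := ha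
  have h1 := mem_CC_cc.1 hb.1
  refine ⟨cup e b, Gysin_CC (he.1.cup h1.1) h1.2 (supp_subset A b)
    ((supp_cup A e b).trans inter_subset_right), ?_⟩
  rw [dd_cup he.1.1 h1.1.1, ← sub_sub, ← sub_cup]
  exact sub_mem (Basic_N0_cup_left h b) (Basic_N0_cup_right _ hb.2)

theorem CBGysT_bound {ι μ : Type} [Fintype ι] [Fintype μ] (A : (ι → ℂ) ≃ₗ[ℂ] (μ → ℂ)) (R : ℝ) :
    ∃ R' : ℝ, ∀ v, (∀ k, ‖A v k‖ ≤ R) → ∀ i, ‖v i‖ ≤ R' := by
  obtain ⟨R', hR'⟩ := ((isCompact_univ_pi fun _ : μ => isCompact_closedBall (0 : ℂ) R).image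
    A.symm.toLinearMap.continuous_of_finiteDimensional).isBounded.exists_norm_le
  exact ⟨R', fun v hv i => (norm_le_pi_norm v i).trans (hR' v
    ⟨A v, fun k _ => mem_closedBall_zero_iff.2 (hv k), A.symm_apply_apply v⟩)⟩

theorem CBGysT_prod {ι κ μ M : Type} [Fintype ι] [Fintype κ] [CommMonoid M] (j : μ → κ)
    [DecidablePred fun i => i ∈ Set.range j]
    [DecidablePred fun i => i ∈ Set.range (Sum.map id j : ι ⊕ μ → ι ⊕ κ)] (F : ι ⊕ κ → M) :
    ∏ i ∈ Finset.univ.filter (fun i => i ∉ Set.range (Sum.map id j : ι ⊕ μ → ι ⊕ κ)), F i =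
      ∏ i ∈ Finset.univ.filter (fun i => i ∉ Set.range j), F (Sum.inr i) := by
  rw [Finset.prod_filter, Finset.prod_filter, Fintype.prod_sum_type,
    Finset.prod_eq_one fun i _ => if_neg (not_not.2 ⟨Sum.inl i, rfl⟩), one_mul]
  refine Finset.prod_congr rfl fun k _ => if_congr (not_congr ⟨?_, ?_⟩) rfl rfl
  · rintro ⟨i | i, h⟩
    · exact absurd h Sum.inl_ne_inr
    · exact ⟨i, Sum.inr_injective h⟩
  · rintro ⟨i, rfl⟩
    exact ⟨Sum.inr i, rfl⟩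

end Aux

theorem gysT {lab₀ : V → Λ₀} {act : Matrix V V ℂ → X → X} {act' : Matrix V V ℂ → X' → X'}
    {K : Set (Matrix V V ℂ)} {S C : Set X} {B : Set X'} {σ : X → X'} {co : X → ι → ℂ}
    {χ : ι → V → ℤ} (hS : Cd lab₀ (TT V) act S co) (hc : IsCoord (TT V) act S co χ)
    {coC : X → ι₀ → ℂ} {χC : ι₀ → V → ℤ} (hcC : IsCoord (TT V) act S coC χC)
    {coB : X' → κ → ℂ} {χB : κ → V → ℤ} (hB : Cd lab₀ K act' B coB)
    (hcB : IsCoord (TT V) act' B coB χB) (hσ : EM lab₀ (TT V) act S K act' B σ) (j : κ₀ → κ)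
    (hj : Function.Injective j) [DecidablePred fun i => i ∈ Set.range j]
    (A : (ι → ℂ) ≃ₗ[ℂ] (ι₀ ⊕ κ₀ → ℂ))
    (hA : ∀ x ∈ S, A (co x) = Sum.elim (coC x) fun k => coB (σ x) (j k))
    {ball : ℝ → Set (Bor K act')} {ν : Bor K act' → ℝ}
    (hG : ∀ n, GysinData (BL (TT V) act S lab₀ n) (BL (TT V) act C lab₀ n) (BL K act' B lab₀ n)
      ball (bmap K act' σ id) ν)
    (hν : ∀ R : ℝ, ∃ R' : ℝ, ∀ x ∈ B, ∀ e, ν (bmk K act' (x, e)) ≤ R → ∀ k, ‖coB x k‖ ≤ R')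
    {t₀ : Fam (Bor K act')} (ht : ∀ n, IsTh K act' B (St lab₀ n) coB (t₀ n))
    {β ω : Fam (Bor (TT V) act)} {P : MvPolynomial V ℂ} (hβ : TRel act C lab₀ coC χC β P)
    (hω : ∀ n, IsGysin (BL (TT V) act S lab₀ n) (BL (TT V) act C lab₀ n) (BL K act' B lab₀ n)
      ball (bmap K act' σ id) (t₀ n) (β n) (ω n)) :
    TRel act S lab₀ co χ ω
      (P * ∏ i ∈ Finset.univ.filter (fun i => i ∉ Set.range j), linF (χB i)) := by
  classical
  intro n
  have hE := frOK_St lab₀ n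
  have hN := hS.ha.nice
  have hN' := hB.ha.nice
  have hBT : Cd lab₀ (TT V) act' B coB := hB.mono hS.ha.grp hσ.sub
  have hσT : EM lab₀ (TT V) act S (TT V) act' B σ :=
    ⟨hS.ha, hBT.ha, Subset.rfl, hS.le, hS.inv, hBT.inv, hσ.eqv, hσ.cont, hσ.maps⟩
  have hK : EM lab₀ (TT V) act' B K act' B id :=
    EM.of_subset hB.ha hS.ha.grp hσ.sub hB.le hBT.inv hB.inv Subset.rfl
  have hI : Inv (TT V) act (S ×ˢ St lab₀ n) := hE.inv_prod hS.le hS.inv
  have hn : S ×ˢ St lab₀ n ⊆ S ×ˢ Inj (id : V → V) n :=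
    prod_mono Subset.rfl ((St_subset_Inj lab₀ n).trans (Inj_subset_id lab₀ n))
  have hpz : ∀ p, polyX (TT V) act p ∈ ZZ ⊥ (BS (TT V) act S (St lab₀ n)) := fun p => by
    rw [BS_eq]
    exact polyX_mem_ZZ hS.ha Subset.rfl (fun q hq => (hn hq).2) p
  have ha : cup (polyX (TT V) act P) (tauT (TT V) act coC χC) ∈
      ZZ ⊥ (BS (TT V) act S (St lab₀ n)) := by
    refine cup_mem_ZZ (hpz P) ?_
    rw [BS_eq]
    exact tauT_mem_ZZ hS.ha Subset.rfl hcC hI hn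
  have hbd : ∀ R : ℝ, ∃ R' : ℝ, ∀ x ∈ S, (∀ i, ‖coC x i‖ ≤ 1) → (∀ k, ‖coB (σ x) k‖ ≤ R) →
      ∀ i, ‖co x i‖ ≤ R' := fun R => by
    obtain ⟨R', h⟩ := CBGysT_bound A (max 1 R)
    refine ⟨R', fun x hx h1 h2 => h _ ?_⟩
    rw [hA x hx]
    rintro (i | k)
    · exact (h1 i).trans (le_max_left _ _)
    · exact (h2 _).trans (le_max_right _ _)
  have hcp : ∀ R : ℝ, IsCompact (supp (BS (TT V) act S (St lab₀ n))
      (cup (polyX (TT V) act P) (tauT (TT V) act coC χC)) ∩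
        {y | ν (bmap K act' σ id y) ≤ R}) := fun R => by
    obtain ⟨R₁, h₁⟩ := hν R
    obtain ⟨R₂, h₂⟩ := hbd R₁
    obtain ⟨F, hF, e1⟩ := supp_closedIn (BS (TT V) act S (St lab₀ n))
      (cup (polyX (TT V) act P) (tauT (TT V) act coC χC))
    obtain ⟨G, hG', e2⟩ := ClosedIn.preimage (⟨Iic R, isClosed_Iic, (univ_inter _).symm⟩ :
      ClosedIn (Iic R) univ) (Gysin_contf (hG n)) (mapsTo_univ _ _)
    refine ClosedIn.isCompact (A := BS (TT V) act S (St lab₀ n)) ⟨F ∩ G, hF.inter hG', ?_⟩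
      (isCompact_BS hE.cpt (hS.isCompact R₂)) ?_ ?_
    · rw [e1, inter_right_comm, ← inter_assoc, inter_right_comm _ F G]
      exact congrArg (· ∩ F) e2
    · rintro _ ⟨x, hx, e, he, rfl⟩
      exact ⟨x, hx.1, e, he, rfl⟩
    · rintro y ⟨hy, hR⟩
      have h3 := (supp_cup _ _ _ hy).2
      rw [BS_eq] at h3
      obtain ⟨⟨x, e⟩, ⟨⟨hx, he⟩, h4⟩, rfl⟩ := supp_tauT hS.ha Subset.rfl hcC hI hn h3
      rw [mem_ofPred_eq, hσ.bmap_bmk hx] at hR
      exact ⟨x, ⟨hx, h₂ x hx h4 (h₁ _ (hσ.maps hx) e hR)⟩, e, he, rfl⟩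
  obtain ⟨-, hg⟩ := (hG n).global (ht n).mem ha hcp (neg_mem_iff.1 (by
    rw [neg_sub]
    exact hβ n))
  have s1 := (hG n).unique (by rw [sub_self]; exact zero_mem _)
    (by rw [sub_self]; exact zero_mem _) (hω n) hg
  have s2 := N0_le_BB (cc (BS (TT V) act S (St lab₀ n))) _ (Basic_N0_cup_right
    (cup (polyX (TT V) act P) (tauT (TT V) act coC χC)) (hσT.pb_pb hK (St lab₀ n) (t₀ n)))
  obtain ⟨e, he, h3⟩ := IsTh.unique hBT hE (IsTh.pb hK (g := id)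
    ⟨continuousOn_id, continuousOn_id, mapsTo_id _, mapsTo_id _, fun _ _ => rfl, fun _ _ => rfl⟩
    hE (ht n)) (isTh_tauT hBT hE hcB) (LinearEquiv.refl ℂ _) fun _ _ => rfl
  obtain ⟨R, hR⟩ := (mem_CC_cc.1 he).2.bddAbove_image
    (((hG n).contν.comp (hK.contOn hE) (hK.mapsTo _)).mono (supp_subset _ e))
  have s3 := Gysin_right (hσT.contOn hE) (hσT.mapsTo _) ha.1.1 he.1 h3
    (fun y hy => by
      rw [mem_N0.1 ha.2] at hy
      exact hy.elim) (hcp R) (inter_subset_left.trans (supp_subset _ _)) fun y hy => ⟨hy.1, by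
      have h4 := hR ⟨_, hy.2, rfl⟩
      have h5 := hσT.eqOn_comp hK (St lab₀ n) (supp_subset _ _ hy.1)
      rw [Function.comp_apply] at h4 h5
      rw [h5] at h4
      exact h4⟩
  have s4 := N0_le_BB (cc (BS (TT V) act S (St lab₀ n))) _ (Basic_N0_cup_right
    (cup (polyX (TT V) act P) (tauT (TT V) act coC χC))
    (pb_tauT hBT.ha Subset.rfl hBT.inv hcB σ (A := BS (TT V) act S (St lab₀ n)) fun q hq =>
      hσ.maps ((hE.mem_BS hS.ha hS.le hS.inv).1 (by rw [← bmk_out q] at hq; exact hq)).1))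
  have hcσ : IsCoord (TT V) act S (coB ∘ σ) χB :=
    ⟨hcB.1.comp hσ.cont hσ.maps, fun u hu x hx i => by
      rw [Function.comp_apply, hσ.eqv u hu x hx]
      exact hcB.2 u hu _ (hσ.maps hx) i⟩
  have hcs : IsCoord (TT V) act S (fun x => Sum.elim (coC x) ((coB ∘ σ) x)) (Sum.elim χC χB) := by
    refine ⟨continuousOn_pi.2 ?_, ?_⟩
    · rintro (i | k)
      · exact continuousOn_pi.1 hcC.1 i
      · exact continuousOn_pi.1 hcσ.1 k
    · rintro u hu x hx (i | k)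
      · exact hcC.2 u hu x hx i
      · exact hcσ.2 u hu x hx k
  have hK1 : IsCompact {x | x ∈ S ∧ (∀ i, ‖coC x i‖ ≤ 1) ∧ ∀ i, ‖(coB ∘ σ) x i‖ ≤ 1} := by
    obtain ⟨R₂, h₂⟩ := hbd 1
    have h4 : IsClosed {v : (ι₀ → ℂ) × (κ → ℂ) | (∀ i, ‖v.1 i‖ ≤ 1) ∧ ∀ i, ‖v.2 i‖ ≤ 1} := by
      simp only [ofPred_and, ofPred_forall]
      exact (isClosed_iInter fun i => isClosed_le (by fun_prop) continuous_const).inter
        (isClosed_iInter fun i => isClosed_le (by fun_prop) continuous_const)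
    exact (ClosedIn.preimage ⟨_, h4, (univ_inter _).symm⟩ (hcC.1.prodMk hcσ.1)
      (mapsTo_univ _ _)).isCompact (hS.isCompact R₂) (fun x hx => hx.1)
      fun x hx => ⟨hx.1, h₂ x hx.1 hx.2.1 hx.2.2⟩
  have s5 := CBGysT_left (hpz P) (tauT_sum hS.ha hS.inv hE hcC hcσ hK1)
  have s6 := CBGysT_left (hpz P) (tauT_change hS hE hc hcs (Sum.map id j)
    (Function.injective_id.sumMap hj) A fun x hx k => by
      rw [hA x hx]
      cases k <;> rfl).2
  rw [CBGysT_prod] at s6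
  have h7 := polyX_mul hS.ha Subset.rfl (fun q hq => (hn hq).2) P
    (∏ i ∈ Finset.univ.filter (fun i => i ∉ Set.range j), linF (χB i))
  rw [← BS_eq] at h7
  have s7 := CBGysT_right h7 (isTh_tauT hS hE hc).mem
  have s := sub_mem (add_mem (sub_mem (add_mem (add_mem (sub_mem s1 s2) s3) s4) s5) s6) s7
  convert s using 1
  simp only [pb_sub, cup_sub, sub_cup, cup_assoc, Function.id_comp, Sum.elim_inr]
  abel

end Pool.Agent.HK
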