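import Pool.Agent.P.MP_1206ce_ag.CB.Good

/-! The equivariant Kuenneth decomposition. -/

open scoped Topology
open Filter Set

noncomputable section

namespace Pool.Agent.HK

section Abstract

variable {Y Y' : Type} [TopologicalSpace Y] [TopologicalSpace Y']

/-- A finite dimensional cohomology has a basis of homogeneous classes. -/
theorem CBKun_basis {A : Set Y} (hA : FiniteDimensional ℂ (Hc A)) :
    ∃ (N : ℕ) (x : Fin N → Hc A) (m : Fin N → ℤ), (∀ j, prH _ _ (m j) (x j) = x j) ∧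
      (∀ j, x j ≠ 0) ∧ Function.Bijective fun z : Fin N → ℂ => ∑ i, z i • x i := by
  classical
  set s : Set (Hc A) := {x | ∃ k : ℤ, prH _ _ k x = x} with hs
  have hsp : Submodule.span ℂ s = ⊤ := by
    rw [eq_top_iff]
    intro x _
    obtain ⟨N, hN⟩ := sum_prH x
    rw [hN N le_rfl]
    refine Submodule.sum_mem _ fun k _ => Submodule.subset_span ⟨(k : ℤ), ?_⟩
    rw [prH_prH, if_pos rfl]
  obtain ⟨b, hbs, hb, hli⟩ := exists_linearIndependent ℂ s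
  have hfin : b.Finite := hli.setFinite
  let _ : Fintype b := hfin.fintype
  let B : Module.Basis b ℂ (Hc A) := Module.Basis.mk hli (by
    rw [Subtype.range_coe, hb, hsp])
  let B' := B.reindex (Fintype.equivFin b)
  have hmem : ∀ j, B' j ∈ s := fun j => by
    rw [Module.Basis.reindex_apply, Module.Basis.mk_apply]
    exact hbs (Subtype.mem _)
  choose m hm using hmem
  refine ⟨_, B', m, hm, fun j => B'.ne_zero j, ?_⟩
  have he : (fun z : Fin (Fintype.card b) → ℂ => ∑ i, z i • B' i) = B'.equivFun.symm := by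
    funext z
    rw [Module.Basis.equivFun_symm_apply]
  rw [he]
  exact B'.equivFun.symm.bijective

theorem CBKun_res {A A' : Set Y} (h : ClosedIn A' A) {a : Coch Y} (ha : a ∈ ZZ (cc A) A) :
    a ∈ ZZ (cc A') A' ∧ res A A' (clc A a) = clc A' a := by
  have h1 := h.properOn.twOK (one_mem_ZZ A')
  have h0 : a [] = 0 := ha.1.1.1
  have h2 := h1.mem_ZZ ha
  rw [pb_id, cup_one h0] at h2
  refine ⟨h2, ?_⟩
  rw [tw_cls h1 ha, pb_id, cup_one h0]

theorem CBKun_fibre_ZZ [T2Space Y] {A : Set Y} {A' : Set Y'} {π : Y' → Y} {w : Coch Y'}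
    (h : TwOK A A' π w) {y : Y} (hy : y ∈ A) :
    w ∈ ZZ (cc (A' ∩ π ⁻¹' {y})) (A' ∩ π ⁻¹' {y}) := by
  have h1 := (h.restrict (singleton_subset_iff.2 hy)).mem_ZZ (Lawson_one_mem_pt y)
  rwa [pb_one, one_cup h.2.2.1.1.1.1] at h1

variable [Nice Y] [Nice Y']

/-- Leray-Hirsch, with a possibly empty basis. -/
theorem CBKun_lh {ι : Type} [Fintype ι] {A : Set Y} {A' : Set Y'} (hA : LC A) (hA' : LC A')
    {π : Y' → Y} (hc : ContinuousOn π A') (hmp : MapsTo π A' A) {w : ι → Coch Y'}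
    (hw : ∀ i, TwOK A A' π (w i)) (hm : ∀ i, ∃ m, HomC m (w i))
    (hfib : ∀ y ∈ A, IsBasisOn (A' ∩ π ⁻¹' {y}) w) : Function.Bijective (lhMap A A' π w) := by
  rcases isEmpty_or_nonempty ι with hι | hι
  · have hs : Subsingleton (Hc A') := by
      refine vanish hA' hc fun b => ?_
      by_cases hb : b ∈ A
      · exact (hfib b hb).2.2.subsingleton
      · have he : A' ∩ π ⁻¹' {b} = ∅ := by
          ext q
          simp only [mem_inter_iff, mem_preimage, mem_singleton_iff, mem_empty_iff_false,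
            iff_false, not_and]
          intro hq hqb
          exact hb (hqb ▸ hmp hq)
        rw [he]
        infer_instance
    exact ⟨fun a b _ => Subsingleton.elim a b, fun y => ⟨0, Subsingleton.elim _ _⟩⟩
  · exact leray_hirsch hA hA' hw hm hfib

/-- Decomposition of a homogeneous family. -/
theorem CBKun_hom {ι : Type} [Fintype ι] {A : ℕ → Set Y} {B : ℕ → Set Y'} {π : Y → Y'}
    {w : ι → Fam Y} {m : ι → ℤ} (hA : ∀ n, ClosedIn (A n) (A (n + 1)))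
    (hB : ∀ n, ClosedIn (B n) (B (n + 1))) (hw : ∀ j n, TwOK (B n) (A n) π (w j n))
    (hm : ∀ j n, HomC (m j) (w j n))
    (hbij : ∀ n, Function.Bijective (lhMap (B n) (A n) π fun j => w j n))
    (hcomp : ∀ j n x, res (A (n + 1)) (A n) (tw (B (n + 1)) (A (n + 1)) π (w j (n + 1)) x) =
      tw (B n) (A n) π (w j n) (res (B (n + 1)) (B n) x))
    {ω : Fam Y} (hω : IsFam True A ω) {k : ℤ} (hk : Homog k ω) :
    ∃ β : ι → Fam Y', (∀ j, IsFam True B (β j)) ∧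
      ∀ n, (lhMap (B n) (A n) π fun j => w j n) (fun j => clc (B n) (β j n)) = clc (A n) (ω n) := by
  choose y hy using fun n => (hbij n).2 (clc (A n) (ω n))
  have hZ := (isFam_true.1 hω).1
  have hc : ∀ j n, res (B (n + 1)) (B n) (y (n + 1) j) = y n j := by
    intro j n
    have h1 : (fun j => res (B (n + 1)) (B n) (y (n + 1) j)) = y n := by
      apply (hbij n).1
      rw [hy n, lhMap_apply, ← hω.res_clc hA n, ← hy (n + 1), lhMap_apply, map_sum]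
      exact Finset.sum_congr rfl fun j _ => (hcomp j n _).symm
    exact congrFun h1 j
  have hd : ∀ j n, prH _ _ (k - m j) (y n j) = y n j := by
    intro j n
    have h1 : (fun j => prH _ _ (k - m j) (y n j)) = y n := by
      apply (hbij n).1
      have h2 : prH _ _ k (clc (A n) (ω n)) = clc (A n) (ω n) := by
        rw [prH_cls k (hZ n), (homog_iff.1 hk n).prC_self]
      rw [hy n, lhMap_apply, ← h2, ← hy n, lhMap_apply, map_sum]
      refine Finset.sum_congr rfl fun j _ => ?_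
      rw [← tw_prH (hw j n) (hm j n), sub_add_cancel]
    exact congrFun h1 j
  choose β hβ _ hβ' using fun j => exists_fam hB (fun n => y n j) (hc j) (hd j)
  refine ⟨β, hβ, fun n => ?_⟩
  rw [← hy n]
  congr 1
  funext j
  exact hβ' j n

/-- Decomposition of a family. -/
theorem CBKun_fam {ι : Type} [Fintype ι] {A : ℕ → Set Y} {B : ℕ → Set Y'} {π : Y → Y'}
    {w : ι → Fam Y} {m : ι → ℤ} (hA : ∀ n, ClosedIn (A n) (A (n + 1)))
    (hB : ∀ n, ClosedIn (B n) (B (n + 1))) (hw : ∀ j n, TwOK (B n) (A n) π (w j n))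
    (hm : ∀ j n, HomC (m j) (w j n))
    (hbij : ∀ n, Function.Bijective (lhMap (B n) (A n) π fun j => w j n))
    (hcomp : ∀ j n x, res (A (n + 1)) (A n) (tw (B (n + 1)) (A (n + 1)) π (w j (n + 1)) x) =
      tw (B n) (A n) π (w j n) (res (B (n + 1)) (B n) x))
    {ω : Fam Y} (hω : IsFam True A ω) :
    ∃ β : ι → Fam Y', (∀ j, IsFam True B (β j)) ∧
      ∀ n, ω n - ∑ j, cup (pb π (β j n)) (w j n) ∈ BB (cc (A n)) (A n) := by
  obtain ⟨M, hM⟩ := hω.eq_sum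
  choose β hβ hβ' using fun k : ℕ =>
    CBKun_hom hA hB hw hm hbij hcomp (hω.prF (k : ℤ)) (homog_prF (k : ℤ) ω)
  have hf : ∀ j, IsFam True B (∑ k ∈ Finset.range M, β k j) :=
    fun j => IsFam.sum _ fun k _ => hβ k j
  refine ⟨fun j => ∑ k ∈ Finset.range M, β k j, hf, fun n => ?_⟩
  have hZ : ∀ j, cup (pb π ((∑ k ∈ Finset.range M, β k j) n)) (w j n) ∈ ZZ (cc (A n)) (A n) :=
    fun j => (hw j n).mem_ZZ ((isFam_true.1 (hf j)).1 n)
  rw [← cls_eq_iff ((isFam_true.1 hω).1 n) (Submodule.sum_mem _ fun j _ => hZ j),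
    cls_sum _ fun j _ => hZ j]
  have h1 : ∀ j, cls (cc (A n)) (A n) (cup (pb π ((∑ k ∈ Finset.range M, β k j) n)) (w j n)) =
      ∑ k ∈ Finset.range M, tw (B n) (A n) π (w j n) (clc (B n) (β k j n)) := by
    intro j
    have h0 : (∑ k ∈ Finset.range M, β k j) n = ∑ k ∈ Finset.range M, β k j n :=
      Finset.sum_apply _ _ _
    rw [← map_sum, ← cls_sum _ fun k _ => (isFam_true.1 (hβ k j)).1 n, ← h0]
    exact (tw_cls (hw j n) ((isFam_true.1 (hf j)).1 n)).symm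
  rw [Finset.sum_congr rfl fun j _ => h1 j, Finset.sum_comm]
  have h2 : ω n = ∑ k ∈ Finset.range M, prF (k : ℤ) ω n := by
    rw [← Finset.sum_apply, ← hM]
  rw [h2, cls_sum _ fun (k : ℕ) _ => (isFam_true.1 (hω.prF (k : ℤ))).1 n]
  refine Finset.sum_congr rfl fun k _ => ?_
  have h3 := hβ' k n
  rw [lhMap_apply] at h3
  exact h3.symm

end Abstract

variable {V Λ₀ X₁ X₂ : Type} [Fintype V] [DecidableEq V] [TopologicalSpace X₁]
  [TopologicalSpace X₂] [Nice X₁] [Nice X₂] {lab₀ : V → Λ₀}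
  {act₁ : Matrix V V ℂ → X₁ → X₁} {act₂ : Matrix V V ℂ → X₂ → X₂}
  {act : Matrix V V ℂ → X₁ × X₂ → X₁ × X₂} {S₁ : Set X₁} {S₂ : Set X₂}

omit [Nice X₁] in
/-- The fibres of the second projection. -/
theorem CBKun_fibre (h₂ : IsAct (KG lab₀) act₂)
    (e₁ : EM lab₀ (KG lab₀) act (S₁ ×ˢ S₂) (KG lab₀) act₁ S₁ Prod.fst)
    (e₂ : EM lab₀ (KG lab₀) act (S₁ ×ˢ S₂) (KG lab₀) act₂ S₂ Prod.snd)
    {E : Set (Fr V)} (hE : FrOK lab₀ E) {y : X₂} (hy : y ∈ S₂) {e : Fr V} (he : e ∈ E) :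
    ∃ (F : X₁ → Bor (KG lab₀) act) (G : Bor (KG lab₀) act → X₁),
      HomeoOn G F (BS (KG lab₀) act (S₁ ×ˢ S₂) E ∩
        bmap (KG lab₀) act₂ Prod.snd id ⁻¹' {bmk (KG lab₀) act₂ (y, e)}) S₁ ∧
      EqOn (bmap (KG lab₀) act₁ Prod.fst id) (fib (KG lab₀) act₁ e ∘ G)
        (BS (KG lab₀) act (S₁ ×ˢ S₂) E ∩
          bmap (KG lab₀) act₂ Prod.snd id ⁻¹' {bmk (KG lab₀) act₂ (y, e)}) := by
  have hfree : FreeOn (KG lab₀) {e} := fun u hu e' he' h =>
    hE.freeOn Subset.rfl u hu e' (by rw [mem_singleton_iff.1 he']; exact he) h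
  obtain ⟨g, hg⟩ := e₂.ha.fibre_bmap h₂ (hE.inv_prod Subset.rfl e₂.inv) (f := Prod.snd)
    (fun u hu p hp => e₂.eqv u hu p.1 hp.1) (by fun_prop) y e hfree
  have h0 : HomeoOn (fun x : X₁ => (x, y)) Prod.fst S₁
      {x : X₁ × X₂ | (x, e) ∈ (S₁ ×ˢ S₂) ×ˢ E ∧ x.2 = y} := by
    refine ⟨by fun_prop, by fun_prop, fun x hx => ⟨⟨⟨hx, hy⟩, he⟩, rfl⟩, fun x hx => hx.1.1.1,
      fun _ _ => rfl, fun x hx => ?_⟩
    exact Prod.ext rfl hx.2.symm
  have h1 := Top_homeoOn_comp hg h0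
  rw [← BS_eq] at h1
  refine ⟨_, _, h1.symm, fun q hq => ?_⟩
  have hq1 := h1.2.2.2.1 hq
  have hq2 := h1.2.2.2.2.2 q hq
  rw [← hq2]
  have hq3 := h1.2.2.2.2.1 _ hq1
  change _ = fib (KG lab₀) act₁ e _
  rw [hq3]
  exact e₁.bmap_bmk (x := (_, y)) ⟨hq1, hy⟩ e

theorem kuenneth (h₁ : IsAct (KG lab₀) act₁) (h₂ : IsAct (KG lab₀) act₂)
    (hact : ∀ u p, act u p = (act₁ u p.1, act₂ u p.2)) (g₁ : Good lab₀ act₁ S₁)
    (i₂ : InvX (KG lab₀) act₂ S₂) (l₂ : LC S₂) {ω : Fam (Bor (KG lab₀) act)}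
    (hω : IsFam True (BL (KG lab₀) act (S₁ ×ˢ S₂) lab₀) ω) :
    ∃ (N : ℕ) (α : Fin N → Fam (Bor (KG lab₀) act₁)) (β : Fin N → Fam (Bor (KG lab₀) act₂)),
      (∀ j, IsFam True (BL (KG lab₀) act₁ S₁ lab₀) (α j) ∧
        IsFam True (BL (KG lab₀) act₂ S₂ lab₀) (β j)) ∧
      ∀ n, ω n - ∑ j, cup (pb (bmap (KG lab₀) act₁ Prod.fst id) (α j n))
        (pb (bmap (KG lab₀) act₂ Prod.snd id) (β j n)) ∈
        BB (cc (BL (KG lab₀) act (S₁ ×ˢ S₂) lab₀ n)) (BL (KG lab₀) act (S₁ ×ˢ S₂) lab₀ n) := by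
  have h : IsAct (KG lab₀) act := by
    have he : act = fun u p => (act₁ u p.1, act₂ u p.2) := by
      funext u p
      exact hact u p
    rw [he]
    exact h₁.prod h₂
  have i : InvX (KG lab₀) act (S₁ ×ˢ S₂) := fun u hu p hp => by
    rw [hact]
    exact ⟨g₁.inv u hu _ hp.1, i₂ u hu _ hp.2⟩
  have e₁ : EM lab₀ (KG lab₀) act (S₁ ×ˢ S₂) (KG lab₀) act₁ S₁ Prod.fst :=
    ⟨h, h₁, Subset.rfl, Subset.rfl, i, g₁.inv, fun u _ p _ => by rw [hact], by fun_prop,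
      fun _ hp => hp.1⟩
  have e₂ : EM lab₀ (KG lab₀) act (S₁ ×ˢ S₂) (KG lab₀) act₂ S₂ Prod.snd :=
    ⟨h, h₂, Subset.rfl, Subset.rfl, i, i₂, fun u _ p _ => by rw [hact], by fun_prop,
      fun _ hp => hp.2⟩
  have hp : ProperOn (fun x : X₁ × X₂ => (x.2, x.1)) (S₁ ×ˢ S₂) (S₂ ×ˢ S₁) := by
    have hh : HomeoOn (fun x : X₁ × X₂ => (x.2, x.1)) (fun x : X₂ × X₁ => (x.2, x.1))
        (S₁ ×ˢ S₂) (S₂ ×ˢ S₁) :=
      ⟨by fun_prop, by fun_prop, fun _ hx => ⟨hx.2, hx.1⟩, fun _ hx => ⟨hx.2, hx.1⟩,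
        fun _ _ => rfl, fun _ _ => rfl⟩
    exact hh.properOn
  have n₀ := h.nice
  have n₂ := h₂.nice
  obtain ⟨N, x, m, hm, hx0, hx⟩ := CBKun_basis (g₁.fin_fib h₁)
  have hev : ∀ j, Even (m j) := fun j => by
    by_contra hc
    exact hx0 j (by rw [← hm j]; exact g₁.even_fib h₁ (Int.not_even_iff_odd.1 hc) _)
  choose α hα hαm hαx using fun j => g₁.exists_fam h₁ (hm j)
  have hαZ := fun j n => (isFam_true.1 (hα j)).1 n
  have hw : ∀ j n, TwOK (BL (KG lab₀) act₂ S₂ lab₀ n) (BL (KG lab₀) act (S₁ ×ˢ S₂) lab₀ n)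
      (bmap (KG lab₀) act₂ Prod.snd id) (pb (bmap (KG lab₀) act₁ Prod.fst id) (α j n)) :=
    fun j n => xp_twOK e₂ e₁ hp (frOK_St lab₀ n) (hαZ j n)
  have hhom : ∀ j n, HomC (m j)
      (pb (bmap (KG lab₀) act₁ Prod.fst id : Bor (KG lab₀) act → _) (α j n)) :=
    fun j n => (homog_iff.1 (hαm j) n).pb _
  have hA := closedIn_BL h Subset.rfl i
  have hB := closedIn_BL h₂ Subset.rfl i₂
  have hD := closedIn_BL h₁ Subset.rfl g₁.inv
  obtain ⟨β, hβ, hβ'⟩ := CBKun_fam (π := bmap (KG lab₀) act₂ Prod.snd id)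
    (w := fun j n => pb (bmap (KG lab₀) act₁ Prod.fst id) (α j n)) hA hB hw hhom
    (fun n => by
      have hE := frOK_St lab₀ n
      refine CBKun_lh (hE.lc_BS h₂ Subset.rfl i₂ l₂) (hE.lc_BS h Subset.rfl i (g₁.lc.prod l₂))
        (e₂.contOn hE) (e₂.mapsTo _) (fun j => hw j n) (fun j => ⟨_, hhom j n⟩) ?_
      rintro _ ⟨y, hy, e, he, rfl⟩
      obtain ⟨F, G, hFG, hq⟩ := CBKun_fibre h₂ e₁ e₂ hE hy he
      have hb : IsBasisOn S₁ fun j => pb (fib (KG lab₀) act₁ e) (α j n) := by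
        refine ⟨fun j => pb_mem_ZZ_cc (hE.proper_fib h₁ Subset.rfl g₁.inv he) (hαZ j n), ?_⟩
        simp only [fun j => hαx j n e he]
        exact hx
      refine hb.of_homeoOn hFG (fun j => CBKun_fibre_ZZ (hw j n) ⟨y, hy, e, he, rfl⟩)
        fun j => N0_le_BB _ _ ?_
      rw [pb_pb]
      exact supp_pb_congr hq _)
    (fun j n z => by
      obtain ⟨b, hb, rfl⟩ := cls_surj z
      have hb' := CBKun_res (hB n) hb
      have hz := CBKun_res (hA n) ((hw j (n + 1)).mem_ZZ hb)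
      change res _ _ (tw _ _ _ _ (clc _ b)) = tw _ _ _ _ (res _ _ (clc _ b))
      rw [tw_cls (hw j (n + 1)) hb, hz.2, hb'.2, tw_cls (hw j n) hb'.1,
        cls_eq_iff hz.1 ((hw j n).mem_ZZ hb'.1)]
      refine xp_BB e₂ e₁ hp (frOK_St lab₀ n) hb'.1 (hαZ j n) ?_ ((isFam_true.1 (hα j)).2.1 n)
      rw [sub_self]
      exact zero_mem _) hω
  refine ⟨N, α, β, fun j => ⟨hα j, hβ j⟩, fun n => ?_⟩
  have hE := frOK_St lab₀ n
  have hβZ := fun j => (isFam_true.1 (hβ j)).1 n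
  have hc : ∀ j, cup (pb (bmap (KG lab₀) act₂ Prod.snd id) (β j n))
        (pb (bmap (KG lab₀) act₁ Prod.fst id) (α j n)) -
      cup (pb (bmap (KG lab₀) act₁ Prod.fst id) (α j n))
        (pb (bmap (KG lab₀) act₂ Prod.snd id) (β j n)) ∈
      BB (cc (BL (KG lab₀) act (S₁ ×ˢ S₂) lab₀ n)) (BL (KG lab₀) act (S₁ ×ˢ S₂) lab₀ n) := by
    intro j
    refine cup_comm_BB_cc (pb_mem_ZZ (e₂.contOn hE) (e₂.mapsTo _) (ZZ_cc_le_bot _ (hβZ j)))
      (hw j n).2.2.1 (hhom j n) (hev j) ?_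
    obtain ⟨C, hC, hCA, hsub⟩ := xp_compact e₂ e₁ hp hE (mem_CC_cc.1 (hβZ j).1).2
      (supp_subset _ _) (mem_CC_cc.1 (hαZ j n).1).2 (supp_subset _ _)
    refine ClosedIn.isCompact ?_ hC hCA fun q hq => hsub ⟨⟨supp_subset _ _ hq.1,
      supp_pb (e₂.contOn hE) (e₂.mapsTo _) _ hq.1⟩, supp_pb (e₁.contOn hE) (e₁.mapsTo _) _ hq.2⟩
    obtain ⟨F₁, hF₁, e1⟩ := supp_closedIn (BL (KG lab₀) act (S₁ ×ˢ S₂) lab₀ n)
      (pb (bmap (KG lab₀) act₂ Prod.snd id) (β j n))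
    obtain ⟨F₂, hF₂, e2⟩ := supp_closedIn (BL (KG lab₀) act (S₁ ×ˢ S₂) lab₀ n)
      (pb (bmap (KG lab₀) act₁ Prod.fst id) (α j n))
    refine ⟨F₁ ∩ F₂, hF₁.inter hF₂, ?_⟩
    rw [e1, e2]
    exact (inter_inter_distrib_left _ _ _).symm
  have h1 := add_mem (hβ' n) (Submodule.sum_mem _ fun j (_ : j ∈ Finset.univ) => hc j)
  rwa [Finset.sum_sub_distrib, sub_add_sub_cancel] at h1

end Pool.Agent.HK
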