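import Pool.Agent.P.MP_1206ce_ag.CB.ConvA
import Pool.Agent.P.MP_1206ce_ag.CB.FiltB
import Pool.Agent.P.MP_1206ce_ag.CB.Kun
import Pool.Agent.P.MP_1206ce_ag.CB.GysT
import Pool.Agent.P.MP_1206ce_ag.CB.GysF

/-! The convolution product in terms of the evaluation maps. -/

open scoped Topology
open Filter Set

noncomputable section

namespace Pool.Agent.HK

namespace Qv

variable {Q : Qv} {τ : Fam Q.YN} {ζ : ℂ} {l l' : Q.Lam} {m₁ m₂ d₁ d₂ : ℕ} {b : Fam Q.YR}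

/-- Change of group commutes with equivariant maps. -/
theorem CBConv_sq {S S' : Set (Q.Tr × Q.Tr)} {S₁ S₂ : Set Q.Tr} {g : Q.Tr × Q.Tr → Q.Tr}
    (h1 : EM Q.lab (TT Q.Var) Q.actRR S (TT Q.Var) Q.actR S₁ g)
    (h2 : EM Q.lab (TT Q.Var) Q.actR S₁ Q.KK Q.actR S₂ id)
    (h3 : EM Q.lab (TT Q.Var) Q.actRR S Q.KK Q.actRR S' id)
    (h4 : EM Q.lab Q.KK Q.actRR S' Q.KK Q.actR S₂ g) (E : Set (Fr Q.Var)) (a : Coch Q.YR) :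
    pb (bmap (TT Q.Var) Q.actR g id : Bor (TT Q.Var) Q.actRR → _) (pb Q.toK a) -
      pb (bmap Q.KK Q.actRR id id : Bor (TT Q.Var) Q.actRR → _)
        (pb (bmap Q.KK Q.actR g id) a) ∈ N0 (BS (TT Q.Var) Q.actRR S E) := by
  have := sub_mem (h1.pb_pb h2 E a) (h3.pb_pb h4 E a)
  rwa [Function.id_comp, Function.comp_id, sub_sub_sub_cancel_right] at this

theorem CBConv_cup {Y : Type} [TopologicalSpace Y] {A : Set Y} {a a' c c' : Coch Y}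
    (h : a - a' ∈ N0 A) (h' : c - c' ∈ N0 A) : cup a c - cup a' c' ∈ N0 A := by
  have := add_mem (Basic_N0_cup_left h c) (Basic_N0_cup_right a' h')
  rwa [sub_cup, cup_sub, sub_add_sub_cancel] at this

theorem CBConv_emU (hl : l ∈ Q.Box m₁) (d : ℕ) :
    EM Q.lab (TT Q.Var) Q.actR (Q.UL l d) Q.KK Q.actR (Q.RR m₁ d) id :=
  EM.of_subset Q.isAct_R Q.isAct_RT.grp (TT_subset _) Subset.rfl (Q.invX_UL l d)
    (Q.invX_RR m₁ d) (Q.UL_subset_RR hl d)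

theorem CBConv_emU2 (hl : l ∈ Q.Box m₁) (hl' : l' ∈ Q.Box m₂) (d₁ d₂ : ℕ) :
    EM Q.lab (TT Q.Var) Q.actRR (Q.UL l d₁ ×ˢ Q.UL l' d₂) Q.KK Q.actRR
      (Q.RR m₁ d₁ ×ˢ Q.RR m₂ d₂) id :=
  EM.of_subset Q.isAct_RR Q.isAct_RRT.grp (TT_subset _) Subset.rfl (Q.cd_U2 l l' d₁ d₂).inv
    (Q.em_sec m₁ m₂ d₁ d₂).inv (prod_mono (Q.UL_subset_RR hl d₁) (Q.UL_subset_RR hl' d₂))

/-- The class on the zero set of the section. -/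
theorem CBConv_zero (ζ : ℂ) (hl : l ∈ Q.Box m₁) (hl' : l' ∈ Q.Box m₂) (h₁ : 2 * m₁ ≤ d₁)
    (h₂ : d₁ + 2 * m₂ ≤ d₂) (hb : IsFam True (Q.BR (Q.RR (m₁ + m₂) d₂)) b) :
    TRel Q.actRR ((Q.UL l d₁ ×ˢ Q.UL l' d₂) ∩ Q.CM m₁ m₂ d₁ d₂) Q.lab
      (fun p => Q.coP (Q.JC l l' d₂) p.2) (Q.chQ (Q.JC l l' d₂))
      (fun n => (ζ ^ d₂)⁻¹ • pb (bmap Q.KK Q.actRR id id)
        (pb (bmap Q.KK Q.actR (Q.mlt m₁) id) (b n)))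
      (Q.ev ζ (l + l') d₂ b * ∏ q ∈ Q.PU (l + l') d₂ \ Q.JC l l' d₂, Q.wtP q.1) := by
  classical
  have hll := Q.add_mem_Box hl hl'
  have hC := cd_C2 hl hl' h₁ h₂
  have r := TRel.pb hC (Q.isCoord_snd _ _) (em_mlt_T hl hl' h₁) (proper_mlt_T hl hl' h₁)
    (Q.isCoord_P _ _) (Q.inclJ (Q.JC_subset l l' d₂)) (Q.inclJ_injective _)
    (LinearEquiv.refl ℂ _) (fun _ _ _ => rfl)
    (ev_spec (Q.invX_RR _ _) (Q.UL_subset_RR hll d₂) hb ζ)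
  rw [Q.prod_compl_incl] at r
  refine r.congr (FamEq.of_N0 fun n => ?_)
  have e3 : EM Q.lab (TT Q.Var) Q.actRR ((Q.UL l d₁ ×ˢ Q.UL l' d₂) ∩ Q.CM m₁ m₂ d₁ d₂) Q.KK
      Q.actRR (Q.CM m₁ m₂ d₁ d₂) id :=
    EM.of_subset Q.isAct_RR Q.isAct_RRT.grp (TT_subset _) Subset.rfl hC.inv
      (Q.invX_CM _ _ _ _) inter_subset_right
  have := Submodule.smul_mem _ (ζ ^ d₂)⁻¹ (CBConv_sq (em_mlt_T hl hl' h₁) (CBConv_emU hll d₂) e3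
    (Q.em_mlt h₁ m₂ d₂) (St Q.lab n) (b n))
  rwa [smul_sub] at this

/-- The class of a sum of external products. -/
theorem CBConv_prod (ζ : ℂ) (hl : l ∈ Q.Box m₁) (hl' : l' ∈ Q.Box m₂) {N : ℕ}
    {α β : Fin N → Fam Q.YR}
    (hG : ∀ j, IsFam True (Q.BR (Q.RR m₁ d₁)) (α j) ∧ IsFam True (Q.BR (Q.RR m₂ d₂)) (β j)) :
    TRel Q.actRR (Q.UL l d₁ ×ˢ Q.UL l' d₂) Q.lab (Q.co2 (Q.PU l d₁) (Q.PU l' d₂))
      (Sum.elim (Q.chQ (Q.PU l d₁)) (Q.chQ (Q.PU l' d₂)))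
      (fun n => ((ζ ^ d₁)⁻¹ * (ζ ^ d₂)⁻¹) • pb (bmap Q.KK Q.actRR id id)
        (∑ j, cup (pb (bmap Q.KK Q.actR Prod.fst id) (α j n))
          (pb (bmap Q.KK Q.actR Prod.snd id) (β j n))))
      (∑ j, Q.ev ζ l d₁ (α j) * Q.ev ζ l' d₂ (β j)) := by
  have hT := Q.isAct_RT.grp
  have hK := Q.isAct_R.grp
  have e1 := Q.em_fst hT (TT_subset _) (Q.invX_UL l d₁) (Q.invX_UL l' d₂)
  have e2 := Q.em_snd hT (TT_subset _) (Q.invX_UL l d₁) (Q.invX_UL l' d₂)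
  have e1' := Q.em_fst hK Subset.rfl (Q.invX_RR m₁ d₁) (Q.invX_RR m₂ d₂)
  have e2' := Q.em_snd hK Subset.rfl (Q.invX_RR m₁ d₁) (Q.invX_RR m₂ d₂)
  have hU := Q.UL_subset_RR hl d₁
  have hU' := Q.UL_subset_RR hl' d₂
  have hg : HomeoOn (fun x : Q.Tr × Q.Tr => (x.1, x.2)) id (Q.UL l d₁ ×ˢ Q.UL l' d₂)
      (Q.UL l d₁ ×ˢ Q.UL l' d₂) :=
    ⟨continuousOn_id, continuousOn_id, mapsTo_id _, mapsTo_id _, fun _ _ => rfl, fun _ _ => rfl⟩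
  have r := TRel.sum Finset.univ fun j _ => TRel.xp (Q.cd_U2 l l' d₁ d₂) (Q.isCoord_co2 _ _ _)
    e1 e2 hg (Q.cd_UL l d₁) (Q.isCoord_P _ _) (Q.cd_UL l' d₂) (Q.isCoord_P _ _)
    (LinearEquiv.refl ℂ _) (fun _ _ => rfl)
    ((isFam_toK (Q.invX_RR _ _) hU (hG j).1).smul _)
    ((isFam_toK (Q.invX_RR _ _) hU' (hG j).2).smul _)
    (ev_spec (Q.invX_RR _ _) hU (hG j).1 ζ) (ev_spec (Q.invX_RR _ _) hU' (hG j).2 ζ)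
  refine r.congr (FamEq.of_N0 fun n => ?_)
  rw [Finset.sum_apply, pb_sum, Finset.smul_sum, ← Finset.sum_sub_distrib]
  refine sum_mem fun j _ => ?_
  have := Submodule.smul_mem _ ((ζ ^ d₁)⁻¹ * (ζ ^ d₂)⁻¹) (CBConv_cup
    (CBConv_sq e1 (CBConv_emU hl d₁) (CBConv_emU2 hl hl' d₁ d₂) e1' (St Q.lab n) (α j n))
    (CBConv_sq e2 (CBConv_emU hl' d₂) (CBConv_emU2 hl hl' d₁ d₂) e2' (St Q.lab n) (β j n)))
  rw [smul_sub, ← pb_cup, mul_smul, ← cup_smul, ← smul_cup] at this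
  exact this

theorem conv_exists (h : Q.ThomZ τ ζ) (h₁ : 2 * m₁ ≤ d₁)
    (hb : IsFam True (Q.BR (Q.RR (m₁ + m₂) d₂)) b) :
    ∃ (N : ℕ) (α β : Fin N → Fam Q.YR), Q.GysDec τ m₁ m₂ d₁ d₂ b N α β := by
  have := Q.isAct_RR.nice
  have := Q.isAct_J.nice
  obtain ⟨ω, hω, hg⟩ := exists_gysin_fam (Q.gysinData m₁ m₂ d₁ d₂)
    (closedIn_BL Q.isAct_RR Subset.rfl (Q.em_sec m₁ m₂ d₁ d₂).inv)
    (closedIn_BL Q.isAct_J Subset.rfl (Q.invX_Jet d₁)) (h.isFam_tauJ d₁) (h.homog_tauJ d₁)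
    ((Q.em_mlt h₁ m₂ d₂).isFam (Q.proper_mlt h₁ m₂ d₂) hb)
  obtain ⟨N, α, β, h1, h2⟩ := kuenneth Q.isAct_R Q.isAct_R (fun _ _ => rfl) (Q.good_RR h₁)
    (Q.invX_RR m₂ d₂) (Q.lc_RR m₂ d₂) hω
  refine ⟨N, α, β, h1, fun n => (hg n).congr ?_ ?_ (h2 n)⟩
  · rw [sub_self]
    exact zero_mem _
  · exact (sub_self (pb (bmap Q.KK Q.actR (Q.mlt m₁) id) (b n))).symm ▸ zero_mem _
theorem conv_formula (h : Q.ThomZ τ ζ) (hl : l ∈ Q.Box m₁) (hl' : l' ∈ Q.Box m₂)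
    (h₁ : 2 * m₁ ≤ d₁) (h₂ : d₁ + 2 * m₂ ≤ d₂) (hb : IsFam True (Q.BR (Q.RR (m₁ + m₂) d₂)) b)
    {N : ℕ} {α β : Fin N → Fam Q.YR} (hG : Q.GysDec τ m₁ m₂ d₁ d₂ b N α β) :
    (∑ j, Q.ev ζ l d₁ (α j) * Q.ev ζ l' d₂ (β j)) * Q.phi (l + l') =
      Q.ev ζ (l + l') d₂ b * (Q.phi l * Q.phi l') := by
  classical
  have := Q.isAct_RR.nice
  have := Q.isAct_RRT.nice
  have := Q.isAct_J.nice
  have hU := Q.cd_U2 l l' d₁ d₂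
  have e0 := CBConv_emU2 hl hl' d₁ d₂
  have eσ := Q.em_sec m₁ m₂ d₁ d₂
  have hcl : ClosedIn (Q.UL l d₁ ×ˢ Q.UL l' d₂) (Q.RR m₁ d₁ ×ˢ Q.RR m₂ d₂) :=
    ⟨_, (Q.isClosed_UL l d₁).prod (Q.isClosed_UL l' d₂), (inter_eq_right.2 e0.maps).symm⟩
  have hC := fun n => (e0.inter_preimage (frOK_St Q.lab n) (Q.invX_CM m₁ m₂ d₁ d₂)).symm
  have hD := fun n => ((Q.gysinData m₁ m₂ d₁ d₂ n).pb
    ((frOK_St Q.lab n).lc_BS hU.ha hU.le hU.inv hU.lc) (e0.contOn (frOK_St Q.lab n))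
    (e0.mapsTo _) (hC n)).congr_map (e0.eqOn_comp eσ _)
  have hg := fun n => (((hG.2 n).pb (CBEM_mono fun _ hp => hp.1)
    (e0.proper (frOK_St Q.lab n) hcl.properOn) (hC n)).congr_map
      (e0.eqOn_comp eσ _)).smul (ζ ^ d₁)⁻¹ (ζ ^ d₂)⁻¹
  obtain ⟨A, hA⟩ := exists_A hl hl' h₁ h₂
  have r := gysT hU (Q.isCoord_co2 _ _ _) (Q.isCoord_snd _ (Q.JC l l' d₂)) (Q.cd_J d₁)
    (Q.isCoord_J d₁) (e0.comp eσ) (Q.inclJ (Q.JS_subset l l' d₁)) (Q.inclJ_injective _) A hA hD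
    (Q.nuJ_bound d₁) (h.thJ d₁) (CBConv_zero ζ hl hl' h₁ h₂ hb) hg
  rw [Q.prod_compl_incl] at r
  rw [TRel.unique hU (Q.isCoord_co2 _ _ _) (CBConv_prod ζ hl hl' hG.1) r,
    ← euler_identity hl hl' h₁ h₂]
  ring

end Qv

end Pool.Agent.HK
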