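import Pool.Agent.P.MP_1206ce_ag.CB.Mlt

/-! The convolution diagram over a pair of torus fixed points. -/

open scoped Topology
open Filter Set

noncomputable section

namespace Pool.Agent.HK

namespace Qv

variable (Q : Qv)

/-- Coordinates of the zero set of the section. -/
def JC (l l' : Q.Lam) (d₂ : ℕ) : Finset (Q.Ps × ℕ) := Q.PU l' d₂ ∩ Q.PU (l + l') d₂
/-- The coordinates of the section that do not vanish identically. -/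
def JS (l l' : Q.Lam) (d₁ : ℕ) : Finset (Q.Ps × ℕ) :=
  (Q.WI ×ˢ Finset.range d₁).filter fun q => min (-Q.prP l q.1) (Q.prP l' q.1) ≤ (q.2 : ℤ)
/-- Coordinates of a pair. -/
def co2 (J J' : Finset (Q.Ps × ℕ)) (p : Q.Tr × Q.Tr) : ↥J ⊕ ↥J' → ℂ :=
  Sum.elim (Q.coP J p.1) (Q.coP J' p.2)
/-- The inclusion of index sets. -/
def inclJ {J J' : Finset (Q.Ps × ℕ)} (h : J ⊆ J') (q : ↥J) : ↥J' := ⟨q.1, h q.2⟩

/-- The point over `t^λ` with the given jet coordinates. -/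
def CBConvA_mk (l : Q.Lam) (c : Q.Ps × ℕ → ℂ) : Q.Tr := (Q.tl l, fun i h a b => c ((h, a, b), i))
/-- Extension by zero. -/
def CBConvA_ext (J : Finset (Q.Ps × ℕ)) (v : ↥J → ℂ) (q : Q.Ps × ℕ) : ℂ :=
  if h : q ∈ J then v ⟨q, h⟩ else 0

theorem CBConvA_mem_PU {l : Q.Lam} {d : ℕ} {q : Q.Ps × ℕ} :
    q ∈ Q.PU l d ↔ q.1 ∈ Q.WI ∧ q.2 < d ∧ -Q.prP l q.1 ≤ (q.2 : ℤ) := by
  simp only [PU, Finset.mem_filter, Finset.mem_product, Finset.mem_range, and_assoc]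
theorem CBConvA_mem_JC {l l' : Q.Lam} {d : ℕ} {q : Q.Ps × ℕ} :
    q ∈ Q.JC l l' d ↔ q.1 ∈ Q.WI ∧ q.2 < d ∧ -Q.prP l' q.1 ≤ (q.2 : ℤ) ∧
      -(Q.prP l q.1 + Q.prP l' q.1) ≤ (q.2 : ℤ) := by
  simp only [JC, Finset.mem_inter, CBConvA_mem_PU, prP_add]
  tauto
theorem CBConvA_mem_JS {l l' : Q.Lam} {d : ℕ} {q : Q.Ps × ℕ} :
    q ∈ Q.JS l l' d ↔ q.1 ∈ Q.WI ∧ q.2 < d ∧ min (-Q.prP l q.1) (Q.prP l' q.1) ≤ (q.2 : ℤ) := by
  simp only [JS, Finset.mem_filter, Finset.mem_product, Finset.mem_range, and_assoc]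
theorem CBConvA_ext_mem {J : Finset (Q.Ps × ℕ)} (v : ↥J → ℂ) {q : Q.Ps × ℕ} (h : q ∈ J) :
    Q.CBConvA_ext J v q = v ⟨q, h⟩ := dif_pos h
theorem CBConvA_ext_not {J : Finset (Q.Ps × ℕ)} (v : ↥J → ℂ) {q : Q.Ps × ℕ} (h : q ∉ J) :
    Q.CBConvA_ext J v q = 0 := dif_neg h
theorem CBConvA_ext_add {J : Finset (Q.Ps × ℕ)} (v w : ↥J → ℂ) (q : Q.Ps × ℕ) :
    Q.CBConvA_ext J (v + w) q = Q.CBConvA_ext J v q + Q.CBConvA_ext J w q := by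
  unfold CBConvA_ext
  split_ifs
  · rfl
  · rw [add_zero]
theorem CBConvA_ext_smul {J : Finset (Q.Ps × ℕ)} (c : ℂ) (v : ↥J → ℂ) (q : Q.Ps × ℕ) :
    Q.CBConvA_ext J (c • v) q = c * Q.CBConvA_ext J v q := by
  unfold CBConvA_ext
  split_ifs
  · rfl
  · rw [mul_zero]
theorem CBConvA_ext_cont (J : Finset (Q.Ps × ℕ)) (q : Q.Ps × ℕ) :
    Continuous fun v => Q.CBConvA_ext J v q := by
  unfold CBConvA_ext
  split_ifs
  · exact continuous_apply _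
  · exact continuous_const
theorem CBConvA_mk_cont (l : Q.Lam) : Continuous (Q.CBConvA_mk l) :=
  continuous_const.prodMk (continuous_pi fun _ => continuous_pi fun _ => continuous_pi fun _ =>
    continuous_pi fun _ => continuous_apply _)
theorem CBConvA_mk_mem {l : Q.Lam} {d : ℕ} {c : Q.Ps × ℕ → ℂ} (h : ∀ q, c q ≠ 0 → q ∈ Q.PU l d) :
    Q.CBConvA_mk l c ∈ Q.UL l d := by
  refine ⟨rfl, ⟨fun i x a b hne => ?_, fun i hi => ?_⟩, fun i x a b hi => ?_⟩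
  · exact (Finset.mem_filter.1 (Q.CBConvA_mem_PU.1 (h _ hne)).1).2
  · funext x a b
    by_contra hne
    exact absurd (Q.CBConvA_mem_PU.1 (h ((x, a, b), i) hne)).2.1 (not_lt.2 hi)
  · by_contra hne
    exact absurd (Q.CBConvA_mem_PU.1 (h ((x, a, b), i) hne)).2.2 (not_le.2 hi)
theorem CBConvA_supp {l : Q.Lam} {d : ℕ} {x : Q.Tr} (hx : x ∈ Q.UL l d) {q : Q.Ps × ℕ}
    (h : Q.coU x q ≠ 0) : q ∈ Q.PU l d := by
  refine Q.CBConvA_mem_PU.2 ⟨Finset.mem_filter.2 ⟨Finset.mem_univ _, hx.2.1.1 _ _ _ _ h⟩, ?_, ?_⟩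
  · by_contra hi
    apply h
    unfold coU
    rw [hx.2.1.2 _ (not_lt.1 hi)]
    rfl
  · by_contra hi
    exact h (hx.2.2 _ _ _ _ (not_le.1 hi))
theorem CBConvA_eq_mk {l : Q.Lam} {d : ℕ} {x : Q.Tr} (hx : x ∈ Q.UL l d) {c : Q.Ps × ℕ → ℂ}
    (h : ∀ q, c q = Q.coU x q) : Q.CBConvA_mk l c = x := by
  refine Prod.ext hx.1.symm ?_
  funext i y a b
  exact h _
theorem CBConvA_ext_coP {J : Finset (Q.Ps × ℕ)} {x : Q.Tr} (h : ∀ q, Q.coU x q ≠ 0 → q ∈ J)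
    (q : Q.Ps × ℕ) : Q.CBConvA_ext J (Q.coP J x) q = Q.coU x q := by
  by_cases hq : q ∈ J
  · rw [Q.CBConvA_ext_mem _ hq]
    rfl
  · rw [Q.CBConvA_ext_not _ hq]
    by_contra hne
    exact hq (h q fun h0 => hne h0.symm)
theorem CBConvA_prod {J : Finset (Q.Ps × ℕ)} (a b : Q.Ps → ℕ)
    (h : ∀ q, q ∈ J ↔ q.1 ∈ Q.WI ∧ a q.1 ≤ q.2 ∧ q.2 < b q.1) :
    ∏ q ∈ J, Q.wtP q.1 = ∏ p ∈ Q.WI, Q.wtP p ^ (b p - a p) := by
  rw [Finset.prod_finset_product J Q.WI (fun p => Finset.Ico (a p) (b p))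
    (fun q => by rw [h q, Finset.mem_Ico])]
  refine Finset.prod_congr rfl fun p _ => ?_
  rw [← Nat.card_Ico]
  exact Finset.prod_const (Q.wtP p)

theorem JC_subset (l l' : Q.Lam) (d₂ : ℕ) : Q.JC l l' d₂ ⊆ Q.PU (l + l') d₂ :=
  Finset.inter_subset_right
theorem JS_subset (l l' : Q.Lam) (d₁ : ℕ) : Q.JS l l' d₁ ⊆ Q.WI ×ˢ Finset.range d₁ :=
  Finset.filter_subset _ _
theorem inclJ_injective {J J' : Finset (Q.Ps × ℕ)} (h : J ⊆ J') :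
    Function.Injective (Q.inclJ h) :=
  fun _ _ e => Subtype.ext (congrArg (fun q : ↥J' => q.1) e)
theorem prod_compl_incl {J J' : Finset (Q.Ps × ℕ)} (h : J ⊆ J')
    [DecidablePred fun i => i ∈ Set.range (Q.inclJ h)] :
    ∏ i ∈ Finset.univ.filter (fun i => i ∉ Set.range (Q.inclJ h)), linF (Q.chQ J' i) =
      ∏ q ∈ J' \ J, Q.wtP q.1 := by
  refine Finset.prod_bij (fun i _ => i.1) (fun i hi => ?_) (fun i _ j _ e => Subtype.ext e)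
    (fun q hq => ?_) fun i _ => Q.linF_chP _
  · refine Finset.mem_sdiff.2 ⟨i.2, fun hJ => (Finset.mem_filter.1 hi).2 ⟨⟨i.1, hJ⟩, rfl⟩⟩
  · obtain ⟨h1, h2⟩ := Finset.mem_sdiff.1 hq
    refine ⟨⟨q, h1⟩, Finset.mem_filter.2 ⟨Finset.mem_univ _, ?_⟩, rfl⟩
    rintro ⟨k, hk⟩
    have : k.1 = q := congrArg (fun q : ↥J' => q.1) hk
    exact h2 (this ▸ k.2)
theorem isCoord_co2 (S : Set (Q.Tr × Q.Tr)) (J J' : Finset (Q.Ps × ℕ)) :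
    IsCoord (TT Q.Var) Q.actRR S (Q.co2 J J') (Sum.elim (Q.chQ J) (Q.chQ J')) := by
  have h1 := Q.isCoord_P univ J
  have h2 := Q.isCoord_P univ J'
  refine ⟨Continuous.continuousOn (continuous_pi fun i => ?_), fun u hu x _ i => ?_⟩
  · cases i with
    | inl i =>
      exact (continuous_apply i).comp ((continuousOn_univ.1 h1.1).comp continuous_fst)
    | inr i =>
      exact (continuous_apply i).comp ((continuousOn_univ.1 h2.1).comp continuous_snd)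
  · cases i with
    | inl i => exact h1.2 u hu x.1 (mem_univ _) i
    | inr i => exact h2.2 u hu x.2 (mem_univ _) i
theorem isCoord_snd (S : Set (Q.Tr × Q.Tr)) (J : Finset (Q.Ps × ℕ)) :
    IsCoord (TT Q.Var) Q.actRR S (fun p => Q.coP J p.2) (Q.chQ J) := by
  have h2 := Q.isCoord_P univ J
  exact ⟨((continuousOn_univ.1 h2.1).comp continuous_snd).continuousOn,
    fun u hu x _ i => h2.2 u hu x.2 (mem_univ _) i⟩
theorem CBConvA_inv (l l' : Q.Lam) (d₁ d₂ : ℕ) :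
    InvX (TT Q.Var) Q.actRR (Q.UL l d₁ ×ˢ Q.UL l' d₂) :=
  fun u hu _ hx => ⟨Q.invX_UL l d₁ u hu _ hx.1, Q.invX_UL l' d₂ u hu _ hx.2⟩
theorem cd_U2 (l l' : Q.Lam) (d₁ d₂ : ℕ) : Cd Q.lab (TT Q.Var) Q.actRR (Q.UL l d₁ ×ˢ Q.UL l' d₂)
    (Q.co2 (Q.PU l d₁) (Q.PU l' d₂)) := by
  obtain ⟨g₁, -, c₁, -, m₁, e₁, e₁'⟩ := (Q.cd_UL l d₁).homeo
  obtain ⟨g₂, -, c₂, -, m₂, e₂, e₂'⟩ := (Q.cd_UL l' d₂).homeo
  refine ⟨Q.isAct_RRT, (Q.cd_UL l d₁).le, Q.CBConvA_inv l l' d₁ d₂,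
    fun v => (g₁ fun i => v (Sum.inl i), g₂ fun i => v (Sum.inr i)), (Q.isCoord_co2 _ _ _).1,
    Continuous.continuousOn ?_, mapsTo_univ _ _, fun v _ => ⟨m₁ (mem_univ _), m₂ (mem_univ _)⟩,
    fun x hx => Prod.ext (e₁ x.1 hx.1) (e₂ x.2 hx.2), fun v _ => ?_⟩
  · exact ((continuousOn_univ.1 c₁).comp (continuous_pi fun i => continuous_apply _)).prodMk
      ((continuousOn_univ.1 c₂).comp (continuous_pi fun i => continuous_apply _))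
  · funext i
    cases i with
    | inl i => exact congrFun (e₁' _ (mem_univ _)) i
    | inr i => exact congrFun (e₂' _ (mem_univ _)) i

variable {Q} {l l' : Q.Lam} {m₁ m₂ d₁ d₂ : ℕ}

theorem sec_U2 (hl' : l' ∈ Q.Box m₂) {x : Q.Tr × Q.Tr} (hx : x ∈ Q.UL l d₁ ×ˢ Q.UL l' d₂) {i : ℕ}
    (hi : i < d₁) (p : Q.Ps) : Q.sec m₂ d₁ d₂ x i p.1 p.2.1 p.2.2 = Q.coU x.1 (p, i) -
      if Q.prP l' p ≤ (i : ℤ) then Q.coU x.2 (p, ((i : ℤ) - Q.prP l' p).toNat) else 0 := by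
  have h1 := Q.lact_tl hl' hx.2.2.1 (i : ℤ) p.1 p.2.1 p.2.2
  have h2 : (Q.tl l', x.2.2) = x.2 := Prod.ext hx.2.1.symm rfl
  rw [h2] at h1
  have h3 : Q.sec m₂ d₁ d₂ x i = x.1.2 i - Q.lact m₂ d₂ x.2 i := if_pos hi
  rw [h3]
  change x.1.2 i p.1 p.2.1 p.2.2 - Q.lact m₂ d₂ x.2 i p.1 p.2.1 p.2.2 = _
  rw [h1]
  exact congrArg₂ (· - ·) rfl (if_congr sub_nonneg rfl rfl)
theorem CBConvA_fst (hl' : l' ∈ Q.Box m₂) {x : Q.Tr × Q.Tr}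
    (hx : x ∈ (Q.UL l d₁ ×ˢ Q.UL l' d₂) ∩ Q.CM m₁ m₂ d₁ d₂) {i : ℕ} (hi : i < d₁) (p : Q.Ps) :
    Q.coU x.1 (p, i) =
      if Q.prP l' p ≤ (i : ℤ) then Q.coU x.2 (p, ((i : ℤ) - Q.prP l' p).toNat) else 0 := by
  have h1 := sec_U2 hl' hx.1 hi p
  rw [hx.2.2] at h1
  exact sub_eq_zero.1 h1.symm
theorem CBConvA_snd (hl : l ∈ Q.Box m₁) (hl' : l' ∈ Q.Box m₂) (h₁ : 2 * m₁ ≤ d₁)
    {x : Q.Tr × Q.Tr} (hx : x ∈ (Q.UL l d₁ ×ˢ Q.UL l' d₂) ∩ Q.CM m₁ m₂ d₁ d₂) (q : Q.Ps × ℕ)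
    (h : Q.coU x.2 q ≠ 0) : q ∈ Q.JC l l' d₂ := by
  obtain ⟨p, j⟩ := q
  obtain ⟨a1, a2, a3⟩ := Q.CBConvA_mem_PU.1 (Q.CBConvA_supp hx.1.2 h)
  refine Q.CBConvA_mem_JC.2 ⟨a1, a2, a3, ?_⟩
  by_contra hlt
  have hb := abs_le.1 (Q.abs_prP_le hl p)
  dsimp only at a3 hlt
  obtain ⟨i, hi⟩ := Int.eq_ofNat_of_zero_le (show 0 ≤ (j : ℤ) + Q.prP l' p by omega)
  have h2 := CBConvA_fst hl' hx (show i < d₁ by omega) p
  rw [if_pos (by omega), show ((i : ℤ) - Q.prP l' p).toNat = j by omega] at h2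
  have h3 := (Q.CBConvA_mem_PU.1 (Q.CBConvA_supp hx.1.1 (h2 ▸ h))).2.2
  dsimp only at h3
  omega
theorem CBConvA_invC (l l' : Q.Lam) (m₁ m₂ d₁ d₂ : ℕ) :
    InvX (TT Q.Var) Q.actRR ((Q.UL l d₁ ×ˢ Q.UL l' d₂) ∩ Q.CM m₁ m₂ d₁ d₂) :=
  fun u hu _ hx => ⟨Q.CBConvA_inv l l' d₁ d₂ u hu _ hx.1,
    Q.invX_CM m₁ m₂ d₁ d₂ u ((Q.cd_UL l d₁).le hu) _ hx.2⟩
theorem CBConvA_maps (hl : l ∈ Q.Box m₁) (hl' : l' ∈ Q.Box m₂) (h₁ : 2 * m₁ ≤ d₁) :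
    MapsTo (Q.mlt m₁) ((Q.UL l d₁ ×ˢ Q.UL l' d₂) ∩ Q.CM m₁ m₂ d₁ d₂) (Q.UL (l + l') d₂) := by
  intro x hx
  refine ⟨?_, hx.1.2.2.1, fun i h a b hi => ?_⟩
  · rw [← Q.mul_tl hl l', ← hx.1.1.1, ← hx.1.2.1]
    rfl
  · by_contra hne
    have h1 := Q.JC_subset l l' d₂ (CBConvA_snd hl hl' h₁ hx ((h, a, b), i) hne)
    exact absurd (Q.CBConvA_mem_PU.1 h1).2.2 (not_le.2 hi)
theorem cd_C2 (hl : l ∈ Q.Box m₁) (hl' : l' ∈ Q.Box m₂) (h₁ : 2 * m₁ ≤ d₁)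
    (h₂ : d₁ + 2 * m₂ ≤ d₂) :
    Cd Q.lab (TT Q.Var) Q.actRR ((Q.UL l d₁ ×ˢ Q.UL l' d₂) ∩ Q.CM m₁ m₂ d₁ d₂)
      fun p => Q.coP (Q.JC l l' d₂) p.2 := by
  have hU : ∀ v : ↥(Q.JC l l' d₂) → ℂ,
      (Q.CBConvA_mk l fun q => if q.2 < d₁ ∧ Q.prP l' q.1 ≤ (q.2 : ℤ) then
        Q.CBConvA_ext _ v (q.1, ((q.2 : ℤ) - Q.prP l' q.1).toNat) else 0,
        Q.CBConvA_mk l' (Q.CBConvA_ext _ v)) ∈ Q.UL l d₁ ×ˢ Q.UL l' d₂ := by
    intro v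
    refine ⟨Q.CBConvA_mk_mem fun q hq => ?_, Q.CBConvA_mk_mem fun q hq => ?_⟩
    · have h1 : q.2 < d₁ ∧ Q.prP l' q.1 ≤ (q.2 : ℤ) := by
        by_contra h
        exact hq (if_neg h)
      rw [if_pos h1] at hq
      have h2 : (q.1, ((q.2 : ℤ) - Q.prP l' q.1).toNat) ∈ Q.JC l l' d₂ := by
        by_contra h
        exact hq (Q.CBConvA_ext_not _ h)
      obtain ⟨a1, -, -, a4⟩ := Q.CBConvA_mem_JC.1 h2
      dsimp only at a1 a4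
      exact Q.CBConvA_mem_PU.2 ⟨a1, h1.1, by omega⟩
    · by_contra h
      exact hq (Q.CBConvA_ext_not _ fun h' => h (Finset.mem_inter.1 h').1)
  refine ⟨Q.isAct_RRT, (Q.cd_UL l d₁).le, CBConvA_invC l l' m₁ m₂ d₁ d₂,
    fun v => (Q.CBConvA_mk l fun q => if q.2 < d₁ ∧ Q.prP l' q.1 ≤ (q.2 : ℤ) then
        Q.CBConvA_ext _ v (q.1, ((q.2 : ℤ) - Q.prP l' q.1).toNat) else 0,
        Q.CBConvA_mk l' (Q.CBConvA_ext _ v)), (Q.isCoord_snd _ _).1,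
    Continuous.continuousOn ?_, mapsTo_univ _ _,
    fun v _ => ⟨hU v, ⟨Q.UL_subset_RR hl d₁ (hU v).1, Q.UL_subset_RR hl' d₂ (hU v).2⟩, ?_⟩,
    fun x hx => ?_, fun v _ => ?_⟩
  · refine ((Q.CBConvA_mk_cont l).comp (continuous_pi fun q => ?_)).prodMk
      ((Q.CBConvA_mk_cont l').comp (continuous_pi fun q => Q.CBConvA_ext_cont _ q))
    split_ifs
    · exact Q.CBConvA_ext_cont _ _
    · exact continuous_const
  · funext i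
    by_cases hi : i < d₁
    · funext h a b
      refine (sec_U2 hl' (hU v) hi (h, a, b)).trans (sub_eq_zero.2 ?_)
      exact if_congr (and_iff_right hi) rfl rfl
    · exact if_neg hi
  · have h1 := Q.CBConvA_ext_coP (CBConvA_snd hl hl' h₁ hx)
    dsimp only
    refine Prod.ext ?_ (Q.CBConvA_eq_mk hx.1.2 h1)
    dsimp only
    refine Q.CBConvA_eq_mk hx.1.1 fun q => ?_
    by_cases hi : q.2 < d₁
    · rw [h1]
      exact (if_congr (and_iff_right hi) rfl rfl).trans (CBConvA_fst hl' hx hi q.1).symm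
    · rw [if_neg fun h => hi h.1]
      by_contra hne
      exact hi (Q.CBConvA_mem_PU.1 (Q.CBConvA_supp hx.1.1 fun h0 => hne h0.symm)).2.1
  · funext q
    exact Q.CBConvA_ext_mem v q.2
theorem em_mlt_T (hl : l ∈ Q.Box m₁) (hl' : l' ∈ Q.Box m₂) (h₁ : 2 * m₁ ≤ d₁) :
    EM Q.lab (TT Q.Var) Q.actRR ((Q.UL l d₁ ×ˢ Q.UL l' d₂) ∩ Q.CM m₁ m₂ d₁ d₂) (TT Q.Var) Q.actR
      (Q.UL (l + l') d₂) (Q.mlt m₁) :=
  ⟨Q.isAct_RRT, Q.isAct_RT, Subset.rfl, (Q.cd_UL l d₁).le, CBConvA_invC l l' m₁ m₂ d₁ d₂,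
    Q.invX_UL _ _, fun u hu x hx => (Q.em_mlt h₁ m₂ d₂).eqv u ((Q.cd_UL l d₁).le hu) x hx.2,
    (Q.em_mlt h₁ m₂ d₂).cont.mono inter_subset_right, CBConvA_maps hl hl' h₁⟩
theorem proper_mlt_T (hl : l ∈ Q.Box m₁) (hl' : l' ∈ Q.Box m₂) (h₁ : 2 * m₁ ≤ d₁) :
    ProperOn (Q.mlt m₁) ((Q.UL l d₁ ×ˢ Q.UL l' d₂) ∩ Q.CM m₁ m₂ d₁ d₂) (Q.UL (l + l') d₂) := by
  refine ⟨(Q.em_mlt h₁ m₂ d₂).cont.mono inter_subset_right, CBConvA_maps hl hl' h₁,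
    fun C hC hs => ?_⟩
  rw [inter_assoc]
  exact ((Q.proper_mlt h₁ m₂ d₂).2.2 C hC
    (hs.trans (Q.UL_subset_RR (Q.add_mem_Box hl hl') d₂))).inter_left
      ((Q.isClosed_UL l d₁).prod (Q.isClosed_UL l' d₂))
/-- The linear change of coordinates. -/
def CBConvA_F (l l' : Q.Lam) (d₁ d₂ : ℕ) :
    (↥(Q.PU l d₁) ⊕ ↥(Q.PU l' d₂) → ℂ) →ₗ[ℂ] (↥(Q.JC l l' d₂) ⊕ ↥(Q.JS l l' d₁) → ℂ) where
  toFun v := Sum.elim (fun q => Q.CBConvA_ext _ (fun i => v (Sum.inr i)) q.1) fun k =>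
    Q.CBConvA_ext _ (fun i => v (Sum.inl i)) k.1 - if Q.prP l' k.1.1 ≤ (k.1.2 : ℤ) then
      Q.CBConvA_ext _ (fun i => v (Sum.inr i)) (k.1.1, ((k.1.2 : ℤ) - Q.prP l' k.1.1).toNat) else 0
  map_add' v w := by
    have h1 := Q.CBConvA_ext_add (fun i => v (Sum.inl i)) fun i => w (Sum.inl i)
    have h2 := Q.CBConvA_ext_add (fun i => v (Sum.inr i)) fun i => w (Sum.inr i)
    funext i
    cases i with
    | inl q => exact h2 _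
    | inr k =>
      simp only [Pi.add_def] at h1 h2
      simp only [Sum.elim_inr, Pi.add_apply, h1, h2]
      split_ifs <;> ring
  map_smul' c v := by
    have h1 := Q.CBConvA_ext_smul c fun i => v (Sum.inl i)
    have h2 := Q.CBConvA_ext_smul c fun i => v (Sum.inr i)
    funext i
    cases i with
    | inl q => exact h2 _
    | inr k =>
      simp only [Pi.smul_def] at h1 h2
      simp only [Sum.elim_inr, Pi.smul_apply, h1, h2, RingHom.id_apply]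
      rw [smul_eq_mul]
      split_ifs <;> ring
theorem CBConvA_F_inj (hl : l ∈ Q.Box m₁) (h₁ : 2 * m₁ ≤ d₁) :
    Function.Injective (CBConvA_F (Q := Q) l l' d₁ d₂) := by
  refine (injective_iff_map_eq_zero _).2 fun v hv => ?_
  have hC : ∀ q ∈ Q.JC l l' d₂, Q.CBConvA_ext _ (fun i => v (Sum.inr i)) q = 0 :=
    fun q hq => congrFun hv (Sum.inl ⟨q, hq⟩)
  have hS : ∀ k ∈ Q.JS l l' d₁, Q.CBConvA_ext _ (fun i => v (Sum.inl i)) k =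
      if Q.prP l' k.1 ≤ (k.2 : ℤ) then Q.CBConvA_ext _ (fun i => v (Sum.inr i))
        (k.1, ((k.2 : ℤ) - Q.prP l' k.1).toNat) else 0 :=
    fun k hk => sub_eq_zero.1 (congrFun hv (Sum.inr ⟨k, hk⟩))
  have h2 : ∀ q, Q.CBConvA_ext _ (fun i => v (Sum.inr i)) q = 0 := by
    rintro ⟨p, j⟩
    by_cases hq : (p, j) ∈ Q.PU l' d₂
    · by_cases hq' : (p, j) ∈ Q.JC l l' d₂
      · exact hC _ hq'
      · obtain ⟨a1, a2, a3⟩ := Q.CBConvA_mem_PU.1 hq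
        have hlt : ¬ -(Q.prP l p + Q.prP l' p) ≤ (j : ℤ) :=
          fun h => hq' (Q.CBConvA_mem_JC.2 ⟨a1, a2, a3, h⟩)
        have hb := abs_le.1 (Q.abs_prP_le hl p)
        dsimp only at a3
        obtain ⟨i, hi⟩ := Int.eq_ofNat_of_zero_le (show 0 ≤ (j : ℤ) + Q.prP l' p by omega)
        have h3 := hS (p, i) (Q.CBConvA_mem_JS.2 ⟨a1, by dsimp only; omega, by dsimp only; omega⟩)
        dsimp only at h3
        rw [if_pos (by omega), show ((i : ℤ) - Q.prP l' p).toNat = j by omega,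
          Q.CBConvA_ext_not] at h3
        · exact h3.symm
        · intro h
          have := (Q.CBConvA_mem_PU.1 h).2.2
          dsimp only at this
          omega
    · exact Q.CBConvA_ext_not _ hq
  funext i
  cases i with
  | inl q =>
    obtain ⟨a1, a2, a3⟩ := Q.CBConvA_mem_PU.1 q.2
    have h3 := hS q.1 (Q.CBConvA_mem_JS.2 ⟨a1, a2, (min_le_left _ _).trans a3⟩)
    rw [h2, ite_self, Q.CBConvA_ext_mem _ q.2] at h3
    exact h3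
  | inr q =>
    have h3 := h2 q.1
    rw [Q.CBConvA_ext_mem _ q.2] at h3
    exact h3
theorem CBConvA_F_surj (hl' : l' ∈ Q.Box m₂) (h₂ : d₁ + 2 * m₂ ≤ d₂) :
    Function.Surjective (CBConvA_F (Q := Q) l l' d₁ d₂) := by
  intro w
  refine ⟨Sum.elim
    (fun k => Q.CBConvA_ext _ (fun i => w (Sum.inr i)) k.1 + if Q.prP l' k.1.1 ≤ (k.1.2 : ℤ) then
      Q.CBConvA_ext _ (fun i => w (Sum.inl i)) (k.1.1, ((k.1.2 : ℤ) - Q.prP l' k.1.1).toNat) else 0)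
    fun q => if q.1 ∈ Q.JC l l' d₂ then Q.CBConvA_ext _ (fun i => w (Sum.inl i)) q.1 else
      -Q.CBConvA_ext _ (fun i => w (Sum.inr i)) (q.1.1, ((q.1.2 : ℤ) + Q.prP l' q.1.1).toNat),
    funext fun i => ?_⟩
  cases i with
  | inl q =>
    simp only [CBConvA_F, LinearMap.coe_mk, AddHom.coe_mk, Sum.elim_inr, Sum.elim_inl]
    rw [Q.CBConvA_ext_mem _ (Finset.mem_inter.1 q.2).1]
    exact (if_pos q.2).trans (Q.CBConvA_ext_mem _ q.2)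
  | inr k =>
    obtain ⟨⟨p, i⟩, hk⟩ := k
    obtain ⟨a1, a2, a3⟩ := Q.CBConvA_mem_JS.1 hk
    have hb := abs_le.1 (Q.abs_prP_le hl' p)
    dsimp only at a1 a2 a3
    have hw : Q.CBConvA_ext _ (fun i => w (Sum.inr i)) (p, i) = w (Sum.inr ⟨(p, i), hk⟩) :=
      Q.CBConvA_ext_mem _ hk
    simp only [CBConvA_F, LinearMap.coe_mk, AddHom.coe_mk, Sum.elim_inr, Sum.elim_inl]
    by_cases hr : Q.prP l' p ≤ (i : ℤ)
    · have hP : (p, ((i : ℤ) - Q.prP l' p).toNat) ∈ Q.PU l' d₂ :=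
        Q.CBConvA_mem_PU.2 ⟨a1, by dsimp only; omega, by dsimp only; omega⟩
      rw [if_pos hr, Q.CBConvA_ext_mem _ hP]
      by_cases hU : (p, i) ∈ Q.PU l d₁
      · have a4 := (Q.CBConvA_mem_PU.1 hU).2.2
        dsimp only at a4
        have hJ : (p, ((i : ℤ) - Q.prP l' p).toNat) ∈ Q.JC l l' d₂ :=
          Q.CBConvA_mem_JC.2 ⟨a1, by dsimp only; omega, by dsimp only; omega, by dsimp only; omega⟩
        rw [Q.CBConvA_ext_mem _ hU]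
        dsimp only
        rw [if_pos hr, if_pos hJ, hw, add_sub_cancel_right]
      · have a4 : ¬ -Q.prP l p ≤ (i : ℤ) := fun h => hU (Q.CBConvA_mem_PU.2 ⟨a1, a2, h⟩)
        have hJ : (p, ((i : ℤ) - Q.prP l' p).toNat) ∉ Q.JC l l' d₂ := fun h => by
          have := (Q.CBConvA_mem_JC.1 h).2.2.2
          dsimp only at this
          omega
        rw [Q.CBConvA_ext_not _ hU]
        dsimp only
        rw [if_neg hJ, show ((((i : ℤ) - Q.prP l' p).toNat : ℤ) + Q.prP l' p).toNat = i by omega,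
          hw, zero_sub, neg_neg]
    · have hU : (p, i) ∈ Q.PU l d₁ := Q.CBConvA_mem_PU.2 ⟨a1, a2, by dsimp only; omega⟩
      rw [if_neg hr, Q.CBConvA_ext_mem _ hU]
      dsimp only
      rw [if_neg hr, hw, add_zero, sub_zero]
theorem exists_A (hl : l ∈ Q.Box m₁) (hl' : l' ∈ Q.Box m₂) (h₁ : 2 * m₁ ≤ d₁)
    (h₂ : d₁ + 2 * m₂ ≤ d₂) :
    ∃ A : (↥(Q.PU l d₁) ⊕ ↥(Q.PU l' d₂) → ℂ) ≃ₗ[ℂ] (↥(Q.JC l l' d₂) ⊕ ↥(Q.JS l l' d₁) → ℂ),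
      ∀ x ∈ Q.UL l d₁ ×ˢ Q.UL l' d₂, A (Q.co2 (Q.PU l d₁) (Q.PU l' d₂) x) =
        Sum.elim (Q.coP (Q.JC l l' d₂) x.2) fun k =>
          Q.coJ d₁ (Q.sec m₂ d₁ d₂ x) (Q.inclJ (Q.JS_subset l l' d₁) k) := by
  refine ⟨LinearEquiv.ofBijective (CBConvA_F l l' d₁ d₂)
    ⟨CBConvA_F_inj hl h₁, CBConvA_F_surj hl' h₂⟩, fun x hx => funext fun i => ?_⟩
  have h1 := Q.CBConvA_ext_coP fun q => Q.CBConvA_supp (q := q) hx.1
  have h2 := Q.CBConvA_ext_coP fun q => Q.CBConvA_supp (q := q) hx.2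
  cases i with
  | inl q => exact h2 q.1
  | inr k =>
    refine Eq.trans ?_ (sec_U2 hl' hx (Q.CBConvA_mem_JS.1 k.2).2.1 k.1.1).symm
    rw [← h1, ← h2]
    rfl
theorem euler_identity (hl : l ∈ Q.Box m₁) (hl' : l' ∈ Q.Box m₂) (h₁ : 2 * m₁ ≤ d₁)
    (h₂ : d₁ + 2 * m₂ ≤ d₂) :
    (∏ q ∈ Q.PU (l + l') d₂ \ Q.JC l l' d₂, Q.wtP q.1) *
      (∏ q ∈ (Q.WI ×ˢ Finset.range d₁) \ Q.JS l l' d₁, Q.wtP q.1) * Q.phi (l + l') =
      Q.phi l * Q.phi l' := by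
  rw [Q.CBConvA_prod (fun p => (-Q.prP (l + l') p).toNat) (fun p => (-Q.prP l' p).toNat),
    Q.CBConvA_prod (fun _ => 0) (fun p => (min (-Q.prP l p) (Q.prP l' p)).toNat)]
  · unfold phi
    rw [← Finset.prod_mul_distrib, ← Finset.prod_mul_distrib, ← Finset.prod_mul_distrib]
    refine Finset.prod_congr rfl fun p _ => ?_
    rw [← pow_add, ← pow_add, ← pow_add, prP_add]
    congr 1
    omega
  · intro q
    have hb := abs_le.1 (Q.abs_prP_le hl q.1)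
    rw [Finset.mem_sdiff, CBConvA_mem_JS, Finset.mem_product, Finset.mem_range]
    constructor
    · rintro ⟨⟨a1, a2⟩, a3⟩
      refine ⟨a1, Nat.zero_le _, ?_⟩
      by_contra h
      exact a3 ⟨a1, a2, by omega⟩
    · rintro ⟨a1, -, a2⟩
      exact ⟨⟨a1, by omega⟩, fun h => by have := h.2.2; omega⟩
  · intro q
    have hb := abs_le.1 (Q.abs_prP_le hl' q.1)
    rw [Finset.mem_sdiff, CBConvA_mem_JC, CBConvA_mem_PU, prP_add]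
    constructor
    · rintro ⟨⟨a1, a2, a3⟩, a4⟩
      refine ⟨a1, by omega, ?_⟩
      by_contra h
      exact a4 ⟨a1, a2, by omega, a3⟩
    · rintro ⟨a1, a2, a3⟩
      exact ⟨⟨a1, by omega, by omega⟩, fun h => by have := h.2.2.1; omega⟩

end Qv

end Pool.Agent.HK
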