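import Pool.Agent.P.MP_1206ce_ag.BG.Defs
import Pool.Agent.P.MP_1206ce_ag.AS.Gysin

/-! Abelianisation of the convolution algebra: definitions. -/

open scoped Topology
open Filter Set

noncomputable section

namespace Pool.Agent.HK

section General

variable {V Λ Λ₀ X X₁ ι Y : Type} [Fintype V] [DecidableEq V] [TopologicalSpace X]
  [TopologicalSpace X₁] [Fintype ι]

/-- The levels of the Borel construction of `S`. -/
abbrev BL (L : Set (Matrix V V ℂ)) (act : Matrix V V ℂ → X → X) (S : Set X) (lab₀ : V → Λ₀) :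
    ℕ → Set (Bor L act) := fun n => BS L act S (St lab₀ n)

/-- The homogeneous components of a family. -/
def prF (k : ℤ) (a : Fam Y) : Fam Y := fun n => prC k (a n)

/-- The fibre inclusion over the frame `e`. -/
abbrev fib (L : Set (Matrix V V ℂ)) (act : Matrix V V ℂ → X → X) (e : Fr V) : X → Bor L act :=
  fun x => bmk L act (x, e)

/-- Compact invariant sets of orthonormal frames. -/
structure FrOK (lab₀ : V → Λ₀) (E : Set (Fr V)) : Prop where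
  sub : ∃ n, E ⊆ St lab₀ n
  cpt : IsCompact E
  inv : InvF (KG lab₀) E

/-- Equivariant maps `S → S₁` with a change of group `L ⊆ L₁`. -/
structure EM (lab₀ : V → Λ₀) (L : Set (Matrix V V ℂ)) (act : Matrix V V ℂ → X → X) (S : Set X)
    (L₁ : Set (Matrix V V ℂ)) (act₁ : Matrix V V ℂ → X₁ → X₁) (S₁ : Set X₁) (f : X → X₁) :
    Prop where
  ha : IsAct L act
  ha₁ : IsAct L₁ act₁
  sub : L ⊆ L₁
  le : L₁ ⊆ KG lab₀
  inv : InvX L act S
  inv₁ : InvX L₁ act₁ S₁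
  eqv : ∀ u ∈ L, ∀ x ∈ S, f (act u x) = act₁ u (f x)
  cont : ContinuousOn f S
  maps : MapsTo f S S₁

/-- An invariant set with global complex coordinates. -/
structure Cd (lab₀ : V → Λ₀) (L : Set (Matrix V V ℂ)) (act : Matrix V V ℂ → X → X) (S : Set X)
    (co : X → ι → ℂ) : Prop where
  ha : IsAct L act
  le : L ⊆ KG lab₀
  inv : InvX L act S
  homeo : ∃ g, HomeoOn co g S univ

/-- Thom cocycles with compact support, oriented by the coordinates `co`. -/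
structure IsTh (L : Set (Matrix V V ℂ)) (act : Matrix V V ℂ → X → X) (S : Set X)
    (E : Set (Fr V)) (co : X → ι → ℂ) (t : Coch (Bor L act)) : Prop where
  mem : t ∈ ZZ (cc (BS L act S E)) (BS L act S E)
  hom : HomC (2 * (Fintype.card ι : ℤ)) t
  fibre : ∀ e ∈ E, pb (fib L act e) t - pb co (genC ι) ∈ BB (cc S) S

/-- The torus equivariant family `a` is `p` times the Thom class. -/
def TRel (act : Matrix V V ℂ → X → X) (S : Set X) (lab₀ : V → Λ₀) (co : X → ι → ℂ)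
    (χ : ι → V → ℤ) (a : Fam (Bor (TT V) act)) (p : MvPolynomial V ℂ) : Prop :=
  ∀ n, a n - cup (polyX (TT V) act p) (tauT (TT V) act co χ) ∈
    BB (cc (BS (TT V) act S (St lab₀ n))) (BS (TT V) act S (St lab₀ n))

/-- Sets of frames whose torus quotient has cohomology generated by first Chern classes. -/
structure GenF (lab₀ : V → Λ₀) (E : Set (Fr V)) : Prop where
  ok : FrOK lab₀ E
  gen : ∀ (k : ℤ) (w : Coch (BT V)), w ∈ ZZ ⊥ (BS (TT V) ptAct univ E) → HomC k w →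
    ∃ p : MvPolynomial V ℂ, (p = 0 ∨ ∃ d : ℕ, k = 2 * (d : ℤ) ∧ p.IsHomogeneous d) ∧
      w - polyC p ∈ BB ⊥ (BS (TT V) ptAct univ E)
  fin : FiniteDimensional ℂ (Hc (BS (TT V) ptAct univ E))

/-- The orbit of a frame. -/
def orb (lab₀ : V → Λ₀) (e : Fr V) : Set (Fr V) := {e' | ∃ u ∈ KG lab₀, e' = frAct u e}

/-- Equivariantly formal sets with even cohomology. -/
structure Good (lab₀ : V → Λ₀) (act : Matrix V V ℂ → X → X) (A : Set X) : Prop where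
  inv : InvX (KG lab₀) act A
  lc : LC A
  even : ∀ E, GenF lab₀ E → ∀ (k : ℤ) (x : Hc (BS (KG lab₀) act A E)), Odd k → prH _ _ k x = 0
  fin : ∀ E, GenF lab₀ E → FiniteDimensional ℂ (Hc (BS (KG lab₀) act A E))
  onto : ∀ E E', GenF lab₀ E → GenF lab₀ E' → E' ⊆ E →
    Function.Surjective (res (BS (KG lab₀) act A E) (BS (KG lab₀) act A E'))

/-- The saturation of a set. -/
def SatX (lab₀ : V → Λ₀) (act : Matrix V V ℂ → X → X) (C : Set X) : Set X :=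
  {p | ∃ u ∈ KG lab₀, act u p ∈ C}

/-- An induced cell `K ×^{K'} C` with `C` a module of `K' = KG lab`. -/
structure CellD (lab₀ : V → Λ₀) (lab : V → Λ) (act : Matrix V V ℂ → X → X) (C : Set X)
    (co : X → ι → ℂ) (ρ : Matrix V V ℂ → (ι → ℂ) → ι → ℂ) (χ : ι → V → ℤ) : Prop where
  ref : Refines lab lab₀
  ha : IsAct (KG lab₀) act
  inv : InvX (KG lab) act C
  stab : ∀ p ∈ C, ∀ u ∈ KG lab₀, act u p ∈ C → u ∈ KG lab
  cl : ClosedIn C (SatX lab₀ act C)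
  lc : LC (SatX lab₀ act C)
  homeo : ∃ g, HomeoOn co g C univ
  md : IsMod lab ρ χ
  eqv : ∀ u ∈ KG lab, ∀ p ∈ C, co (act u p) = ρ u (co p)

open Classical in
/-- The invariant polynomial of an equivariant class of the point. -/
def val (lab : V → Λ) (u : Fam (Bor (KG lab) (ptAct (V := V)))) : MvPolynomial V ℂ :=
  if h : ∃ p ∈ Rinv lab, FamEq False (BL (KG lab) ptAct univ lab) u (chC lab p) then
    Classical.choose h else 0

end General

namespace Qv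

variable (Q : Qv)

/-- The coordinates of `N`. -/
def coN (x : Q.Arr) (p : ↥Q.WI) : ℂ := x p.1.1 p.1.2.1 p.1.2.2
/-- The coordinates of `N[z]/z^d`. -/
def coJ (d : ℕ) (s : ℕ → Q.Arr) (q : ↥(Q.WI ×ˢ Finset.range d)) : ℂ :=
  s q.1.2 q.1.1.1 q.1.1.2.1 q.1.1.2.2
/-- Jet coordinates indexed by a finite set of positions. -/
def coP (J : Finset (Q.Ps × ℕ)) (p : Q.Tr) (q : ↥J) : ℂ := Q.coU p q.1
/-- Their characters. -/
def chQ (J : Finset (Q.Ps × ℕ)) (q : ↥J) : Q.Var → ℤ := Q.chP q.1.1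
/-- Truncation of the jet. -/
def trunc (d : ℕ) (p : Q.Tr) : Q.Tr := (p.1, fun i => if i < d then p.2 i else 0)
/-- From the torus to `K`. -/
abbrev toK : Bor (TT Q.Var) Q.actR → Q.YR := bmap Q.KK Q.actR id id
/-- To the classifying space. -/
abbrev toPt : Q.YR → Q.YK := bmap Q.KK ptAct (fun _ => ()) id
/-- The Thom isomorphism in `d`. -/
def thF (τ : Fam Q.YN) (d : ℕ) (a : Fam Q.YR) : Fam Q.YR :=
  cupF (pbF (bmap Q.KK Q.actR (Q.trunc d) id) a) (pbF (bmap Q.KK Q.actN (fun p => p.2 d) id) τ)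

/-- `τ` is `ζ` times the complex oriented Thom class. -/
structure ThomZ (τ : Fam Q.YN) (ζ : ℂ) : Prop where
  ne : ζ ≠ 0
  fam : IsFam True (BL Q.KK Q.actN Q.NN Q.lab) τ
  hom : Homog (2 * (Q.dimN : ℤ)) τ
  th : ∀ n, IsTh Q.KK Q.actN Q.NN (St Q.lab n) Q.coN (ζ⁻¹ • τ n)

/-- `p` is the coefficient of the Thom class in the restriction of `a` to the fibre over `t^λ`. -/
def EvRel (ζ : ℂ) (l : Q.Lam) (d : ℕ) (a : Fam Q.YR) (p : Q.Pol) : Prop :=
  TRel Q.actR (Q.UL l d) Q.lab (Q.coP (Q.PU l d)) (Q.chQ (Q.PU l d))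
    ((ζ ^ d)⁻¹ • pbF Q.toK a) p

open Classical in
/-- `ev_λ`. -/
def ev (ζ : ℂ) (l : Q.Lam) (d : ℕ) (a : Fam Q.YR) : Q.Pol :=
  if h : ∃ p, Q.EvRel ζ l d a p then Classical.choose h else 0

/-- The Euler class of the attracting cell. -/
def eN (l : Q.Lam) : Q.Pol := ∏ q ∈ Q.NL l, linF (Q.chN q)

/-- The weight of a cocharacter. -/
def wtL (θ : Fin Q.nI → ℤ) (l : Q.Lam) : ℤ := ∑ i, θ (Q.vt i) * l i

/-- The part of weight `k` of the space of triples. -/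
def RRk (θ : Fin Q.nI → ℤ) (k : ℤ) (m d : ℕ) : Set Q.Tr :=
  {p | p ∈ Q.RR m d ∧ ∀ z : ℂ, ‖z‖ = 1 →
    ∏ i, (Matrix.det (Matrix.of fun a b => if Q.vb a = some i ∧ Q.vb b = some i then
      Q.evl m p.1 z a b else if a = b then 1 else 0)) ^ θ i = z ^ k}

/-- The domain of the multiplication map. -/
def CM (m₁ m₂ d₁ d₂ : ℕ) : Set (Q.Tr × Q.Tr) :=
  {p | p ∈ Q.RR m₁ d₁ ×ˢ Q.RR m₂ d₂ ∧ Q.sec m₂ d₁ d₂ p = 0}

/-- The ball bundles. -/
def ballJ (d : ℕ) (ε : ℝ) : Set Q.YJ := BS Q.KK Q.actJ {s | Q.nrm d s < ε} univ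

/-- The squared norm on the Borel quotient. -/
def nuJ (d : ℕ) : Q.YJ → ℝ := blift fun p => Q.nrm d p.1

/-- The decomposition of the Gysin image that defines the convolution product. -/
def GysDec (τ : Fam Q.YN) (m₁ m₂ d₁ d₂ : ℕ) (b : Fam Q.YR) (N : ℕ) (α β : Fin N → Fam Q.YR) :
    Prop :=
  (∀ j, IsFam True (Q.BR (Q.RR m₁ d₁)) (α j) ∧ IsFam True (Q.BR (Q.RR m₂ d₂)) (β j)) ∧
    ∀ n, IsGysin (BS Q.KK Q.actRR (Q.RR m₁ d₁ ×ˢ Q.RR m₂ d₂) (St Q.lab n))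
      (BS Q.KK Q.actRR (Q.CM m₁ m₂ d₁ d₂) (St Q.lab n)) (BS Q.KK Q.actJ (Q.Jet d₁) (St Q.lab n))
      (Q.ballJ d₁) (bmap Q.KK Q.actJ (Q.sec m₂ d₁ d₂) id) (Q.tauJ τ d₁ n)
      (pb (bmap Q.KK Q.actR (Q.mlt m₁) id) (b n))
      (∑ j, cup (pb (bmap Q.KK Q.actR Prod.fst id) (α j n))
        (pb (bmap Q.KK Q.actR Prod.snd id) (β j n)))

/-- Upward closed Weyl invariant sets of cocharacters. -/
structure Up (m : ℕ) (B : Finset Q.Lam) : Prop where
  sub : B ⊆ Q.Box m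
  stab : ∀ w ∈ Wl Q.lab, ∀ l ∈ B, Q.wl w l ∈ B
  up : ∀ l ∈ B, ∀ l' ∈ Q.Box m, Q.nsq l < Q.nsq l' → l' ∈ B

/-- The union of the strata indexed by `B`. -/
def OB (RC : Q.Lam → Set Q.Tr) (B : Finset Q.Lam) : Set Q.Tr := ⋃ l ∈ B, Q.Sat (RC l)

/-- The pairing of coefficients with evaluations. -/
def pair (B : Finset Q.Lam) (γ : Q.Lam → Q.Frac) (f : Q.Lam → Q.Pol) : Q.Frac :=
  ∑ l ∈ B, γ l * algebraMap Q.Pol Q.Frac (f l)

/-- The coefficients `z_λ / φ_λ`. -/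
def cf (z : Q.AA) (l : Q.Lam) : Q.Frac := z.coeff l / algebraMap Q.Pol Q.Frac (Q.phi l)

/-- The algebraic properties of the image of the evaluation maps. -/
structure LocData (B : Finset Q.Lam) (E : Set (Q.Lam → Q.Pol)) : Prop where
  stab : ∀ w ∈ Wl Q.lab, ∀ l ∈ B, Q.wl w l ∈ B
  add : ∀ f ∈ E, ∀ g ∈ E, f + g ∈ E
  smul : ∀ h ∈ Rinv Q.lab, ∀ f ∈ E, h • f ∈ E
  eqv : ∀ f ∈ E, ∀ w ∈ Wl Q.lab, ∀ l ∈ B, f (Q.wl w l) = MvPolynomial.rename w (f l)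
  ex : ∀ l ∈ B, ∀ g ∈ Rinv (Q.labl l), ∃ f ∈ E, f l = g * Q.eN l ∧
    ∀ l' ∈ B, Q.nsq l' ≤ Q.nsq l → (∀ w ∈ Wl Q.lab, l' ≠ Q.wl w l) → f l' = 0

/-- The image of the evaluation maps. -/
def EvSet (ζ : ℂ) (m d : ℕ) : Set (Q.Lam → Q.Pol) :=
  {f | ∃ a, IsFam True (Q.BR (Q.RR m d)) a ∧ ∀ l ∈ Q.Box m, f l = Q.ev ζ l d a}

end Qv

end Pool.Agent.HK
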