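import Pool.Agent.P.MP_1206ce_ag.CB.Loc

/-! Degrees of the coefficients; the pairing with products and monopole operators. -/

open MvPolynomial

noncomputable section

namespace Pool.Agent.HK

section CBDegGen

variable {V : Type}

/-- Scaling of the variables. -/
def CBDeg_sc (u : ℂ) : MvPolynomial V ℂ →ₐ[ℂ] MvPolynomial V ℂ := aeval fun v => C u * X v

theorem CBDeg_sc_monomial (u : ℂ) (d : V →₀ ℕ) (c : ℂ) :
    CBDeg_sc u (monomial d c) = C (u ^ d.degree) * monomial d c := by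
  unfold CBDeg_sc
  rw [aeval_monomial, monomial_eq, Finsupp.prod, Finsupp.prod, Finsupp.degree_apply]
  simp only [mul_pow, Finset.prod_mul_distrib, Finset.prod_pow_eq_pow_sum, algebraMap_eq, C_pow]
  ring

theorem CBDeg_sc_hom (u : ℂ) {p : MvPolynomial V ℂ} {e : ℕ} (hp : p.IsHomogeneous e) :
    CBDeg_sc u p = C (u ^ e) * p := by
  conv_lhs => rw [p.as_sum]
  conv_rhs => rw [p.as_sum]
  rw [map_sum, Finset.mul_sum]
  refine Finset.sum_congr rfl fun d hd => ?_
  have : d.degree = e := by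
    by_contra hne
    exact (mem_support_iff.1 hd) (hp.coeff_eq_zero hne)
  rw [CBDeg_sc_monomial, this]

theorem CBDeg_sc_comp (u u' : ℂ) (p : MvPolynomial V ℂ) :
    CBDeg_sc u (CBDeg_sc u' p) = CBDeg_sc (u' * u) p := by
  have : (CBDeg_sc (V := V) u).comp (CBDeg_sc u') = CBDeg_sc (u' * u) := by
    refine algHom_ext fun v => ?_
    simp [CBDeg_sc, mul_assoc]
  exact congrArg (fun φ : MvPolynomial V ℂ →ₐ[ℂ] MvPolynomial V ℂ => φ p) this

theorem CBDeg_sc_one (p : MvPolynomial V ℂ) : CBDeg_sc 1 p = p := by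
  have : CBDeg_sc (V := V) 1 = AlgHom.id ℂ _ := by
    refine algHom_ext fun v => ?_
    simp [CBDeg_sc]
  rw [this]
  rfl

theorem CBDeg_sc_inj {u : ℂ} (hu : u ≠ 0) : Function.Injective (CBDeg_sc (V := V) u) := by
  refine Function.LeftInverse.injective (g := CBDeg_sc u⁻¹) fun p => ?_
  rw [CBDeg_sc_comp, mul_inv_cancel₀ hu, CBDeg_sc_one]

/-- The scaling on fractions. -/
theorem CBDeg_exists_sc {u : ℂ} (hu : u ≠ 0) :
    ∃ S : FractionRing (MvPolynomial V ℂ) →+* FractionRing (MvPolynomial V ℂ),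
      ∀ p : MvPolynomial V ℂ, S (algebraMap _ _ p) = algebraMap _ _ (CBDeg_sc u p) := by
  have hinj : Function.Injective
      ((algebraMap (MvPolynomial V ℂ) (FractionRing (MvPolynomial V ℂ))).comp
        (CBDeg_sc (V := V) u).toRingHom) :=
    (IsFractionRing.injective _ _).comp (CBDeg_sc_inj hu)
  exact ⟨IsFractionRing.lift hinj, fun p => IsFractionRing.lift_algebraMap hinj p⟩

/-- Comparison of the coefficients of a Laurent polynomial with infinitely many roots. -/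
theorem CBDeg_laurent {K : Type} [Field K] (φ : ℂ →+* K) (j : ℤ) (N M : ℕ) (b a : ℕ → K)
    (h : ∀ t : ℂ, t ≠ 0 → φ t ^ j * ∑ n ∈ Finset.range N, φ t ^ (2 * n) * b n =
      ∑ m ∈ Finset.range M, φ t ^ (2 * m) * a m) {n : ℕ} (hn : n ∈ Finset.range N)
    (hb : b n ≠ 0) : ∃ m : ℕ, 2 * ((m : ℤ) - n) = j ∧ b n = a m := by
  classical
  set p := j.toNat
  set q := (-j).toNat
  have hj : j = (p : ℤ) - q := by omega
  let P : Polynomial K := ∑ n ∈ Finset.range N, Polynomial.monomial (2 * n + p) (b n) -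
    ∑ m ∈ Finset.range M, Polynomial.monomial (2 * m + q) (a m)
  have hP : P = 0 := by
    refine Polynomial.eq_zero_of_infinite_isRoot P ?_
    have hinf : (φ '' {t : ℂ | t ≠ 0}).Infinite :=
      (Set.infinite_image_iff φ.injective.injOn).2 (Set.finite_singleton (0 : ℂ)).infinite_compl
    refine hinf.mono ?_
    rintro _ ⟨t, ht, rfl⟩
    have ht' : φ t ≠ 0 := (map_ne_zero φ).2 ht
    have h1 := h t ht
    have h2 : φ t ^ j * φ t ^ q = φ t ^ p := by
      rw [hj, zpow_sub₀ ht', zpow_natCast, zpow_natCast, div_mul_cancel₀ _ (pow_ne_zero _ ht')]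
    change P.eval (φ t) = 0
    simp only [P, Polynomial.eval_sub, Polynomial.eval_finsetSum, Polynomial.eval_monomial]
    have e1 : ∑ n ∈ Finset.range N, b n * φ t ^ (2 * n + p) =
        φ t ^ q * (φ t ^ j * ∑ n ∈ Finset.range N, φ t ^ (2 * n) * b n) := by
      rw [← mul_assoc, mul_comm (φ t ^ q), h2, Finset.mul_sum]
      exact Finset.sum_congr rfl fun n _ => by ring
    have e2 : ∑ m ∈ Finset.range M, a m * φ t ^ (2 * m + q) =
        φ t ^ q * ∑ m ∈ Finset.range M, φ t ^ (2 * m) * a m := by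
      rw [Finset.mul_sum]
      exact Finset.sum_congr rfl fun n _ => by ring
    rw [e1, e2, h1, sub_self]
  have hc := congrArg (fun R : Polynomial K => R.coeff (2 * n + p)) hP
  simp only [P, Polynomial.coeff_sub, Polynomial.finsetSum_coeff, Polynomial.coeff_monomial,
    Polynomial.coeff_zero] at hc
  rw [Finset.sum_eq_single n (fun k _ hk => if_neg (by omega)) (fun h' => absurd hn h'),
    if_pos rfl, sub_eq_zero] at hc
  have hne : ∑ m ∈ Finset.range M, (if 2 * m + q = 2 * n + p then a m else 0) ≠ 0 := hc ▸ hb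
  obtain ⟨m, hm, hm0⟩ := Finset.exists_ne_zero_of_sum_ne_zero hne
  have hmq : 2 * m + q = 2 * n + p := by
    by_contra h'
    exact hm0 (if_neg h')
  refine ⟨m, by omega, ?_⟩
  rw [hc, Finset.sum_eq_single m (fun k _ hk => if_neg (by omega)) (fun h' => absurd hm h'),
    if_pos hmq]

/-- Eigenvectors of all scalings are homogeneous fractions. -/
theorem CBDeg_eigen (j : ℤ) (x : FractionRing (MvPolynomial V ℂ))
    (h : ∀ t : ℂ, t ≠ 0 →
      ∃ S : FractionRing (MvPolynomial V ℂ) →+* FractionRing (MvPolynomial V ℂ),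
        (∀ p : MvPolynomial V ℂ,
          S (algebraMap _ _ p) = algebraMap _ _ (CBDeg_sc (t ^ 2) p)) ∧
        S x = algebraMap (MvPolynomial V ℂ) _ (C t) ^ j * x) :
    x = 0 ∨ ∃ (a b : MvPolynomial V ℂ) (da db : ℕ), a.IsHomogeneous da ∧ b.IsHomogeneous db ∧
      b ≠ 0 ∧ x * algebraMap _ _ b = algebraMap _ _ a ∧ 2 * ((da : ℤ) - db) = j := by
  by_cases hx : x = 0
  · exact Or.inl hx
  right
  obtain ⟨a, b, hb, hab⟩ := IsFractionRing.div_surjective (A := MvPolynomial V ℂ) x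
  have hb0 : b ≠ 0 := nonZeroDivisors.ne_zero hb
  have hinj := IsFractionRing.injective (MvPolynomial V ℂ) (FractionRing (MvPolynomial V ℂ))
  set ι := algebraMap (MvPolynomial V ℂ) (FractionRing (MvPolynomial V ℂ)) with hι
  have hb1 : ι b ≠ 0 := (map_ne_zero_iff ι hinj).2 hb0
  have hxb : x * ι b = ι a := by rw [← hab, div_mul_cancel₀ _ hb1]
  have hbs := sum_homogeneousComponent b
  have hne : ∑ i ∈ Finset.range (b.totalDegree + 1), homogeneousComponent i b ≠ 0 := by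
    rw [hbs]
    exact hb0
  obtain ⟨n, hn, hn0⟩ := Finset.exists_ne_zero_of_sum_ne_zero hne
  have hsc : ∀ (t : ℂ) (c : MvPolynomial V ℂ), ι (CBDeg_sc (t ^ 2) c) =
      ∑ i ∈ Finset.range (c.totalDegree + 1),
        (ι.comp C) t ^ (2 * i) * ι (homogeneousComponent i c) := by
    intro t c
    conv_lhs => rw [← sum_homogeneousComponent c]
    rw [map_sum, map_sum]
    refine Finset.sum_congr rfl fun i _ => ?_
    rw [CBDeg_sc_hom _ (homogeneousComponent_isHomogeneous i c), map_mul, ← pow_mul, C_pow,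
      map_pow]
    rfl
  obtain ⟨m, hm, e⟩ := CBDeg_laurent (ι.comp C) j (b.totalDegree + 1) (a.totalDegree + 1)
    (fun i => x * ι (homogeneousComponent i b)) (fun i => ι (homogeneousComponent i a))
    (fun t ht => by
      obtain ⟨S, hS, hSx⟩ := h t ht
      have h1 := congrArg S hxb
      rw [map_mul, hS, hS, hSx, hsc, hsc] at h1
      rw [← h1, mul_assoc, Finset.mul_sum (a := x)]
      congr 1
      exact Finset.sum_congr rfl fun i _ => by ring) hn
    (mul_ne_zero hx ((map_ne_zero_iff ι hinj).2 hn0))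
  exact ⟨_, _, m, n, homogeneousComponent_isHomogeneous m a,
    homogeneousComponent_isHomogeneous n b, hn0, e, hm⟩

end CBDegGen

namespace Qv

variable {Q : Qv} {B B' : Finset Q.Lam} {E : Set (Q.Lam → Q.Pol)} {γ γ' : Q.Lam → Q.Frac}
  {z z' : Q.AA} {f g : Q.Lam → Q.Pol}

theorem CBDeg_inj : Function.Injective (algebraMap Q.Pol Q.Frac) :=
  IsFractionRing.injective _ _
theorem CBDeg_phi_ne (l : Q.Lam) : algebraMap Q.Pol Q.Frac (Q.phi l) ≠ 0 :=
  (map_ne_zero_iff _ CBDeg_inj).2 (Q.phi_ne_zero l)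
theorem CBDeg_iota (r : Q.Pol) :
    Q.iota r = AddMonoidAlgebra.single 0 (algebraMap Q.Pol Q.Frac r) := by
  simp [iota]

theorem pair_congr (hγ : ∀ l ∈ B, γ l = γ' l) (hf : ∀ l ∈ B, f l = g l) :
    Q.pair B γ f = Q.pair B γ' g :=
  Finset.sum_congr rfl fun l hl => by rw [hγ l hl, hf l hl]
theorem pair_add_left : Q.pair B (γ + γ') f = Q.pair B γ f + Q.pair B γ' f := by
  simp only [pair, Pi.add_apply, add_mul, Finset.sum_add_distrib]
theorem pair_add_right : Q.pair B γ (f + g) = Q.pair B γ f + Q.pair B γ g := by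
  simp only [pair, Pi.add_apply, map_add, mul_add, Finset.sum_add_distrib]
theorem pair_smul_right (r : Q.Pol) :
    Q.pair B γ (r • f) = algebraMap Q.Pol Q.Frac r * Q.pair B γ f := by
  unfold pair
  rw [Finset.mul_sum]
  refine Finset.sum_congr rfl fun l _ => ?_
  rw [Pi.smul_apply, smul_eq_mul, map_mul]
  ring
theorem cf_eq_zero {l : Q.Lam} : Q.cf z l = 0 ↔ z.coeff l = 0 := by
  unfold cf
  rw [div_eq_zero_iff, or_iff_left (CBDeg_phi_ne l)]
theorem cf_mul_phi (z : Q.AA) (l : Q.Lam) :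
    Q.cf z l * algebraMap Q.Pol Q.Frac (Q.phi l) = z.coeff l :=
  div_mul_cancel₀ _ (CBDeg_phi_ne l)
theorem cf_add (z z' : Q.AA) : Q.cf (z + z') = Q.cf z + Q.cf z' := by
  funext l
  simp only [cf, Pi.add_apply, AddMonoidAlgebra.coeff_add, Finsupp.add_apply, add_div]
theorem coeff_iota_mul (r : Q.Pol) (z : Q.AA) (l : Q.Lam) :
    (Q.iota r * z).coeff l = algebraMap Q.Pol Q.Frac r * z.coeff l := by
  rw [CBDeg_iota, AddMonoidAlgebra.coeff_single_zero_mul]
theorem pair_iota_mul (r : Q.Pol) :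
    Q.pair B (Q.cf (Q.iota r * z)) f = algebraMap Q.Pol Q.Frac r * Q.pair B (Q.cf z) f := by
  unfold pair
  rw [Finset.mul_sum]
  refine Finset.sum_congr rfl fun l _ => ?_
  unfold cf
  rw [coeff_iota_mul]
  ring
theorem smul_eq_iota (c : ℂ) (z : Q.AA) : c • z = Q.iota (C c) * z := by
  rw [← algebraMap_eq, AlgHom.commutes, Algebra.smul_def]
theorem supp_one {l : Q.Lam} (h : (1 : Q.AA).coeff l ≠ 0) : l = 0 := by
  by_contra hl
  apply h
  rw [AddMonoidAlgebra.one_def, AddMonoidAlgebra.coeff_single, Finsupp.single_eq_of_ne hl]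
theorem pair_one (h : (0 : Q.Lam) ∈ B) : Q.pair B (Q.cf 1) f = algebraMap Q.Pol Q.Frac (f 0) := by
  unfold pair
  rw [Finset.sum_eq_single 0 (fun l _ hl => ?_) (fun h' => absurd h h')]
  · unfold cf
    rw [AddMonoidAlgebra.one_def, AddMonoidAlgebra.coeff_single, Finsupp.single_eq_same,
      phi_zero, map_one, div_one, one_mul]
  · have : (1 : Q.AA).coeff l = 0 := by
      by_contra h'
      exact hl (supp_one h')
    rw [cf_eq_zero.2 this, zero_mul]
theorem pair_subset (hB : B ⊆ B') (hz : ∀ l, z.coeff l ≠ 0 → l ∈ B) :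
    Q.pair B' (Q.cf z) f = Q.pair B (Q.cf z) f := by
  unfold pair
  refine (Finset.sum_subset hB fun l _ hl => ?_).symm
  have : z.coeff l = 0 := by
    by_contra h'
    exact hl (hz l h')
  rw [cf_eq_zero.2 this, zero_mul]
theorem exists_cf (B : Finset Q.Lam) (γ : Q.Lam → Q.Frac) :
    ∃ z : Q.AA, (∀ l, z.coeff l ≠ 0 → l ∈ B) ∧ ∀ l ∈ B, Q.cf z l = γ l := by
  classical
  refine ⟨AddMonoidAlgebra.ofCoeff (Finsupp.onFinset B
    (fun l => if l ∈ B then γ l * algebraMap Q.Pol Q.Frac (Q.phi l) else 0) fun l hl => ?_),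
    fun l hl => ?_, fun l hl => ?_⟩
  · by_contra h'
    exact hl (if_neg h')
  · by_contra h'
    exact hl (if_neg h')
  · unfold cf
    rw [AddMonoidAlgebra.coeff_ofCoeff, Finsupp.onFinset_apply, if_pos hl,
      mul_div_cancel_right₀ _ (CBDeg_phi_ne l)]
theorem eq_of_cf (hz : ∀ l, z.coeff l ≠ 0 → l ∈ B) (hz' : ∀ l, z'.coeff l ≠ 0 → l ∈ B)
    (h : ∀ l ∈ B, Q.cf z l = Q.cf z' l) : z = z' := by
  refine AddMonoidAlgebra.coeff_inj.1 (Finsupp.ext fun l => ?_)
  by_cases hl : l ∈ B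
  · rw [← cf_mul_phi z, ← cf_mul_phi z', h l hl]
  · have h1 : z.coeff l = 0 := by
      by_contra h'
      exact hl (hz l h')
    have h2 : z'.coeff l = 0 := by
      by_contra h'
      exact hl (hz' l h')
    rw [h1, h2]
theorem exists_supp_Box (z : Q.AA) : ∃ m, ∀ l, z.coeff l ≠ 0 → l ∈ Q.Box m := by
  obtain ⟨m, hm⟩ := Q.exists_Box z.coeff.support
  exact ⟨m, fun l hl => hm (Finsupp.mem_support_iff.2 hl)⟩
theorem CBDeg_coeff_mul (hz : ∀ l, z.coeff l ≠ 0 → l ∈ B) (hz' : ∀ l, z'.coeff l ≠ 0 → l ∈ B')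
    (n : Q.Lam) : (z * z').coeff n =
      ∑ l ∈ B, ∑ l' ∈ B', if l + l' = n then z.coeff l * z'.coeff l' else 0 := by
  rw [AddMonoidAlgebra.coeff_mul, Finsupp.sum_of_support_subset _
    (fun l hl => hz l (Finsupp.mem_support_iff.1 hl)) _ (fun l _ => by simp)]
  refine Finset.sum_congr rfl fun l _ => ?_
  rw [Finsupp.sum_of_support_subset _
    (fun l hl => hz' l (Finsupp.mem_support_iff.1 hl)) _ (fun l _ => by simp)]
theorem supp_mul {m m' : ℕ} (hz : ∀ l, z.coeff l ≠ 0 → l ∈ Q.Box m)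
    (hz' : ∀ l, z'.coeff l ≠ 0 → l ∈ Q.Box m') :
    ∀ l, (z * z').coeff l ≠ 0 → l ∈ Q.Box (m + m') := by
  intro n hn
  rw [CBDeg_coeff_mul hz hz'] at hn
  obtain ⟨l, hl, h1⟩ := Finset.exists_ne_zero_of_sum_ne_zero hn
  obtain ⟨l', hl', h2⟩ := Finset.exists_ne_zero_of_sum_ne_zero h1
  have e : l + l' = n := by
    by_contra h'
    exact h2 (if_neg h')
  rw [← e]
  exact Q.add_mem_Box hl hl'
/-- The convolution formula gives the product of the group algebra. -/
theorem pair_mul {m m' N : ℕ} (hz : ∀ l, z.coeff l ≠ 0 → l ∈ Q.Box m)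
    (hz' : ∀ l, z'.coeff l ≠ 0 → l ∈ Q.Box m') {a b : Fin N → Q.Lam → Q.Pol}
    (h : ∀ l ∈ Q.Box m, ∀ l' ∈ Q.Box m',
      (∑ j, a j l * b j l') * Q.phi (l + l') = f (l + l') * (Q.phi l * Q.phi l')) :
    ∑ j, Q.pair (Q.Box m) (Q.cf z) (a j) * Q.pair (Q.Box m') (Q.cf z') (b j) =
      Q.pair (Q.Box (m + m')) (Q.cf (z * z')) f := by
  have e1 : ∑ j, Q.pair (Q.Box m) (Q.cf z) (a j) * Q.pair (Q.Box m') (Q.cf z') (b j) =
      ∑ l ∈ Q.Box m, ∑ l' ∈ Q.Box m',
        Q.cf z l * Q.cf z' l' * algebraMap Q.Pol Q.Frac (∑ j, a j l * b j l') := by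
    simp only [pair, Finset.sum_mul_sum]
    simp only [map_sum, map_mul, Finset.mul_sum]
    rw [Finset.sum_comm]
    refine Finset.sum_congr rfl fun l _ => ?_
    rw [Finset.sum_comm]
    refine Finset.sum_congr rfl fun l' _ => Finset.sum_congr rfl fun j _ => ?_
    ring
  have e2 : Q.pair (Q.Box (m + m')) (Q.cf (z * z')) f =
      ∑ l ∈ Q.Box m, ∑ l' ∈ Q.Box m', z.coeff l * z'.coeff l' /
        algebraMap Q.Pol Q.Frac (Q.phi (l + l')) * algebraMap Q.Pol Q.Frac (f (l + l')) := by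
    simp only [pair, cf, CBDeg_coeff_mul hz hz', Finset.sum_div, Finset.sum_mul]
    rw [Finset.sum_comm]
    refine Finset.sum_congr rfl fun l hl => ?_
    rw [Finset.sum_comm]
    refine Finset.sum_congr rfl fun l' hl' => ?_
    rw [Finset.sum_eq_single (l + l') (fun n _ hn => by rw [if_neg hn.symm, zero_div, zero_mul])
      (fun h' => absurd (Q.add_mem_Box hl hl') h'), if_pos rfl]
  rw [e1, e2]
  refine Finset.sum_congr rfl fun l hl => Finset.sum_congr rfl fun l' hl' => ?_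
  have h1 := congrArg (algebraMap Q.Pol Q.Frac) (h l hl l' hl')
  rw [map_mul, map_mul, map_mul] at h1
  rw [← cf_mul_phi z, ← cf_mul_phi z', div_mul_eq_mul_div, eq_div_iff (CBDeg_phi_ne _),
    mul_assoc, h1]
  ring
theorem pair_mono {l : Q.Lam} (hl : ∀ w ∈ Wl Q.lab, Q.wl w l ∈ B)
    (hf : ∀ w ∈ Wl Q.lab, f (Q.wl w l) = rename w (f l)) (p : Q.Pol) :
    ∃ r ∈ Rinv Q.lab, Q.pair B (Q.cf (Q.mono l p)) f = algebraMap Q.Pol Q.Frac r := by
  obtain ⟨r, hr, e⟩ := exists_Alt_eq Q.lab (p * f l)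
  refine ⟨r, hr, ?_⟩
  have hD : algebraMap Q.Pol Q.Frac (Dl Q.lab) ≠ 0 :=
    (map_ne_zero_iff _ CBDeg_inj).2 (Dl_ne_zero Q.lab)
  have e1 : Q.pair B (Q.cf (Q.mono l p)) f = ∑ w ∈ Wl Q.lab,
      algebraMap Q.Pol Q.Frac (sgn w • rename w (p * f l)) /
        algebraMap Q.Pol Q.Frac (Dl Q.lab) := by
    simp only [pair, cf, mono, AddMonoidAlgebra.coeff_sum, Finsupp.finsetSum_apply,
      AddMonoidAlgebra.coeff_single, Finset.sum_div, Finset.sum_mul]
    rw [Finset.sum_comm]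
    refine Finset.sum_congr rfl fun w hw => ?_
    rw [Finset.sum_eq_single (Q.wl w l)
      (fun n _ hn => by rw [Finsupp.single_eq_of_ne hn, zero_div, zero_mul])
      (fun h' => absurd (hl w hw) h'), Finsupp.single_eq_same, hf w hw]
    have h0 := CBDeg_phi_ne (Q.wl w l)
    rw [Q.phi_wl hw] at h0 ⊢
    simp only [smul_eq_C_mul, map_mul]
    field_simp
  rw [e1, ← Finset.sum_div, ← map_sum, ← Alt_apply, e, map_mul, mul_div_cancel_left₀ _ hD]
theorem FDeg.mul {j : ℤ} {x : Q.Frac} (h : Q.FDeg j x) {p : Q.Pol} {e : ℕ}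
    (hp : p.IsHomogeneous e) : Q.FDeg (j + 2 * e) (x * algebraMap Q.Pol Q.Frac p) := by
  rcases h with h | ⟨a, b, da, db, ha, hb, hb0, e1, e2⟩
  · left
    rw [h, zero_mul]
  · right
    refine ⟨a * p, b, da + e, db, ha.mul hp, hb, hb0, ?_, ?_⟩
    · rw [map_mul, ← e1]
      ring
    · push_cast
      omega
/-- Homogeneity of the coefficients (scale the variables and use uniqueness). -/
theorem LocData.deg (h : Q.LocData B E) (r : Q.Lam → ℕ) (s : ℤ)
    (hE : ∀ f ∈ E, ∃ (N : ℕ) (fs : ℕ → Q.Lam → Q.Pol),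
      (∀ l ∈ B, f l = ∑ k ∈ Finset.range N, fs k l) ∧ ∀ k : ℕ,
        (∀ l ∈ B, fs k l = 0 ∨ ∃ e : ℕ, (k : ℤ) = 2 * (e : ℤ) + 2 * (r l : ℤ) ∧
          (fs k l).IsHomogeneous e) ∧
        ∃ v : Q.Pol, Q.pair B γ (fs k) = algebraMap Q.Pol Q.Frac v ∧
          (v = 0 ∨ ∃ e : ℕ, (k : ℤ) + s = 2 * (e : ℤ) ∧ v.IsHomogeneous e)) :
    ∀ l ∈ B, Q.FDeg (s + 2 * r l) (γ l) := by
  intro l₀ hl₀
  refine CBDeg_eigen _ _ fun t ht => ?_
  obtain ⟨S, hS⟩ := CBDeg_exists_sc (V := Q.Var) (pow_ne_zero 2 ht)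
  refine ⟨S, hS, ?_⟩
  set τ : Q.Frac := algebraMap Q.Pol Q.Frac (C t) with hτ
  have hτ0 : τ ≠ 0 := (map_ne_zero_iff _ CBDeg_inj).2 (by simpa using ht)
  have hhom : ∀ {p : Q.Pol} {j : ℤ}, (p = 0 ∨ ∃ e : ℕ, j = 2 * (e : ℤ) ∧ p.IsHomogeneous e) →
      S (algebraMap Q.Pol Q.Frac p) = τ ^ j * algebraMap Q.Pol Q.Frac p := by
    rintro p j (rfl | ⟨e, rfl, hp⟩)
    · simp
    · rw [hS, CBDeg_sc_hom _ hp, map_mul, ← pow_mul, C_pow, map_pow, ← zpow_natCast]
      push_cast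
      rfl
  have key := h.unique' (γ := γ) (γ' := fun l => τ ^ (-(s + 2 * r l)) * S (γ l)) (fun f hf => by
    obtain ⟨N, fs, h1, h2⟩ := hE f hf
    have hsum : ∀ δ : Q.Lam → Q.Frac,
        Q.pair B δ f = ∑ k ∈ Finset.range N, Q.pair B δ (fs k) := by
      intro δ
      unfold pair
      rw [Finset.sum_comm]
      refine Finset.sum_congr rfl fun l hl => ?_
      rw [h1 l hl, map_sum, Finset.mul_sum]
    rw [hsum, hsum]
    refine Finset.sum_congr rfl fun k _ => ?_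
    obtain ⟨h3, v, h4, h5⟩ := h2 k
    have h6 : S (Q.pair B γ (fs k)) = τ ^ ((k : ℤ) + s) * Q.pair B γ (fs k) := by
      rw [h4]
      exact hhom h5
    have h7 : S (Q.pair B γ (fs k)) = τ ^ ((k : ℤ) + s) *
        Q.pair B (fun l => τ ^ (-(s + 2 * r l)) * S (γ l)) (fs k) := by
      unfold pair
      rw [map_sum, Finset.mul_sum]
      refine Finset.sum_congr rfl fun l hl => ?_
      have h8 : S (algebraMap Q.Pol Q.Frac (fs k l)) =
          τ ^ ((k : ℤ) - 2 * r l) * algebraMap Q.Pol Q.Frac (fs k l) := by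
        refine hhom ((h3 l hl).imp_right ?_)
        rintro ⟨e, he, hp⟩
        exact ⟨e, by omega, hp⟩
      have h9 : τ ^ ((k : ℤ) - 2 * r l) = τ ^ ((k : ℤ) + s) * τ ^ (-(s + 2 * r l)) := by
        rw [← zpow_add₀ hτ0]
        congr 1
        ring
      rw [map_mul, h8, h9]
      ring
    exact mul_left_cancel₀ (zpow_ne_zero _ hτ0) (h6.symm.trans h7)) l₀ hl₀
  conv_rhs => rw [key]
  rw [← mul_assoc, ← zpow_add₀ hτ0, add_neg_cancel, zpow_zero, one_mul]

end Qv

end Pool.Agent.HK
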