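import Pool.Agent.P.MP_1206ce_ag.CB.Fam

/-! Equivariant maps, fibre inclusions and external products. -/

open scoped Topology
open Filter Set

noncomputable section

namespace Pool.Agent.HK

variable {V Λ₀ X X₁ X₂ : Type} [Fintype V] [DecidableEq V] [TopologicalSpace X]
  [TopologicalSpace X₁] [TopologicalSpace X₂] {lab₀ : V → Λ₀} {L L₁ L₂ : Set (Matrix V V ℂ)}
  {act : Matrix V V ℂ → X → X} {act₁ : Matrix V V ℂ → X₁ → X₁} {act₂ : Matrix V V ℂ → X₂ → X₂}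
  {S : Set X} {S₁ : Set X₁} {S₂ : Set X₂} {f f' : X → X₁} {E E' : Set (Fr V)}

theorem frOK_St (lab₀ : V → Λ₀) (n : ℕ) : FrOK lab₀ (St lab₀ n) :=
  ⟨⟨n, Subset.rfl⟩, isCompact_St lab₀ n, invF_St Subset.rfl n⟩
theorem FrOK.freeOn (hE : FrOK lab₀ E) (hL : L ⊆ KG lab₀) : FreeOn L E := by
  obtain ⟨n, hn⟩ := hE.sub
  exact fun u hu e he => freeOn_Inj hL n u hu e (St_subset_Inj lab₀ n (hn he))
omit [TopologicalSpace X] in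
theorem FrOK.inv_prod (hE : FrOK lab₀ E) (hL : L ⊆ KG lab₀) (hS : InvX L act S) :
    Inv L act (S ×ˢ E) := fun u hu _ hp => ⟨hS u hu _ hp.1, hE.inv u (hL hu) _ hp.2⟩
theorem FrOK.lc_BS (hE : FrOK lab₀ E) (h : IsAct L act) (hL : L ⊆ KG lab₀) (hS : InvX L act S)
    (hl : LC S) : LC (BS L act S E) := by
  rw [BS_eq]
  exact h.lc_BI (hE.inv_prod hL hS) (hl.prod (LC.of_isCompact hE.cpt))
theorem isCompact_BS (hE : IsCompact E) (hS : IsCompact S) : IsCompact (BS L act S E) := by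
  rw [BS_eq]
  exact isCompact_BI (hS.prod hE)
theorem FrOK.closedIn_frames (hE : FrOK lab₀ E) (hE' : FrOK lab₀ E') (hs : E' ⊆ E)
    (h : IsAct L act) (hL : L ⊆ KG lab₀) (hS : InvX L act S) :
    ClosedIn (BS L act S E') (BS L act S E) := by
  rw [BS_eq, BS_eq]
  refine h.closedIn_BI (hE.inv_prod hL hS) ⟨univ ×ˢ E', isClosed_univ.prod hE'.cpt.isClosed, ?_⟩
  rw [prod_inter_prod, inter_univ, inter_eq_self_of_subset_right hs]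
theorem closedIn_BL (h : IsAct L act) (hL : L ⊆ KG lab₀) (hS : InvX L act S) (n : ℕ) :
    ClosedIn (BL L act S lab₀ n) (BL L act S lab₀ (n + 1)) :=
  (frOK_St lab₀ (n + 1)).closedIn_frames (frOK_St lab₀ n) (St_mono lab₀ n.le_succ) h hL hS
theorem FrOK.closedIn_BS (hE : FrOK lab₀ E) (h : IsAct L act) (hL : L ⊆ KG lab₀)
    (hS : InvX L act S) {S' : Set X} (hc : ClosedIn S' S) :
    ClosedIn (BS L act S' E) (BS L act S E) := by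
  obtain ⟨F, hF, rfl⟩ := hc
  rw [BS_eq, BS_eq]
  refine h.closedIn_BI (hE.inv_prod hL hS) ⟨F ×ˢ univ, hF.prod isClosed_univ, ?_⟩
  rw [prod_inter_prod, inter_univ]
theorem FrOK.openIn_BS (hE : FrOK lab₀ E) (h : IsAct L act) (hL : L ⊆ KG lab₀)
    (hS : InvX L act S) {S' : Set X} (hc : OpenIn S' S) :
    OpenIn (BS L act S' E) (BS L act S E) := by
  obtain ⟨F, hF, rfl⟩ := hc
  rw [BS_eq, BS_eq]
  refine h.openIn_BI (hE.inv_prod hL hS) ⟨F ×ˢ univ, hF.prod isOpen_univ, ?_⟩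
  rw [prod_inter_prod, inter_univ]
theorem FrOK.BS_diff (hE : FrOK lab₀ E) (h : IsAct L act) (hL : L ⊆ KG lab₀) (S : Set X)
    {S' : Set X} (hS' : InvX L act S') :
    BS L act (S \ S') E = BS L act S E \ BS L act S' E := by
  rw [BS_eq, BS_eq, BS_eq, ← h.BI_diff _ (hE.inv_prod hL hS')]
  congr 1
  ext p
  simp only [mem_prod, Set.mem_sdiff]
  tauto
/-- Changing the set and the frames at the same time. -/
theorem FrOK.BS_inter (hE : FrOK lab₀ E) (hE' : FrOK lab₀ E') (hs : E' ⊆ E) (h : IsAct L act)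
    (hL : L ⊆ KG lab₀) {S' : Set X} (hS' : InvX L act S') (hSS : S' ⊆ S) :
    BS L act S' E' = BS L act S E' ∩ BS L act S' E := by
  rw [BS_eq, BS_eq, BS_eq, ← h.BI_inter _ (hE.inv_prod hL hS'), prod_inter_prod,
    inter_eq_self_of_subset_right hSS, inter_eq_self_of_subset_left hs]
theorem FrOK.mem_BS (hE : FrOK lab₀ E) (h : IsAct L act) (hL : L ⊆ KG lab₀) (hS : InvX L act S)
    {x : X} {e : Fr V} : bmk L act (x, e) ∈ BS L act S E ↔ x ∈ S ∧ e ∈ E := by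
  rw [BS_eq]
  exact h.mem_BI (hE.inv_prod hL hS)
theorem FrOK.proper_fib (hE : FrOK lab₀ E) (h : IsAct L act) (hL : L ⊆ KG lab₀)
    (hS : InvX L act S) {e : Fr V} (he : e ∈ E) : ProperOn (fib L act e) S (BS L act S E) := by
  have h1 : HomeoOn (fun x : X => (x, e)) Prod.fst S (S ×ˢ {e}) :=
    ⟨by fun_prop, continuous_fst.continuousOn, fun x hx => ⟨hx, rfl⟩, fun p hp => hp.1,
      fun _ _ => rfl, fun p hp => Prod.ext rfl (Eq.symm hp.2)⟩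
  have h2 : ClosedIn (S ×ˢ {e}) (S ×ˢ E) := by
    refine ⟨univ ×ˢ {e}, isClosed_univ.prod isClosed_singleton, ?_⟩
    rw [prod_inter_prod, inter_univ, inter_eq_self_of_subset_right (singleton_subset_iff.2 he)]
  rw [BS_eq]
  exact (h.properOn_bmk (hE.inv_prod hL hS) h2).comp h1.properOn

theorem EM.of_subset (h₁ : IsAct L₁ act) (hL : IsGrp L) (hs : L ⊆ L₁) (hle : L₁ ⊆ KG lab₀)
    (hS : InvX L act S) {S' : Set X} (hS' : InvX L₁ act S') (hSS : S ⊆ S') :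
    EM lab₀ L act S L₁ act S' id :=
  ⟨h₁.mono hL hs, h₁, hs, hle, hS, hS', fun _ _ _ _ => rfl, continuousOn_id, hSS⟩
theorem EM.toPt (h : IsAct L act) (h₁ : IsGrp L₁) (hs : L ⊆ L₁) (hle : L₁ ⊆ KG lab₀)
    (hS : InvX L act S) : EM lab₀ L act S L₁ ptAct univ fun _ => () :=
  ⟨h, isAct_pt h₁, hs, hle, hS, fun _ _ _ _ => mem_univ _, fun _ _ _ _ => rfl, continuousOn_const,
    fun _ _ => mem_univ _⟩
theorem EM.comp {g : X₁ → X₂} (h : EM lab₀ L act S L₁ act₁ S₁ f)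
    (h' : EM lab₀ L₁ act₁ S₁ L₂ act₂ S₂ g) : EM lab₀ L act S L₂ act₂ S₂ (g ∘ f) :=
  ⟨h.ha, h'.ha₁, h.sub.trans h'.sub, h'.le, h.inv, h'.inv₁, fun u hu x hx => by
    rw [Function.comp_apply, h.eqv u hu x hx, h'.eqv u (h.sub hu) _ (h.maps hx)]
    rfl, h'.cont.comp h.cont h.maps, h'.maps.comp h.maps⟩
theorem EM.mono (h : EM lab₀ L act S L₁ act₁ S₁ f) {L' : Set (Matrix V V ℂ)} (hL : IsGrp L')
    (hs : L' ⊆ L) {S' : Set X} (hS' : InvX L' act S') (hSS : S' ⊆ S) :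
    EM lab₀ L' act S' L₁ act₁ S₁ f :=
  ⟨h.ha.mono hL hs, h.ha₁, hs.trans h.sub, h.le, hS', h.inv₁,
    fun u hu x hx => h.eqv u (hs hu) x (hSS hx), h.cont.mono hSS, h.maps.mono_left hSS⟩

theorem CBEM_eqv (h : EM lab₀ L act S L₁ act₁ S₁ f) (E : Set (Fr V)) :
    EqvOn L act L₁ act₁ (S ×ˢ E) (Prod.map f id) :=
  EqvOn.of_map h.sub fun u hu p hp => h.eqv u hu p.1 hp.1

theorem CBEM_cont (h : EM lab₀ L act S L₁ act₁ S₁ f) (E : Set (Fr V)) :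
    ContinuousOn (Prod.map f (id : Fr V → Fr V)) (S ×ˢ E) :=
  h.cont.prodMap continuousOn_id

theorem EM.bmap_bmk (h : EM lab₀ L act S L₁ act₁ S₁ f) {x : X} (hx : x ∈ S) (e : Fr V) :
    (bmap L₁ act₁ f id : Bor L act → _) (bmk L act (x, e)) = bmk L₁ act₁ (f x, e) := by
  rw [bmap_eq_bmp]
  exact h.ha.bmp_bmk (CBEM_eqv h univ) (p := (x, e)) ⟨hx, mem_univ _⟩
theorem EM.contOn (h : EM lab₀ L act S L₁ act₁ S₁ f) (hE : FrOK lab₀ E) :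
    ContinuousOn (bmap L₁ act₁ f id : Bor L act → _) (BS L act S E) := by
  rw [bmap_eq_bmp, BS_eq]
  exact h.ha.continuousOn_bmp (hE.inv_prod (h.sub.trans h.le) h.inv) (CBEM_eqv h E) (CBEM_cont h E)
theorem EM.mapsTo (h : EM lab₀ L act S L₁ act₁ S₁ f) (E : Set (Fr V)) :
    MapsTo (bmap L₁ act₁ f id : Bor L act → _) (BS L act S E) (BS L₁ act₁ S₁ E) := by
  rintro q ⟨x, hx, e, he, rfl⟩
  exact ⟨f x, h.maps hx, e, he, h.bmap_bmk hx e⟩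
theorem EM.proper [T2Space X₁] (h : EM lab₀ L act S L₁ act₁ S₁ f) (hE : FrOK lab₀ E)
    (hp : ProperOn f S S₁) :
    ProperOn (bmap L₁ act₁ f id : Bor L act → _) (BS L act S E) (BS L₁ act₁ S₁ E) := by
  rw [bmap_eq_bmp, BS_eq, BS_eq]
  refine h.ha.properOn_bmp h.ha₁ (hE.inv_prod (h.sub.trans h.le) h.inv)
    (hE.inv_prod h.le h.inv₁) (CBEM_eqv h E)
    ⟨CBEM_cont h E, fun p hp => ⟨h.maps hp.1, hp.2⟩, fun C hC hs => ?_⟩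
  have h1 : IsCompact (S ∩ f ⁻¹' (Prod.fst '' C)) :=
    hp.2.2 _ (hC.image continuous_fst) (by
      rintro _ ⟨p, hp, rfl⟩
      exact (hs hp).1)
  have h2 : ClosedIn C univ := ⟨C, hC.isClosed, (univ_inter C).symm⟩
  exact (h2.preimage (CBEM_cont h E) (mapsTo_univ _ _)).isCompact (h1.prod hE.cpt)
    (prod_mono inter_subset_left Subset.rfl) fun p hp => ⟨⟨hp.1.1, _, hp.2, rfl⟩, hp.1.2⟩
theorem EM.inter_preimage (h : EM lab₀ L act S L₁ act₁ S₁ f) (hE : FrOK lab₀ E) {S₁' : Set X₁}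
    (hS : InvX L₁ act₁ S₁') :
    BS L act S E ∩ (bmap L₁ act₁ f id : Bor L act → _) ⁻¹' BS L₁ act₁ S₁' E =
      BS L act (S ∩ f ⁻¹' S₁') E := by
  rw [bmap_eq_bmp, BS_eq, BS_eq, BS_eq,
    h.ha.inter_preimage_bmp h.ha₁ (hE.inv_prod h.le hS) (CBEM_eqv h E)]
  congr 1
  ext p
  simp only [mem_inter_iff, mem_prod, mem_preimage, Prod.map_fst, Prod.map_snd, id]
  tauto
theorem EM.eqOn_comp {g : X₁ → X₂} (h : EM lab₀ L act S L₁ act₁ S₁ f)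
    (h' : EM lab₀ L₁ act₁ S₁ L₂ act₂ S₂ g) (E : Set (Fr V)) :
    EqOn ((bmap L₂ act₂ g id : Bor L₁ act₁ → _) ∘ (bmap L₁ act₁ f id : Bor L act → _))
      (bmap L₂ act₂ (g ∘ f) id) (BS L act S E) := by
  rintro q ⟨x, hx, e, -, rfl⟩
  rw [Function.comp_apply, h.bmap_bmk hx, h'.bmap_bmk (h.maps hx), (h.comp h').bmap_bmk hx]
  rfl
theorem EM.pb_pb {g : X₁ → X₂} (h : EM lab₀ L act S L₁ act₁ S₁ f)
    (h' : EM lab₀ L₁ act₁ S₁ L₂ act₂ S₂ g) (E : Set (Fr V)) (a : Coch (Bor L₂ act₂)) :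
    pb (bmap L₁ act₁ f id : Bor L act → _) (pb (bmap L₂ act₂ g id) a) -
      pb (bmap L₂ act₂ (g ∘ f) id) a ∈ N0 (BS L act S E) := by
  rw [Pool.Agent.HK.pb_pb]
  exact supp_pb_congr (h.eqOn_comp h' E) a
theorem EM.pb_congr (h : EM lab₀ L act S L₁ act₁ S₁ f) (hf : EqOn f f' S) (E : Set (Fr V))
    (a : Coch (Bor L₁ act₁)) :
    pb (bmap L₁ act₁ f id : Bor L act → _) a - pb (bmap L₁ act₁ f' id) a ∈ N0 (BS L act S E) := by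
  refine supp_pb_congr ?_ a
  rintro q ⟨x, hx, e, -, rfl⟩
  obtain ⟨u, hu, h1⟩ := h.ha.exists_out (x, e)
  have h2 : (Quot.out (bmk L act (x, e))).1 ∈ S := by
    rw [h1]
    exact h.inv u hu x hx
  simp only [bmap, hf h2]
theorem EM.pb_fib (h : EM lab₀ L act S L₁ act₁ S₁ f) (e : Fr V) (a : Coch (Bor L₁ act₁)) :
    pb (fib L act e) (pb (bmap L₁ act₁ f id) a) - pb f (pb (fib L₁ act₁ e) a) ∈ N0 S := by
  rw [Pool.Agent.HK.pb_pb, Pool.Agent.HK.pb_pb]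
  exact supp_pb_congr (fun x hx => h.bmap_bmk hx e) a
theorem bmap_id_id : (bmap L act id id : Bor L act → Bor L act) = id := by
  rw [bmap_eq_bmp, Prod.map_id, bmp_id]

/-- The projection of a compact subset of the Borel quotient. -/
theorem CBEM_proj (hE : FrOK lab₀ E) (h : IsAct L act) (hL : L ⊆ KG lab₀) (hS : InvX L act S)
    {C : Set (Bor L act)} (hC : IsCompact C) (hs : C ⊆ BS L act S E) :
    ∃ K, IsCompact K ∧ K ⊆ S ∧ ∀ x e, bmk L act (x, e) ∈ C → x ∈ K := by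
  refine ⟨Prod.fst '' (bmk L act ⁻¹' C), (h.isCompact_preimage hC).image continuous_fst, ?_,
    fun x e hx => ⟨(x, e), hx, rfl⟩⟩
  rintro _ ⟨⟨x, e⟩, hp, rfl⟩
  exact ((hE.mem_BS h hL hS).1 (hs hp)).1

omit [DecidableEq V] [TopologicalSpace X] in
theorem CBEM_mono {S' : Set X} (h : S' ⊆ S) : BS L act S' E ⊆ BS L act S E := by
  rintro q ⟨x, hx, e, he, rfl⟩
  exact ⟨x, h hx, e, he, rfl⟩

theorem CBEM_CC (h : EM lab₀ L act S L₁ act₁ S₁ f) (hE : FrOK lab₀ E) (hp : ProperOn f S S₁)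
    {a : Coch (Bor L₁ act₁)} (ha : a ∈ CC (cc (BS L₁ act₁ S₁ E)) (BS L₁ act₁ S₁ E)) :
    pb (bmap L₁ act₁ f id) a ∈ CC (cc (BS L act S E)) (BS L act S E) := by
  obtain ⟨K, hK, hKS, hK'⟩ := CBEM_proj hE h.ha₁ h.le h.inv₁ (mem_CC_cc.1 ha).2 (supp_subset _ _)
  refine ⟨ha.1.pb _, mem_cc.2 ⟨BS L act (S ∩ f ⁻¹' K) E, isCompact_BS hE.cpt (hp.2.2 K hK hKS),
    CBEM_mono inter_subset_left, compl_subset_compl.2 fun q hq => ?_⟩⟩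
  have h1 := supp_pb (h.contOn hE) (h.mapsTo E) a hq
  obtain ⟨x, hx, e, he, rfl⟩ := supp_subset _ _ hq
  rw [mem_preimage, h.bmap_bmk hx] at h1
  exact ⟨x, ⟨hx, hK' _ _ h1⟩, e, he, rfl⟩

theorem CBEM_ZZ (h : EM lab₀ L act S L₁ act₁ S₁ f) (hE : FrOK lab₀ E) (hp : ProperOn f S S₁)
    {a : Coch (Bor L₁ act₁)} (ha : a ∈ ZZ (cc (BS L₁ act₁ S₁ E)) (BS L₁ act₁ S₁ E)) :
    pb (bmap L₁ act₁ f id) a ∈ ZZ (cc (BS L act S E)) (BS L act S E) := by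
  refine ⟨CBEM_CC h hE hp ha.1, ?_⟩
  rw [← pb_dd]
  exact Tw_pb_N0 (h.contOn hE) (h.mapsTo E) ha.2

theorem CBEM_BB (h : EM lab₀ L act S L₁ act₁ S₁ f) (hE : FrOK lab₀ E) (hp : ProperOn f S S₁)
    {a : Coch (Bor L₁ act₁)} (ha : a ∈ BB (cc (BS L₁ act₁ S₁ E)) (BS L₁ act₁ S₁ E)) :
    pb (bmap L₁ act₁ f id) a ∈ BB (cc (BS L act S E)) (BS L act S E) := by
  obtain ⟨e, he, h1⟩ := ha
  refine ⟨_, CBEM_CC h hE hp he, ?_⟩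
  rw [← pb_dd, ← pb_sub]
  exact Tw_pb_N0 (h.contOn hE) (h.mapsTo E) h1

theorem EM.isFam (h : EM lab₀ L act S L₁ act₁ S₁ f) (hp : ProperOn f S S₁)
    {a : Fam (Bor L₁ act₁)} (ha : IsFam True (BL L₁ act₁ S₁ lab₀) a) :
    IsFam True (BL L act S lab₀) (pbF (bmap L₁ act₁ f id) a) := by
  obtain ⟨h1, h2, N, h3⟩ := isFam_true.1 ha
  refine isFam_true.2 ⟨fun n => CBEM_ZZ h (frOK_St lab₀ n) hp (h1 n), fun n => ?_,
    N, fun n l hl => h3 n _ (by rwa [List.length_map])⟩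
  have h4 := CBEM_BB h (frOK_St lab₀ n) hp (h2 n)
  rwa [pb_sub] at h4
theorem EM.famEq (h : EM lab₀ L act S L₁ act₁ S₁ f) (hp : ProperOn f S S₁)
    {a b : Fam (Bor L₁ act₁)} (ha : FamEq True (BL L₁ act₁ S₁ lab₀) a b) :
    FamEq True (BL L act S lab₀) (pbF (bmap L₁ act₁ f id) a) (pbF (bmap L₁ act₁ f id) b) := by
  refine famEq_true.2 fun n => ?_
  have h4 := CBEM_BB h (frOK_St lab₀ n) hp (famEq_true.1 ha n)
  rwa [pb_sub] at h4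

section XP
variable {f₁ : X → X₁} {f₂ : X → X₂}

/-- The common preimage of two compact sets is compact. -/
theorem xp_compact (h₁ : EM lab₀ L act S L₁ act₁ S₁ f₁) (h₂ : EM lab₀ L act S L₂ act₂ S₂ f₂)
    (hp : ProperOn (fun x => (f₁ x, f₂ x)) S (S₁ ×ˢ S₂)) (hE : FrOK lab₀ E)
    {C₁ : Set (Bor L₁ act₁)} {C₂ : Set (Bor L₂ act₂)} (hC₁ : IsCompact C₁)
    (hs₁ : C₁ ⊆ BS L₁ act₁ S₁ E) (hC₂ : IsCompact C₂) (hs₂ : C₂ ⊆ BS L₂ act₂ S₂ E) :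
    ∃ C, IsCompact C ∧ C ⊆ BS L act S E ∧ BS L act S E ∩ bmap L₁ act₁ f₁ id ⁻¹' C₁ ∩
      bmap L₂ act₂ f₂ id ⁻¹' C₂ ⊆ C := by
  obtain ⟨K₁, hK₁, hS₁, h1⟩ := CBEM_proj hE h₁.ha₁ h₁.le h₁.inv₁ hC₁ hs₁
  obtain ⟨K₂, hK₂, hS₂, h2⟩ := CBEM_proj hE h₂.ha₁ h₂.le h₂.inv₁ hC₂ hs₂
  refine ⟨BS L act (S ∩ (fun x => (f₁ x, f₂ x)) ⁻¹' (K₁ ×ˢ K₂)) E,
    isCompact_BS hE.cpt (hp.2.2 _ (hK₁.prod hK₂) (prod_mono hS₁ hS₂)),
    CBEM_mono inter_subset_left, ?_⟩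
  rintro q ⟨⟨⟨x, hx, e, he, rfl⟩, h3⟩, h4⟩
  rw [mem_preimage, h₁.bmap_bmk hx] at h3
  rw [mem_preimage, h₂.bmap_bmk hx] at h4
  exact ⟨x, ⟨hx, h1 _ _ h3, h2 _ _ h4⟩, e, he, rfl⟩

theorem CBEM_prop (h₁ : EM lab₀ L act S L₁ act₁ S₁ f₁) (h₂ : EM lab₀ L act S L₂ act₂ S₂ f₂)
    (hp : ProperOn (fun x => (f₁ x, f₂ x)) S (S₁ ×ˢ S₂)) (hE : FrOK lab₀ E)
    {a₂ : Coch (Bor L₂ act₂)} (ha₂ : a₂ ∈ CC (cc (BS L₂ act₂ S₂ E)) (BS L₂ act₂ S₂ E)) :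
    PropOver (BS L₁ act₁ S₁ E) (BS L act S E) (bmap L₁ act₁ f₁ id)
      (pb (bmap L₂ act₂ f₂ id) a₂) := by
  intro C hC hs
  obtain ⟨C', h1, h2, h3⟩ := xp_compact h₁ h₂ hp hE hC hs (mem_CC_cc.1 ha₂).2 (supp_subset _ _)
  exact ⟨C', h1, h2, fun q hq =>
    h3 ⟨⟨supp_subset _ _ hq.1, hq.2⟩, supp_pb (h₂.contOn hE) (h₂.mapsTo E) a₂ hq.1⟩⟩

theorem xp_twOK (h₁ : EM lab₀ L act S L₁ act₁ S₁ f₁) (h₂ : EM lab₀ L act S L₂ act₂ S₂ f₂)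
    (hp : ProperOn (fun x => (f₁ x, f₂ x)) S (S₁ ×ˢ S₂)) (hE : FrOK lab₀ E)
    {a₂ : Coch (Bor L₂ act₂)} (ha₂ : a₂ ∈ ZZ (cc (BS L₂ act₂ S₂ E)) (BS L₂ act₂ S₂ E)) :
    TwOK (BS L₁ act₁ S₁ E) (BS L act S E) (bmap L₁ act₁ f₁ id) (pb (bmap L₂ act₂ f₂ id) a₂) :=
  ⟨h₁.contOn hE, h₁.mapsTo E, pb_mem_ZZ (h₂.contOn hE) (h₂.mapsTo E) (ZZ_cc_le_bot _ ha₂),
    CBEM_prop h₁ h₂ hp hE ha₂.1⟩
theorem xp_ZZ (h₁ : EM lab₀ L act S L₁ act₁ S₁ f₁) (h₂ : EM lab₀ L act S L₂ act₂ S₂ f₂)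
    (hp : ProperOn (fun x => (f₁ x, f₂ x)) S (S₁ ×ˢ S₂)) (hE : FrOK lab₀ E)
    {a₁ : Coch (Bor L₁ act₁)} {a₂ : Coch (Bor L₂ act₂)}
    (ha₁ : a₁ ∈ ZZ (cc (BS L₁ act₁ S₁ E)) (BS L₁ act₁ S₁ E))
    (ha₂ : a₂ ∈ ZZ (cc (BS L₂ act₂ S₂ E)) (BS L₂ act₂ S₂ E)) :
    cup (pb (bmap L₁ act₁ f₁ id) a₁) (pb (bmap L₂ act₂ f₂ id) a₂) ∈
      ZZ (cc (BS L act S E)) (BS L act S E) := (xp_twOK h₁ h₂ hp hE ha₂).mem_ZZ ha₁
theorem xp_BB (h₁ : EM lab₀ L act S L₁ act₁ S₁ f₁) (h₂ : EM lab₀ L act S L₂ act₂ S₂ f₂)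
    (hp : ProperOn (fun x => (f₁ x, f₂ x)) S (S₁ ×ˢ S₂)) (hE : FrOK lab₀ E)
    {a₁ b₁ : Coch (Bor L₁ act₁)} {a₂ b₂ : Coch (Bor L₂ act₂)}
    (ha₁ : a₁ ∈ ZZ (cc (BS L₁ act₁ S₁ E)) (BS L₁ act₁ S₁ E))
    (hb₂ : b₂ ∈ ZZ (cc (BS L₂ act₂ S₂ E)) (BS L₂ act₂ S₂ E))
    (he₁ : a₁ - b₁ ∈ BB (cc (BS L₁ act₁ S₁ E)) (BS L₁ act₁ S₁ E))
    (he₂ : a₂ - b₂ ∈ BB (cc (BS L₂ act₂ S₂ E)) (BS L₂ act₂ S₂ E)) :
    cup (pb (bmap L₁ act₁ f₁ id) a₁) (pb (bmap L₂ act₂ f₂ id) a₂) -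
      cup (pb (bmap L₁ act₁ f₁ id) b₁) (pb (bmap L₂ act₂ f₂ id) b₂) ∈
      BB (cc (BS L act S E)) (BS L act S E) := by
  have h1 := Tw_mem_BB (xp_twOK h₁ h₂ hp hE hb₂) he₁
  have h2 : cup (pb (bmap L₁ act₁ f₁ id) a₁) (pb (bmap L₂ act₂ f₂ id) (a₂ - b₂)) ∈
      BB (cc (BS L act S E)) (BS L act S E) := by
    obtain ⟨e, he, h3⟩ := he₂
    have h4 : sgC a₁ ∈ CC (cc (BS L₁ act₁ S₁ E)) (BS L₁ act₁ S₁ E) :=
      ⟨ha₁.1.1.sgC, by rw [supp_sgC]; exact ha₁.1.2⟩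
    have h5 : sgC (dd a₁) ∈ N0 (BS L₁ act₁ S₁ E) := by
      rw [mem_N0, supp_sgC]
      exact ha₁.2
    refine ⟨_, Tw_CC (h₁.contOn hE) (h₁.mapsTo E) (he.1.pb _) (CBEM_prop h₁ h₂ hp hE he) h4, ?_⟩
    have h6 := add_mem
      (Tw_cup_N0_right (pb (bmap L₁ act₁ f₁ id) a₁) (Tw_pb_N0 (h₂.contOn hE) (h₂.mapsTo E) h3))
      (Tw_cup_N0_left (Tw_pb_N0 (h₁.contOn hE) (h₁.mapsTo E) h5) (pb (bmap L₂ act₂ f₂ id) e))
    rw [dd_cup (h4.1.pb _).1 (he.1.pb _).1, ← pb_dd, ← pb_dd, Tw_dd_sgC, Tw_pb_sgC, Tw_sgC_sgC,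
      ← neg_one_smul ℂ (sgC (dd a₁)), pb_smul, smul_cup, neg_one_smul]
    rw [pb_sub _ (a₂ - b₂), cup_sub] at h6
    convert h6 using 1
    abel
  have h3 := add_mem h1 h2
  rw [pb_sub, pb_sub, sub_cup, cup_sub] at h3
  convert h3 using 1
  abel

theorem CBEM_cup_bd {Y : Type} {a b : Coch Y} {N M : ℕ} (ha : ∀ l : List Y, N < l.length → a l = 0)
    (hb : ∀ l : List Y, M < l.length → b l = 0) (l : List Y) (hl : N + M < l.length) :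
    cup a b l = 0 := by
  refine Finset.sum_eq_zero fun i hi => ?_
  rw [Finset.mem_range] at hi
  by_cases h : N < i + 1
  · rw [ha _ (by rw [List.length_take]; omega), zero_mul]
  · rw [hb _ (by rw [List.length_drop]; omega), mul_zero]

theorem xp_isFam (h₁ : EM lab₀ L act S L₁ act₁ S₁ f₁) (h₂ : EM lab₀ L act S L₂ act₂ S₂ f₂)
    (hp : ProperOn (fun x => (f₁ x, f₂ x)) S (S₁ ×ˢ S₂)) {a₁ : Fam (Bor L₁ act₁)}
    {a₂ : Fam (Bor L₂ act₂)} (ha₁ : IsFam True (BL L₁ act₁ S₁ lab₀) a₁)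
    (ha₂ : IsFam True (BL L₂ act₂ S₂ lab₀) a₂) :
    IsFam True (BL L act S lab₀)
      (cupF (pbF (bmap L₁ act₁ f₁ id) a₁) (pbF (bmap L₂ act₂ f₂ id) a₂)) := by
  obtain ⟨h1, h2, N, h3⟩ := isFam_true.1 ha₁
  obtain ⟨h4, h5, M, h6⟩ := isFam_true.1 ha₂
  refine isFam_true.2 ⟨fun n => xp_ZZ h₁ h₂ hp (frOK_St lab₀ n) (h1 n) (h4 n), fun n =>
    xp_BB h₁ h₂ hp (frOK_St lab₀ n)
      (ha₁.compat (closedIn_BL h₁.ha₁ h₁.le h₁.inv₁) n.le_succ).1 (h4 n) (h2 n) (h5 n),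
    N + M, fun n => CBEM_cup_bd (fun l hl => h3 n _ ?_) fun l hl => h6 n _ ?_⟩
  · rwa [List.length_map]
  · rwa [List.length_map]
theorem xp_famEq (h₁ : EM lab₀ L act S L₁ act₁ S₁ f₁) (h₂ : EM lab₀ L act S L₂ act₂ S₂ f₂)
    (hp : ProperOn (fun x => (f₁ x, f₂ x)) S (S₁ ×ˢ S₂)) {a₁ b₁ : Fam (Bor L₁ act₁)}
    {a₂ b₂ : Fam (Bor L₂ act₂)} (ha₁ : IsFam True (BL L₁ act₁ S₁ lab₀) a₁)
    (hb₁ : IsFam True (BL L₁ act₁ S₁ lab₀) b₁) (ha₂ : IsFam True (BL L₂ act₂ S₂ lab₀) a₂)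
    (hb₂ : IsFam True (BL L₂ act₂ S₂ lab₀) b₂) (he₁ : FamEq True (BL L₁ act₁ S₁ lab₀) a₁ b₁)
    (he₂ : FamEq True (BL L₂ act₂ S₂ lab₀) a₂ b₂) :
    FamEq True (BL L act S lab₀)
      (cupF (pbF (bmap L₁ act₁ f₁ id) a₁) (pbF (bmap L₂ act₂ f₂ id) a₂))
      (cupF (pbF (bmap L₁ act₁ f₁ id) b₁) (pbF (bmap L₂ act₂ f₂ id) b₂)) :=
  famEq_true.2 fun n => xp_BB h₁ h₂ hp (frOK_St lab₀ n) ((isFam_true.1 ha₁).1 n)
    ((isFam_true.1 hb₂).1 n) (famEq_true.1 he₁ n) (famEq_true.1 he₂ n)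

end XP

/-- Multiplication by a class of the point. -/
theorem isFam_mul (h : IsAct L act) (h₁ : IsGrp L₁) (hs : L ⊆ L₁) (hle : L₁ ⊆ KG lab₀)
    (hS : InvX L act S) {u : Fam (Bor L₁ (ptAct (V := V)))}
    (hu : IsFam False (BL L₁ ptAct univ lab₀) u) {a : Fam (Bor L act)}
    (ha : IsFam True (BL L act S lab₀) a) :
    IsFam True (BL L act S lab₀) (cupF (pbF (bmap L₁ ptAct (fun _ => ()) id) u) a) := by
  have h1 : HomeoOn (fun x : X => ((), id x)) Prod.snd S (univ ×ˢ S) :=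
    ⟨by fun_prop, continuous_snd.continuousOn, fun x hx => ⟨mem_univ _, hx⟩, fun p hp => hp.2,
      fun _ _ => rfl, fun _ _ => rfl⟩
  have h2 := xp_isFam (EM.toPt h h₁ hs hle hS)
    (EM.of_subset h h.grp Subset.rfl (hs.trans hle) hS hS Subset.rfl) h1.properOn
    ((isFam_of_compact fun n => isCompact_BS (isCompact_St lab₀ n) isCompact_univ).2 hu) ha
  have h3 : pbF (bmap L act id id : Bor L act → Bor L act) a = a := by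
    funext n
    rw [bmap_id_id]
    exact pb_id _
  rwa [h3] at h2

end Pool.Agent.HK
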