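import Pool.Agent.P.MP_1206ce_ag.CB.Act
import Pool.Agent.P.MP_1206ce_ag.ST.LM

/-! The space of triples and the fibres over the torus fixed points. -/

open scoped Topology
open Filter Set

noncomputable section

namespace Pool.Agent.HK

namespace Qv

variable (Q : Qv)

variable {l : Q.Lam} {m d : ℕ} {w : Equiv.Perm Q.Var}

theorem CBSets_out {γ : ℤ → Q.Mat} (hγ : γ ∈ Q.Om m) {k : ℤ}
    (hk : k ∉ Finset.Icc (-(m : ℤ)) m) : γ k = 0 := by
  refine hγ.1 k ?_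
  rw [Finset.mem_Icc, ← abs_le] at hk
  exact not_le.1 hk

theorem CBSets_sum_Om {γ : ℤ → Q.Mat} (hγ : γ ∈ Q.Om m) :
    ∑ k ∈ Finset.Icc (-(m : ℤ)) m, γ k * star (γ k) = 1 := by
  have h1 : HS.toL m γ * HS.adj (HS.toL m γ) = 1 := by
    refine HS.eq_of_map_ev fun z hz => ?_
    rw [HS.map_ev_mul, HS.map_ev_adj hz, HS.map_ev_toL, HS.map_ev_one]
    exact (hγ.2.2.2.1 z hz).2
  have h3 := HS.cf_toL_eq hγ.1
  have h2 : HS.cf (HS.toL m γ * HS.adj (HS.toL m γ)) 0 = 1 := by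
    rw [h1, HS.cf_one, if_pos rfl]
  rw [HS.cf_mul_sum _ _ (Finset.Icc (-(m : ℤ)) m) fun i hi => ?_] at h2
  · rw [← h2]
    refine Finset.sum_congr rfl fun k _ => ?_
    rw [HS.cf_adj, h3, zero_sub, neg_neg]
  · rw [h3] at hi
    by_contra h
    exact hi (Q.CBSets_out hγ h)

theorem CBSets_norm_Om {γ : ℤ → Q.Mat} (hγ : γ ∈ Q.Om m) (k : ℤ) (a b : Option (Fin Q.nB)) :
    ‖γ k a b‖ ≤ 1 := by
  by_cases hk : k ∈ Finset.Icc (-(m : ℤ)) m
  · have e : ∀ z : ℂ, (z * star z).re = ‖z‖ ^ 2 := fun z => by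
      rw [Complex.star_def, Complex.mul_conj, Complex.ofReal_re, Complex.normSq_eq_norm_sq]
    have h : ∑ k ∈ Finset.Icc (-(m : ℤ)) m, ∑ c, ‖γ k a c‖ ^ 2 = 1 := by
      have h0 := congrArg (fun M : Q.Mat => (M a a).re) (Q.CBSets_sum_Om hγ)
      simpa only [Matrix.sum_apply, Matrix.mul_apply, Matrix.star_apply, Complex.re_sum,
        Matrix.one_apply_eq, Complex.one_re, e] using h0
    have h1 : ‖γ k a b‖ ^ 2 ≤ 1 := by
      rw [← h]
      refine le_trans ?_ (Finset.single_le_sum (f := fun k => ∑ c, ‖γ k a c‖ ^ 2)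
        (fun _ _ => by positivity) hk)
      exact Finset.single_le_sum (f := fun c => ‖γ k a c‖ ^ 2) (fun _ _ => by positivity)
        (Finset.mem_univ b)
    nlinarith [norm_nonneg (γ k a b)]
  · rw [Q.CBSets_out hγ hk, Matrix.zero_apply, norm_zero]
    exact zero_le_one

theorem CBSets_cont_evl (m : ℕ) (z : ℂ) : Continuous fun γ : ℤ → Q.Mat => Q.evl m γ z :=
  continuous_finsetSum _ fun k _ => by fun_prop

theorem CBSets_isClosed_Om (m : ℕ) : IsClosed (Q.Om m) := by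
  have hc : ∀ (k : ℤ) (a b : Option (Fin Q.nB)), Continuous fun γ : ℤ → Q.Mat => γ k a b :=
    fun k a b => (continuous_apply k).matrix_elem a b
  simp only [Om, ofPred_and, ofPred_forall]
  refine (isClosed_iInter fun k => isClosed_iInter fun _ =>
      isClosed_eq (continuous_apply k) continuous_const).inter
    ((isClosed_iInter fun k => isClosed_iInter fun a => isClosed_iInter fun b =>
      isClosed_iInter fun _ => isClosed_eq (hc k a b) continuous_const).inter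
    ((isClosed_iInter fun k => isClosed_iInter fun _ =>
      isClosed_eq (hc k none none) continuous_const).inter
    ((isClosed_iInter fun z => isClosed_iInter fun _ => ?_).inter
      (isClosed_eq (Q.CBSets_cont_evl m 1) continuous_const))))
  exact isClosed_unitary.preimage (Q.CBSets_cont_evl m z)

theorem isCompact_Om (m : ℕ) : IsCompact (Q.Om m) := by
  have h1 : IsCompact (Set.pi univ fun _ : ℤ => Set.pi univ fun _ : Option (Fin Q.nB) =>
      Set.pi univ fun _ : Option (Fin Q.nB) => Metric.closedBall (0 : ℂ) 1) :=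
    isCompact_univ_pi fun _ => isCompact_univ_pi fun _ => isCompact_univ_pi fun _ =>
      isCompact_closedBall _ _
  refine IsCompact.of_isClosed_subset (X := ℤ → Q.Mat) h1 (Q.CBSets_isClosed_Om m)
    fun γ hγ k _ a _ b _ => ?_
  exact mem_closedBall_zero_iff.2 (Q.CBSets_norm_Om hγ k a b)

theorem continuous_lact (m d : ℕ) (j : ℤ) : Continuous fun p => Q.lact m d p j := by
  refine continuous_pi fun h => continuous_finsetSum _ fun a _ =>
    continuous_finsetSum _ fun b _ => continuous_finsetSum _ fun i _ => ?_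
  split_ifs
  · exact (((continuous_apply a).comp continuous_fst).mul
      ((continuous_apply h).comp ((continuous_apply i).comp continuous_snd))).mul
      ((continuous_apply b).comp continuous_fst).star
  · exact continuous_const

theorem lact_act (m d : ℕ) {u : Matrix Q.Var Q.Var ℂ} (hu : u ∈ Q.KK) (p : Q.Tr) (j : ℤ) :
    Q.lact m d (Q.actR u p) j = Q.actN u (Q.lact m d p j) := by
  funext h
  have hg : ∀ X : Q.Mat, star (Q.gau u) * (Q.gau u * X) = X := fun X => by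
    rw [← Matrix.mul_assoc, (Q.gau_unitary hu).1, Matrix.one_mul]
  simp only [lact, actR, actJ, actN, Finset.mul_sum, Finset.sum_mul, Finset.smul_sum]
  refine Finset.sum_congr rfl fun a _ => Finset.sum_congr rfl fun b _ =>
    Finset.sum_congr rfl fun i _ => ?_
  split_ifs
  · simp only [star_mul, star_star, Matrix.mul_smul, Matrix.smul_mul, Matrix.mul_assoc, hg]
  · rw [Matrix.mul_zero, Matrix.zero_mul, smul_zero]

theorem CBSets_NN {x : Q.Arr} : x ∈ Q.NN ↔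
    ∀ h a b, ¬ (Q.vb a = Q.tgt h ∧ Q.vb b = Q.src h) → x h a b = 0 :=
  ⟨fun hx h a b hn => by_contra fun h0 => hn (hx h a b h0),
    fun hx h a b h0 => by_contra fun hn => h0 (hx h a b hn)⟩

theorem lact_mem_NN {p : Q.Tr} (h₁ : p.1 ∈ Q.Om m) (h₂ : p.2 ∈ Q.Jet d) (j : ℤ) :
    Q.lact m d p j ∈ Q.NN := by
  refine Q.CBSets_NN.2 fun h x y hn => ?_
  simp only [lact, Matrix.sum_apply]
  refine Finset.sum_eq_zero fun a _ => Finset.sum_eq_zero fun b _ =>
    Finset.sum_eq_zero fun i _ => ?_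
  split_ifs
  · refine Q.CBSets_NN.1 (Q.mul_mem_NN (h₂.1 i) (g := p.1 a) (g' := star (p.1 b)) (h₁.2.1 a)
      fun s t hst => ?_) h x y hn
    rw [Matrix.star_apply, h₁.2.1 b t s hst.symm, star_zero]
  · rfl

theorem isClosed_RR (m d : ℕ) : IsClosed (Q.RR m d) := by
  simp only [RR, ofPred_and, ofPred_forall]
  exact ((Q.CBSets_isClosed_Om m).preimage continuous_fst).inter
    (((Q.isClosed_Jet d).preimage continuous_snd).inter (isClosed_iInter fun j =>
      isClosed_iInter fun _ => isClosed_eq (Q.continuous_lact m d j) continuous_const))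

theorem lc_RR (m d : ℕ) : LC (Q.RR m d) :=
  ((LC.of_isCompact (Q.isCompact_Om m)).prod (Q.lc_Jet d)).closedIn
    ⟨Q.RR m d, Q.isClosed_RR m d, (inter_eq_right.2 fun _ hp => mem_prod.2 ⟨hp.1, hp.2.1⟩).symm⟩

theorem CBSets_bd_mul {g g' : Q.Mat} (hg : ∀ a b, Q.vb a ≠ Q.vb b → g a b = 0)
    (hg' : ∀ a b, Q.vb a ≠ Q.vb b → g' a b = 0) (a b : Option (Fin Q.nB))
    (h : Q.vb a ≠ Q.vb b) : (g * g') a b = 0 := by
  rw [Matrix.mul_apply]
  refine Finset.sum_eq_zero fun c _ => ?_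
  by_cases hc : Q.vb a = Q.vb c
  · rw [hg' c b (hc ▸ h), mul_zero]
  · rw [hg a c hc, zero_mul]

theorem CBSets_conj_none (u : Matrix Q.Var Q.Var ℂ) (X : Q.Mat) :
    (Q.gau u * X * star (Q.gau u)) none none = X none none := by
  simp [Matrix.mul_apply, Matrix.star_apply, Fintype.sum_option, gau]

theorem CBSets_evl_conj (g g' : Q.Mat) (γ : ℤ → Q.Mat) (z : ℂ) :
    Q.evl m (fun k => g * γ k * g') z = g * Q.evl m γ z * g' := by
  simp only [evl, Finset.mul_sum, Finset.sum_mul, Matrix.mul_smul, Matrix.smul_mul]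

theorem CBSets_conj_Om {u : Matrix Q.Var Q.Var ℂ} (hu : u ∈ Q.KK) {γ : ℤ → Q.Mat}
    (hγ : γ ∈ Q.Om m) : (fun k => Q.gau u * γ k * star (Q.gau u)) ∈ Q.Om m := by
  have hg := Q.gau_unitary hu
  refine ⟨fun k hk => ?_, fun k => ?_, fun k hk => ?_, fun z hz => ?_, ?_⟩
  · change Q.gau u * γ k * star (Q.gau u) = 0
    rw [hγ.1 k hk, Matrix.mul_zero, Matrix.zero_mul]
  · refine Q.CBSets_bd_mul (Q.CBSets_bd_mul (fun a b h => Q.gau_block hu h) (hγ.2.1 k))
      fun a b h => ?_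
    rw [Matrix.star_apply, Q.gau_block hu h.symm, star_zero]
  · exact (Q.CBSets_conj_none u (γ k)).trans (hγ.2.2.1 k hk)
  · rw [CBSets_evl_conj]
    exact mul_mem (mul_mem hg (hγ.2.2.2.1 z hz)) (Unitary.star_mem hg)
  · rw [CBSets_evl_conj, hγ.2.2.2.2, Matrix.mul_one]
    exact hg.2

theorem invX_RR (m d : ℕ) : InvX Q.KK Q.actR (Q.RR m d) := fun u hu p hp =>
  ⟨Q.CBSets_conj_Om hu hp.1, Q.invX_Jet d u hu p.2 hp.2.1, fun j hj => by
    rw [Q.lact_act m d hu, hp.2.2 j hj, Q.actN_zero]⟩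

theorem CBSets_Icc (m : ℕ) :
    Finset.Icc (-(m : ℤ)) m ⊆ Finset.Icc (-((m + 1 : ℕ) : ℤ)) ((m + 1 : ℕ) : ℤ) :=
  Finset.Icc_subset_Icc (by omega) (by omega)

theorem CBSets_evl_succ {γ : ℤ → Q.Mat} (hγ : γ ∈ Q.Om m) (z : ℂ) :
    Q.evl (m + 1) γ z = Q.evl m γ z :=
  (Finset.sum_subset (CBSets_Icc m) fun k _ hk => by rw [Q.CBSets_out hγ hk, smul_zero]).symm

theorem CBSets_lact_m {p : Q.Tr} (hp : p.1 ∈ Q.Om m) (j : ℤ) :
    Q.lact (m + 1) d p j = Q.lact m d p j := by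
  funext h
  refine Eq.symm ((Finset.sum_congr rfl fun a _ => Finset.sum_subset (CBSets_Icc m)
    fun b _ hb => ?_).trans (Finset.sum_subset (CBSets_Icc m) fun a _ ha => ?_))
  · refine Finset.sum_eq_zero fun i _ => ?_
    rw [Q.CBSets_out hp hb, star_zero, Matrix.mul_zero, ite_self]
  · refine Finset.sum_eq_zero fun b _ => Finset.sum_eq_zero fun i _ => ?_
    rw [Q.CBSets_out hp ha, Matrix.zero_mul, Matrix.zero_mul, ite_self]

theorem RR_mono (m d : ℕ) : Q.RR m d ⊆ Q.RR (m + 1) d := by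
  intro p hp
  refine ⟨⟨fun k hk => hp.1.1 k (by push_cast at hk; omega), hp.1.2.1, hp.1.2.2.1,
    fun z hz => ?_, ?_⟩, hp.2.1, fun j hj => ?_⟩
  · rw [Q.CBSets_evl_succ hp.1]
    exact hp.1.2.2.2.1 z hz
  · rw [Q.CBSets_evl_succ hp.1]
    exact hp.1.2.2.2.2
  · rw [Q.CBSets_lact_m hp.1, hp.2.2 j hj]

theorem CBSets_cont_co (i : ℕ) (h : Fin Q.nA) (a b : Option (Fin Q.nB)) :
    Continuous fun p : Q.Tr => p.2 i h a b :=
  ((continuous_apply h).comp ((continuous_apply i).comp continuous_snd)).matrix_elem a b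

theorem isClosed_UL (l : Q.Lam) (d : ℕ) : IsClosed (Q.UL l d) := by
  simp only [UL, ofPred_and, ofPred_forall]
  exact (isClosed_eq continuous_fst continuous_const).inter
    (((Q.isClosed_Jet d).preimage continuous_snd).inter (isClosed_iInter fun i =>
      isClosed_iInter fun h => isClosed_iInter fun a => isClosed_iInter fun b =>
        isClosed_iInter fun _ => isClosed_eq (Q.CBSets_cont_co i h a b) continuous_const))

theorem CBSets_gau_T {u : Matrix Q.Var Q.Var ℂ} (hu : u ∈ TT Q.Var) {a b : Option (Fin Q.nB)}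
    (h : a ≠ b) : Q.gau u a b = 0 := by
  rcases a with _ | a <;> rcases b with _ | b
  · exact absurd rfl h
  · rfl
  · rfl
  · exact hu.2 _ _ fun e => h (congrArg some (Sum.inl_injective e))

theorem invX_UL (l : Q.Lam) (d : ℕ) : InvX (TT Q.Var) Q.actR (Q.UL l d) := by
  intro u hu p hp
  have hK : u ∈ Q.KK := TT_subset Q.lab hu
  refine ⟨funext fun k => ?_, Q.invX_Jet d u hK p.2 hp.2.1, fun i h a b hi => ?_⟩
  · change Q.gau u * p.1 k * star (Q.gau u) = Q.tl l k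
    have e : Q.gau u * Q.tl l k = Q.tl l k * Q.gau u := by
      ext a b
      rw [tl, Matrix.mul_diagonal, Matrix.diagonal_mul]
      by_cases hab : a = b
      · rw [hab, mul_comm]
      · rw [Q.CBSets_gau_T hu hab, zero_mul, mul_zero]
    rw [hp.1, e, Matrix.mul_assoc, (Q.gau_unitary hK).2, Matrix.mul_one]
  · change Q.actN u (p.2 i) h a b = 0
    rw [Q.actN_T hu, hp.2.2 i h a b hi, mul_zero]

theorem CBSets_mem_WI {p : Q.Ps} :
    p ∈ Q.WI ↔ Q.vb p.2.1 = Q.tgt p.1 ∧ Q.vb p.2.2 = Q.src p.1 := by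
  rw [WI, Finset.mem_filter, and_iff_right (Finset.mem_univ _)]

theorem CBSets_mem_PU {q : Q.Ps × ℕ} :
    q ∈ Q.PU l d ↔ (q.1 ∈ Q.WI ∧ q.2 < d) ∧ -Q.prP l q.1 ≤ (q.2 : ℤ) := by
  rw [PU, Finset.mem_filter, Finset.mem_product, Finset.mem_range]

theorem CBSets_mem_UL {p : Q.Tr} : p ∈ Q.UL l d ↔ p.1 = Q.tl l ∧
    ∀ i h a b, ((h, a, b), i) ∉ Q.PU l d → p.2 i h a b = 0 := by
  refine and_congr_right fun _ => ⟨fun hp i h a b hn => ?_, fun hp => ⟨⟨fun i => ?_,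
    fun i hi => ?_⟩, fun i h a b hi => ?_⟩⟩
  · by_contra h0
    refine hn (Q.CBSets_mem_PU.2 ⟨⟨Q.CBSets_mem_WI.2 (hp.1.1 i h a b h0), ?_⟩, ?_⟩)
    · by_contra hi
      exact h0 (by rw [hp.1.2 i (not_lt.1 hi)]; rfl)
    · by_contra hi
      exact h0 (hp.2 i h a b (not_le.1 hi))
  · exact Q.CBSets_NN.2 fun h a b hn => hp i h a b fun hm =>
      hn (Q.CBSets_mem_WI.1 (Q.CBSets_mem_PU.1 hm).1.1)
  · funext h
    ext a b
    exact hp i h a b fun hm => not_lt.2 hi (Q.CBSets_mem_PU.1 hm).1.2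
  · exact hp i h a b fun hm => not_le.2 hi (Q.CBSets_mem_PU.1 hm).2

theorem cd_UL (l : Q.Lam) (d : ℕ) :
    Cd Q.lab (TT Q.Var) Q.actR (Q.UL l d) (Q.coP (Q.PU l d)) := by
  refine ⟨Q.isAct_RT, TT_subset _, Q.invX_UL l d, fun c => (Q.tl l, fun i h => Matrix.of
    fun a b => if H : ((h, a, b), i) ∈ Q.PU l d then c ⟨_, H⟩ else 0), ?_, ?_, mapsTo_univ _ _,
    fun c _ => ?_, fun p hp => ?_, fun c _ => ?_⟩
  · exact (continuous_pi fun q => Q.CBSets_cont_co _ _ _ _).continuousOn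
  · refine (continuous_const.prodMk (continuous_pi fun i => continuous_pi fun h =>
      continuous_matrix fun a b => ?_)).continuousOn
    simp only [Matrix.of_apply]
    split_ifs
    · exact continuous_apply _
    · exact continuous_const
  · exact Q.CBSets_mem_UL.2 ⟨rfl, fun i h a b hn => dif_neg hn⟩
  · obtain ⟨h1, h2⟩ := Q.CBSets_mem_UL.1 hp
    refine Prod.ext h1.symm (funext fun i => funext fun h => Matrix.ext fun a b => ?_)
    by_cases H : ((h, a, b), i) ∈ Q.PU l d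
    · exact dif_pos H
    · exact (dif_neg H).trans (h2 i h a b H).symm
  · funext q
    exact dif_pos q.2

theorem CBSets_evl_tl (hl : l ∈ Q.Box m) (z : ℂ) :
    Q.evl m (Q.tl l) z = Matrix.diagonal fun a => z ^ Q.lv l a := by
  ext a b
  simp only [evl, tl, Matrix.sum_apply, Matrix.smul_apply, Matrix.diagonal_apply, smul_eq_mul]
  split_ifs with hab
  · rw [Finset.sum_eq_single (Q.lv l a)]
    · rw [if_pos rfl, mul_one]
    · intro k _ hk
      rw [if_neg hk.symm, mul_zero]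
    · intro hk
      exact absurd (Finset.mem_Icc.2 (abs_le.1 (Q.abs_lv_le hl a))) hk
  · exact Finset.sum_eq_zero fun k _ => mul_zero _

theorem tl_mem_Om (hl : l ∈ Q.Box m) : Q.tl l ∈ Q.Om m := by
  refine ⟨fun k hk => ?_, fun k a b hab => ?_, fun k hk => ?_, fun z hz => ?_, ?_⟩
  · rw [tl, ← Matrix.diagonal_zero]
    refine congrArg Matrix.diagonal (funext fun a => if_neg fun e => ?_)
    have := Q.abs_lv_le hl a
    rw [e] at this
    omega
  · exact Matrix.diagonal_apply_ne _ fun e => hab (congrArg Q.vb e)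
  · rw [tl, Matrix.diagonal_apply_eq]
    exact if_neg hk.symm
  · rw [Q.CBSets_evl_tl hl, Matrix.mem_unitaryGroup_iff, Matrix.star_eq_conjTranspose,
      Matrix.diagonal_conjTranspose, Matrix.diagonal_mul_diagonal, ← Matrix.diagonal_one]
    refine congrArg Matrix.diagonal (funext fun a => ?_)
    rw [Pi.star_apply, Complex.star_def, Complex.mul_conj, Complex.normSq_eq_norm_sq, norm_zpow,
      hz, one_zpow, one_pow, Complex.ofReal_one]
  · rw [Q.CBSets_evl_tl hl, ← Matrix.diagonal_one]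
    exact congrArg Matrix.diagonal (funext fun a => one_zpow _)

theorem CBSets_tl_mul (x y : ℤ) (X : Q.Mat) (a b : Option (Fin Q.nB)) :
    (Q.tl l x * X * star (Q.tl l y)) a b =
      if Q.lv l a = x ∧ Q.lv l b = y then X a b else 0 := by
  rw [tl, tl, Matrix.star_eq_conjTranspose, Matrix.diagonal_conjTranspose, Matrix.mul_diagonal,
    Matrix.diagonal_mul, Pi.star_apply]
  by_cases h1 : Q.lv l a = x <;> by_cases h2 : Q.lv l b = y <;> simp [h1, h2]

theorem lact_tl (hl : l ∈ Q.Box m) {s : ℕ → Q.Arr} (hs : s ∈ Q.Jet d) (j : ℤ) (h : Fin Q.nA)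
    (a b : Option (Fin Q.nB)) : Q.lact m d (Q.tl l, s) j h a b =
      if 0 ≤ j - Q.prP l (h, a, b) then s (j - Q.prP l (h, a, b)).toNat h a b else 0 := by
  have hI : ∀ c, Q.lv l c ∈ Finset.Icc (-(m : ℤ)) m := fun c =>
    Finset.mem_Icc.2 (abs_le.1 (Q.abs_lv_le hl c))
  have e : ∀ (x y : ℤ) (i : ℕ), (if x + i - y = j then Q.tl l x * s i h * star (Q.tl l y)
      else 0) a b = if Q.lv l a = x ∧ Q.lv l b = y then
        (if x + i - y = j then s i h a b else 0) else 0 := fun x y i => by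
    by_cases hc : x + i - y = j
    · rw [if_pos hc, if_pos hc, CBSets_tl_mul]
    · rw [if_neg hc, if_neg hc, ite_self, Matrix.zero_apply]
  have hp : Q.prP l (h, a, b) = Q.lv l a - Q.lv l b := rfl
  simp only [lact, Matrix.sum_apply, e]
  rw [Finset.sum_eq_single_of_mem (Q.lv l a) (hI a) fun x _ hx =>
      Finset.sum_eq_zero fun y _ => Finset.sum_eq_zero fun i _ => if_neg fun c => hx c.1.symm,
    Finset.sum_eq_single_of_mem (Q.lv l b) (hI b) fun y _ hy =>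
      Finset.sum_eq_zero fun i _ => if_neg fun c => hy c.2.symm, hp]
  simp only [and_self, if_true]
  split_ifs with hj
  · rw [Finset.sum_eq_single (j - (Q.lv l a - Q.lv l b)).toNat]
    · exact if_pos (by omega)
    · intro i _ hi
      exact if_neg (by omega)
    · intro hi
      rw [hs.2 _ (not_lt.1 fun c => hi (Finset.mem_range.2 c))]
      exact ite_self _
  · exact Finset.sum_eq_zero fun i _ => if_neg (by omega)

theorem UL_subset_RR (hl : l ∈ Q.Box m) (d : ℕ) : Q.UL l d ⊆ Q.RR m d := by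
  rintro ⟨γ, s⟩ ⟨h1, h2, h3⟩
  obtain rfl : γ = Q.tl l := h1
  refine ⟨Q.tl_mem_Om hl, h2, fun j hj => funext fun h => Matrix.ext fun a b => ?_⟩
  rw [Q.lact_tl hl h2]
  split_ifs with hc
  · exact h3 _ h a b (by omega)
  · rfl

theorem CBSets_tl_zero : Q.tl 0 = fun k => if k = 0 then 1 else 0 := by
  have h : ∀ a, Q.lv 0 a = 0 := fun a => by rcases a with _ | a <;> rfl
  funext k
  simp only [tl, h]
  by_cases hk : k = 0
  · rw [if_pos hk, if_pos hk.symm, Matrix.diagonal_one]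
  · rw [if_neg hk, if_neg (Ne.symm hk), Matrix.diagonal_zero]

theorem UL_zero (d : ℕ) :
    Q.UL 0 d = {p | p.1 = (fun k => if k = 0 then 1 else 0) ∧ p.2 ∈ Q.Jet d} := by
  ext p
  rw [← Q.CBSets_tl_zero]
  refine and_congr_right fun _ => and_iff_left fun i h a b hi => ?_
  rw [Q.prP_zero] at hi
  omega

theorem PU_zero (d : ℕ) : Q.PU 0 d = Q.WI ×ˢ Finset.range d :=
  Finset.filter_true_of_mem fun q _ => by rw [Q.prP_zero]; omega

theorem invX_UL_zero (d : ℕ) : InvX Q.KK Q.actR (Q.UL 0 d) := by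
  rw [UL_zero]
  intro u hu p hp
  refine ⟨funext fun k => ?_, Q.invX_Jet d u hu p.2 hp.2⟩
  change Q.gau u * p.1 k * star (Q.gau u) = _
  rw [hp.1]
  dsimp only
  split_ifs
  · rw [Matrix.mul_one]
    exact (Q.gau_unitary hu).2
  · rw [Matrix.mul_zero, Matrix.zero_mul]

theorem em_snd_UL (d : ℕ) : EM Q.lab Q.KK Q.actR (Q.UL 0 d) Q.KK Q.actJ (Q.Jet d) Prod.snd :=
  ⟨Q.isAct_R, Q.isAct_J, subset_rfl, subset_rfl, Q.invX_UL_zero d, Q.invX_Jet d,
    fun _ _ _ _ => rfl, continuous_snd.continuousOn, fun _ hp => hp.2.1⟩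

theorem homeo_snd_UL (d : ℕ) : ∃ g, HomeoOn Prod.snd g (Q.UL 0 d) (Q.Jet d) := by
  refine ⟨fun s => (Q.tl 0, s), continuous_snd.continuousOn,
    (continuous_const.prodMk continuous_id).continuousOn, fun _ hp => hp.2.1,
    fun s hs => ⟨rfl, hs, fun i h a b hi => ?_⟩, fun p hp => Prod.ext hp.1.symm rfl,
    fun _ _ => rfl⟩
  rw [Q.prP_zero] at hi
  omega

theorem CBSets_perm (hw : w ∈ Wl Q.lab) : ∃ π : Equiv.Perm (Option (Fin Q.nB)),
    (∀ a, Q.vb (π a) = Q.vb a) ∧ (∀ l a, Q.lv (Q.wl w l) (π a) = Q.lv l a) ∧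
    (∀ (p : Q.Tr) k a b, (Q.actR (pmat w) p).1 k (π a) (π b) = p.1 k a b) ∧
    ∀ (p : Q.Tr) i h a b, (Q.actR (pmat w) p).2 i h (π a) (π b) = p.2 i h a b := by
  obtain ⟨σ, h1, h2, h3⟩ := Q.exists_perm hw
  have hg : Q.gau (pmat w) = pmat σ.optionCongr := by
    ext a b
    rcases a with _ | a <;> rcases b with _ | b <;> simp [gau, pmat, h1]
  have hc : ∀ (X : Q.Mat) a b, (Q.gau (pmat w) * X * star (Q.gau (pmat w)))
      (σ.optionCongr a) (σ.optionCongr b) = X a b := fun X a b => by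
    rw [hg, Matrix.mul_apply, Top_vec_pmat σ.optionCongr
      ((pmat σ.optionCongr * X) (σ.optionCongr a)), Top_pmat_mul, Equiv.symm_apply_apply,
      Equiv.symm_apply_apply]
  have hχ : ∀ h, Q.chi (fun a => pmat w (Sum.inr a) (Sum.inr a)) h = 1 := fun h =>
    Finset.prod_eq_one fun a _ => by simp [pmat, Q.w_inr hw]
  refine ⟨σ.optionCongr, fun a => ?_, fun l a => ?_, fun p k a b => hc _ a b,
    fun p i h a b => ?_⟩
  · rcases a with _ | a
    · rfl
    · exact congrArg some (h2 a)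
  · rcases a with _ | a
    · rfl
    · exact h3 l a
  · change Q.actN (pmat w) (p.2 i) h _ _ = _
    rw [actN, hχ, one_smul, hc]

theorem CBSets_PU_perm {π : Equiv.Perm (Option (Fin Q.nB))} {l' : Q.Lam}
    (h1 : ∀ a, Q.vb (π a) = Q.vb a) (h2 : ∀ a, Q.lv l' (π a) = Q.lv l a) (i : ℕ)
    (h : Fin Q.nA) (a b : Option (Fin Q.nB)) :
    ((h, a, b), i) ∈ Q.PU l d ↔ ((h, π a, π b), i) ∈ Q.PU l' d := by
  simp only [CBSets_mem_PU, CBSets_mem_WI, prP, h1, h2]

theorem image_UL (hw : w ∈ Wl Q.lab) (l : Q.Lam) (d : ℕ) :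
    Q.actR (pmat w) '' Q.UL l d = Q.UL (Q.wl w l) d := by
  obtain ⟨π, h1, h2, h3, h4⟩ := Q.CBSets_perm hw
  have ht : ∀ k a b, Q.tl (Q.wl w l) k (π a) (π b) = Q.tl l k a b := fun k a b => by
    simp only [tl, Matrix.diagonal_apply, h2, π.apply_eq_iff_eq]
  refine Subset.antisymm ?_ fun p' hp' => ?_
  · rintro _ ⟨p, hp, rfl⟩
    obtain ⟨e1, e2⟩ := Q.CBSets_mem_UL.1 hp
    refine Q.CBSets_mem_UL.2 ⟨funext fun k => Matrix.ext fun a b => ?_, fun i h a b hn => ?_⟩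
    · obtain ⟨a, rfl⟩ := π.surjective a
      obtain ⟨b, rfl⟩ := π.surjective b
      rw [h3, ht, e1]
    · obtain ⟨a, rfl⟩ := π.surjective a
      obtain ⟨b, rfl⟩ := π.surjective b
      rw [h4]
      exact e2 i h a b fun hm => hn ((Q.CBSets_PU_perm h1 (h2 l) i h a b).1 hm)
  · obtain ⟨e1, e2⟩ := Q.CBSets_mem_UL.1 hp'
    refine ⟨(Q.tl l, fun i h => Matrix.of fun a b => p'.2 i h (π a) (π b)),
      Q.CBSets_mem_UL.2 ⟨rfl, fun i h a b hn => e2 i h _ _ fun hm =>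
        hn ((Q.CBSets_PU_perm h1 (h2 l) i h a b).2 hm)⟩,
      Prod.ext (funext fun k => Matrix.ext fun a b => ?_)
        (funext fun i => funext fun h => Matrix.ext fun a b => ?_)⟩
    · obtain ⟨a, rfl⟩ := π.surjective a
      obtain ⟨b, rfl⟩ := π.surjective b
      rw [h3, e1, ht]
    · obtain ⟨a, rfl⟩ := π.surjective a
      obtain ⟨b, rfl⟩ := π.surjective b
      rw [h4]
      rfl

theorem exists_coP_wl (hw : w ∈ Wl Q.lab) (l : Q.Lam) (d : ℕ) :
    ∃ A : (↥(Q.PU l d) → ℂ) ≃ₗ[ℂ] (↥(Q.PU (Q.wl w l) d) → ℂ), ∀ x,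
      Q.coP (Q.PU (Q.wl w l) d) (Q.actR (pmat w) x) = A (Q.coP (Q.PU l d) x) := by
  obtain ⟨π, h1, h2, -, h4⟩ := Q.CBSets_perm hw
  let e : ↥(Q.PU l d) ≃ ↥(Q.PU (Q.wl w l) d) := Equiv.subtypeEquiv
    (((Equiv.refl _).prodCongr (π.prodCongr π)).prodCongr (Equiv.refl ℕ))
    fun q => Q.CBSets_PU_perm h1 (h2 l) q.2 q.1.1 q.1.2.1 q.1.2.2
  refine ⟨LinearEquiv.funCongrLeft ℂ ℂ e.symm, fun x => funext fun q => ?_⟩
  obtain ⟨q, rfl⟩ := e.surjective q
  rw [LinearEquiv.funCongrLeft_apply, LinearMap.funLeft_apply, Equiv.symm_apply_apply]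
  exact h4 x _ _ _ _

theorem CBSets_lact_trunc (hd : 2 * m ≤ d) (p : Q.Tr) {j : ℤ} (hj : j < 0) :
    Q.lact m d (Q.trunc d p) j = Q.lact m (d + 1) p j := by
  funext h
  refine Finset.sum_congr rfl fun a ha => Finset.sum_congr rfl fun b hb => ?_
  rw [Finset.mem_Icc] at ha hb
  rw [Finset.sum_range_succ, if_neg (by omega), add_zero]
  refine Finset.sum_congr rfl fun i hi => ?_
  simp only [trunc, if_pos (Finset.mem_range.1 hi)]

theorem CBSets_trunc_Jet {p : Q.Tr} (hp : p.2 ∈ Q.Jet (d + 1)) : (Q.trunc d p).2 ∈ Q.Jet d :=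
  (Q.em_truncJ d).maps hp

theorem CBSets_cont_trunc (d : ℕ) : Continuous (Q.trunc d) := by
  refine continuous_fst.prodMk (continuous_pi fun i => ?_)
  split_ifs
  · exact (continuous_apply i).comp continuous_snd
  · exact continuous_const

theorem CBSets_trunc_RR (hd : 2 * m ≤ d) {p : Q.Tr} (hp : p.2 ∈ Q.Jet (d + 1)) :
    p ∈ Q.RR m (d + 1) ↔ Q.trunc d p ∈ Q.RR m d :=
  ⟨fun h => ⟨h.1, Q.CBSets_trunc_Jet hp, fun j hj =>
      (Q.CBSets_lact_trunc hd p hj).trans (h.2.2 j hj)⟩,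
    fun h => ⟨h.1, hp, fun j hj => (Q.CBSets_lact_trunc hd p hj).symm.trans (h.2.2 j hj)⟩⟩

theorem em_trunc (hd : 2 * m ≤ d) :
    EM Q.lab Q.KK Q.actR (Q.RR m (d + 1)) Q.KK Q.actR (Q.RR m d) (Q.trunc d) :=
  ⟨Q.isAct_R, Q.isAct_R, subset_rfl, subset_rfl, Q.invX_RR m (d + 1), Q.invX_RR m d,
    fun u hu p hp => Prod.ext rfl ((Q.em_truncJ d).eqv u hu p.2 hp.2.1),
    (Q.CBSets_cont_trunc d).continuousOn, fun _ hp => (Q.CBSets_trunc_RR hd hp.2.1).1 hp⟩

theorem em_top (m d : ℕ) :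
    EM Q.lab Q.KK Q.actR (Q.RR m (d + 1)) Q.KK Q.actN Q.NN fun p => p.2 d :=
  ⟨Q.isAct_R, Q.isAct_N, subset_rfl, subset_rfl, Q.invX_RR m (d + 1), Q.invX_NN,
    fun _ _ _ _ => rfl, ((continuous_apply d).comp continuous_snd).continuousOn,
    fun _ hp => hp.2.1.1 d⟩

theorem CBSets_homeo {S S' : Set Q.Tr} (h₁ : ∀ p ∈ S', p.2 ∈ Q.Jet (d + 1))
    (h₂ : ∀ p ∈ S, p.2 ∈ Q.Jet d)
    (h₃ : ∀ p : Q.Tr, p.2 ∈ Q.Jet (d + 1) → (p ∈ S' ↔ Q.trunc d p ∈ S)) :
    ∃ g, HomeoOn (fun p => (Q.trunc d p, p.2 d)) g S' (S ×ˢ Q.NN) := by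
  have e : ∀ y ∈ S ×ˢ Q.NN,
      Q.trunc d (y.1.1, fun i => if i = d then y.2 else y.1.2 i) = y.1 := fun y hy => by
    refine Prod.ext rfl (funext fun i => ?_)
    change (if i < d then (if i = d then y.2 else y.1.2 i) else 0) = y.1.2 i
    by_cases hi : i < d
    · rw [if_pos hi, if_neg hi.ne]
    · rw [if_neg hi, (h₂ _ hy.1).2 i (not_lt.1 hi)]
  refine ⟨fun y => (y.1.1, fun i => if i = d then y.2 else y.1.2 i),
    ((Q.CBSets_cont_trunc d).prodMk ((continuous_apply d).comp continuous_snd)).continuousOn,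
    (continuous_fst.fst.prodMk (continuous_pi fun i => ?_)).continuousOn,
    fun p hp => ⟨(h₃ p (h₁ p hp)).1 hp, (h₁ p hp).1 d⟩, fun y hy => ?_, fun p hp => ?_,
    fun y hy => Prod.ext (e y hy) (if_pos rfl)⟩
  · split_ifs
    · exact continuous_snd
    · exact (continuous_apply i).comp continuous_fst.snd
  · refine (h₃ _ ⟨fun i => ?_, fun i hi => ?_⟩).2 (by rw [e y hy]; exact hy.1)
    · dsimp only
      split_ifs
      · exact hy.2
      · exact (h₂ _ hy.1).1 i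
    · dsimp only
      rw [if_neg (by omega), (h₂ _ hy.1).2 i (by omega)]
  · refine Prod.ext rfl (funext fun i => ?_)
    change (if i = d then p.2 d else if i < d then p.2 i else 0) = p.2 i
    by_cases hi : i = d
    · rw [if_pos hi, hi]
    · rw [if_neg hi]
      by_cases hi' : i < d
      · rw [if_pos hi']
      · rw [if_neg hi', (h₁ p hp).2 i (by omega)]

theorem homeo_trunc (hd : 2 * m ≤ d) : ∃ g, HomeoOn (fun p => (Q.trunc d p, p.2 d)) g
    (Q.RR m (d + 1)) (Q.RR m d ×ˢ Q.NN) :=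
  Q.CBSets_homeo (fun _ hp => hp.2.1) (fun _ hp => hp.2.1) fun _ hp => Q.CBSets_trunc_RR hd hp

theorem homeo_trunc_UL (hl : l ∈ Q.Box m) (hd : 2 * m ≤ d) : ∃ g,
    HomeoOn (fun p => (Q.trunc d p, p.2 d)) g (Q.UL l (d + 1)) (Q.UL l d ×ˢ Q.NN) := by
  refine Q.CBSets_homeo (fun _ hp => hp.2.1) (fun _ hp => hp.2.1) fun p hp =>
    ⟨fun h => ⟨h.1, Q.CBSets_trunc_Jet hp, fun i x a b hi => ?_⟩,
      fun h => ⟨h.1, hp, fun i x a b hi => ?_⟩⟩
  · change (if i < d then p.2 i else 0) x a b = 0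
    split_ifs
    · exact h.2.2 i x a b hi
    · rfl
  · have h1 := (abs_le.1 (Q.abs_prP_le hl (x, a, b))).1
    have h2 : (if i < d then p.2 i else 0) x a b = 0 := h.2.2 i x a b hi
    rwa [if_pos (by omega)] at h2

theorem exists_coP_succ (hl : l ∈ Q.Box m) (hd : 2 * m ≤ d) :
    ∃ A : (↥(Q.PU l d) ⊕ ↥Q.WI → ℂ) ≃ₗ[ℂ] (↥(Q.PU l (d + 1)) → ℂ), ∀ x,
      Q.coP (Q.PU l (d + 1)) x =
        A (Sum.elim (Q.coP (Q.PU l d) (Q.trunc d x)) (Q.coN (x.2 d))) := by
  have m1 : ∀ q ∈ Q.PU l d, q ∈ Q.PU l (d + 1) := fun q hq => by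
    obtain ⟨⟨h1, h2⟩, h3⟩ := Q.CBSets_mem_PU.1 hq
    exact Q.CBSets_mem_PU.2 ⟨⟨h1, by omega⟩, h3⟩
  have m2 : ∀ p ∈ Q.WI, (p, d) ∈ Q.PU l (d + 1) := fun p hp => by
    have h1 := (abs_le.1 (Q.abs_prP_le hl p)).1
    exact Q.CBSets_mem_PU.2 ⟨⟨hp, Nat.lt_succ_self d⟩, by dsimp only; omega⟩
  let f : ↥(Q.PU l d) ⊕ ↥Q.WI → ↥(Q.PU l (d + 1)) :=
    Sum.elim (fun q => ⟨q.1, m1 q.1 q.2⟩) fun p => ⟨(p.1, d), m2 p.1 p.2⟩
  have hf : Function.Bijective f := by
    constructor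
    · rintro (q | p) (q' | p') h
      · have h1 : q.1 = q'.1 := congrArg (fun r => r.1) h
        rw [Subtype.ext h1]
      · have h1 : q.1.2 = d := congrArg (fun r => r.1.2) h
        exact absurd h1 (Q.CBSets_mem_PU.1 q.2).1.2.ne
      · have h1 : d = q'.1.2 := congrArg (fun r => r.1.2) h
        exact absurd h1.symm (Q.CBSets_mem_PU.1 q'.2).1.2.ne
      · have h1 : p.1 = p'.1 := congrArg (fun r => r.1.1) h
        rw [Subtype.ext h1]
    · rintro ⟨q, hq⟩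
      obtain ⟨⟨h1, h2⟩, h3⟩ := Q.CBSets_mem_PU.1 hq
      by_cases hi : q.2 < d
      · exact ⟨Sum.inl ⟨q, Q.CBSets_mem_PU.2 ⟨⟨h1, hi⟩, h3⟩⟩, rfl⟩
      · exact ⟨Sum.inr ⟨q.1, h1⟩, Subtype.ext (Prod.ext rfl (by change d = q.2; omega))⟩
  refine ⟨LinearEquiv.funCongrLeft ℂ ℂ (Equiv.ofBijective f hf).symm,
    fun x => funext fun q => ?_⟩
  obtain ⟨r, rfl⟩ := (Equiv.ofBijective f hf).surjective q
  rw [LinearEquiv.funCongrLeft_apply, LinearMap.funLeft_apply, Equiv.symm_apply_apply]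
  rcases r with q | p
  · change x.2 q.1.2 q.1.1.1 q.1.1.2.1 q.1.1.2.2 =
      (if q.1.2 < d then x.2 q.1.2 else 0) q.1.1.1 q.1.1.2.1 q.1.1.2.2
    rw [if_pos (Q.CBSets_mem_PU.1 q.2).1.2]
  · rfl

end Qv

end Pool.Agent.HK
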