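import Pool.Agent.P.MP_1206ce_ag.CB.Defs

/-! Families of cocycles; equivariant maps; external products. -/

open scoped Topology
open Filter Set

noncomputable section

namespace Pool.Agent.HK

section Abstract

variable {Y Y' : Type} [TopologicalSpace Y] [TopologicalSpace Y'] {c : Prop} {A : ℕ → Set Y}
  {a a' b b' : Fam Y}

open Classical in
/-- The family of supports attached to the flag `c`. -/
def CBFam_F (c : Prop) (S : Set Y) : Filter Y := if c then cc S else ⊥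

theorem CBFam_cocycle {S : Set Y} {u : Coch Y} : Cocycle c S u ↔ u ∈ ZZ (CBFam_F c S) S := by
  by_cases hc : c
  · rw [CBFam_F, if_pos hc, eq_true hc]
    exact cocycle_true
  · rw [CBFam_F, if_neg hc, eq_false hc]
    exact cocycle_false

theorem CBFam_cohom {S : Set Y} {u v : Coch Y} :
    Cohom c S u v ↔ u - v ∈ BB (CBFam_F c S) S := by
  by_cases hc : c
  · rw [CBFam_F, if_pos hc, eq_true hc]
    exact cohom_true
  · rw [CBFam_F, if_neg hc, eq_false hc]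
    exact cohom_false

theorem CBFam_isFam : IsFam c A a ↔ (∀ n, a n ∈ ZZ (CBFam_F c (A n)) (A n)) ∧
    (∀ n, a (n + 1) - a n ∈ BB (CBFam_F c (A n)) (A n)) ∧
    ∃ N : ℕ, ∀ (n : ℕ) (l : List Y), N < l.length → a n l = 0 :=
  and_congr (forall_congr' fun _ => CBFam_cocycle)
    (and_congr (forall_congr' fun _ => CBFam_cohom) Iff.rfl)

theorem CBFam_famEq : FamEq c A a b ↔ ∀ n, a n - b n ∈ BB (CBFam_F c (A n)) (A n) :=
  forall_congr' fun _ => CBFam_cohom

theorem CBFam_pb_ZZ {S : Set Y} {S' : Set Y'} {f : Y' → Y} (hf : ProperOn f S' S) {u : Coch Y}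
    (h : u ∈ ZZ (CBFam_F c S) S) : pb f u ∈ ZZ (CBFam_F c S') S' := by
  by_cases hc : c
  · rw [CBFam_F, if_pos hc] at h ⊢
    exact pb_mem_ZZ_cc hf h
  · rw [CBFam_F, if_neg hc] at h ⊢
    exact pb_mem_ZZ hf.1 hf.2.1 h

theorem CBFam_pb_BB {S : Set Y} {S' : Set Y'} {f : Y' → Y} (hf : ProperOn f S' S) {u : Coch Y}
    (h : u ∈ BB (CBFam_F c S) S) : pb f u ∈ BB (CBFam_F c S') S' := by
  by_cases hc : c
  · rw [CBFam_F, if_pos hc] at h ⊢
    exact pb_mem_BB_cc hf h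
  · rw [CBFam_F, if_neg hc] at h ⊢
    exact pb_mem_BB hf.1 hf.2.1 h

theorem CBFam_res_ZZ {S S' : Set Y} (hS : ClosedIn S' S) {u : Coch Y}
    (h : u ∈ ZZ (cc S) S) : u ∈ ZZ (cc S') S' := by
  have h1 := pb_mem_ZZ_cc hS.properOn h
  rwa [pb_id] at h1

theorem CBFam_res_BB {S S' : Set Y} (hS : ClosedIn S' S) {u : Coch Y}
    (h : u ∈ BB (cc S) S) : u ∈ BB (cc S') S' := by
  have h1 := pb_mem_BB_cc hS.properOn h
  rwa [pb_id] at h1

theorem CBFam_res_clc {S S' : Set Y} (hS : ClosedIn S' S) {u : Coch Y}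
    (h : u ∈ ZZ (cc S) S) : res S S' (clc S u) = clc S' u := by
  rw [tw_cls (hS.properOn.twOK (one_mem_ZZ S')) h, pb_id, cup_one h.1.1.1]

theorem CBFam_ZZ_of_BB {S : Set Y} {u v : Coch Y} (hu : Bdd u) (hv : v ∈ ZZ ⊥ S)
    (h : u - v ∈ BB ⊥ S) : u ∈ ZZ ⊥ S := by
  obtain ⟨e, -, he⟩ := h
  refine ⟨mem_CC_bot.2 hu, ?_⟩
  have h1 := add_mem (Tw_dd_N0 he) hv.2
  rwa [dd_sub, dd_dd, sub_zero, dd_sub, sub_add_cancel] at h1

theorem CBFam_closedIn (hA : ∀ n, ClosedIn (A n) (A (n + 1))) {n n' : ℕ} (hn : n ≤ n') :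
    ClosedIn (A n) (A n') := by
  induction n', hn using Nat.le_induction with
  | base => exact ClosedIn.refl _
  | succ m _ ih => exact ih.trans (hA m)

theorem isFam_true : IsFam True A a ↔ (∀ n, a n ∈ ZZ (cc (A n)) (A n)) ∧
    (∀ n, a (n + 1) - a n ∈ BB (cc (A n)) (A n)) ∧
    ∃ N : ℕ, ∀ (n : ℕ) (l : List Y), N < l.length → a n l = 0 :=
  and_congr (forall_congr' fun _ => cocycle_true)
    (and_congr (forall_congr' fun _ => cohom_true) Iff.rfl)
theorem isFam_false : IsFam False A a ↔ (∀ n, a n ∈ ZZ ⊥ (A n)) ∧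
    (∀ n, a (n + 1) - a n ∈ BB ⊥ (A n)) ∧
    ∃ N : ℕ, ∀ (n : ℕ) (l : List Y), N < l.length → a n l = 0 :=
  and_congr (forall_congr' fun _ => cocycle_false)
    (and_congr (forall_congr' fun _ => cohom_false) Iff.rfl)
theorem famEq_true : FamEq True A a b ↔ ∀ n, a n - b n ∈ BB (cc (A n)) (A n) :=
  forall_congr' fun _ => cohom_true
theorem famEq_false : FamEq False A a b ↔ ∀ n, a n - b n ∈ BB ⊥ (A n) :=
  forall_congr' fun _ => cohom_false
theorem isFam_of_compact (h : ∀ n, IsCompact (A n)) : IsFam True A a ↔ IsFam False A a := by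
  rw [isFam_true, isFam_false]
  exact and_congr (forall_congr' fun n => by rw [ZZ_cc_eq_bot (h n)])
    (and_congr (forall_congr' fun n => by rw [BB_cc_eq_bot (h n)]) Iff.rfl)
theorem famEq_of_compact (h : ∀ n, IsCompact (A n)) : FamEq True A a b ↔ FamEq False A a b := by
  rw [famEq_true, famEq_false]
  exact forall_congr' fun n => by rw [BB_cc_eq_bot (h n)]
theorem FamEq.refl (c : Prop) (A : ℕ → Set Y) (a : Fam Y) : FamEq c A a a :=
  CBFam_famEq.2 fun n => by rw [sub_self]; exact zero_mem _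
theorem FamEq.symm (h : FamEq c A a b) : FamEq c A b a :=
  CBFam_famEq.2 fun n => by rw [← neg_sub]; exact neg_mem (CBFam_famEq.1 h n)
theorem FamEq.trans (h : FamEq c A a b) (h' : FamEq c A b b') : FamEq c A a b' :=
  CBFam_famEq.2 fun n => by
    rw [← sub_add_sub_cancel (a n) (b n) (b' n)]
    exact add_mem (CBFam_famEq.1 h n) (CBFam_famEq.1 h' n)
theorem FamEq.add (h : FamEq c A a b) (h' : FamEq c A a' b') : FamEq c A (a + a') (b + b') :=
  CBFam_famEq.2 fun n => by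
    rw [Pi.add_apply, Pi.add_apply, add_sub_add_comm]
    exact add_mem (CBFam_famEq.1 h n) (CBFam_famEq.1 h' n)
theorem FamEq.smul (z : ℂ) (h : FamEq c A a b) : FamEq c A (z • a) (z • b) :=
  CBFam_famEq.2 fun n => by
    rw [Pi.smul_apply, Pi.smul_apply, ← smul_sub]
    exact Submodule.smul_mem _ z (CBFam_famEq.1 h n)
theorem FamEq.sum {J : Type} (s : Finset J) {f g : J → Fam Y}
    (h : ∀ j ∈ s, FamEq c A (f j) (g j)) : FamEq c A (∑ j ∈ s, f j) (∑ j ∈ s, g j) :=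
  CBFam_famEq.2 fun n => by
    rw [Finset.sum_apply, Finset.sum_apply, ← Finset.sum_sub_distrib]
    exact sum_mem fun j hj => CBFam_famEq.1 (h j hj) n
theorem famEq_sub_zero : FamEq c A (a - b) 0 ↔ FamEq c A a b := by
  rw [CBFam_famEq, CBFam_famEq]
  exact forall_congr' fun n => by rw [Pi.sub_apply, Pi.zero_apply, sub_zero]
theorem FamEq.of_N0 (h : ∀ n, a n - b n ∈ N0 (A n)) : FamEq c A a b :=
  CBFam_famEq.2 fun n => N0_le_BB _ _ (h n)
theorem IsFam.zero (c : Prop) (A : ℕ → Set Y) : IsFam c A 0 :=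
  CBFam_isFam.2 ⟨fun _ => zero_mem _,
    fun n => by rw [Pi.zero_apply, Pi.zero_apply, sub_self]; exact zero_mem _, 0, fun _ _ _ => rfl⟩
theorem IsFam.add (h : IsFam c A a) (h' : IsFam c A b) : IsFam c A (a + b) := by
  obtain ⟨h1, h2, N, hN⟩ := CBFam_isFam.1 h
  obtain ⟨h1', h2', M, hM⟩ := CBFam_isFam.1 h'
  refine CBFam_isFam.2 ⟨fun n => add_mem (h1 n) (h1' n), fun n => ?_, N + M, fun n l hl => ?_⟩
  · rw [Pi.add_apply, Pi.add_apply, add_sub_add_comm]
    exact add_mem (h2 n) (h2' n)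
  · rw [Pi.add_apply, Pi.add_apply, hN n l (by omega), hM n l (by omega), add_zero]
theorem IsFam.sub (h : IsFam c A a) (h' : IsFam c A b) : IsFam c A (a - b) := by
  obtain ⟨h1, h2, N, hN⟩ := CBFam_isFam.1 h
  obtain ⟨h1', h2', M, hM⟩ := CBFam_isFam.1 h'
  refine CBFam_isFam.2 ⟨fun n => sub_mem (h1 n) (h1' n), fun n => ?_, N + M, fun n l hl => ?_⟩
  · rw [Pi.sub_apply, Pi.sub_apply, sub_sub_sub_comm]
    exact sub_mem (h2 n) (h2' n)
  · rw [Pi.sub_apply, Pi.sub_apply, hN n l (by omega), hM n l (by omega), sub_zero]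
theorem IsFam.smul (z : ℂ) (h : IsFam c A a) : IsFam c A (z • a) := by
  obtain ⟨h1, h2, N, hN⟩ := CBFam_isFam.1 h
  refine CBFam_isFam.2 ⟨fun n => Submodule.smul_mem _ z (h1 n), fun n => ?_, N, fun n l hl => ?_⟩
  · rw [Pi.smul_apply, Pi.smul_apply, ← smul_sub]
    exact Submodule.smul_mem _ z (h2 n)
  · rw [Pi.smul_apply, Pi.smul_apply, hN n l hl, smul_zero]
theorem IsFam.sum {J : Type} (s : Finset J) {f : J → Fam Y} (h : ∀ j ∈ s, IsFam c A (f j)) :
    IsFam c A (∑ j ∈ s, f j) :=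
  Finset.sum_induction f (IsFam c A) (fun _ _ => IsFam.add) (IsFam.zero c A) h
theorem IsFam.prF (h : IsFam c A a) (k : ℤ) : IsFam c A (prF k a) := by
  obtain ⟨h1, h2, N, hN⟩ := CBFam_isFam.1 h
  refine CBFam_isFam.2 ⟨fun n => prC_mem_ZZ k (h1 n), fun n => ?_, N, fun n l hl => ?_⟩
  · have h3 := prC_mem_BB k (h2 n)
    rwa [Basic_prC_sub] at h3
  · show (if (l.length : ℤ) = k + 1 then a n l else 0) = 0
    rw [hN n l hl, ite_self]
theorem FamEq.prF (h : FamEq c A a b) (k : ℤ) : FamEq c A (prF k a) (prF k b) :=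
  CBFam_famEq.2 fun n => by
    have h3 := prC_mem_BB k (CBFam_famEq.1 h n)
    rwa [Basic_prC_sub] at h3
omit [TopologicalSpace Y] in
theorem homog_iff {k : ℤ} : Homog k a ↔ ∀ n, HomC k (a n) := Iff.rfl
omit [TopologicalSpace Y] in
theorem homog_prF (k : ℤ) (a : Fam Y) : Homog k (prF k a) := fun n => HomC.prC k (a n)
theorem IsFam.eq_sum (h : IsFam c A a) : ∃ N : ℕ, a = ∑ k ∈ Finset.range N, Pool.Agent.HK.prF k a := by
  obtain ⟨h1, -, N, hN⟩ := CBFam_isFam.1 h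
  refine ⟨N, funext fun n => funext fun l => ?_⟩
  rw [Finset.sum_apply, Finset.sum_apply]
  by_cases h0 : a n l = 0
  · rw [h0]
    exact (Finset.sum_eq_zero fun k _ => by simp [Pool.Agent.HK.prF, Pool.Agent.HK.prC, h0]).symm
  · have h2 : l.length ≠ 0 := fun e => h0 (by rw [List.length_eq_zero_iff.1 e, (h1 n).1.1.1])
    have h3 : l.length ≤ N := not_lt.1 fun e => h0 (hN n l e)
    refine Eq.symm ((Finset.sum_eq_single (l.length - 1) (fun k _ hk => ?_) fun hk => ?_).trans ?_)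
    · exact if_neg (by omega)
    · exact absurd (Finset.mem_range.2 (by omega)) hk
    · exact if_pos (by omega)
theorem IsFam.cupF (h : IsFam False A a) (h' : IsFam False A b) : IsFam False A (cupF a b) := by
  obtain ⟨h1, h2, N, hN⟩ := isFam_false.1 h
  obtain ⟨h1', h2', M, hM⟩ := isFam_false.1 h'
  refine isFam_false.2 ⟨fun n => cup_mem_ZZ (h1 n) (h1' n), fun n => ?_, N + M, fun n l hl => ?_⟩
  · exact cup_congr (CBFam_ZZ_of_BB (h1 (n + 1)).1.1 (h1 n) (h2 n)) (h1 n)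
      (CBFam_ZZ_of_BB (h1' (n + 1)).1.1 (h1' n) (h2' n)) (h1' n) (h2 n) (h2' n)
  · show ∑ i ∈ Finset.range l.length, a n (l.take (i + 1)) * b n (l.drop i) = 0
    refine Finset.sum_eq_zero fun i hi => ?_
    have h3 := Finset.mem_range.1 hi
    by_cases h4 : N < i + 1
    · rw [hN n _ (by rw [List.length_take]; omega), zero_mul]
    · rw [hM n _ (by rw [List.length_drop]; omega), mul_zero]
theorem FamEq.cupF (h : IsFam False A a) (h₁ : IsFam False A a') (h' : IsFam False A b)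
    (h₁' : IsFam False A b') (e : FamEq False A a a') (e' : FamEq False A b b') :
    FamEq False A (cupF a b) (cupF a' b') :=
  famEq_false.2 fun n => cup_congr ((isFam_false.1 h).1 n) ((isFam_false.1 h₁).1 n)
    ((isFam_false.1 h').1 n) ((isFam_false.1 h₁').1 n) (famEq_false.1 e n) (famEq_false.1 e' n)
/-- Restriction to closed subsets. -/
theorem IsFam.restrict {B : ℕ → Set Y} (hB : ∀ n, ClosedIn (B n) (A n)) (h : IsFam c A a) :
    IsFam c B a := by
  obtain ⟨h1, h2, h3⟩ := CBFam_isFam.1 h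
  refine CBFam_isFam.2 ⟨fun n => ?_, fun n => ?_, h3⟩
  · have h4 := CBFam_pb_ZZ (hB n).properOn (h1 n)
    rwa [pb_id] at h4
  · have h4 := CBFam_pb_BB (hB n).properOn (h2 n)
    rwa [pb_id] at h4
theorem FamEq.restrict {B : ℕ → Set Y} (hB : ∀ n, ClosedIn (B n) (A n)) (h : FamEq c A a b) :
    FamEq c B a b :=
  CBFam_famEq.2 fun n => by
    have h4 := CBFam_pb_BB (hB n).properOn (CBFam_famEq.1 h n)
    rwa [pb_id] at h4
theorem IsFam.compat (hA : ∀ n, ClosedIn (A n) (A (n + 1))) (h : IsFam True A a) {n n' : ℕ}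
    (hn : n ≤ n') : a n' ∈ ZZ (cc (A n)) (A n) ∧ a n' - a n ∈ BB (cc (A n)) (A n) := by
  obtain ⟨h1, h2, -⟩ := isFam_true.1 h
  refine ⟨CBFam_res_ZZ (CBFam_closedIn hA hn) (h1 n'), ?_⟩
  induction n', hn using Nat.le_induction with
  | base => rw [sub_self]; exact zero_mem _
  | succ m hm ih =>
    rw [← sub_add_sub_cancel (a (m + 1)) (a m) (a n)]
    exact add_mem (CBFam_res_BB (CBFam_closedIn hA hm) (h2 m)) ih
/-- Compatible homogeneous classes come from a family. -/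
theorem exists_fam (hA : ∀ n, ClosedIn (A n) (A (n + 1))) (x : ∀ n, Hc (A n))
    (hx : ∀ n, res (A (n + 1)) (A n) (x (n + 1)) = x n) {k : ℤ}
    (hk : ∀ n, prH _ _ k (x n) = x n) :
    ∃ a, IsFam True A a ∧ Homog k a ∧ ∀ n, clc (A n) (a n) = x n := by
  choose u hu hh hc using fun n => exists_homC_of_prH (hk n)
  refine ⟨u, isFam_true.2 ⟨hu, fun n => ?_, (k + 1).toNat, fun n l hl => hh n l (by omega)⟩, hh, hc⟩
  refine (cls_eq_iff (CBFam_res_ZZ (hA n) (hu (n + 1))) (hu n)).1 ?_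
  rw [hc n, ← hx n, ← hc (n + 1)]
  exact (CBFam_res_clc (hA n) (hu (n + 1))).symm
theorem IsFam.res_clc (hA : ∀ n, ClosedIn (A n) (A (n + 1))) (h : IsFam True A a) (n : ℕ) :
    res (A (n + 1)) (A n) (clc _ (a (n + 1))) = clc _ (a n) := by
  obtain ⟨h1, h2, -⟩ := isFam_true.1 h
  rw [CBFam_res_clc (hA n) (h1 (n + 1))]
  exact (cls_eq_iff (CBFam_res_ZZ (hA n) (h1 (n + 1))) (h1 n)).2 (h2 n)
/-- Pull-back along levelwise proper maps. -/
theorem IsFam.pbF {A' : ℕ → Set Y'} {f : Y' → Y} (hf : ∀ n, ProperOn f (A' n) (A n))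
    (h : IsFam c A a) : IsFam c A' (pbF f a) := by
  obtain ⟨h1, h2, N, hN⟩ := CBFam_isFam.1 h
  exact CBFam_isFam.2 ⟨fun n => CBFam_pb_ZZ (hf n) (h1 n), fun n => CBFam_pb_BB (hf n) (h2 n), N,
    fun n l hl => hN n _ (by rwa [List.length_map])⟩
theorem FamEq.pbF {A' : ℕ → Set Y'} {f : Y' → Y} (hf : ∀ n, ProperOn f (A' n) (A n))
    (h : FamEq c A a b) : FamEq c A' (pbF f a) (pbF f b) :=
  CBFam_famEq.2 fun n => CBFam_pb_BB (hf n) (CBFam_famEq.1 h n)
theorem IsFam.pbF_bot {A' : ℕ → Set Y'} {f : Y' → Y} (hf : ∀ n, ContinuousOn f (A' n))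
    (hm : ∀ n, MapsTo f (A' n) (A n)) (h : IsFam False A a) :
    IsFam False A' (Pool.Agent.HK.pbF f a) := by
  obtain ⟨h1, h2, N, hN⟩ := isFam_false.1 h
  exact isFam_false.2 ⟨fun n => pb_mem_ZZ (hf n) (hm n) (h1 n),
    fun n => pb_mem_BB (hf n) (hm n) (h2 n), N, fun n l hl => hN n _ (by rwa [List.length_map])⟩
theorem FamEq.pbF_bot {A' : ℕ → Set Y'} {f : Y' → Y} (hf : ∀ n, ContinuousOn f (A' n))
    (hm : ∀ n, MapsTo f (A' n) (A n)) (h : FamEq False A a b) :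
    FamEq False A' (Pool.Agent.HK.pbF f a) (Pool.Agent.HK.pbF f b) :=
  famEq_false.2 fun n => pb_mem_BB (hf n) (hm n) (famEq_false.1 h n)

end Abstract

end Pool.Agent.HK
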