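import Pool.Agent.P.MP_1206ce_ag.CB.Th
import Pool.Agent.P.MP_1206ce_ag.CB.Fam
import Pool.Agent.P.MP_1206ce_ag.CB.Sets

/-! Thom classes of `N` and of the jet spaces. -/

open scoped Topology
open Filter Set

noncomputable section

namespace Pool.Agent.HK

theorem CBThom_N0 {Y : Type} [TopologicalSpace Y] {A : Set Y} {a b : Coch Y}
    (ha : a ∈ ZZ (cc A) A) (hb : Bdd b) (h : a - b ∈ N0 A) : b ∈ ZZ (cc A) A := by
  have h0 : Bdd (a - b) := by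
    rw [sub_eq_add_neg, ← neg_one_smul ℂ b]
    exact ha.1.1.add (hb.smul _)
  have h1 : a - b ∈ ZZ (cc A) A :=
    ⟨⟨h0, by rw [mem_N0.1 h, compl_empty]; exact univ_mem⟩, Gysin_N0_dd h⟩
  simpa using sub_mem ha h1

namespace Qv

variable {Q : Qv} {τ : Fam Q.YN} {ζ : ℂ}

theorem CBThom_ex (Q : Qv) :
    ∃ τ : Fam Q.YN, ∀ n, IsTh Q.KK Q.actN Q.NN (St Q.lab n) Q.coN (τ n) := by
  obtain ⟨ρ, hρ, he⟩ := Q.exists_isMod_N
  exact exists_isTh (fun _ _ h => h) Q.cd_N hρ he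

theorem CBThom_succ (τ : Fam Q.YN) (d n : ℕ) : Q.tauJ τ (d + 1) n =
    cup (Q.tauJ τ d n) (pb (bmap Q.KK Q.actN (fun s => s d) id) (τ n)) := rfl

theorem CBThom_homog (h : Homog (2 * (Q.dimN : ℤ)) τ) (d n : ℕ) :
    HomC (2 * (d : ℤ) * Q.dimN) (Q.tauJ τ d n) := by
  induction d with
  | zero =>
    rw [Nat.cast_zero, mul_zero, zero_mul]
    exact HomC.one
  | succ d ih =>
    have h1 := ih.cup (HomC.pb (bmap Q.KK Q.actN (fun s : ℕ → Q.Arr => s d) id : Q.YJ → Q.YN)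
      (homog_iff.1 h n))
    rw [CBThom_succ]
    convert h1 using 1
    push_cast
    ring

theorem CBThom_card (Q : Qv) (d : ℕ) :
    2 * (Fintype.card ↥(Q.WI ×ˢ Finset.range d) : ℤ) = 2 * (d : ℤ) * Q.dimN := by
  rw [← Q.card_WI, Fintype.card_coe, Fintype.card_coe, Finset.card_product, Finset.card_range]
  push_cast
  ring

theorem CBThom_trunc (τ : Fam Q.YN) (d n : ℕ) (E : Set (Fr Q.Var)) {i : ℕ} (hi : i ≤ d) :
    pb (bmap Q.KK Q.actJ (fun s i => if i < d then s i else 0) id : Q.YJ → Q.YJ) (Q.tauJ τ i n) -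
      Q.tauJ τ i n ∈ N0 (BS Q.KK Q.actJ (Q.Jet (d + 1)) E) := by
  induction i with
  | zero =>
    have h1 : Q.tauJ τ 0 n = one := rfl
    rw [h1, pb_one, sub_self]
    exact zero_mem _
  | succ i ih =>
    have h1 := (Q.em_truncJ d).pb_pb (Q.em_evJ d i) E (τ n)
    have h2 : ((fun s : ℕ → Q.Arr => s i) ∘ fun (s : ℕ → Q.Arr) (i : ℕ) =>
        if i < d then s i else 0) = fun s => s i := funext fun s => if_pos hi
    rw [h2] at h1
    rw [CBThom_succ, pb_cup, ← sub_add_sub_cancel _ (cup (Q.tauJ τ i n) (pb (bmap Q.KK Q.actJ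
      (fun s i => if i < d then s i else 0) id : Q.YJ → Q.YJ)
      (pb (bmap Q.KK Q.actN (fun s => s i) id) (τ n)))), ← sub_cup, ← cup_sub]
    exact add_mem (Basic_N0_cup_left (ih (Nat.le_of_succ_le hi)) _) (Basic_N0_cup_right _ h1)

theorem exists_thom' (Q : Qv) : ∃ τ, Q.IsThom τ := by
  obtain ⟨τ, hτ⟩ := CBThom_ex Q
  refine ⟨τ, IsTh.isFam Q.cd_N hτ, homog_iff.2 fun n => Q.card_WI ▸ (hτ n).hom,
    fun n e he h => ?_⟩
  have h1 := Q.cd_N.isGenOn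
  refine h1.2.1 ((cls_eq_zero_iff h1.1).2 ?_)
  have h2 := Line_trans (Line_symm ((hτ n).fibre e he)) (cohom_true.1 h)
  rwa [sub_zero] at h2
theorem exists_thomZ (h : Q.IsThom τ) : ∃ ζ, Q.ThomZ τ ζ := by
  obtain ⟨τ₀, h₀⟩ := CBThom_ex Q
  obtain ⟨ζ, hζ⟩ := exists_scalar Q.cd_N h₀ h.1 (by rw [Q.card_WI]; exact h.2.1)
  have hne : ζ ≠ 0 := by
    rintro rfl
    obtain ⟨e, he⟩ := St_nonempty Q.lab (le_refl (Fintype.card Q.Var))
    have h1 := famEq_true.1 hζ (Fintype.card Q.Var)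
    rw [zero_smul, Pi.zero_apply, sub_zero] at h1
    refine h.2.2 _ e he (cohom_true.2 ?_)
    rw [sub_zero]
    exact pb_mem_BB_cc ((frOK_St Q.lab _).proper_fib Q.isAct_N subset_rfl Q.invX_NN he) h1
  refine ⟨ζ, hne, h.1, h.2.1, fun n => IsTh.congr Q.cd_N (frOK_St Q.lab n) (h₀ n)
    (Submodule.smul_mem _ _ ((isFam_true.1 h.1).1 n)) ?_ ?_⟩
  · rw [Q.card_WI]
    exact (homog_iff.1 h.2.1 n).smul _
  · have h1 := Submodule.smul_mem _ ζ⁻¹ (famEq_true.1 hζ n)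
    rw [smul_sub, Pi.smul_apply, smul_smul, inv_mul_cancel₀ hne, one_smul] at h1
    exact Line_symm h1
theorem ThomZ.thJ (h : Q.ThomZ τ ζ) (d n : ℕ) :
    IsTh Q.KK Q.actJ (Q.Jet d) (St Q.lab n) (Q.coJ d) ((ζ ^ d)⁻¹ • Q.tauJ τ d n) := by
  induction d with
  | zero =>
    have h1 : Q.tauJ τ 0 n = one := rfl
    have h2 : IsCompact (Q.Jet 0) := Set.Subsingleton.isCompact fun s hs s' hs' =>
      funext fun i => (hs.2 i (Nat.zero_le i)).trans (hs'.2 i (Nat.zero_le i)).symm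
    have h3 : IsEmpty ↥(Q.WI ×ˢ Finset.range 0) :=
      ⟨fun q => absurd (Finset.mem_range.1 (Finset.mem_product.1 q.2).2) (Nat.not_lt_zero _)⟩
    have h4 : genC ↥(Q.WI ×ˢ Finset.range 0) = one := by
      rw [genC, Finset.univ_eq_empty, Finset.toList_empty]
      rfl
    rw [h1, pow_zero, inv_one, one_smul]
    refine ⟨?_, ?_, fun e _ => ?_⟩
    · rw [ZZ_cc_eq_bot (isCompact_BS (isCompact_St Q.lab n) h2)]
      exact one_mem_ZZ _
    · rw [Fintype.card_eq_zero, Nat.cast_zero, mul_zero]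
      exact HomC.one
    · rw [h4, pb_one, pb_one, sub_self]
      exact zero_mem _
  | succ d ih =>
    obtain ⟨g, hg⟩ := Q.homeo_Jet d
    obtain ⟨A, hA⟩ := Q.exists_coJ_succ d
    obtain ⟨c1, t1⟩ := IsTh.prod (Q.em_truncJ d) (Q.em_evJ (d + 1) d) hg (frOK_St Q.lab n)
      (Q.cd_J d) Q.cd_N ih (h.th n)
    obtain ⟨c2, t2⟩ := IsTh.change c1 t1 A fun s _ => hA s
    have hk : HomC (2 * (Fintype.card ↥(Q.WI ×ˢ Finset.range (d + 1)) : ℤ))
        ((ζ ^ (d + 1))⁻¹ • Q.tauJ τ (d + 1) n) := by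
      rw [CBThom_card]
      exact (CBThom_homog h.hom (d + 1) n).smul _
    have h1 := Submodule.smul_mem _ (ζ ^ (d + 1))⁻¹ (Basic_N0_cup_left
      (CBThom_trunc τ d n (St Q.lab n) le_rfl)
      (pb (bmap Q.KK Q.actN (fun s : ℕ → Q.Arr => s d) id : Q.YJ → Q.YN) (τ n)))
    rw [sub_cup, smul_sub, ← CBThom_succ] at h1
    rw [pb_smul, pb_smul, smul_cup, cup_smul, smul_smul, ← mul_inv, ← pow_succ] at t2
    exact IsTh.congr c2 (frOK_St Q.lab n) t2 (CBThom_N0 t2.mem (hk.bdd (by positivity)) h1) hk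
      (N0_le_BB _ _ h1)
theorem ThomZ.isFam_tauJ (h : Q.ThomZ τ ζ) (d : ℕ) :
    IsFam True (BL Q.KK Q.actJ (Q.Jet d) Q.lab) (Q.tauJ τ d) := by
  have h1 := (IsTh.isFam (τ := fun n => (ζ ^ d)⁻¹ • Q.tauJ τ d n) (Q.cd_J d)
    fun n => h.thJ d n).smul (ζ ^ d)
  convert h1 using 1
  funext n
  rw [Pi.smul_apply, smul_smul, mul_inv_cancel₀ (pow_ne_zero d h.ne), one_smul]
theorem ThomZ.homog_tauJ (h : Q.ThomZ τ ζ) (d : ℕ) :
    Homog (2 * (d : ℤ) * Q.dimN) (Q.tauJ τ d) := homog_iff.2 (CBThom_homog h.hom d)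
/-- The Thom class of `N` restricted to the torus. -/
theorem ThomZ.tRel_N (h : Q.ThomZ τ ζ) :
    IsFam True (BL (TT Q.Var) Q.actN Q.NN Q.lab) (ζ⁻¹ • pbF (bmap Q.KK Q.actN id id) τ) ∧
    TRel Q.actN Q.NN Q.lab Q.coN (fun p => Q.chP p.1)
      (ζ⁻¹ • pbF (bmap Q.KK Q.actN id id) τ) 1 := by
  have hg := isGrp_KG (id : Q.Var → Q.Var)
  have hc := Q.cd_N.mono hg (TT_subset Q.lab)
  have hem : EM Q.lab (TT Q.Var) Q.actN Q.NN Q.KK Q.actN Q.NN id :=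
    EM.of_subset Q.isAct_N hg (TT_subset Q.lab) subset_rfl hc.inv Q.invX_NN subset_rfl
  have hh : HomeoOn id id Q.NN Q.NN := ⟨continuousOn_id, continuousOn_id, mapsTo_id _,
    mapsTo_id _, fun _ _ => rfl, fun _ _ => rfl⟩
  have ht : ∀ n, IsTh (TT Q.Var) Q.actN Q.NN (St Q.lab n) Q.coN
      ((ζ⁻¹ • pbF (bmap Q.KK Q.actN id id) τ : Fam (Bor (TT Q.Var) Q.actN)) n) := fun n =>
    IsTh.pb hem hh (frOK_St Q.lab n) (h.th n)
  refine ⟨IsTh.isFam hc ht, fun n => ?_⟩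
  have h1 := isTh_tauT hc (frOK_St Q.lab n) Q.isCoord_N
  rw [polyX_one, one_cup h1.mem.1.1.1]
  exact IsTh.unique hc (frOK_St Q.lab n) (ht n) h1 (LinearEquiv.refl ℂ _) fun _ _ => rfl
/-- The Thom class of the fibre over the constant loop. -/
theorem ThomZ.th_UL_zero (h : Q.ThomZ τ ζ) (d n : ℕ) :
    IsTh Q.KK Q.actR (Q.UL 0 d) (St Q.lab n) (Q.coP (Q.PU 0 d))
      ((ζ ^ d)⁻¹ • pb (bmap Q.KK Q.actJ Prod.snd id) (Q.tauJ τ d n)) := by
  obtain ⟨g, hg⟩ := Q.homeo_snd_UL d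
  rw [Q.PU_zero d]
  exact IsTh.pb (Q.em_snd_UL d) hg (frOK_St Q.lab n) (h.thJ d n)

end Qv

end Pool.Agent.HK
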