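import Pool.Agent.P.MP_1206ce_ag.CB.EM

/-! The equivariant cohomology of a point as a ring of invariant polynomials. -/

open scoped Topology
open Filter Set

noncomputable section

namespace Pool.Agent.HK

variable {V V' Λ Λ' : Type} [Fintype V] [DecidableEq V] [Fintype V'] [DecidableEq V']
  {lab : V → Λ} {u v : Fam (Bor (KG lab) (ptAct (V := V)))} {h : MvPolynomial V ℂ}

omit [Fintype V] [DecidableEq V] in
theorem CBVal_refl (lab : V → Λ) : Refines lab lab := fun _ _ h => h

theorem CBVal_of_Inj (he : ∀ n, u n - v n ∈ BB ⊥ (BS (KG lab) ptAct univ (Inj lab n))) :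
    FamEq False (BL (KG lab) ptAct univ lab) u v := by
  refine famEq_false.2 fun n => VB_BB_mono ?_ (he n)
  rintro _ ⟨x, hx, e, h1, rfl⟩
  exact ⟨x, hx, e, St_subset_Inj lab n h1, rfl⟩

theorem CBVal_spec (H : ∃ p ∈ Rinv lab, FamEq False (BL (KG lab) ptAct univ lab) u (chC lab p)) :
    FamEq False (BL (KG lab) ptAct univ lab) u (chC lab (val lab u)) := by
  rw [val, dif_pos H]
  exact (Classical.choose_spec H).2

theorem val_mem (lab : V → Λ) (u : Fam (Bor (KG lab) (ptAct (V := V)))) : val lab u ∈ Rinv lab := by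
  rw [val]
  split_ifs with H
  · exact (Classical.choose_spec H).1
  · exact zero_mem _
theorem val_spec (hu : IsFam False (BL (KG lab) ptAct univ lab) u) :
    FamEq False (BL (KG lab) ptAct univ lab) u (chC lab (val lab u)) := by
  obtain ⟨p, hp, he, -⟩ := fam_ch_surj (CBVal_refl lab) hu
  exact CBVal_spec ⟨p, hp, he⟩
theorem val_eq (hh : h ∈ Rinv lab) (he : FamEq False (BL (KG lab) ptAct univ lab) u (chC lab h)) :
    val lab u = h :=
  fam_ch_inj (CBVal_refl lab) (val_mem lab u) hh ((CBVal_spec ⟨h, hh, he⟩).symm.trans he)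
theorem val_chC (hh : h ∈ Rinv lab) : val lab (chC lab h) = h :=
  val_eq hh (FamEq.refl _ _ _)
theorem val_congr (he : FamEq False (BL (KG lab) ptAct univ lab) u v) : val lab u = val lab v := by
  by_cases H : ∃ p ∈ Rinv lab, FamEq False (BL (KG lab) ptAct univ lab) u (chC lab p)
  · obtain ⟨p, hp, h1⟩ := H
    rw [val_eq hp h1, val_eq hp (he.symm.trans h1)]
  · rw [val, val, dif_neg H, dif_neg]
    rintro ⟨p, hp, h1⟩
    exact H ⟨p, hp, he.trans h1⟩
theorem famEq_iff_val (hu : IsFam False (BL (KG lab) ptAct univ lab) u)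
    (hv : IsFam False (BL (KG lab) ptAct univ lab) v) :
    FamEq False (BL (KG lab) ptAct univ lab) u v ↔ val lab u = val lab v := by
  refine ⟨val_congr, fun h => (val_spec hu).trans ?_⟩
  rw [h]
  exact (val_spec hv).symm
theorem val_zero (lab : V → Λ) : val lab 0 = 0 := by
  refine val_eq (zero_mem _) ?_
  rw [show chC lab 0 = 0 from funext (chC_zero lab)]
  exact FamEq.refl _ _ _
theorem val_add (hu : IsFam False (BL (KG lab) ptAct univ lab) u)
    (hv : IsFam False (BL (KG lab) ptAct univ lab) v) : val lab (u + v) = val lab u + val lab v :=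
  val_eq (add_mem (val_mem lab u) (val_mem lab v)) (((val_spec hu).add (val_spec hv)).trans
    (CBVal_of_Inj fun n => chC_add (val_mem lab u) (val_mem lab v) n).symm)
theorem val_smul (z : ℂ) (hu : IsFam False (BL (KG lab) ptAct univ lab) u) :
    val lab (z • u) = z • val lab u :=
  val_eq (Subalgebra.smul_mem _ (val_mem lab u) z) (((val_spec hu).smul z).trans
    (CBVal_of_Inj fun n => chC_smul z (val_mem lab u) n).symm)
theorem val_sum {J : Type} (s : Finset J) {f : J → Fam (Bor (KG lab) (ptAct (V := V)))}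
    (hf : ∀ j ∈ s, IsFam False (BL (KG lab) ptAct univ lab) (f j)) :
    val lab (∑ j ∈ s, f j) = ∑ j ∈ s, val lab (f j) := by
  classical
  induction s using Finset.induction_on with
  | empty => rw [Finset.sum_empty, Finset.sum_empty, val_zero]
  | insert j s hj ih =>
    have h1 := fun i hi => hf i (Finset.mem_insert_of_mem hi)
    rw [Finset.sum_insert hj, Finset.sum_insert hj,
      val_add (hf j (Finset.mem_insert_self j s)) (IsFam.sum s h1), ih h1]
theorem val_cupF (hu : IsFam False (BL (KG lab) ptAct univ lab) u)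
    (hv : IsFam False (BL (KG lab) ptAct univ lab) v) :
    val lab (cupF u v) = val lab u * val lab v :=
  val_eq (mul_mem (val_mem lab u) (val_mem lab v))
    ((FamEq.cupF hu (isFam_chC (CBVal_refl lab) (val_mem lab u)) hv
      (isFam_chC (CBVal_refl lab) (val_mem lab v)) (val_spec hu) (val_spec hv)).trans
      (CBVal_of_Inj fun n => chC_mul (val_mem lab u) (val_mem lab v) n).symm)
/-- Degrees: `b` need not be a cocycle. -/
theorem val_hom (hu : IsFam False (BL (KG lab) ptAct univ lab) u) {k : ℤ}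
    (hk : ∃ b, Homog k b ∧ FamEq False (BL (KG lab) ptAct univ lab) u b) :
    val lab u = 0 ∨ ∃ d : ℕ, k = 2 * (d : ℤ) ∧ (val lab u).IsHomogeneous d := by
  obtain ⟨b, hb, he⟩ := hk
  have h1 := he.prF k
  rw [show prF k b = b from funext fun n => (homog_iff.1 hb n).prC_self] at h1
  obtain ⟨p, hp, h2, h3⟩ := fam_ch_surj (CBVal_refl lab) (hu.prF k)
  rw [val_eq hp ((he.trans h1.symm).trans h2)]
  exact h3 k (homog_prF k u)
/-- Restriction to a union of blocks. -/
theorem val_restr {lab' : V' → Λ'} {ι : V' → V} (hι : Function.Injective ι)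
    (hl : ∀ k l, lab (ι k) = lab (ι l) ↔ lab' k = lab' l)
    (hs : ∀ k x, lab x = lab (ι k) → x ∈ Set.range ι) {w : Fam (Bor (KG lab') (ptAct (V := V')))}
    (hw : IsFam False (BL (KG lab') ptAct univ lab') w) {p : MvPolynomial V' ℂ} (hp : p ∈ Rinv lab')
    (he : FamEq False (BL (KG lab') ptAct univ lab') w (chC lab' p)) :
    IsFam False (BL (KG lab) ptAct univ lab)
      (pbF (bmap (KG lab') ptAct id fun e j k => e j (ι k)) w) ∧
    val lab (pbF (bmap (KG lab') ptAct id fun e j k => e j (ι k)) w) = MvPolynomial.rename ι p := by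
  have H := chC_restr hι hl hs hp
  have hm : ∀ n, MapsTo (bmap (KG lab') ptAct (fun _ => ()) (fun e j k => e j (ι k)) :
      Bor (KG lab) (ptAct (V := V)) → Bor (KG lab') (ptAct (V := V')))
      (BL (KG lab) ptAct univ lab n) (BL (KG lab') ptAct univ lab' n) := by
    rintro n _ ⟨x, -, e, h1, rfl⟩
    rw [(H n).2.1 e]
    refine ⟨(), mem_univ _, _, ⟨fun j hj => ?_, fun k l hkl => ?_⟩, rfl⟩
    · rw [h1.1 j hj]
      rfl
    · rw [h1.2 _ _ ((hl k l).2 hkl)]
      simp only [hι.eq_iff]
  exact ⟨IsFam.pbF_bot (fun n => (H n).1.continuousOn) hm hw,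
    val_eq (rename_mem_Rinv hι (fun k l => (hl k l).1) hs hp)
      ((FamEq.pbF_bot (fun n => (H n).1.continuousOn) hm he).trans
        (CBVal_of_Inj fun n => (H n).2.2))⟩
/-- The pull-back of a class of the point to a torus quotient. -/
theorem pb_toPt_val {X : Type} [TopologicalSpace X] {act : Matrix V V ℂ → X → X}
    (ha : IsAct (TT V) act) (S : Set X) (hu : IsFam False (BL (KG lab) ptAct univ lab) u) (n : ℕ) :
    pb (bmap (KG lab) ptAct (fun _ => ()) id : Bor (TT V) act → _) (u n) ∈
      ZZ ⊥ (BS (TT V) act S (St lab n)) ∧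
    pb (bmap (KG lab) ptAct (fun _ => ()) id : Bor (TT V) act → _) (u n) -
      polyX (TT V) act (val lab u) ∈ BB ⊥ (BS (TT V) act S (St lab n)) := by
  have hc := (ha.continuous_toPt (TT_subset lab)).continuousOn (s := BI (TT V) act (S ×ˢ St lab n))
  have hm := ha.mapsTo_toPt (TT_subset lab) (P := S ×ˢ St lab n) fun p hp => hp.2
  rw [BS_eq]
  refine ⟨pb_mem_ZZ hc hm ((isFam_false.1 hu).1 n), ?_⟩
  have h1 := pb_mem_BB hc hm (famEq_false.1 (val_spec hu) n)
  have h2 := chX_sub_polyX ha subset_rfl (P := S ×ˢ St lab n)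
    (fun p hp => St_subset_Inj lab n hp.2) (val_mem lab u)
  have h3 := add_mem h1 h2
  rwa [pb_sub, chX, sub_add_sub_cancel] at h3

end Pool.Agent.HK
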