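import Pool.Agent.P.MP_1206ce_ag.CB.Tr
import Pool.Agent.P.MP_1206ce_ag.CB.Val
import Pool.Agent.P.MP_1206ce_ag.CB.Sets
import Pool.Agent.P.MP_1206ce_ag.CB.Thom

/-! The evaluation maps at the torus fixed points. -/

open scoped Topology
open Filter Set

noncomputable section

namespace Pool.Agent.HK

namespace Qv

variable {Q : Qv} {τ : Fam Q.YN} {ζ : ℂ} {l : Q.Lam} {m d : ℕ} {S : Set Q.Tr} {a b : Fam Q.YR}

theorem CBEv_cup_N0 {Y : Type} [TopologicalSpace Y] {A : Set Y} {x x' y y' : Coch Y}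
    (h : x - x' ∈ N0 A) (h' : y - y' ∈ N0 A) : cup x y - cup x' y' ∈ N0 A := by
  have e : cup x y - cup x' y' = cup (x - x') y + cup x' (y - y') := by
    rw [sub_cup, cup_sub]
    abel
  rw [e]
  exact add_mem (Basic_N0_cup_left h y) (Basic_N0_cup_right x' h')

theorem CBEv_N0_sq {Y : Type} [TopologicalSpace Y] {A : Set Y} {x x' y : Coch Y}
    (h : x - y ∈ N0 A) (h' : x' - y ∈ N0 A) : x - x' ∈ N0 A := by
  have := sub_mem h h'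
  rwa [sub_sub_sub_cancel_right] at this

theorem CBEv_em (hS : InvX Q.KK Q.actR S) (hU : Q.UL l d ⊆ S) :
    EM Q.lab (TT Q.Var) Q.actR (Q.UL l d) Q.KK Q.actR S id :=
  EM.of_subset Q.isAct_R (isGrp_KG id) (TT_subset Q.lab) subset_rfl (Q.invX_UL l d) hS hU

theorem CBEv_prop (hU : Q.UL l d ⊆ S) : ProperOn id (Q.UL l d) S :=
  ClosedIn.properOn ⟨_, Q.isClosed_UL l d, (inter_eq_right.2 hU).symm⟩

theorem isFam_toK (hS : InvX Q.KK Q.actR S) (hU : Q.UL l d ⊆ S) (ha : IsFam True (Q.BR S) a) :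
    IsFam True (BL (TT Q.Var) Q.actR (Q.UL l d) Q.lab) (pbF Q.toK a) :=
  (CBEv_em hS hU).isFam (CBEv_prop hU) ha

theorem ev_eq {p : Q.Pol} (h : Q.EvRel ζ l d a p) : Q.ev ζ l d a = p := by
  have H : ∃ p, Q.EvRel ζ l d a p := ⟨p, h⟩
  unfold ev
  rw [dif_pos H]
  exact TRel.unique (Q.cd_UL l d) (Q.isCoord_P _ _) (Classical.choose_spec H) h

theorem ev_spec (hS : InvX Q.KK Q.actR S) (hU : Q.UL l d ⊆ S) (ha : IsFam True (Q.BR S) a)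
    (ζ : ℂ) : Q.EvRel ζ l d a (Q.ev ζ l d a) := by
  obtain ⟨p, hp, -⟩ := exists_tRel (Q.cd_UL l d) (Q.isCoord_P _ (Q.PU l d))
    ((isFam_toK hS hU ha).smul (ζ ^ d)⁻¹)
  have hp' : Q.EvRel ζ l d a p := hp
  rw [ev_eq hp']
  exact hp'

theorem ev_congr (hS : InvX Q.KK Q.actR S) (hU : Q.UL l d ⊆ S) (h : FamEq True (Q.BR S) a b)
    (ζ : ℂ) : Q.ev ζ l d a = Q.ev ζ l d b := by
  have he := ((CBEv_em hS hU).famEq (CBEv_prop hU) h).smul (ζ ^ d)⁻¹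
  by_cases H : ∃ p, Q.EvRel ζ l d a p
  · obtain ⟨p, hp⟩ := H
    have hp' : Q.EvRel ζ l d b p := TRel.congr hp he
    rw [ev_eq hp, ev_eq hp']
  · have H' : ¬∃ p, Q.EvRel ζ l d b p := fun ⟨p, hp⟩ => H ⟨p, TRel.congr hp he.symm⟩
    unfold ev
    rw [dif_neg H, dif_neg H']

theorem ev_zero (Q : Qv) (ζ : ℂ) (l : Q.Lam) (d : ℕ) : Q.ev ζ l d 0 = 0 := by
  apply ev_eq
  have e : (ζ ^ d)⁻¹ • pbF Q.toK (0 : Fam Q.YR) = 0 := smul_zero _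
  unfold EvRel
  rw [e]
  exact TRel.zero

theorem ev_add (hS : InvX Q.KK Q.actR S) (hU : Q.UL l d ⊆ S) (ha : IsFam True (Q.BR S) a)
    (hb : IsFam True (Q.BR S) b) (ζ : ℂ) :
    Q.ev ζ l d (a + b) = Q.ev ζ l d a + Q.ev ζ l d b := by
  apply ev_eq
  have e : (ζ ^ d)⁻¹ • pbF Q.toK (a + b) =
      (ζ ^ d)⁻¹ • pbF Q.toK a + (ζ ^ d)⁻¹ • pbF Q.toK b := by
    rw [← smul_add]
    rfl
  unfold EvRel
  rw [e]
  exact TRel.add (ev_spec hS hU ha ζ) (ev_spec hS hU hb ζ)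

theorem ev_smul (hS : InvX Q.KK Q.actR S) (hU : Q.UL l d ⊆ S) (ha : IsFam True (Q.BR S) a)
    (ζ z : ℂ) : Q.ev ζ l d (z • a) = z • Q.ev ζ l d a := by
  apply ev_eq
  have e : (ζ ^ d)⁻¹ • pbF Q.toK (z • a) = z • (ζ ^ d)⁻¹ • pbF Q.toK a := by
    rw [smul_comm]
    rfl
  unfold EvRel
  rw [e]
  exact TRel.smul z (ev_spec hS hU ha ζ)

theorem ev_mul (hS : InvX Q.KK Q.actR S) (hU : Q.UL l d ⊆ S) (ha : IsFam True (Q.BR S) a)
    {u : Fam Q.YK} (hu : IsFam False Q.BK u) (ζ : ℂ) :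
    Q.ev ζ l d (cupF (pbF Q.toPt u) a) = val Q.lab u * Q.ev ζ l d a := by
  apply ev_eq
  have r := TRel.mul (Q.cd_UL l d) (Q.isCoord_P _ (Q.PU l d))
    ((isFam_toK hS hU ha).smul (ζ ^ d)⁻¹) (ev_spec hS hU ha ζ)
    (v := pbF (bmap Q.KK ptAct (fun _ => ()) id) u)
    fun n => pb_toPt_val Q.isAct_RT (Q.UL l d) hu n
  refine TRel.congr r (FamEq.of_N0 fun n => ?_)
  have h1 := (CBEv_em hS hU).pb_pb
    (EM.toPt Q.isAct_R (isGrp_KG Q.lab) subset_rfl subset_rfl hS) (St Q.lab n) (u n)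
  have h2 := CBEv_cup_N0 (y := pb Q.toK (a n)) (y' := pb Q.toK (a n)) (neg_mem h1 |> fun h => by
    rw [neg_sub] at h
    exact h) (by rw [sub_self]; exact zero_mem _)
  have h3 := Submodule.smul_mem _ (ζ ^ d)⁻¹ h2
  rw [smul_sub, ← cup_smul, ← pb_cup] at h3
  exact h3

theorem ev_wl (hS : InvX Q.KK Q.actR S) (hU : Q.UL l d ⊆ S) (ha : IsFam True (Q.BR S) a)
    {w : Equiv.Perm Q.Var} (hw : w ∈ Wl Q.lab) (ζ : ℂ) :
    Q.ev ζ (Q.wl w l) d a = MvPolynomial.rename w (Q.ev ζ l d a) := by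
  obtain ⟨A, hA⟩ := Q.exists_coP_wl hw l d
  have hU' : Q.UL (Q.wl w l) d ⊆ S := by
    rw [← Q.image_UL hw l d]
    rintro _ ⟨x, hx, rfl⟩
    exact hS _ (pmat_mem_KG hw) _ (hU hx)
  have r := TRel.wmap Q.isAct_R hw (Q.cd_UL l d) (Q.isCoord_P _ (Q.PU l d)) (Q.image_UL hw l d)
    (Q.cd_UL (Q.wl w l) d) (Q.isCoord_P _ _) A (fun x _ => hA x) (ev_spec hS hU' ha ζ)
  have e : pbF (wmap Q.actR w) ((ζ ^ d)⁻¹ • pbF Q.toK a) = (ζ ^ d)⁻¹ • pbF Q.toK a := by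
    funext n
    change (ζ ^ d)⁻¹ • pb (wmap Q.actR w) (pb Q.toK (a n)) = (ζ ^ d)⁻¹ • pb Q.toK (a n)
    rw [pb_pb, toK_wmap Q.isAct_R hw]
  rw [e] at r
  have r' : Q.EvRel ζ l d a _ := r
  rw [ev_eq r', MvPolynomial.rename_rename, Equiv.self_comp_symm, MvPolynomial.rename_id]
  rfl

theorem ev_hom (hS : InvX Q.KK Q.actR S) (hU : Q.UL l d ⊆ S) (ha : IsFam True (Q.BR S) a)
    {k : ℤ} (hk : Homog k a) (ζ : ℂ) : Q.ev ζ l d a = 0 ∨ ∃ e : ℕ,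
      k = 2 * (e : ℤ) + 2 * ((Q.PU l d).card : ℤ) ∧ (Q.ev ζ l d a).IsHomogeneous e := by
  obtain ⟨p, hp, hh⟩ := exists_tRel (Q.cd_UL l d) (Q.isCoord_P _ (Q.PU l d))
    ((isFam_toK hS hU ha).smul (ζ ^ d)⁻¹)
  have hp' : Q.EvRel ζ l d a p := hp
  have h1 := hh k (homog_iff.2 fun n => ((homog_iff.1 hk n).pb Q.toK).smul _)
  rw [Fintype.card_coe] at h1
  rw [ev_eq hp']
  exact h1

theorem ev_of_supp (hS : InvX Q.KK Q.actR S) (hU : Q.UL l d ⊆ S) {O : Set Q.Tr}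
    (hO : InvX Q.KK Q.actR O) (hd : Disjoint (Q.UL l d) O)
    (hs : ∀ n, supp (Q.BR S n) (a n) ⊆ Q.BR O n) (ζ : ℂ) : Q.ev ζ l d a = 0 := by
  apply ev_eq
  have em := CBEv_em hS hU
  refine TRel.congr TRel.zero (FamEq.of_N0 fun n => ?_)
  have h1 : pb Q.toK (a n) ∈ N0 (BS (TT Q.Var) Q.actR (Q.UL l d) (St Q.lab n)) := by
    refine eq_empty_of_forall_notMem fun y hy => ?_
    have h2 := hs n (supp_pb (em.contOn (frOK_St Q.lab n)) (em.mapsTo _) (a n) hy)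
    obtain ⟨x, hx, e, -, rfl⟩ := hy.1
    rw [em.bmap_bmk hx] at h2
    exact disjoint_left.1 hd hx (((frOK_St Q.lab n).mem_BS Q.isAct_R subset_rfl hO).1 h2).1
  rw [Pi.zero_apply, zero_sub]
  exact neg_mem (Submodule.smul_mem _ _ h1)

theorem isFam_thF (h : Q.ThomZ τ ζ) (hd : 2 * m ≤ d) (ha : IsFam True (Q.BR (Q.RR m d)) a) :
    IsFam True (Q.BR (Q.RR m (d + 1))) (Q.thF τ d a) := by
  obtain ⟨g, hg⟩ := Q.homeo_trunc hd
  exact xp_isFam (Q.em_trunc hd) (Q.em_top m d) hg.properOn ha h.fam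

theorem ev_thF (h : Q.ThomZ τ ζ) (hd : 2 * m ≤ d) (hl : l ∈ Q.Box m)
    (ha : IsFam True (Q.BR (Q.RR m d)) a) :
    Q.ev ζ l (d + 1) (Q.thF τ d a) = Q.ev ζ l d a := by
  apply ev_eq
  have hU := Q.UL_subset_RR hl d
  have hU' := Q.UL_subset_RR hl (d + 1)
  obtain ⟨g, hg⟩ := Q.homeo_trunc_UL hl hd
  obtain ⟨A, hA⟩ := Q.exists_coP_succ hl hd
  have hT : TT Q.Var ⊆ Q.KK := TT_subset Q.lab
  have hN : InvX (TT Q.Var) Q.actN Q.NN := fun u hu => Q.invX_NN u (hT hu)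
  have h₁ : EM Q.lab (TT Q.Var) Q.actR (Q.UL l (d + 1)) (TT Q.Var) Q.actR (Q.UL l d)
      (Q.trunc d) :=
    ⟨Q.isAct_RT, Q.isAct_RT, subset_rfl, hT, Q.invX_UL _ _, Q.invX_UL _ _,
      fun u hu x hx => (Q.em_trunc hd).eqv u (hT hu) x (hU' hx), (Q.em_trunc hd).cont.mono hU',
      fun x hx => (hg.2.2.1 hx).1⟩
  have h₂ : EM Q.lab (TT Q.Var) Q.actR (Q.UL l (d + 1)) (TT Q.Var) Q.actN Q.NN fun p => p.2 d :=
    ⟨Q.isAct_RT, Q.isAct_NT, subset_rfl, hT, Q.invX_UL _ _, hN,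
      fun u hu x hx => (Q.em_top m d).eqv u (hT hu) x (hU' hx), (Q.em_top m d).cont.mono hU',
      fun x hx => (hg.2.2.1 hx).2⟩
  have r := TRel.xp (Q.cd_UL l (d + 1)) (Q.isCoord_P _ (Q.PU l (d + 1))) h₁ h₂ hg (Q.cd_UL l d)
    (Q.isCoord_P _ _) (Q.cd_N.mono (isGrp_KG id) hT) Q.isCoord_N A (fun x _ => hA x)
    ((isFam_toK (Q.invX_RR m d) hU ha).smul (ζ ^ d)⁻¹) h.tRel_N.1
    (ev_spec (Q.invX_RR m d) hU ha ζ) h.tRel_N.2
  rw [mul_one] at r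
  refine TRel.congr r (FamEq.of_N0 fun n => ?_)
  have em := CBEv_em (Q.invX_RR m d) hU
  have em' := CBEv_em (Q.invX_RR m (d + 1)) hU'
  have emN : EM Q.lab (TT Q.Var) Q.actN Q.NN Q.KK Q.actN Q.NN id :=
    EM.of_subset Q.isAct_N (isGrp_KG id) hT subset_rfl hN Q.invX_NN subset_rfl
  have k₁ := CBEv_N0_sq (h₁.pb_pb em (St Q.lab n) (a n))
    (em'.pb_pb (Q.em_trunc hd) (St Q.lab n) (a n))
  have k₂ := CBEv_N0_sq (h₂.pb_pb emN (St Q.lab n) (τ n))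
    (em'.pb_pb (Q.em_top m d) (St Q.lab n) (τ n))
  have k := Submodule.smul_mem _ (ζ ^ (d + 1))⁻¹ (CBEv_cup_N0 k₁ k₂)
  rw [smul_sub, ← pb_cup] at k
  have e : (ζ ^ (d + 1))⁻¹ = (ζ ^ d)⁻¹ * ζ⁻¹ := by rw [pow_succ, mul_inv]
  nth_rewrite 1 [e] at k
  rw [mul_smul, ← cup_smul, ← smul_cup] at k
  exact k

/-- Restriction to the torus is injective. -/
theorem famEq_of_toK (hS : InvX Q.KK Q.actR S) (hl : LC S) (ha : IsFam True (Q.BR S) a)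
    (hb : IsFam True (Q.BR S) b)
    (h : FamEq True (BL (TT Q.Var) Q.actR S Q.lab) (pbF Q.toK a) (pbF Q.toK b)) :
    FamEq True (Q.BR S) a b := by
  refine famEq_true.2 fun n => ?_
  have em : EM Q.lab (TT Q.Var) Q.actR S Q.KK Q.actR S id :=
    EM.of_subset Q.isAct_R (isGrp_KG id) (TT_subset Q.lab) subset_rfl
      (fun u hu => hS u (TT_subset Q.lab hu)) hS subset_rfl
  have hp := em.proper (frOK_St Q.lab n) (ClosedIn.refl S).properOn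
  have hi : Function.Injective (tw (BS Q.KK Q.actR S (St Q.lab n))
      (BS (TT Q.Var) Q.actR S (St Q.lab n)) Q.toK one) := by
    rw [BS_eq, BS_eq]
    exact tw_toK_injective Q.isAct_R ((frOK_St Q.lab n).inv_prod subset_rfl hS)
      (hl.prod (LC.of_isCompact (isCompact_St Q.lab n))) (n := n)
      fun p hp => St_subset_Inj Q.lab n hp.2
  have hZa : a n ∈ ZZ (cc (BS Q.KK Q.actR S (St Q.lab n))) (BS Q.KK Q.actR S (St Q.lab n)) :=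
    (isFam_true.1 ha).1 n
  have hZb : b n ∈ ZZ (cc (BS Q.KK Q.actR S (St Q.lab n))) (BS Q.KK Q.actR S (St Q.lab n)) :=
    (isFam_true.1 hb).1 n
  refine (cls_eq_iff hZa hZb).1 (hi ?_)
  have ht := hp.twOK (one_mem_ZZ _)
  have hZa' := pb_mem_ZZ_cc hp hZa
  have hZb' := pb_mem_ZZ_cc hp hZb
  rw [tw_cls ht hZa, tw_cls ht hZb, cup_one hZa'.1.1.1, cup_one hZb'.1.1.1]
  exact (cls_eq_iff hZa' hZb').2 (famEq_true.1 h n)

theorem ev_one (h : Q.ThomZ τ ζ) (ha : IsFam True (Q.BR (Q.UL 0 d)) a) {u : Fam Q.YK}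
    (hu : IsFam False Q.BK u) :
    FamEq True (Q.BR (Q.UL 0 d)) a
      (cupF (pbF Q.toPt u) (pbF (bmap Q.KK Q.actJ Prod.snd id) (Q.tauJ τ d))) ↔
      Q.ev ζ 0 d a = val Q.lab u := by
  have hS := Q.invX_UL_zero d
  obtain ⟨g, hg⟩ := Q.homeo_snd_UL d
  have hθ : IsFam True (Q.BR (Q.UL 0 d))
      (pbF (bmap Q.KK Q.actJ Prod.snd id) (Q.tauJ τ d)) :=
    (Q.em_snd_UL d).isFam hg.properOn (h.isFam_tauJ d)
  have hid : HomeoOn id id (Q.UL 0 d) (Q.UL 0 d) :=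
    ⟨continuousOn_id, continuousOn_id, mapsTo_id _, mapsTo_id _, fun _ _ => rfl, fun _ _ => rfl⟩
  have e1 : Q.ev ζ 0 d (pbF (bmap Q.KK Q.actJ Prod.snd id) (Q.tauJ τ d)) = 1 :=
    ev_eq (tRel_of_isTh (Q.cd_UL 0 d) (Q.isCoord_P _ _) fun n =>
      IsTh.pb (CBEv_em hS subset_rfl) hid (frOK_St Q.lab n) (h.th_UL_zero d n))
  have e2 := ev_mul hS subset_rfl hθ hu ζ
  rw [e1, mul_one] at e2
  have hb : IsFam True (Q.BR (Q.UL 0 d))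
      (cupF (pbF Q.toPt u) (pbF (bmap Q.KK Q.actJ Prod.snd id) (Q.tauJ τ d))) :=
    isFam_mul Q.isAct_R (isGrp_KG Q.lab) subset_rfl subset_rfl hS hu hθ
  constructor
  · intro he
    rw [ev_congr hS subset_rfl he, e2]
  · intro he
    refine famEq_of_toK hS (Q.cd_UL 0 d).lc ha hb ?_
    have r1 := ev_spec hS subset_rfl ha ζ
    have r2 := ev_spec hS subset_rfl hb ζ
    rw [e2, ← he] at r2
    have h3 := (TRel.famEq r1 r2).smul (ζ ^ d)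
    rwa [smul_inv_smul₀ (pow_ne_zero d h.ne), smul_inv_smul₀ (pow_ne_zero d h.ne)] at h3

end Qv

end Pool.Agent.HK
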