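import Pool.Agent.P.MP_1206ce_ag.CB.Ev
import Pool.Agent.P.MP_1206ce_ag.CB.Cell

/-! The filtration of the space of triples by unions of strata. -/

open scoped Topology
open Filter Set

noncomputable section

namespace Pool.Agent.HK

namespace Qv

variable {Q : Qv} {l l' : Q.Lam} {m d : ℕ} {RC : Q.Lam → Set Q.Tr} {B : Finset Q.Lam}

/-- The characters of the coordinates of a cell. -/
def chS (Q : Qv) (l : Q.Lam) (d : ℕ) : ↥(Q.NL l) ⊕ ↥(Q.PU l d) → Q.Var → ℤ :=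
  Sum.elim (fun q => Q.chN q.1) fun q => Q.chP q.1.1

theorem CBFiltA_mem_OB {p : Q.Tr} : p ∈ Q.OB RC B ↔ ∃ l ∈ B, p ∈ Q.Sat (RC l) := by
  simp only [OB, mem_iUnion, exists_prop]

theorem CBFiltA_subset_Sat (Q : Qv) (S : Set Q.Tr) : S ⊆ Q.Sat S := subset_SatX Q.isAct_R S

theorem CBFiltA_up (hl : l ∈ Q.Box m) : ∃ B, Q.Up m B ∧ l ∈ B ∧ (∀ l' ∈ B, Q.nsq l ≤ Q.nsq l') ∧
    ∀ l' ∈ B, Q.nsq l' ≤ Q.nsq l → ∃ w ∈ Wl Q.lab, l' = Q.wl w l := by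
  classical
  refine ⟨(Q.Box m).filter fun l' => Q.nsq l < Q.nsq l' ∨ ∃ w ∈ Wl Q.lab, l' = Q.wl w l,
    ⟨Finset.filter_subset _ _, fun w hw l' hl' => ?_, fun l' hl' l'' hl'' hlt => ?_⟩, ?_,
    fun l' hl' => ?_, fun l' hl' hle => ?_⟩
  · obtain ⟨h1, h2⟩ := Finset.mem_filter.1 hl'
    refine Finset.mem_filter.2 ⟨Q.wl_mem_Box hw h1, ?_⟩
    rcases h2 with h2 | ⟨w', hw', rfl⟩
    · exact Or.inl (by rw [Q.nsq_wl hw]; exact h2)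
    · exact Or.inr ⟨w * w', mul_mem_Wl hw hw', (Q.wl_mul hw hw' l).symm⟩
  · obtain ⟨-, h2⟩ := Finset.mem_filter.1 hl'
    refine Finset.mem_filter.2 ⟨hl'', Or.inl ?_⟩
    rcases h2 with h2 | ⟨w', hw', rfl⟩
    · exact h2.trans hlt
    · rwa [Q.nsq_wl hw'] at hlt
  · exact Finset.mem_filter.2 ⟨hl, Or.inr ⟨1, one_mem_Wl _, rfl⟩⟩
  · obtain ⟨-, h2⟩ := Finset.mem_filter.1 hl'
    rcases h2 with h2 | ⟨w', hw', rfl⟩
    · exact h2.le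
    · exact (Q.nsq_wl hw' l).ge
  · obtain ⟨-, h2⟩ := Finset.mem_filter.1 hl'
    exact h2.resolve_left (not_lt.2 hle)

theorem CBFiltA_weyl (h : Q.Strat m d RC) (hl : l ∈ Q.Box m) {w : Equiv.Perm Q.Var}
    (hw : w ∈ Wl Q.lab) : Q.Sat (RC l) ⊆ Q.Sat (RC (Q.wl w l)) := by
  rintro p ⟨u, hu, hp⟩
  refine ⟨pmat w * u, Q.isAct_R.grp.mul _ (pmat_mem_KG hw) _ hu, ?_⟩
  rw [Q.isAct_R.mul _ (pmat_mem_KG hw) _ hu]
  exact h.weyl l hl w hw _ hp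

theorem CBFiltA_prod (Q : Qv) (l : Q.Lam) (d : ℕ)
    [DecidablePred fun i : ↥(Q.NL l) ⊕ ↥(Q.PU l d) => i ∈ Set.range Sum.inr] :
    ∏ i ∈ Finset.univ.filter (fun i : ↥(Q.NL l) ⊕ ↥(Q.PU l d) => i ∉ Set.range Sum.inr),
      linF (Q.chS l d i) = Q.eN l := by
  rw [Finset.prod_filter, Fintype.prod_sum_type]
  have h1 : ∀ q : ↥(Q.NL l), (Sum.inl q : ↥(Q.NL l) ⊕ ↥(Q.PU l d)) ∉ Set.range Sum.inr := by
    rintro q ⟨r, hr⟩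
    cases hr
  have h2 : ∀ q : ↥(Q.PU l d), ¬ (Sum.inr q : ↥(Q.NL l) ⊕ ↥(Q.PU l d)) ∉ Set.range Sum.inr :=
    fun q hq => hq ⟨q, rfl⟩
  simp only [if_pos (h1 _), if_neg (h2 _), Finset.prod_const_one, mul_one]
  exact Finset.prod_coe_sort (Q.NL l) fun q => linF (Q.chN q)

theorem invX_Sat (Q : Qv) (S : Set Q.Tr) : InvX Q.KK Q.actR (Q.Sat S) := invX_SatX Q.isAct_R S
theorem invX_OB (Q : Qv) (RC : Q.Lam → Set Q.Tr) (B : Finset Q.Lam) :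
    InvX Q.KK Q.actR (Q.OB RC B) := by
  intro u hu p hp
  obtain ⟨l, hl, hp⟩ := CBFiltA_mem_OB.1 hp
  exact CBFiltA_mem_OB.2 ⟨l, hl, Q.invX_Sat _ u hu p hp⟩
theorem mem_OB {p : Q.Tr} : p ∈ Q.OB RC B ↔ ∃ l ∈ B, p ∈ Q.Sat (RC l) := CBFiltA_mem_OB
theorem up_Box (Q : Qv) (m : ℕ) : Q.Up m (Q.Box m) :=
  ⟨Finset.Subset.refl _, fun _ hw _ hl => Q.wl_mem_Box hw hl, fun _ _ _ hl' _ => hl'⟩
theorem Strat.UL_subset (h : Q.Strat m d RC) (hl : l ∈ Q.Box m) : Q.UL l d ⊆ Q.Sat (RC l) := by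
  obtain ⟨co, g, ρ, -, -, -, hU, -⟩ := h.coords l hl
  rw [hU]
  exact fun p hp => Q.CBFiltA_subset_Sat _ hp.1
theorem Strat.Sat_subset (h : Q.Strat m d RC) (hl : l ∈ Q.Box m) : Q.Sat (RC l) ⊆ Q.RR m d := by
  rintro p ⟨u, hu, hp⟩
  have h1 := Q.invX_RR m d (star u) (Q.isAct_R.grp.star u hu) _ (h.sub l hl hp)
  rwa [← Q.isAct_R.mul _ (Q.isAct_R.grp.star u hu) _ hu, Q.isAct_R.grp.star_mul hu,
    Q.isAct_R.one] at h1
theorem Strat.Sat_wl (h : Q.Strat m d RC) (hl : l ∈ Q.Box m) {w : Equiv.Perm Q.Var}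
    (hw : w ∈ Wl Q.lab) : Q.Sat (RC (Q.wl w l)) = Q.Sat (RC l) := by
  refine Subset.antisymm ?_ (CBFiltA_weyl h hl hw)
  have h1 := CBFiltA_weyl h (Q.wl_mem_Box hw hl) (inv_mem_Wl hw)
  rwa [Q.wl_inv_wl hw] at h1
theorem Strat.disj' (h : Q.Strat m d RC) (hl : l ∈ Q.Box m) (hl' : l' ∈ Q.Box m) {p : Q.Tr}
    (hp : p ∈ Q.Sat (RC l)) (hp' : p ∈ Q.Sat (RC l')) : ∃ w ∈ Wl Q.lab, l' = Q.wl w l := by
  obtain ⟨u, hu, hq⟩ := hp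
  exact h.disj l hl l' hl' _ hq (Q.invX_Sat _ u hu p hp')
theorem Strat.OB_Box (h : Q.Strat m d RC) : Q.OB RC (Q.Box m) = Q.RR m d := by
  refine Subset.antisymm (fun p hp => ?_) fun p hp => mem_OB.2 (h.cover p hp)
  obtain ⟨l, hl, hp⟩ := mem_OB.1 hp
  exact h.Sat_subset hl hp
theorem Strat.UL_subset_OB (h : Q.Strat m d RC) (hB : B ⊆ Q.Box m) (hl : l ∈ B) :
    Q.UL l d ⊆ Q.OB RC B := fun _ hp => mem_OB.2 ⟨l, hl, h.UL_subset (hB hl) hp⟩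
theorem Strat.disjoint_UL (h : Q.Strat m d RC) (hB : Q.Up m B) (hl : l ∈ Q.Box m) (hn : l ∉ B) :
    Disjoint (Q.UL l d) (Q.OB RC B) := by
  refine Set.disjoint_left.2 fun p hp hp' => hn ?_
  obtain ⟨l', hl', hq⟩ := mem_OB.1 hp'
  obtain ⟨w, hw, rfl⟩ := h.disj' (hB.sub hl') hl hq (h.UL_subset hl hp)
  exact hB.stab w hw l' hl'
theorem Strat.openIn_OB (h : Q.Strat m d RC) (hB : Q.Up m B) :
    OpenIn (Q.OB RC B) (Q.RR m d) := by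
  classical
  refine ⟨(⋃ l ∈ Q.Box m \ B, closure (Q.Sat (RC l)))ᶜ,
    (isClosed_biUnion_finset fun _ _ => isClosed_closure).isOpen_compl, ?_⟩
  ext p
  constructor
  · intro hp
    obtain ⟨l', hl', hq⟩ := mem_OB.1 hp
    refine ⟨h.Sat_subset (hB.sub hl') hq, fun hF => ?_⟩
    simp only [mem_iUnion, exists_prop] at hF
    obtain ⟨l, hl, hc⟩ := hF
    obtain ⟨hl1, hl2⟩ := Finset.mem_sdiff.1 hl
    refine hl2 ?_
    rcases h.front l hl1 p hc with h1 | ⟨l'', hl'', h1, h2⟩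
    · obtain ⟨w, hw, rfl⟩ := h.disj' (hB.sub hl') hl1 hq h1
      exact hB.stab w hw l' hl'
    · obtain ⟨w, hw, rfl⟩ := h.disj' (hB.sub hl') hl'' hq h1
      exact hB.up _ (hB.stab w hw l' hl') l hl1 h2
  · rintro ⟨hp, hF⟩
    obtain ⟨l, hl, hq⟩ := h.cover p hp
    refine mem_OB.2 ⟨l, ?_, hq⟩
    by_contra hn
    refine hF ?_
    simp only [mem_iUnion, exists_prop]
    exact ⟨l, Finset.mem_sdiff.2 ⟨hl, hn⟩, subset_closure hq⟩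
theorem Strat.lc_OB (h : Q.Strat m d RC) (hB : Q.Up m B) : LC (Q.OB RC B) :=
  (Q.lc_RR m d).openIn (h.openIn_OB hB)
theorem Strat.closedIn_Sat (h : Q.Strat m d RC) (hB : Q.Up m B) (hl : l ∈ B)
    (hmin : ∀ l' ∈ B, Q.nsq l ≤ Q.nsq l') : ClosedIn (Q.Sat (RC l)) (Q.OB RC B) := by
  refine ⟨closure (Q.Sat (RC l)), isClosed_closure, Subset.antisymm
    (fun p hp => ⟨mem_OB.2 ⟨l, hl, hp⟩, subset_closure hp⟩) ?_⟩
  rintro p ⟨hp, hc⟩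
  obtain ⟨l', hl', hq⟩ := mem_OB.1 hp
  rcases h.front l (hB.sub hl) p hc with h1 | ⟨l'', hl'', h1, h2⟩
  · exact h1
  · obtain ⟨w, hw, rfl⟩ := h.disj' (hB.sub hl') hl'' hq h1
    rw [Q.nsq_wl hw] at h2
    exact absurd (hmin l' hl') (not_le.2 h2)
theorem Strat.lc_Sat (h : Q.Strat m d RC) (hl : l ∈ Q.Box m) : LC (Q.Sat (RC l)) := by
  obtain ⟨B, hB, hlB, hmin, -⟩ := CBFiltA_up hl
  exact (h.lc_OB hB).closedIn (h.closedIn_Sat hB hlB hmin)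
/-- Removing the orbit of a minimal element. -/
theorem Strat.exists_step (h : Q.Strat m d RC) (hB : Q.Up m B) (hl : l ∈ B)
    (hmin : ∀ l' ∈ B, Q.nsq l ≤ Q.nsq l') :
    ∃ B', Q.Up m B' ∧ B' ⊂ B ∧ Q.OB RC B' = Q.OB RC B \ Q.Sat (RC l) := by
  classical
  refine ⟨B.filter fun l' => ¬ ∃ w ∈ Wl Q.lab, l' = Q.wl w l,
    ⟨(Finset.filter_subset _ _).trans hB.sub, fun w hw l' hl' => ?_,
      fun l' hl' l'' hl'' hlt => ?_⟩, ?_, ?_⟩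
  · obtain ⟨h1, h2⟩ := Finset.mem_filter.1 hl'
    refine Finset.mem_filter.2 ⟨hB.stab w hw l' h1, ?_⟩
    rintro ⟨w', hw', he⟩
    refine h2 ⟨w⁻¹ * w', mul_mem_Wl (inv_mem_Wl hw) hw', ?_⟩
    rw [Q.wl_mul (inv_mem_Wl hw) hw', ← he, Q.wl_inv_wl hw]
  · obtain ⟨h1, -⟩ := Finset.mem_filter.1 hl'
    refine Finset.mem_filter.2 ⟨hB.up l' h1 l'' hl'' hlt, ?_⟩
    rintro ⟨w', hw', rfl⟩
    rw [Q.nsq_wl hw'] at hlt
    exact absurd (hmin l' h1) (not_le.2 hlt)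
  · refine Finset.filter_ssubset.2 ⟨l, hl, fun hn => hn ⟨1, one_mem_Wl _, rfl⟩⟩
  · ext p
    constructor
    · intro hp
      obtain ⟨l', hl', hq⟩ := mem_OB.1 hp
      obtain ⟨h1, h2⟩ := Finset.mem_filter.1 hl'
      exact ⟨mem_OB.2 ⟨l', h1, hq⟩, fun hp' => h2 (h.disj' (hB.sub hl) (hB.sub h1) hp' hq)⟩
    · rintro ⟨hp, hn⟩
      obtain ⟨l', hl', hq⟩ := mem_OB.1 hp
      refine mem_OB.2 ⟨l', Finset.mem_filter.2 ⟨hl', ?_⟩, hq⟩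
      rintro ⟨w, hw, rfl⟩
      rw [h.Sat_wl (hB.sub hl) hw] at hq
      exact hn hq
theorem Strat.up_induct (h : Q.Strat m d RC) {P : Finset Q.Lam → Prop} (h0 : P ∅)
    (step : ∀ B B' l, Q.Up m B → Q.Up m B' → B' ⊆ B → l ∈ B →
      ClosedIn (Q.Sat (RC l)) (Q.OB RC B) → Q.OB RC B' = Q.OB RC B \ Q.Sat (RC l) → P B' → P B)
    (hB : Q.Up m B) : P B := by
  induction B using Finset.strongInduction with
  | H B ih =>
    rcases B.eq_empty_or_nonempty with rfl | hne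
    · exact h0
    · obtain ⟨l, hl, hmin⟩ := B.exists_min_image Q.nsq hne
      obtain ⟨B', hB', hlt, he⟩ := h.exists_step hB hl hmin
      exact step B B' l hB hB' hlt.subset hl (h.closedIn_Sat hB hl hmin) he (ih B' hlt hB')
/-- The open set in which the stratum of `λ` is closed. -/
theorem exists_up (hl : l ∈ Q.Box m) : ∃ B, Q.Up m B ∧ l ∈ B ∧ (∀ l' ∈ B, Q.nsq l ≤ Q.nsq l') ∧
    ∀ l' ∈ B, Q.nsq l' ≤ Q.nsq l → ∃ w ∈ Wl Q.lab, l' = Q.wl w l := CBFiltA_up hl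
theorem Strat.cell (h : Q.Strat m d RC) (hl : l ∈ Q.Box m) : ∃ co ρ,
    CellD Q.lab (Q.labl l) Q.actR (RC l) co ρ (Q.chS l d) ∧ ∀ (ζ : ℂ) (a : Fam Q.YR) (g : Q.Pol),
      TRel Q.actR (RC l) Q.lab co (Q.chS l d) (pbF Q.toK a) g →
        Q.ev ζ l d a = (ζ ^ d)⁻¹ • (g * Q.eN l) := by
  classical
  obtain ⟨co, g₀, ρ, hg, hmd, heq, hU, hco⟩ := h.coords l hl
  have hc : CellD Q.lab (Q.labl l) Q.actR (RC l) co ρ (Q.chS l d) :=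
    ⟨Q.refines_labl l, Q.isAct_R, h.inv l hl, h.stab l hl, h.closedIn l hl, h.lc_Sat hl,
      ⟨g₀, hg⟩, hmd, heq⟩
  refine ⟨co, ρ, hc, fun ζ a g hr => ev_eq (TRel.smul _ ?_)⟩
  have hsub : Q.UL l d ⊆ RC l := by
    rw [hU]
    exact fun p hp => hp.1
  have hp : ProperOn id (Q.UL l d) (RC l) :=
    ⟨continuousOn_id, hsub, fun C hC _ => hC.inter_left (Q.isClosed_UL l d)⟩
  have h1 := TRel.pb (Q.cd_UL l d) (Q.isCoord_P (Q.UL l d) (Q.PU l d))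
    (EM.of_subset Q.isAct_RT (isGrp_KG _) Subset.rfl (TT_subset Q.lab) (Q.invX_UL l d)
      hc.cdT.1.inv hsub) hp hc.cdT.2 Sum.inr Sum.inr_injective (LinearEquiv.refl ℂ _)
    (fun x hx k => hco x hx k) hr
  rw [bmap_id_id, CBFiltA_prod] at h1
  have h2 : pbF (id : Bor (TT Q.Var) Q.actR → _) (pbF Q.toK a) = pbF Q.toK a := by
    funext n x
    simp only [pbF, pb, List.map_id]
  rwa [h2] at h1

end Qv

end Pool.Agent.HK
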