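import Pool.Agent.P.MP_1206ce_ag.CB.AlgW

/-! Localisation: linear functionals on the image of the evaluation maps. -/

open MvPolynomial

noncomputable section

namespace Pool.Agent.HK

/-- A field is a Baer module over a subalgebra of a subring. -/
theorem CBLoc_baer {P F : Type} [CommRing P] [IsDomain P] [Algebra ℂ P] [Field F] [Algebra P F]
    (hinj : Function.Injective (algebraMap P F)) (R : Subalgebra ℂ P) : Module.Baer R F := by
  intro I g
  by_cases hI : ∀ x ∈ I, x = 0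
  · refine ⟨0, fun x hx => ?_⟩
    have : (⟨x, hx⟩ : I) = 0 := Subtype.ext (hI x hx)
    rw [this, map_zero, LinearMap.zero_apply]
  · push Not at hI
    obtain ⟨a, ha, ha0⟩ := hI
    have h1 : algebraMap P F (a : P) ≠ 0 := fun h =>
      ha0 (Subtype.ext (hinj (by rw [h]; simp)))
    refine ⟨LinearMap.toSpanSingleton R F (g ⟨a, ha⟩ / algebraMap P F (a : P)), fun x hx => ?_⟩
    have h2 : x • g ⟨a, ha⟩ = a • g ⟨x, hx⟩ := by
      rw [← map_smul, ← map_smul]
      congr 1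
      exact Subtype.ext (mul_comm x a)
    rw [LinearMap.toSpanSingleton_apply]
    have h3 : ∀ (r : R) (y : F), r • y = algebraMap P F (r : P) * y := fun r y => by
      rw [Subalgebra.smul_def, Algebra.smul_def]
    rw [h3, h3] at h2
    rw [h3, ← mul_div_assoc, h2, mul_div_cancel_left₀ _ h1]

/-- Extension of a linear functional that is defined on a subset. -/
theorem CBLoc_extend {R N N' F : Type} [CommRing R] [AddCommGroup N] [Module R N]
    [AddCommGroup N'] [Module R N'] [AddCommGroup F] [Module R F] (hB : Module.Baer R F)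
    {E : Set N} (hne : E.Nonempty) (h1 : ∀ f ∈ E, ∀ g ∈ E, f + g ∈ E)
    (h2 : ∀ (r : R), ∀ f ∈ E, r • f ∈ E) (c : N → F)
    (hadd : ∀ f ∈ E, ∀ g ∈ E, c (f + g) = c f + c g)
    (hsmul : ∀ (r : R), ∀ f ∈ E, c (r • f) = r • c f) (ρ : N →ₗ[R] N')
    (h0 : ∀ f ∈ E, ρ f = 0 → c f = 0) : ∃ ψ : N' →ₗ[R] F, ∀ f ∈ E, ψ (ρ f) = c f := by
  obtain ⟨f₀, hf₀⟩ := hne
  let M : Submodule R N :=
    { carrier := E
      add_mem' := fun ha hb => h1 _ ha _ hb
      zero_mem' := by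
        have := h2 0 f₀ hf₀
        rwa [zero_smul] at this
      smul_mem' := fun r f hf => h2 r f hf }
  let cE : M →ₗ[R] F :=
    { toFun := fun f => c f.1
      map_add' := fun f g => hadd _ f.2 _ g.2
      map_smul' := fun r f => hsmul r f.1 f.2 }
  have hker : LinearMap.ker (ρ.comp M.subtype) ≤ LinearMap.ker cE := fun f hf =>
    h0 f.1 f.2 (LinearMap.mem_ker.1 hf)
  obtain ⟨ψ, hψ⟩ := hB.extension_property
    ((LinearMap.ker (ρ.comp M.subtype)).liftQ (ρ.comp M.subtype) le_rfl)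
    (LinearMap.ker_eq_bot.1 (Submodule.ker_liftQ_eq_bot _ _ _ le_rfl))
    ((LinearMap.ker (ρ.comp M.subtype)).liftQ cE hker)
  exact ⟨ψ, fun f hf => LinearMap.congr_fun hψ (Submodule.Quotient.mk (⟨f, hf⟩ : M))⟩

/-- Linear functionals over the invariants are combinations of the Weyl group elements. -/
theorem CBLoc_functional {V Λ F : Type} [Fintype V] [DecidableEq V] [Field F]
    [Algebra (MvPolynomial V ℂ) F] (hinj : Function.Injective (algebraMap (MvPolynomial V ℂ) F))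
    (lab : V → Λ) (φ : MvPolynomial V ℂ →ₗ[Rinv lab] F) :
    ∃ c : Equiv.Perm V → F, ∀ a,
      φ a = ∑ w ∈ Wl lab, c w * algebraMap (MvPolynomial V ℂ) F (rename w a) := by
  obtain ⟨N, u, v, huv⟩ := dual_bases lab
  have hD : algebraMap (MvPolynomial V ℂ) F (Dl lab) ≠ 0 := fun h =>
    Dl_ne_zero lab (hinj (by rw [h, map_zero]))
  refine ⟨fun w => ∑ j, φ (u j) * algebraMap (MvPolynomial V ℂ) F (C (sgn w) * rename w (v j))
    / algebraMap (MvPolynomial V ℂ) F (Dl lab), fun a => ?_⟩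
  choose h hh hA using fun j => exists_Alt_eq lab (a * v j)
  have h1 : a = ∑ j, (⟨h j, hh j⟩ : Rinv lab) • u j := by
    apply mul_left_cancel₀ (Dl_ne_zero lab)
    rw [huv a, Finset.mul_sum]
    refine Finset.sum_congr rfl fun j _ => ?_
    rw [hA j, Subalgebra.smul_def, smul_eq_mul]
    ring
  have h2 : φ a = ∑ j, algebraMap (MvPolynomial V ℂ) F (h j) * φ (u j) := by
    conv_lhs => rw [h1]
    rw [map_sum]
    refine Finset.sum_congr rfl fun j _ => ?_
    rw [map_smul, Subalgebra.smul_def, Algebra.smul_def]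
  rw [h2]
  simp only [Finset.sum_mul]
  rw [Finset.sum_comm]
  refine Finset.sum_congr rfl fun j _ => ?_
  have h3 : algebraMap (MvPolynomial V ℂ) F (h j) = algebraMap (MvPolynomial V ℂ) F
      (Alt lab (a * v j)) / algebraMap (MvPolynomial V ℂ) F (Dl lab) := by
    rw [hA j, map_mul, mul_div_cancel_left₀ _ hD]
  rw [h3, Alt_apply, map_sum, Finset.sum_div, Finset.sum_mul]
  refine Finset.sum_congr rfl fun w _ => ?_
  rw [smul_eq_C_mul]
  simp only [map_mul]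
  ring

/-- Independence of the Weyl group elements. -/
theorem CBLoc_dedekind {V F : Type} [Fintype V] [DecidableEq V] [Field F]
    [Algebra (MvPolynomial V ℂ) F] (hinj : Function.Injective (algebraMap (MvPolynomial V ℂ) F))
    (s : Finset (Equiv.Perm V)) (c : Equiv.Perm V → F)
    (h : ∀ a, ∑ w ∈ s, c w * algebraMap (MvPolynomial V ℂ) F (rename w a) = 0) :
    ∀ w ∈ s, c w = 0 := by
  let m : Equiv.Perm V → (MvPolynomial V ℂ →* F) := fun w =>
    ((algebraMap (MvPolynomial V ℂ) F).comp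
      (rename w : MvPolynomial V ℂ →ₐ[ℂ] MvPolynomial V ℂ).toRingHom).toMonoidHom
  have hm : Function.Injective m := by
    intro w w' e
    ext1 k
    have h1 : algebraMap (MvPolynomial V ℂ) F (rename w (X k))
        = algebraMap (MvPolynomial V ℂ) F (rename w' (X k)) := DFunLike.congr_fun e (X k)
    have h2 := hinj h1
    rw [rename_X, rename_X] at h2
    exact X_injective h2
  have hli := (linearIndependent_monoidHom (MvPolynomial V ℂ) F).comp m hm
  refine linearIndependent_iff'.1 hli s c ?_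
  funext a
  rw [Finset.sum_apply]
  exact h a

namespace Qv

variable {Q : Qv} {B : Finset Q.Lam} {E : Set (Q.Lam → Q.Pol)} {γ γ' : Q.Lam → Q.Frac}

theorem CBLoc_inj (Q : Qv) : Function.Injective (algebraMap Q.Pol Q.Frac) :=
  IsFractionRing.injective _ _

theorem CBLoc_ne {p : Q.Pol} (h : p ≠ 0) : algebraMap Q.Pol Q.Frac p ≠ 0 := fun e =>
  h (CBLoc_inj Q (by rw [e, map_zero]))

theorem CBLoc_reindex {M : Type} [AddCommMonoid M]
    (hB : ∀ w ∈ Wl Q.lab, ∀ l ∈ B, Q.wl w l ∈ B) {w : Equiv.Perm Q.Var} (hw : w ∈ Wl Q.lab)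
    (φ : Q.Lam → M) : ∑ l ∈ B, φ (Q.wl w l) = ∑ l ∈ B, φ l :=
  Finset.sum_nbij' (Q.wl w) (Q.wl w⁻¹) (fun l hl => hB w hw l hl)
    (fun l hl => hB _ (inv_mem_Wl hw) l hl) (fun l _ => Q.wl_inv_wl hw l)
    (fun l _ => Q.wl_wl_inv hw l) fun _ _ => rfl

theorem CBLoc_sub (l : Q.Lam) : Wl (Q.labl l) ⊆ Wl Q.lab := Wl_mono (Q.refines_labl l)

open Classical in
theorem CBLoc_orbit {M : Type} [Semiring M] (l : Q.Lam) (φ : Q.Lam → M) :
    ∑ w ∈ Wl Q.lab, φ (Q.wl w l)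
      = ((Wl (Q.labl l)).card : M) * ∑ l' ∈ (Wl Q.lab).image fun w => Q.wl w l, φ l' := by
  rw [Finset.sum_comp φ fun w => Q.wl w l, ← nsmul_eq_mul, Finset.smul_sum]
  refine Finset.sum_congr rfl fun l' hl' => ?_
  obtain ⟨w₀, hw₀, rfl⟩ := Finset.mem_image.1 hl'
  congr 1
  symm
  refine Finset.card_nbij' (fun u => w₀ * u) (fun w => w₀⁻¹ * w) (fun u hu => ?_) (fun w hw => ?_)
    (fun u _ => inv_mul_cancel_left w₀ u) fun w _ => mul_inv_cancel_left w₀ w
  · have hu' := CBLoc_sub l hu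
    refine Finset.mem_coe.2 (Finset.mem_filter.2 ⟨mul_mem_Wl hw₀ hu', ?_⟩)
    rw [Q.wl_mul hw₀ hu', (Q.wl_eq_iff hu').2 hu]
  · obtain ⟨h1, h2⟩ := Finset.mem_filter.1 (Finset.mem_coe.1 hw)
    refine Finset.mem_coe.2 ((Q.wl_eq_iff (mul_mem_Wl (inv_mem_Wl hw₀) h1)).1 ?_)
    rw [Q.wl_mul (inv_mem_Wl hw₀) h1, h2, Q.wl_inv_wl hw₀]

/-- The pairing with a class that comes from a top stratum. -/
theorem CBLoc_top (h : Q.LocData B E) {l : Q.Lam} (hl : l ∈ B)
    (ht : ∀ l' ∈ B, γ l' ≠ 0 → Q.nsq l' ≤ Q.nsq l) {g : Q.Pol} (hg : g ∈ Rinv (Q.labl l)) :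
    ∃ f ∈ E, ((Wl (Q.labl l)).card : Q.Frac) * Q.pair B γ f
      = ∑ w ∈ Wl Q.lab, γ (Q.wl w l) * algebraMap Q.Pol Q.Frac (rename w (g * Q.eN l)) := by
  classical
  obtain ⟨f, hf, hfl, hf0⟩ := h.ex l hl g hg
  refine ⟨f, hf, ?_⟩
  have h1 : Q.pair B γ f = ∑ l' ∈ (Wl Q.lab).image fun w => Q.wl w l,
      γ l' * algebraMap Q.Pol Q.Frac (f l') := by
    symm
    refine Finset.sum_subset (fun l' hl' => ?_) fun l' hl' hn => ?_
    · obtain ⟨w, hw, rfl⟩ := Finset.mem_image.1 hl'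
      exact h.stab w hw l hl
    · by_cases h0 : γ l' = 0
      · rw [h0, zero_mul]
      · rw [hf0 l' hl' (ht l' hl' h0) fun w hw e => hn (Finset.mem_image.2 ⟨w, hw, e.symm⟩),
          map_zero, mul_zero]
  rw [h1, ← CBLoc_orbit l fun l' => γ l' * algebraMap Q.Pol Q.Frac (f l')]
  refine Finset.sum_congr rfl fun w hw => ?_
  rw [h.eqv f hf w hw l hl, hfl]

theorem CBLoc_card (l : Q.Lam) : ((Wl (Q.labl l)).card : Q.Frac) ≠ 0 := by
  have h1 : algebraMap Q.Pol Q.Frac (C ((Wl (Q.labl l)).card : ℂ)) ≠ 0 :=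
    CBLoc_ne (C_ne_zero.2 (card_Wl_ne_zero _))
  rwa [map_natCast, map_natCast] at h1

theorem LocData.unique (h : Q.LocData B E) (h0 : ∀ f ∈ E, Q.pair B γ f = 0) :
    ∀ l ∈ B, γ l = 0 := by
  by_contra hn
  push Not at hn
  obtain ⟨l₀, hl₀, h₀⟩ := hn
  classical
  obtain ⟨l, hl, hmax⟩ := Finset.exists_max_image (B.filter fun l => γ l ≠ 0) Q.nsq
    ⟨l₀, Finset.mem_filter.2 ⟨hl₀, h₀⟩⟩
  obtain ⟨hlB, hl0⟩ := Finset.mem_filter.1 hl
  have ht : ∀ l' ∈ B, γ l' ≠ 0 → Q.nsq l' ≤ Q.nsq l := fun l' h1 h2 =>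
    hmax l' (Finset.mem_filter.2 ⟨h1, h2⟩)
  have key := CBLoc_dedekind (CBLoc_inj Q) (Wl Q.lab)
    (fun w => γ (Q.wl w l) * algebraMap Q.Pol Q.Frac (rename w (Q.eN l))) (fun a => by
      obtain ⟨f, hf, e⟩ := CBLoc_top h hlB ht (Sym_mem_Rinv (Q.labl l) a)
      rw [h0 f hf, mul_zero] at e
      have e2 : ∑ w ∈ Wl Q.lab, γ (Q.wl w l) *
          algebraMap Q.Pol Q.Frac (rename w (Sym (Q.labl l) a * Q.eN l))
          = ∑ u ∈ Wl (Q.labl l), ∑ w ∈ Wl Q.lab, γ (Q.wl w l) *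
            algebraMap Q.Pol Q.Frac (rename w (Q.eN l)) *
              algebraMap Q.Pol Q.Frac (rename w a) := by
        simp only [Sym_apply, Finset.sum_mul, map_sum, Finset.mul_sum]
        rw [Finset.sum_comm]
        refine Finset.sum_congr rfl fun u hu => ?_
        have hu' := CBLoc_sub l hu
        rw [← Sym_sum_right hu' fun w => γ (Q.wl w l) *
          algebraMap Q.Pol Q.Frac (rename w (Q.eN l)) * algebraMap Q.Pol Q.Frac (rename w a)]
        refine Finset.sum_congr rfl fun w hw => ?_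
        rw [Q.wl_mul hw hu', (Q.wl_eq_iff hu').2 hu, ← Sym_rename_mul, ← Sym_rename_mul,
          Q.eN_mem l u hu, map_mul, map_mul]
        ring
      rw [e2, Finset.sum_const, nsmul_eq_mul] at e
      exact (mul_eq_zero.1 e.symm).resolve_left (CBLoc_card l)) 1 (one_mem_Wl _)
  rw [Q.wl_one] at key
  refine mul_ne_zero hl0 (CBLoc_ne ?_) key
  exact fun e => Q.eN_ne_zero l (rename_injective _ (Equiv.injective _) (by rw [e, map_zero]))

theorem LocData.unique' (h : Q.LocData B E) (h0 : ∀ f ∈ E, Q.pair B γ f = Q.pair B γ' f) :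
    ∀ l ∈ B, γ l = γ' l := by
  intro l hl
  refine sub_eq_zero.1 (h.unique (γ := fun l => γ l - γ' l) (fun f hf => ?_) l hl)
  have h1 := h0 f hf
  unfold pair at h1 ⊢
  simp only [sub_mul, Finset.sum_sub_distrib]
  rw [h1, sub_self]

theorem LocData.exists_coef (h : Q.LocData B E) (c : (Q.Lam → Q.Pol) → Q.Frac)
    (hadd : ∀ f ∈ E, ∀ g ∈ E, c (f + g) = c f + c g)
    (hsmul : ∀ r ∈ Rinv Q.lab, ∀ f ∈ E, c (r • f) = algebraMap Q.Pol Q.Frac r * c f)
    (h0 : ∀ f ∈ E, (∀ l ∈ B, f l = 0) → c f = 0) : ∃ γ, ∀ f ∈ E, c f = Q.pair B γ f := by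
  classical
  rcases E.eq_empty_or_nonempty with hE | hE
  · exact ⟨0, fun f hf => absurd hf (by rw [hE]; exact Set.notMem_empty f)⟩
  let ρ : (Q.Lam → Q.Pol) →ₗ[Rinv Q.lab] (Q.Lam → Q.Pol) :=
    ∑ l ∈ B, (LinearMap.single (Rinv Q.lab) (fun _ : Q.Lam => Q.Pol) l).comp (LinearMap.proj l)
  have hρ : ∀ f, ρ f = ∑ l ∈ B, Pi.single l (f l) := fun f => by
    simp only [ρ, LinearMap.sum_apply]
    rfl
  obtain ⟨ψ, hψ⟩ := CBLoc_extend (CBLoc_baer (CBLoc_inj Q) (Rinv Q.lab)) hE h.add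
    (fun r f hf => h.smul r.1 r.2 f hf) c hadd
    (fun r f hf => by
      rw [Subalgebra.smul_def r (c f), Algebra.smul_def (r : Q.Pol) (c f)]
      exact hsmul r.1 r.2 f hf) ρ
    (fun f hf e => h0 f hf fun l hl => by
      have h1 := congrFun ((hρ f).symm.trans e) l
      rw [Finset.sum_apply, Finset.sum_eq_single_of_mem l hl
        (fun l' _ hne => Pi.single_eq_of_ne (Ne.symm hne) _), Pi.single_eq_same] at h1
      exact h1)
  choose k hk using fun l => CBLoc_functional (CBLoc_inj Q) Q.lab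
    (ψ.comp (LinearMap.single (Rinv Q.lab) (fun _ : Q.Lam => Q.Pol) l))
  refine ⟨fun l => ∑ w ∈ Wl Q.lab, k (Q.wl w⁻¹ l) w, fun f hf => ?_⟩
  have h1 := hψ f hf
  have h2 : c f = ∑ l ∈ B, ∑ w ∈ Wl Q.lab,
      k l w * algebraMap Q.Pol Q.Frac (f (Q.wl w l)) := by
    rw [← h1, hρ, map_sum]
    refine Finset.sum_congr rfl fun l hl => ?_
    refine (hk l (f l)).trans (Finset.sum_congr rfl fun w hw => ?_)
    rw [h.eqv f hf w hw l hl]
  rw [h2, pair, Finset.sum_comm]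
  simp only [Finset.sum_mul]
  rw [Finset.sum_comm (s := B)]
  refine Finset.sum_congr rfl fun w hw => ?_
  rw [← CBLoc_reindex h.stab hw fun l => k (Q.wl w⁻¹ l) w * algebraMap Q.Pol Q.Frac (f l)]
  refine Finset.sum_congr rfl fun l _ => ?_
  rw [Q.wl_inv_wl hw]

theorem LocData.coef_wl (h : Q.LocData B E)
    (hi : ∀ f ∈ E, ∃ r ∈ Rinv Q.lab, Q.pair B γ f = algebraMap Q.Pol Q.Frac r) :
    ∀ w ∈ Wl Q.lab, ∀ l ∈ B, γ (Q.wl w l) = Q.wF w (γ l) := by
  intro w hw l hl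
  have key := h.unique' (γ := γ) (γ' := fun l => Q.wF w (γ (Q.wl w⁻¹ l))) (fun f hf => by
    obtain ⟨r, hr, e⟩ := hi f hf
    have h1 : Q.wF w (Q.pair B γ f) = Q.pair B γ f := by
      rw [e, Q.wF_algebraMap, hr w hw]
    rw [← h1, pair, pair, map_sum, ← CBLoc_reindex h.stab hw
      fun l => Q.wF w (γ (Q.wl w⁻¹ l)) * algebraMap Q.Pol Q.Frac (f l)]
    refine Finset.sum_congr rfl fun l' hl' => ?_
    rw [map_mul, Q.wF_algebraMap, Q.wl_inv_wl hw, h.eqv f hf w hw l' hl'])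
    (Q.wl w l) (h.stab w hw l hl)
  rw [key, Q.wl_inv_wl hw]

theorem LocData.coef_top (h : Q.LocData B E)
    (hi : ∀ f ∈ E, ∃ r ∈ Rinv Q.lab, Q.pair B γ f = algebraMap Q.Pol Q.Frac r) {l : Q.Lam}
    (hl : l ∈ B) (ht : ∀ l' ∈ B, γ l' ≠ 0 → Q.nsq l' ≤ Q.nsq l) :
    ∃ g : Q.Pol, γ l * algebraMap Q.Pol Q.Frac (Q.eul l) = algebraMap Q.Pol Q.Frac g := by
  have hwl := h.coef_wl hi
  obtain ⟨a, b, hb, hb0, hab⟩ := Q.exists_inv_denom (γ l)
  have hwa : ∀ w ∈ Wl Q.lab, γ (Q.wl w l) * algebraMap Q.Pol Q.Frac b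
      = algebraMap Q.Pol Q.Frac (rename w a) := by
    intro w hw
    rw [← Q.wF_algebraMap, ← hab, map_mul, Q.wF_algebraMap, hb w hw, hwl w hw l hl]
  have ha : a ∈ Rinv (Q.labl l) := by
    intro u hu
    have hu' := CBLoc_sub l hu
    apply CBLoc_inj Q
    rw [← hwa u hu', (Q.wl_eq_iff hu').2 hu, hab]
  obtain ⟨D, ε, hε, hD, heul, hDl⟩ := Q.exists_cross l
  have hdvd : b ∣ a * Q.eul l := by
    refine frobenius hb fun p => ?_
    obtain ⟨g, hg, hA⟩ := exists_Alt_eq (Q.labl l) p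
    obtain ⟨f, hf, e⟩ := CBLoc_top h hl ht hg
    obtain ⟨r, -, hr⟩ := hi f hf
    have h1 : Sym Q.lab (a * (g * Q.eN l)) = ((Wl (Q.labl l)).card : ℂ) • (b * r) := by
      apply CBLoc_inj Q
      rw [Sym_apply, map_sum, smul_eq_C_mul, map_natCast, map_mul, map_natCast, map_mul, ← hr,
        mul_left_comm ((Wl (Q.labl l)).card : Q.Frac), e, Finset.mul_sum]
      refine Finset.sum_congr rfl fun w hw => ?_
      rw [map_mul, map_mul, ← hwa w hw]
      ring
    have h2 : Alt (Q.labl l) (a * Q.eul l * p) = ε⁻¹ • (Dl Q.lab * (a * (g * Q.eN l))) := by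
      rw [Alt_mul (mul_mem ha (by rw [heul]; exact mul_mem (Q.eN_mem l) hD)), hA, hDl, heul,
        smul_mul_assoc, smul_smul, inv_mul_cancel₀ hε, one_smul]
      ring
    have h3 := Alt_Alt (Q.refines_labl l) (a * Q.eul l * p)
    rw [h2, map_smul, Alt_Dl_mul, h1, mul_smul_comm, smul_comm] at h3
    have h4 := smul_right_injective _ (card_Wl_ne_zero (Q.labl l)) h3
    refine ⟨ε⁻¹ • r, ?_⟩
    rw [← h4, mul_smul_comm]
    congr 1
    ring
  obtain ⟨g, hg⟩ := hdvd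
  refine ⟨g, mul_left_cancel₀ (CBLoc_ne hb0) ?_⟩
  rw [← map_mul, ← hg, map_mul, ← hab]
  ring

theorem LocData.trp (h : Q.LocData B E) {z : Q.AA} (hz : ∀ l, z.coeff l ≠ 0 → l ∈ B)
    (hi : ∀ f ∈ E, ∃ r ∈ Rinv Q.lab, Q.pair B (Q.cf z) f = algebraMap Q.Pol Q.Frac r) :
    Q.TRp z := by
  refine ⟨fun w hw l => ?_, fun l hmax => ?_⟩
  · by_cases hl : l ∈ B
    · have h1 := h.coef_wl hi w hw l hl
      unfold cf at h1
      rw [map_div₀, Q.wF_algebraMap, ← Q.phi_wl hw] at h1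
      exact (div_left_inj' (CBLoc_ne (Q.phi_ne_zero _))).1 h1
    · have h1 : z.coeff l = 0 := by
        by_contra hn
        exact hl (hz l hn)
      have h2 : z.coeff (Q.wl w l) = 0 := by
        by_contra hn
        have h3 := h.stab _ (inv_mem_Wl hw) _ (hz _ hn)
        rw [Q.wl_inv_wl hw] at h3
        exact hl h3
      rw [h1, h2, map_zero]
  · by_cases hl : l ∈ B
    · obtain ⟨g, hg⟩ := h.coef_top hi hl fun l' _ h0 => hmax l' fun e => h0 (by
        unfold cf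
        rw [e, zero_div])
      refine ⟨g, ?_⟩
      unfold cf at hg
      rw [map_mul, ← hg, ← mul_assoc, mul_div_cancel₀ _ (CBLoc_ne (Q.phi_ne_zero l))]
    · have h1 : z.coeff l = 0 := by
        by_contra hn
        exact hl (hz l hn)
      exact ⟨0, by rw [h1, zero_mul, mul_zero, map_zero]⟩


end Qv

end Pool.Agent.HK
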