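import Pool.Agent.P.MP_1206ce_ag.CB.Sets

/-! The convolution diagram. -/

open scoped Topology
open Filter Set

noncomputable section

namespace Pool.Agent.HK

namespace Qv

variable (Q : Qv)

variable {m₁ m₂ d₁ d₂ : ℕ}

theorem CBMlt_cont_sec (m₂ d₁ d₂ : ℕ) : Continuous (Q.sec m₂ d₁ d₂) := by
  refine continuous_pi fun i => ?_
  by_cases hi : i < d₁
  · simp only [sec, if_pos hi]
    exact ((continuous_apply i).comp (continuous_snd.comp continuous_fst)).sub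
      ((Q.continuous_lact m₂ d₂ i).comp continuous_snd)
  · simp only [sec, if_neg hi]
    exact continuous_const

theorem CBMlt_sec_act (m₂ d₁ d₂ : ℕ) {u : Matrix Q.Var Q.Var ℂ} (hu : u ∈ Q.KK) (p : Q.Tr × Q.Tr) :
    Q.sec m₂ d₁ d₂ (Q.actRR u p) = Q.actJ u (Q.sec m₂ d₁ d₂ p) := by
  funext i
  show (if i < d₁ then Q.actN u (p.1.2 i) - Q.lact m₂ d₂ (Q.actR u p.2) i else 0) =
    Q.actN u (if i < d₁ then p.1.2 i - Q.lact m₂ d₂ p.2 i else 0)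
  split_ifs
  · rw [Q.lact_act m₂ d₂ hu, Q.actN_sub]
  · rw [Q.actN_zero]

theorem CBMlt_sub_NN {x y : Q.Arr} (hx : x ∈ Q.NN) (hy : y ∈ Q.NN) : x - y ∈ Q.NN := by
  intro h l k hne
  by_cases h1 : x h l k = 0
  · refine hy h l k fun h2 => hne ?_
    show x h l k - y h l k = 0
    rw [h1, h2, sub_zero]
  · exact hx h l k h1

theorem CBMlt_inv (m₁ m₂ d₁ d₂ : ℕ) : InvX Q.KK Q.actRR (Q.RR m₁ d₁ ×ˢ Q.RR m₂ d₂) :=
  fun u hu _ hp => ⟨Q.invX_RR m₁ d₁ u hu _ hp.1, Q.invX_RR m₂ d₂ u hu _ hp.2⟩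

theorem em_sec (m₁ m₂ d₁ d₂ : ℕ) : EM Q.lab Q.KK Q.actRR (Q.RR m₁ d₁ ×ˢ Q.RR m₂ d₂) Q.KK Q.actJ
    (Q.Jet d₁) (Q.sec m₂ d₁ d₂) := by
  refine ⟨Q.isAct_RR, Q.isAct_J, Subset.rfl, Subset.rfl, Q.CBMlt_inv m₁ m₂ d₁ d₂, Q.invX_Jet d₁,
    fun u hu p _ => Q.CBMlt_sec_act m₂ d₁ d₂ hu p, (Q.CBMlt_cont_sec m₂ d₁ d₂).continuousOn,
    fun p hp => ⟨fun i => ?_, fun i hi => if_neg (not_lt.2 hi)⟩⟩
  show (if i < d₁ then p.1.2 i - Q.lact m₂ d₂ p.2 i else 0) ∈ Q.NN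
  split_ifs
  · exact Q.CBMlt_sub_NN (hp.1.2.1.1 i) (Q.lact_mem_NN hp.2.1 hp.2.2.1 i)
  · exact fun h l k hne => absurd rfl hne
theorem isClosed_CM (m₁ m₂ d₁ d₂ : ℕ) : IsClosed (Q.CM m₁ m₂ d₁ d₂) :=
  ((Q.isClosed_RR m₁ d₁).prod (Q.isClosed_RR m₂ d₂)).inter
    (isClosed_eq (Q.CBMlt_cont_sec m₂ d₁ d₂) continuous_const)
theorem invX_CM (m₁ m₂ d₁ d₂ : ℕ) : InvX Q.KK Q.actRR (Q.CM m₁ m₂ d₁ d₂) := by
  intro u hu p hp
  refine ⟨Q.CBMlt_inv m₁ m₂ d₁ d₂ u hu p hp.1, ?_⟩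
  rw [Q.CBMlt_sec_act m₂ d₁ d₂ hu, hp.2]
  funext i
  exact Q.actN_zero u
theorem CBMlt_shift {M : Type} [AddCommMonoid M] (f : ℤ → M)
    (hf : ∀ k : ℤ, (m₂ : ℤ) < |k| → f k = 0) {a : ℤ} (ha : a ∈ Finset.Icc (-(m₁ : ℤ)) m₁) :
    ∑ k ∈ Finset.Icc (-((m₁ + m₂ : ℕ) : ℤ)) (m₁ + m₂ : ℕ), f (k - a) =
      ∑ b ∈ Finset.Icc (-(m₂ : ℤ)) m₂, f b := by
  rw [Finset.mem_Icc] at ha
  refine Finset.sum_bij_ne_zero (fun k _ _ => k - a) (fun k _ h => ?_)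
    (fun k _ _ k' _ _ h => sub_left_injective h) (fun b hb h => ⟨b + a, ?_, ?_, ?_⟩)
    fun _ _ _ => rfl
  · rw [Finset.mem_Icc, ← abs_le]
    exact not_lt.1 fun h1 => h (hf _ h1)
  · rw [Finset.mem_Icc] at hb ⊢
    push_cast
    omega
  · rwa [add_sub_cancel_right]
  · exact add_sub_cancel_right b a

theorem CBMlt_evl (γ : ℤ → Q.Mat) {γ' : ℤ → Q.Mat} (h' : γ' ∈ Q.Om m₂) {z : ℂ} (hz : z ≠ 0) :
    Q.evl (m₁ + m₂) (fun k => ∑ a ∈ Finset.Icc (-(m₁ : ℤ)) m₁, γ a * γ' (k - a)) z =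
      Q.evl m₁ γ z * Q.evl m₂ γ' z := by
  simp only [evl, Finset.smul_sum]
  rw [Finset.sum_comm, Finset.sum_mul]
  refine Finset.sum_congr rfl fun a ha => ?_
  rw [← CBMlt_shift (fun b => z ^ b • γ' b) (fun k hk => by rw [h'.1 k hk, smul_zero]) ha,
    Finset.mul_sum]
  refine Finset.sum_congr rfl fun k _ => ?_
  rw [smul_mul_smul_comm, ← zpow_add₀ hz, add_sub_cancel]

theorem mul_mem_Om {γ γ' : ℤ → Q.Mat} (h : γ ∈ Q.Om m₁) (h' : γ' ∈ Q.Om m₂) :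
    (fun k => ∑ a ∈ Finset.Icc (-(m₁ : ℤ)) m₁, γ a * γ' (k - a)) ∈ Q.Om (m₁ + m₂) := by
  refine ⟨fun k hk => Finset.sum_eq_zero fun a ha => ?_, fun k x y hxy => ?_, fun k hk => ?_,
    fun z hz => ?_, ?_⟩
  · rw [Finset.mem_Icc] at ha
    rw [h'.1, mul_zero]
    push_cast at hk
    rw [lt_abs] at hk ⊢
    omega
  · refine (Matrix.sum_apply _ _ _ _).trans (Finset.sum_eq_zero fun a _ => ?_)
    rw [Matrix.mul_apply]
    refine Finset.sum_eq_zero fun c _ => ?_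
    by_cases hc : Q.vb x = Q.vb c
    · rw [h'.2.1 _ c y (hc ▸ hxy), mul_zero]
    · rw [h.2.1 _ x c hc, zero_mul]
  · refine (Matrix.sum_apply _ _ _ _).trans (Finset.sum_eq_zero fun a _ => ?_)
    rw [Matrix.mul_apply]
    refine Finset.sum_eq_zero fun c _ => ?_
    cases c with
    | none =>
      by_cases ha : a = 0
      · rw [h'.2.2.1 _ (by rw [ha, sub_zero]; exact hk), mul_zero]
      · rw [h.2.2.1 _ ha, zero_mul]
    | some c => rw [h.2.1 _ none (some c) (by simp [vb]), zero_mul]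
  · have h0 : z ≠ 0 := by
      rintro rfl
      simp at hz
    rw [Q.CBMlt_evl γ h' h0]
    exact mul_mem (h.2.2.2.1 z hz) (h'.2.2.2.1 z hz)
  · rw [Q.CBMlt_evl γ h' one_ne_zero, h.2.2.2.2, h'.2.2.2.2, mul_one]
theorem CBMlt_cont_mlt (m₁ : ℕ) : Continuous (Q.mlt m₁) := by
  refine Continuous.prodMk (continuous_pi fun k => continuous_finsetSum _ fun a _ => ?_)
    (continuous_snd.comp continuous_snd)
  exact ((continuous_apply a).comp (continuous_fst.comp continuous_fst)).mul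
    ((continuous_apply (k - a)).comp (continuous_fst.comp continuous_snd))

/-- The action of a product of loops. -/
theorem CBMlt_lact {p : Q.Tr × Q.Tr} (hp : p.2.1 ∈ Q.Om m₂) (j : ℤ) (h : Fin Q.nA) :
    Q.lact (m₁ + m₂) d₂ (Q.mlt m₁ p) j h =
      ∑ a ∈ Finset.Icc (-(m₁ : ℤ)) m₁, ∑ b ∈ Finset.Icc (-(m₁ : ℤ)) m₁,
        p.1.1 a * Q.lact m₂ d₂ p.2 (j - a + b) h * star (p.1.1 b) := by
  have e1 : ∀ (A B : ℤ) (i : ℕ), (if A + i - B = j then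
      (Q.mlt m₁ p).1 A * (Q.mlt m₁ p).2 i h * star ((Q.mlt m₁ p).1 B) else 0) =
      ∑ a ∈ Finset.Icc (-(m₁ : ℤ)) m₁, ∑ b ∈ Finset.Icc (-(m₁ : ℤ)) m₁,
        p.1.1 a * (if (A - a) + i - (B - b) = j - a + b then
          p.2.1 (A - a) * p.2.2 i h * star (p.2.1 (B - b)) else 0) * star (p.1.1 b) := by
    intro A B i
    by_cases hc : A + i - B = j
    · rw [if_pos hc]
      simp only [mlt, star_sum, star_mul, Finset.sum_mul, Finset.mul_sum]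
      rw [Finset.sum_comm]
      refine Finset.sum_congr rfl fun a _ => Finset.sum_congr rfl fun b _ => ?_
      rw [if_pos (by omega)]
      simp only [mul_assoc]
    · rw [if_neg hc]
      refine (Finset.sum_eq_zero fun a _ => Finset.sum_eq_zero fun b _ => ?_).symm
      rw [if_neg (by omega), mul_zero, zero_mul]
  have e2 : ∀ a ∈ Finset.Icc (-(m₁ : ℤ)) m₁, ∀ b ∈ Finset.Icc (-(m₁ : ℤ)) m₁,
      Q.lact m₂ d₂ p.2 (j - a + b) h =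
      ∑ A ∈ Finset.Icc (-((m₁ + m₂ : ℕ) : ℤ)) (m₁ + m₂ : ℕ),
        ∑ B ∈ Finset.Icc (-((m₁ + m₂ : ℕ) : ℤ)) (m₁ + m₂ : ℕ), ∑ i ∈ Finset.range d₂,
          if (A - a) + i - (B - b) = j - a + b then
            p.2.1 (A - a) * p.2.2 i h * star (p.2.1 (B - b)) else 0 := by
    intro a ha b hb
    rw [CBMlt_shift (fun x => ∑ B ∈ Finset.Icc (-((m₁ + m₂ : ℕ) : ℤ)) (m₁ + m₂ : ℕ),
      ∑ i ∈ Finset.range d₂, if x + i - (B - b) = j - a + b then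
        p.2.1 x * p.2.2 i h * star (p.2.1 (B - b)) else 0) (fun k hk => by simp [hp.1 k hk]) ha]
    refine Finset.sum_congr rfl fun x _ => ?_
    rw [CBMlt_shift (fun y => ∑ i ∈ Finset.range d₂, if x + i - y = j - a + b then
        p.2.1 x * p.2.2 i h * star (p.2.1 y) else 0) (fun k hk => by simp [hp.1 k hk]) hb]
  rw [Finset.sum_congr rfl fun a ha => Finset.sum_congr rfl fun b hb => by rw [e2 a ha b hb]]
  simp only [lact, e1, Finset.sum_mul, Finset.mul_sum]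
  simp only [← Finset.sum_product']
  exact Finset.sum_equiv
    (⟨fun x => (x.2.2.2.1, x.2.2.2.2, x.1, x.2.1, x.2.2.1),
      fun x => (x.2.2.1, x.2.2.2.1, x.2.2.2.2, x.1, x.2.1), fun _ => rfl, fun _ => rfl⟩ :
        ℤ × ℤ × ℕ × ℤ × ℤ ≃ ℤ × ℤ × ℤ × ℤ × ℕ) (fun x => by simp; tauto) fun _ _ => rfl

theorem CBMlt_fst {p : Q.Tr × Q.Tr} (hp : p ∈ Q.CM m₁ m₂ d₁ d₂) (i : ℕ) :
    p.1.2 i = if i < d₁ then Q.lact m₂ d₂ p.2 i else 0 := by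
  split_ifs with hi
  · have h1 := congrFun hp.2 i
    simp only [sec, if_pos hi] at h1
    exact sub_eq_zero.1 h1
  · exact hp.1.1.2.1.2 i (not_lt.1 hi)

theorem CBMlt_maps (h : 2 * m₁ ≤ d₁) (m₂ d₂ : ℕ) :
    MapsTo (Q.mlt m₁) (Q.CM m₁ m₂ d₁ d₂) (Q.RR (m₁ + m₂) d₂) := by
  intro p hp
  refine ⟨Q.mul_mem_Om hp.1.1.1 hp.1.2.1, hp.1.2.2.1, fun j hj => funext fun x => ?_⟩
  rw [Q.CBMlt_lact hp.1.2.1, ← hp.1.1.2.2 j hj]
  refine Finset.sum_congr rfl fun a ha => Finset.sum_congr rfl fun b hb => ?_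
  rw [Finset.mem_Icc] at ha hb
  by_cases hr : j - a + b < 0
  · rw [hp.1.2.2.2 _ hr, Pi.zero_apply, mul_zero, zero_mul]
    exact (Finset.sum_eq_zero fun i _ => if_neg (by omega)).symm
  · obtain ⟨i, hi⟩ := Int.eq_ofNat_of_zero_le (not_lt.1 hr)
    have hid : i < d₁ := by omega
    rw [Finset.sum_eq_single i (fun i' _ h' => if_neg (by omega))
      (fun h' => absurd (Finset.mem_range.2 hid) h'), if_pos (by omega), Q.CBMlt_fst hp i,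
      if_pos hid, hi]

theorem em_mlt (h : 2 * m₁ ≤ d₁) (m₂ d₂ : ℕ) : EM Q.lab Q.KK Q.actRR (Q.CM m₁ m₂ d₁ d₂) Q.KK Q.actR
    (Q.RR (m₁ + m₂) d₂) (Q.mlt m₁) := by
  refine ⟨Q.isAct_RR, Q.isAct_R, Subset.rfl, Subset.rfl, Q.invX_CM m₁ m₂ d₁ d₂, Q.invX_RR _ _,
    fun u hu p _ => Prod.ext (funext fun k => ?_) rfl, (Q.CBMlt_cont_mlt m₁).continuousOn,
    Q.CBMlt_maps h m₂ d₂⟩
  have h1 : star (Q.gau u) * Q.gau u = 1 := Unitary.star_mul_self_of_mem (Q.gau_unitary hu)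
  simp only [mlt, actRR, actR, Finset.sum_mul, Finset.mul_sum]
  refine Finset.sum_congr rfl fun a _ => ?_
  simp only [mul_assoc]
  rw [← mul_assoc (star (Q.gau u)), h1, one_mul]
theorem proper_mlt (h : 2 * m₁ ≤ d₁) (m₂ d₂ : ℕ) :
    ProperOn (Q.mlt m₁) (Q.CM m₁ m₂ d₁ d₂) (Q.RR (m₁ + m₂) d₂) := by
  refine ⟨(Q.CBMlt_cont_mlt m₁).continuousOn, Q.CBMlt_maps h m₂ d₂, fun C hC _ => ?_⟩
  have h1 : Continuous fun x : (ℤ → Q.Mat) × Q.Tr =>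
      (((x.1, fun i => if i < d₁ then Q.lact m₂ d₂ x.2 i else 0), x.2) : Q.Tr × Q.Tr) := by
    refine (continuous_fst.prodMk (continuous_pi fun i => ?_)).prodMk continuous_snd
    split_ifs
    · exact (Q.continuous_lact m₂ d₂ i).comp continuous_snd
    · exact continuous_const
  refine (((Q.isCompact_Om m₁).prod ((Q.isCompact_Om m₂).prod
    (hC.image continuous_snd))).image h1).of_isClosed_subset
      ((Q.isClosed_CM m₁ m₂ d₁ d₂).inter (hC.isClosed.preimage (Q.CBMlt_cont_mlt m₁))) ?_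
  rintro p ⟨hp, hpC⟩
  exact ⟨(p.1.1, p.2), ⟨hp.1.1.1, hp.1.2.1, _, hpC, rfl⟩,
    Prod.ext (Prod.ext rfl (funext fun i => (Q.CBMlt_fst hp i).symm)) rfl⟩
theorem mul_tl {l : Q.Lam} (hl : l ∈ Q.Box m₁) (l' : Q.Lam) :
    (fun k => ∑ a ∈ Finset.Icc (-(m₁ : ℤ)) m₁, Q.tl l a * Q.tl l' (k - a)) = Q.tl (l + l') := by
  funext k
  ext x y
  simp only [tl, Matrix.diagonal_mul_diagonal, Matrix.sum_apply, Matrix.diagonal_apply]
  by_cases hxy : x = y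
  · simp only [if_pos hxy]
    have h1 : Q.lv l x ∈ Finset.Icc (-(m₁ : ℤ)) m₁ := by
      cases x with
      | none => simp [lv]
      | some c => exact Fintype.mem_piFinset.1 hl c
    have h2 : Q.lv (l + l') x = Q.lv l x + Q.lv l' x := by
      cases x with
      | none => simp [lv]
      | some c => rfl
    rw [Finset.sum_eq_single (Q.lv l x) (fun a _ ha => by rw [if_neg ha.symm, zero_mul])
      (fun h => absurd h1 h), if_pos rfl, one_mul, h2]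
    exact if_congr (by omega) rfl rfl
  · simp only [if_neg hxy, Finset.sum_const_zero]
theorem nuJ_bmk (d : ℕ) (s : ℕ → Q.Arr) (e : Fr Q.Var) :
    Q.nuJ d (bmk Q.KK Q.actJ (s, e)) = Q.nrm d s :=
  Q.isAct_J.blift_bmk (P := univ) (F := fun p => Q.nrm d p.1)
    (fun _ hu p _ => Q.nrm_act d hu p.1) (mem_univ (s, e))
theorem CBMlt_le_nrm (s : ℕ → Q.Arr) {d i : ℕ} (hi : i < d) (h : Fin Q.nA)
    (a b : Option (Fin Q.nB)) : ‖s i h a b‖ ^ 2 ≤ Q.nrm d s := by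
  refine le_trans ?_ (Finset.single_le_sum (f := fun i => ∑ h, ∑ k, ∑ l, ‖s i h k l‖ ^ 2)
    (fun _ _ => by positivity) (Finset.mem_range.2 hi))
  refine le_trans ?_ (Finset.single_le_sum (f := fun h => ∑ k, ∑ l, ‖s i h k l‖ ^ 2)
    (fun _ _ => by positivity) (Finset.mem_univ h))
  refine le_trans ?_ (Finset.single_le_sum (f := fun k => ∑ l, ‖s i h k l‖ ^ 2)
    (fun _ _ => by positivity) (Finset.mem_univ a))
  exact Finset.single_le_sum (f := fun l => ‖s i h a l‖ ^ 2)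
    (fun _ _ => by positivity) (Finset.mem_univ b)

theorem nuJ_bound (d : ℕ) (R : ℝ) : ∃ R' : ℝ, ∀ s ∈ Q.Jet d, ∀ e,
    Q.nuJ d (bmk Q.KK Q.actJ (s, e)) ≤ R → ∀ q, ‖Q.coJ d s q‖ ≤ R' := by
  refine ⟨√R, fun s _ e hR q => Real.le_sqrt_of_sq_le ?_⟩
  rw [Q.nuJ_bmk] at hR
  exact (Q.CBMlt_le_nrm s (Finset.mem_range.1 (Finset.mem_product.1 q.2).2) _ _ _).trans hR
theorem CBMlt_nrm_eq {d : ℕ} {s : ℕ → Q.Arr} (hs : s ∈ Q.Jet d) :
    Q.nrm d s = ∑ q, ‖Q.coJ d s q‖ ^ 2 := by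
  have h1 := Finset.sum_coe_sort (Q.WI ×ˢ Finset.range d)
    fun q : Q.Ps × ℕ => ‖s q.2 q.1.1 q.1.2.1 q.1.2.2‖ ^ 2
  rw [Finset.sum_product_right] at h1
  refine Eq.trans (Finset.sum_congr rfl fun i _ => ?_) h1.symm
  rw [WI, Finset.sum_filter_of_ne, Fintype.sum_prod_type]
  · exact Finset.sum_congr rfl fun h _ => (Fintype.sum_prod_type
      fun x : Option (Fin Q.nB) × Option (Fin Q.nB) => ‖s i h x.1 x.2‖ ^ 2).symm
  · intro p _ hp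
    refine hs.1 i p.1 p.2.1 p.2.2 fun h0 => hp ?_
    simp only [h0, norm_zero]
    norm_num

theorem CBMlt_convex {ι : Type} [Fintype ι] (ε : ℝ) :
    Convex ℝ {x : ι → ℂ | ∑ q, ‖x q‖ ^ 2 < ε} := by
  have h : ∀ s : Finset ι, ConvexOn ℝ univ fun x : ι → ℂ => ∑ q ∈ s, ‖x q‖ ^ 2 := by
    classical
    intro s
    induction s using Finset.induction_on with
    | empty => simpa using convexOn_const (0 : ℝ) (convex_univ (𝕜 := ℝ) (E := ι → ℂ))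
    | insert a s ha ih =>
      simp only [Finset.sum_insert ha]
      have h1 : ConvexOn ℝ univ fun x : ι → ℂ => ‖x a‖ :=
        convexOn_univ_norm.comp_linearMap (LinearMap.proj a : (ι → ℂ) →ₗ[ℝ] ℂ)
      exact (h1.pow (fun x _ => norm_nonneg _) 2).add ih
  simpa using (h Finset.univ).convex_lt ε

theorem CBMlt_out (d : ℕ) {ε : ℝ} (hε : 0 < ε) :
    Subsingleton (Hc (Q.Jet d \ {s | Q.nrm d s < ε})) := by
  obtain ⟨g, hg⟩ := (Q.cd_J d).homeo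
  have h1 := (hg.restrict (B := univ \ {x | ∑ q, ‖x q‖ ^ 2 < ε}) sdiff_subset).subsingleton
    (subsingleton_compl_convex (CBMlt_convex ε) (isOpen_lt (by fun_prop) continuous_const)
      ⟨0, by simpa using hε⟩)
  have h2 : Q.Jet d \ {s | Q.nrm d s < ε} =
      Q.Jet d ∩ Q.coJ d ⁻¹' (univ \ {x | ∑ q, ‖x q‖ ^ 2 < ε}) := by
    ext s
    refine and_congr_right fun hs => ?_
    rw [mem_ofPred_eq, Q.CBMlt_nrm_eq hs]
    exact ⟨fun h => ⟨mem_univ _, h⟩, fun h => h.2⟩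
  rw [h2]
  exact h1

theorem CBMlt_ball (d : ℕ) (ε : ℝ) (s : ℕ → Q.Arr) (e : Fr Q.Var) :
    bmk Q.KK Q.actJ (s, e) ∈ Q.ballJ d ε ↔ Q.nrm d s < ε := by
  refine ⟨?_, fun h => ⟨s, h, e, mem_univ _, rfl⟩⟩
  rintro ⟨s', hs', e', -, h⟩
  rw [← Q.nuJ_bmk d s e, h, Q.nuJ_bmk]
  exact hs'

theorem gysinData (m₁ m₂ d₁ d₂ n : ℕ) :
    GysinData (BL Q.KK Q.actRR (Q.RR m₁ d₁ ×ˢ Q.RR m₂ d₂) Q.lab n)
      (BL Q.KK Q.actRR (Q.CM m₁ m₂ d₁ d₂) Q.lab n) (BL Q.KK Q.actJ (Q.Jet d₁) Q.lab n)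
      (Q.ballJ d₁) (bmap Q.KK Q.actJ (Q.sec m₂ d₁ d₂) id) (Q.nuJ d₁) := by
  have hE := frOK_St Q.lab n
  have hs := Q.em_sec m₁ m₂ d₁ d₂
  refine ⟨hE.lc_BS Q.isAct_RR Subset.rfl hs.inv ((Q.lc_RR m₁ d₁).prod (Q.lc_RR m₂ d₂)),
    hE.lc_BS Q.isAct_J Subset.rfl hs.inv₁ (Q.lc_Jet d₁), hs.contOn hE, hs.mapsTo _, ?_, ?_, ?_, ?_,
    fun ε hε => ?_⟩
  · rw [BL, BS_eq]
    exact Q.isAct_J.continuousOn_blift (hE.inv_prod Subset.rfl hs.inv₁)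
      (fun _ hu p _ => Q.nrm_act d₁ hu p.1)
      ((Q.continuous_nrm d₁).comp continuous_fst).continuousOn
  · rintro _ ⟨s, -, e, -, rfl⟩
    rw [Q.nuJ_bmk, nrm]
    positivity
  · rintro ε _ ⟨s, -, e, -, rfl⟩
    rw [Q.nuJ_bmk, Q.CBMlt_ball]
  · ext y
    constructor
    · rintro ⟨p, hp, e, he, rfl⟩
      refine ⟨⟨p, hp.1, e, he, rfl⟩, ?_⟩
      rw [mem_ofPred_eq, hs.bmap_bmk hp.1, Q.nuJ_bmk, hp.2]
      simp [nrm]
    · rintro ⟨⟨p, hp, e, he, rfl⟩, h0⟩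
      refine ⟨p, ⟨hp, funext fun i => ?_⟩, e, he, rfl⟩
      rw [mem_ofPred_eq, hs.bmap_bmk hp, Q.nuJ_bmk] at h0
      by_cases hi : i < d₁
      · ext h a b
        have h1 := Q.CBMlt_le_nrm (Q.sec m₂ d₁ d₂ p) hi h a b
        rw [h0] at h1
        exact norm_eq_zero.1 (pow_eq_zero_iff two_ne_zero |>.1 (le_antisymm h1 (by positivity)))
      · exact if_neg hi
  · have h1 : InvX Q.KK Q.actJ (Q.Jet d₁ \ {s | Q.nrm d₁ s < ε}) := fun u hu s h =>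
      ⟨hs.inv₁ u hu s h.1, fun h' => h.2 (by rwa [mem_ofPred_eq, Q.nrm_act d₁ hu] at h')⟩
    have h2 : BL Q.KK Q.actJ (Q.Jet d₁) Q.lab n \ Q.ballJ d₁ ε =
        BS Q.KK Q.actJ (Q.Jet d₁ \ {s | Q.nrm d₁ s < ε}) (St Q.lab n) := by
      ext y
      constructor
      · rintro ⟨⟨s, h, e, he, rfl⟩, h0⟩
        exact ⟨s, ⟨h, fun h' => h0 ((Q.CBMlt_ball d₁ ε s e).2 h')⟩, e, he, rfl⟩
      · rintro ⟨s, h, e, he, rfl⟩
        exact ⟨⟨s, h.1, e, he, rfl⟩, fun h' => h.2 ((Q.CBMlt_ball d₁ ε s e).1 h')⟩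
    rw [h2]
    exact Q.isAct_J.vanish_fibres h1 hE.inv (hE.freeOn Subset.rfl) (LC.of_isCompact hE.cpt)
      ((Q.lc_Jet d₁).closedIn ⟨{s | Q.nrm d₁ s < ε}ᶜ,
        (isOpen_lt (Q.continuous_nrm d₁) continuous_const).isClosed_compl, rfl⟩)
      (Q.CBMlt_out d₁ hε)

end Qv

end Pool.Agent.HK
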