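import Pool.Agent.P.MP_1206ce_ag.CB.Conv
import Pool.Agent.P.MP_1206ce_ag.CB.Deg

/-! Borel-Moore classes are represented by elements of the group algebra. -/

open scoped Topology
open Filter Set

noncomputable section

namespace Pool.Agent.HK

theorem Ev.and {P P' : ℕ → ℕ → Prop} (h : Ev P) (h' : Ev P') : Ev fun m d => P m d ∧ P' m d := by
  obtain ⟨m, h⟩ := h
  obtain ⟨m', h'⟩ := h'
  exact ⟨max m m', fun k d hk hd =>
    ⟨h k d (le_trans (le_max_left _ _) hk) hd, h' k d (le_trans (le_max_right _ _) hk) hd⟩⟩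

theorem Ev.imp {P P' : ℕ → ℕ → Prop} (h : Ev P) (h' : ∀ m d, 2 * m ≤ d → P m d → P' m d) :
    Ev P' := by
  obtain ⟨m, h⟩ := h
  exact ⟨m, fun k d hk hd => h' k d hd (h k d hk hd)⟩

theorem Ev.exists {P : ℕ → ℕ → Prop} (h : Ev P) : ∃ m d, 2 * m ≤ d ∧ P m d := by
  obtain ⟨m, h⟩ := h
  exact ⟨m, 2 * m, le_rfl, h m _ le_rfl le_rfl⟩

namespace Qv

variable (Q : Qv)

/-- The evaluations of a family. -/
def evF (ζ : ℂ) (d : ℕ) (a : Fam Q.YR) : Q.Lam → Q.Pol := fun l => Q.ev ζ l d a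

/-- `z` represents `c` at the truncation `(m, d)`. -/
def RepAt (ζ : ℂ) (c : Q.Fun) (z : Q.AA) (m d : ℕ) : Prop :=
  (∀ l, z.coeff l ≠ 0 → l ∈ Q.Box m) ∧ ∀ a, IsFam True (Q.BR (Q.RR m d)) a →
    algebraMap Q.Pol Q.Frac (val Q.lab (c m d a)) = Q.pair (Q.Box m) (Q.cf z) (Q.evF ζ d a)

/-- `z` represents `c`. -/
def Rep (ζ : ℂ) (c : Q.Fun) (z : Q.AA) : Prop := Ev (Q.RepAt ζ c z)

/-- The pairings with `z` are invariant polynomials. -/
def IntAt (ζ : ℂ) (z : Q.AA) (m d : ℕ) : Prop :=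
  (∀ l, z.coeff l ≠ 0 → l ∈ Q.Box m) ∧ ∀ a, IsFam True (Q.BR (Q.RR m d)) a →
    ∃ r ∈ Rinv Q.lab, Q.pair (Q.Box m) (Q.cf z) (Q.evF ζ d a) = algebraMap Q.Pol Q.Frac r

/-- The values of `c` are families. -/
def FamV (c : Q.Fun) : Prop :=
  Ev fun m d => ∀ a, IsFam True (Q.BR (Q.RR m d)) a → IsFam False Q.BK (c m d a)

variable {Q} {τ : Fam Q.YN} {ζ : ℂ} {c c' : Q.Fun} {z z' : Q.AA} {m d : ℕ} {a b : Fam Q.YR}

theorem Rep_inj (Q : Qv) : Function.Injective (algebraMap Q.Pol Q.Frac) :=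
  IsFractionRing.injective _ _

theorem Rep_closed {S S' : Set Q.Tr} (hS : InvX Q.KK Q.actR S) (hc : IsClosed S') (hs : S' ⊆ S)
    (n : ℕ) : ClosedIn (Q.BR S' n) (Q.BR S n) :=
  (frOK_St Q.lab n).closedIn_BS Q.isAct_R subset_rfl hS
    ⟨S', hc, (inter_eq_right.2 hs).symm⟩

theorem Rep_restrict (ha : IsFam True (Q.BR (Q.RR (m + 1) d)) a) :
    IsFam True (Q.BR (Q.RR m d)) a :=
  ha.restrict (Rep_closed (Q.invX_RR _ _) (Q.isClosed_RR _ _) (Q.RR_mono m d))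

theorem evF_mem (ha : IsFam True (Q.BR (Q.RR m d)) a) : Q.evF ζ d a ∈ Q.EvSet ζ m d :=
  ⟨a, ha, fun _ _ => rfl⟩

theorem Rep_unique_at (hζ : ζ ≠ 0) (hd : 2 * m ≤ d) (hz : ∀ l, z.coeff l ≠ 0 → l ∈ Q.Box m)
    (hz' : ∀ l, z'.coeff l ≠ 0 → l ∈ Q.Box m)
    (h : ∀ a, IsFam True (Q.BR (Q.RR m d)) a → Q.pair (Q.Box m) (Q.cf z) (Q.evF ζ d a) =
      Q.pair (Q.Box m) (Q.cf z') (Q.evF ζ d a)) : z = z' := by
  refine eq_of_cf hz hz' ((Q.locData hd hζ).unique' ?_)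
  rintro f ⟨a, ha, hf⟩
  rw [pair_congr (fun _ _ => rfl) hf, pair_congr (fun _ _ => rfl) hf]
  exact h a ha

theorem Rep.unique (hζ : ζ ≠ 0) (h : Q.Rep ζ c z) (h' : Q.Rep ζ c z') : z = z' := by
  obtain ⟨m, d, hd, h₁, h₂⟩ := (Ev.and h h').exists
  exact Rep_unique_at hζ hd h₁.1 h₂.1 fun a ha => (h₁.2 a ha).symm.trans (h₂.2 a ha)

theorem exists_repAt (hζ : ζ ≠ 0) (hd : 2 * m ≤ d) (hc : Q.IsLin (Q.RR m d) (c m d)) :
    ∃ z, Q.RepAt ζ c z m d := by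
  classical
  let φ : (Q.Lam → Q.Pol) → Q.Frac := fun f =>
    if h : f ∈ Q.EvSet ζ m d then algebraMap Q.Pol Q.Frac (val Q.lab (c m d h.choose)) else 0
  have key : ∀ f a, IsFam True (Q.BR (Q.RR m d)) a → (∀ l ∈ Q.Box m, f l = Q.ev ζ l d a) →
      φ f = algebraMap Q.Pol Q.Frac (val Q.lab (c m d a)) := by
    intro f a ha hf
    have h : f ∈ Q.EvSet ζ m d := ⟨a, ha, hf⟩
    have h1 := h.choose_spec
    simp only [φ, dif_pos h]
    congr 1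
    refine val_congr (((hc _ h1.1).2.1 a ha).1 (ev_inj' hd hζ h1.1 ha fun l hl => ?_))
    rw [← h1.2 l hl, hf l hl]
  have hU : ∀ l ∈ Q.Box m, Q.UL l d ⊆ Q.RR m d := fun l hl => Q.UL_subset_RR hl d
  refine ((Q.locData hd hζ).exists_coef φ ?_ ?_ ?_).elim fun γ hγ => ?_
  · rintro f ⟨a, ha, hf⟩ g ⟨b, hb, hg⟩
    rw [key f a ha hf, key g b hb hg, key (f + g) (a + b) (ha.add hb) fun l hl => by
      rw [ev_add (Q.invX_RR m d) (hU l hl) ha hb, Pi.add_apply, hf l hl, hg l hl],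
      val_congr ((hc a ha).2.1 b hb).2, val_add (hc a ha).1 (hc b hb).1, map_add]
  · rintro r hr f ⟨a, ha, hf⟩
    have hu : IsFam False Q.BK (chC Q.lab r) := isFam_chC (CBVal_refl _) hr
    have hm : IsFam True (Q.BR (Q.RR m d)) (cupF (pbF Q.toPt (chC Q.lab r)) a) :=
      isFam_mul Q.isAct_R (isGrp_KG _) subset_rfl subset_rfl (Q.invX_RR m d) hu ha
    rw [key f a ha hf, key (r • f) _ hm fun l hl => by
      rw [ev_mul (Q.invX_RR m d) (hU l hl) ha hu, val_chC hr, Pi.smul_apply, hf l hl, smul_eq_mul],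
      val_congr ((hc a ha).2.2 _ hu), val_cupF hu (hc a ha).1, val_chC hr, map_mul]
  · intro f _ h0
    have hz : IsFam True (Q.BR (Q.RR m d)) 0 := IsFam.zero _ _
    rw [key f 0 hz fun l hl => by rw [h0 l hl, ev_zero]]
    have h1 := val_congr ((hc 0 hz).2.1 0 hz).2
    rw [add_zero, val_add (hc 0 hz).1 (hc 0 hz).1] at h1
    rw [left_eq_add.1 h1, map_zero]
  · obtain ⟨z, hz, he⟩ := exists_cf (Q.Box m) γ
    refine ⟨z, hz, fun a ha => ?_⟩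
    rw [← key _ a ha fun _ _ => rfl, pair_congr he fun _ _ => rfl]
    exact hγ _ (evF_mem ha)

theorem pair_thF (h : Q.ThomZ τ ζ) (hd : 2 * m ≤ d) (ha : IsFam True (Q.BR (Q.RR m d)) a)
    (γ : Q.Lam → Q.Frac) : Q.pair (Q.Box m) γ (Q.evF ζ (d + 1) (Q.thF τ d a)) =
      Q.pair (Q.Box m) γ (Q.evF ζ d a) :=
  pair_congr (fun _ _ => rfl) fun _ hl => ev_thF h hd hl ha

theorem exists_rep (h : Q.ThomZ τ ζ) (hc : Q.IsBM τ c) : ∃ z, Q.Rep ζ c z := by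
  obtain ⟨m₀, hc⟩ := hc
  obtain ⟨z, hz⟩ := exists_repAt h.ne le_rfl (hc m₀ _ le_rfl le_rfl).1
  have h1 : ∀ d, 2 * m₀ ≤ d → Q.RepAt ζ c z m₀ d := by
    intro d hd
    induction d, hd using Nat.le_induction with
    | base => exact hz
    | succ d hd ih =>
      obtain ⟨z', hz'⟩ := exists_repAt h.ne (Nat.le_succ_of_le hd)
        (hc m₀ _ le_rfl (Nat.le_succ_of_le hd)).1
      have : z = z' := by
        refine Rep_unique_at h.ne hd ih.1 hz'.1 fun a ha => ?_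
        rw [← ih.2 a ha, ← pair_thF h hd ha, ← hz'.2 _ (isFam_thF h hd ha)]
        congr 1
        exact (val_congr ((hc m₀ d le_rfl hd).2.2 a ha)).symm
      exact this ▸ hz'
  refine ⟨z, m₀, fun m d hm => ?_⟩
  induction m, hm using Nat.le_induction with
  | base => exact h1 d
  | succ m hm ih =>
    intro hd
    have hd' : 2 * m ≤ d := by omega
    have ih := ih hd'
    refine ⟨fun l hl => Q.Box_mono (Nat.le_succ m) (ih.1 l hl), fun a ha => ?_⟩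
    rw [pair_subset (Q.Box_mono (Nat.le_succ m)) ih.1, ← ih.2 a (Rep_restrict ha)]
    congr 1
    exact val_congr ((hc m d hm hd').2.1 a ha hd)

theorem IsBM.famV (hc : Q.IsBM τ c) : Q.FamV c :=
  Ev.imp hc fun _ _ _ h a ha => (h.1 a ha).1

theorem isBM_of_rep (h : Q.ThomZ τ ζ) (hf : Q.FamV c) (hr : Q.Rep ζ c z) : Q.IsBM τ c := by
  obtain ⟨m₀, H⟩ := Ev.and hf hr
  refine ⟨m₀, fun m d hm hd => ?_⟩
  obtain ⟨hf, hs, hr⟩ := H m d hm hd
  have hU : ∀ l ∈ Q.Box m, Q.UL l d ⊆ Q.RR m d := fun l hl => Q.UL_subset_RR hl d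
  refine ⟨fun a ha => ⟨hf a ha, fun b hb => ⟨fun hab => ?_, ?_⟩, fun u hu => ?_⟩,
    fun a ha hd' => ?_, fun a ha => ?_⟩
  · refine (famEq_iff_val (hf a ha) (hf b hb)).2 (Q.Rep_inj ?_)
    rw [hr a ha, hr b hb]
    exact pair_congr (fun _ _ => rfl) fun l hl => ev_congr (Q.invX_RR m d) (hU l hl) hab ζ
  · refine (famEq_iff_val (hf _ (ha.add hb)) ((hf a ha).add (hf b hb))).2 (Q.Rep_inj ?_)
    rw [val_add (hf a ha) (hf b hb), map_add, hr a ha, hr b hb, hr _ (ha.add hb),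
      ← pair_add_right]
    exact pair_congr (fun _ _ => rfl) fun l hl => ev_add (Q.invX_RR m d) (hU l hl) ha hb ζ
  · have hm : IsFam True (Q.BR (Q.RR m d)) (cupF (pbF Q.toPt u) a) :=
      isFam_mul Q.isAct_R (isGrp_KG _) subset_rfl subset_rfl (Q.invX_RR m d) hu ha
    refine (famEq_iff_val (hf _ hm) (hu.cupF (hf a ha))).2 (Q.Rep_inj ?_)
    rw [val_cupF hu (hf a ha), map_mul, hr a ha, hr _ hm, ← pair_smul_right]
    exact pair_congr (fun _ _ => rfl) fun l hl => ev_mul (Q.invX_RR m d) (hU l hl) ha hu ζ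
  · obtain ⟨hf', -, hr'⟩ := H (m + 1) d (Nat.le_succ_of_le hm) hd'
    refine (famEq_iff_val (hf' a ha) (hf a (Rep_restrict ha))).2 (Q.Rep_inj ?_)
    rw [hr' a ha, hr a (Rep_restrict ha), pair_subset (Q.Box_mono (Nat.le_succ m)) hs]
  · obtain ⟨hf', -, hr'⟩ := H m (d + 1) hm (Nat.le_succ_of_le hd)
    have ht := isFam_thF h hd ha
    refine (famEq_iff_val (hf' _ ht) (hf a ha)).2 (Q.Rep_inj ?_)
    rw [hr' _ ht, hr a ha, pair_thF h hd ha]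

theorem Rep.int (h : Q.Rep ζ c z) : Ev (Q.IntAt ζ z) :=
  Ev.imp h fun _ _ _ h => ⟨h.1, fun a ha => ⟨_, val_mem _ _, (h.2 a ha).symm⟩⟩

theorem exists_isBM (h : Q.ThomZ τ ζ) (hz : Ev (Q.IntAt ζ z)) :
    ∃ c, Q.IsBM τ c ∧ Q.Rep ζ c z := by
  classical
  let r : ℕ → ℕ → Fam Q.YR → Q.Pol := fun m d a =>
    if h : ∃ r ∈ Rinv Q.lab, Q.pair (Q.Box m) (Q.cf z) (Q.evF ζ d a) = algebraMap Q.Pol Q.Frac r
    then h.choose else 0
  have hr : ∀ m d a, r m d a ∈ Rinv Q.lab := by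
    intro m d a
    simp only [r]
    split_ifs with h
    · exact h.choose_spec.1
    · exact zero_mem _
  have hR : Q.Rep ζ (fun m d a => chC Q.lab (r m d a)) z := by
    refine Ev.imp hz fun m d _ h => ⟨h.1, fun a ha => ?_⟩
    have h1 := h.2 a ha
    rw [val_chC (hr m d a)]
    simp only [r, dif_pos h1]
    exact h1.choose_spec.2.symm
  exact ⟨_, isBM_of_rep h ⟨0, fun m d _ _ a _ => isFam_chC (CBVal_refl _) (hr m d a)⟩ hR, hR⟩

end Qv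

end Pool.Agent.HK
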