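import Pool.Agent.P.MP_1206ce_ag.CB.Rep

/-! The abelianised convolution algebra and the compatibility of its structures. -/

open scoped Topology
open Filter Set

noncomputable section

namespace Pool.Agent.HK

namespace Qv

variable {Q : Qv} {τ : Fam Q.YN} {ζ : ℂ} {c c' c'' : Q.Fun} {z z' : Q.AA} {m d : ℕ}
  {a b : Fam Q.YR}

theorem evF_wl (ha : IsFam True (Q.BR (Q.RR m d)) a) {l : Q.Lam} (hl : l ∈ Q.Box m)
    {w : Equiv.Perm Q.Var} (hw : w ∈ Wl Q.lab) :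
    Q.evF ζ d a (Q.wl w l) = MvPolynomial.rename w (Q.evF ζ d a l) :=
  ev_wl (Q.invX_RR m d) (Q.UL_subset_RR hl d) ha hw ζ

theorem wl_zero (w : Equiv.Perm Q.Var) : Q.wl w 0 = 0 := by
  funext k
  simp only [wl]
  cases w.symm (Sum.inl k) <;> rfl

theorem pair_conv (h : Q.ThomZ τ ζ) {m₁ m₂ d₁ d₂ : ℕ} (h₁ : 2 * m₁ ≤ d₁) (h₂ : d₁ + 2 * m₂ ≤ d₂)
    (hz : ∀ l, z.coeff l ≠ 0 → l ∈ Q.Box m₁) (hz' : ∀ l, z'.coeff l ≠ 0 → l ∈ Q.Box m₂)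
    (hb : IsFam True (Q.BR (Q.RR (m₁ + m₂) d₂)) b) {N : ℕ} {α β : Fin N → Fam Q.YR}
    (hG : Q.GysDec τ m₁ m₂ d₁ d₂ b N α β) :
    ∑ j, Q.pair (Q.Box m₁) (Q.cf z) (Q.evF ζ d₁ (α j)) *
      Q.pair (Q.Box m₂) (Q.cf z') (Q.evF ζ d₂ (β j)) =
      Q.pair (Q.Box (m₁ + m₂)) (Q.cf (z * z')) (Q.evF ζ d₂ b) :=
  pair_mul hz hz' fun _ hl _ hl' => conv_formula h hl hl' h₁ h₂ hb hG

theorem int_add (hz : Ev (Q.IntAt ζ z)) (hz' : Ev (Q.IntAt ζ z')) : Ev (Q.IntAt ζ (z + z')) := by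
  refine (Ev.and hz hz').imp fun m d _ h => ⟨fun l hl => ?_, fun a ha => ?_⟩
  · by_contra hn
    apply hl
    rw [AddMonoidAlgebra.coeff_add, Finsupp.add_apply, not_not.1 (mt (h.1.1 l) hn),
      not_not.1 (mt (h.2.1 l) hn), add_zero]
  · obtain ⟨r, hr, e⟩ := h.1.2 a ha
    obtain ⟨r', hr', e'⟩ := h.2.2 a ha
    exact ⟨r + r', add_mem hr hr', by rw [cf_add, pair_add_left, e, e', map_add]⟩

theorem supp_iota_mul (r : Q.Pol) {l : Q.Lam} (h : (Q.iota r * z).coeff l ≠ 0) :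
    z.coeff l ≠ 0 := fun h0 => h (by rw [coeff_iota_mul, h0, mul_zero])

theorem int_iota_mul {r : Q.Pol} (hr : r ∈ Rinv Q.lab) (hz : Ev (Q.IntAt ζ z)) :
    Ev (Q.IntAt ζ (Q.iota r * z)) := by
  refine hz.imp fun m d _ h => ⟨fun l hl => h.1 l (supp_iota_mul r hl), fun a ha => ?_⟩
  obtain ⟨r', hr', e⟩ := h.2 a ha
  exact ⟨r * r', mul_mem hr hr', by rw [pair_iota_mul, e, map_mul]⟩

theorem int_one : Ev (Q.IntAt ζ 1) := by
  refine ⟨0, fun m d _ _ => ⟨fun l hl => supp_one hl ▸ Q.zero_mem_Box m, fun a ha =>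
    ⟨Q.evF ζ d a 0, fun w hw => ?_, pair_one (Q.zero_mem_Box m)⟩⟩⟩
  rw [← evF_wl ha (Q.zero_mem_Box m) hw, wl_zero]

theorem int_mul (h : Q.ThomZ τ ζ) (hz : Ev (Q.IntAt ζ z)) (hz' : Ev (Q.IntAt ζ z')) :
    Ev (Q.IntAt ζ (z * z')) := by
  obtain ⟨m₀, H⟩ := Ev.and hz hz'
  refine ⟨2 * m₀, fun m d hm hd => ?_⟩
  obtain ⟨m₂, rfl⟩ : ∃ m₂, m = m₀ + m₂ := ⟨m - m₀, by omega⟩
  have H₁ := (H m₀ _ le_rfl le_rfl).1
  have H₂ := (H m₂ d (by omega) (by omega)).2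
  refine ⟨supp_mul H₁.1 H₂.1, fun b hb => ?_⟩
  obtain ⟨N, α, β, hG⟩ := conv_exists h (le_refl (2 * m₀)) hb
  choose r hr e using fun j => H₁.2 _ (hG.1 j).1
  choose r' hr' e' using fun j => H₂.2 _ (hG.1 j).2
  refine ⟨∑ j, r j * r' j, sum_mem fun j _ => mul_mem (hr j) (hr' j), ?_⟩
  rw [← pair_conv h le_rfl (by omega) H₁.1 H₂.1 hb hG, map_sum]
  exact Finset.sum_congr rfl fun j _ => by rw [e, e', map_mul]

/-- The abelianised convolution algebra. -/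
def coulS (h : Q.ThomZ τ ζ) : Subalgebra ℂ Q.AA where
  carrier := {z | Ev (Q.IntAt ζ z)}
  mul_mem' := int_mul h
  add_mem' := int_add
  algebraMap_mem' := fun x => by
    rw [Algebra.algebraMap_eq_smul_one, smul_eq_iota]
    exact int_iota_mul (algebraMap_mem (Rinv Q.lab) x) int_one

theorem supp_mono {l l' : Q.Lam} {p : Q.Pol} (h : (Q.mono l p).coeff l' ≠ 0) :
    ∃ w ∈ Wl Q.lab, l' = Q.wl w l := by
  classical
  by_contra hn
  push Not at hn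
  apply h
  rw [mono, AddMonoidAlgebra.coeff_sum, Finsupp.finsetSum_apply]
  refine Finset.sum_eq_zero fun w hw => ?_
  rw [AddMonoidAlgebra.coeff_single, Finsupp.single_apply, if_neg (hn w hw).symm]

theorem isCoul_coulS (h : Q.ThomZ τ ζ) : Q.IsCoul (coulS h) := by
  refine ⟨fun l p => ?_, fun z hz => ?_⟩
  · obtain ⟨m₀, hm₀⟩ := Q.exists_Box {l}
    refine ⟨m₀, fun m d hm _ => ?_⟩
    have hl : l ∈ Q.Box m := Q.Box_mono hm (hm₀ (Finset.mem_singleton_self l))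
    refine ⟨fun l' hl' => ?_, fun a ha =>
      pair_mono (fun w hw => Q.wl_mem_Box hw hl) (fun w hw => evF_wl ha hl hw) p⟩
    obtain ⟨w, hw, rfl⟩ := supp_mono hl'
    exact Q.wl_mem_Box hw hl
  · obtain ⟨m, d, hd, H⟩ := Ev.exists hz
    refine (Q.locData hd h.ne).trp H.1 ?_
    rintro f ⟨a, ha, hf⟩
    rw [pair_congr (fun _ _ => rfl) hf]
    exact H.2 a ha

open Classical in
/-- The abelianisation map. -/
def abel (h : Q.ThomZ τ ζ) (c : Q.Fun) : coulS h :=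
  if H : ∃ z, Q.Rep ζ c z then ⟨H.choose, H.choose_spec.int⟩ else 0

theorem rep_abel (h : Q.ThomZ τ ζ) (hc : Q.IsBM τ c) : Q.Rep ζ c (abel h c).1 := by
  have H := exists_rep h hc
  rw [abel, dif_pos H]
  exact H.choose_spec

theorem abel_eq (h : Q.ThomZ τ ζ) (hc : Q.IsBM τ c) (hr : Q.Rep ζ c z) : (abel h c).1 = z :=
  (rep_abel h hc).unique h.ne hr

theorem FamV.smul (x : ℂ) (hf : Q.FamV c) : Q.FamV (x • c) :=
  Ev.imp hf fun _ _ _ H a ha => (H a ha).smul x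

theorem FamV.add (hf : Q.FamV c) (hf' : Q.FamV c') : Q.FamV (c + c') :=
  (Ev.and hf hf').imp fun _ _ _ H a ha => (H.1 a ha).add (H.2 a ha)

theorem Rep.smul (x : ℂ) (hf : Q.FamV c) (hr : Q.Rep ζ c z) : Q.Rep ζ (x • c) (x • z) := by
  refine (Ev.and hf hr).imp fun m d _ H => ?_
  rw [smul_eq_iota]
  refine ⟨fun l hl => H.2.1 l (supp_iota_mul _ hl), fun a ha => ?_⟩
  rw [pair_iota_mul, ← H.2.2 a ha, ← map_mul, ← MvPolynomial.smul_eq_C_mul,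
    ← val_smul x (H.1 a ha)]
  rfl

theorem Rep.add (hf : Q.FamV c) (hf' : Q.FamV c') (hr : Q.Rep ζ c z) (hr' : Q.Rep ζ c' z') :
    Q.Rep ζ (c + c') (z + z') := by
  refine (Ev.and (Ev.and (Ev.and hf hf') (Ev.and hr hr')) (int_add hr.int hr'.int)).imp
    fun m d _ H => ⟨H.2.1, fun a ha => ?_⟩
  rw [cf_add, pair_add_left, ← H.1.2.1.2 a ha, ← H.1.2.2.2 a ha, ← map_add,
    ← val_add (H.1.1.1 a ha) (H.1.1.2 a ha)]
  rfl

theorem bmEq_iff (hζ : ζ ≠ 0) (hf : Q.FamV c) (hf' : Q.FamV c') (hr : Q.Rep ζ c z)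
    (hr' : Q.Rep ζ c' z') : Q.BMEq c c' ↔ z = z' := by
  constructor
  · intro he
    refine Rep.unique hζ ((Ev.and he hr).imp fun m d _ H => ⟨H.2.1, fun a ha => ?_⟩) hr'
    rw [← val_congr (H.1 a ha), H.2.2 a ha]
  · rintro rfl
    refine (Ev.and (Ev.and hf hf') (Ev.and hr hr')).imp fun m d _ H a ha => ?_
    refine (famEq_iff_val (H.1.1 a ha) (H.1.2 a ha)).2 (Q.Rep_inj ?_)
    rw [H.2.1.2 a ha, H.2.2.2 a ha]

theorem isOne_iff (h : Q.ThomZ τ ζ) (hf : Q.FamV c) (hr : Q.Rep ζ c z) :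
    Q.IsOne τ c ↔ z = 1 := by
  have key : ∀ m d a, IsFam True (Q.BR (Q.RR m d)) a → IsFam False Q.BK (c m d a) →
      (FamEq True (Q.BR {p | p.1 = (fun k => if k = 0 then 1 else 0) ∧ p.2 ∈ Q.Jet d}) a
        (cupF (pbF (bmap Q.KK ptAct (fun _ => ()) id) (c m d a))
          (pbF (bmap Q.KK Q.actJ Prod.snd id) (Q.tauJ τ d))) ↔
        Q.ev ζ 0 d a = val Q.lab (c m d a)) := by
    intro m d a ha hu
    rw [← Q.UL_zero]
    exact ev_one h (ha.restrict (Rep_closed (Q.invX_RR m d) (Q.isClosed_UL 0 d)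
      (Q.UL_subset_RR (Q.zero_mem_Box m) d))) hu
  constructor
  · intro h1
    refine Rep.unique h.ne hr ((Ev.and h1 hf).imp fun m d _ H =>
      ⟨fun l hl => supp_one hl ▸ Q.zero_mem_Box m, fun a ha => ?_⟩)
    rw [pair_one (Q.zero_mem_Box m), ← (key m d a ha (H.2 a ha)).1 (H.1 a ha)]
    rfl
  · rintro rfl
    refine (Ev.and hf hr).imp fun m d _ H a ha => (key m d a ha (H.1 a ha)).2 (Q.Rep_inj ?_)
    rw [H.2.2 a ha, pair_one (Q.zero_mem_Box m)]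
    rfl

theorem val_conv (h : Q.ThomZ τ ζ) {m₁ m₂ d₁ d₂ : ℕ} (h₁ : 2 * m₁ ≤ d₁) (h₂ : d₁ + 2 * m₂ ≤ d₂)
    (hf : ∀ a, IsFam True (Q.BR (Q.RR m₁ d₁)) a → IsFam False Q.BK (c m₁ d₁ a))
    (hf' : ∀ a, IsFam True (Q.BR (Q.RR m₂ d₂)) a → IsFam False Q.BK (c' m₂ d₂ a))
    (hr : Q.RepAt ζ c z m₁ d₁) (hr' : Q.RepAt ζ c' z' m₂ d₂)
    (hb : IsFam True (Q.BR (Q.RR (m₁ + m₂) d₂)) b) {N : ℕ} {α β : Fin N → Fam Q.YR}
    (hG : Q.GysDec τ m₁ m₂ d₁ d₂ b N α β) :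
    IsFam False Q.BK (∑ j, cupF (c m₁ d₁ (α j)) (c' m₂ d₂ (β j))) ∧
    algebraMap Q.Pol Q.Frac (val Q.lab (∑ j, cupF (c m₁ d₁ (α j)) (c' m₂ d₂ (β j)))) =
      Q.pair (Q.Box (m₁ + m₂)) (Q.cf (z * z')) (Q.evF ζ d₂ b) := by
  have hj : ∀ j, IsFam False Q.BK (cupF (c m₁ d₁ (α j)) (c' m₂ d₂ (β j))) := fun j =>
    (hf _ (hG.1 j).1).cupF (hf' _ (hG.1 j).2)
  refine ⟨IsFam.sum _ fun j _ => hj j, ?_⟩
  rw [← pair_conv h h₁ h₂ hr.1 hr'.1 hb hG, val_sum _ fun j _ => hj j, map_sum]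
  refine Finset.sum_congr rfl fun j _ => ?_
  rw [val_cupF (hf _ (hG.1 j).1) (hf' _ (hG.1 j).2), map_mul, hr.2 _ (hG.1 j).1,
    hr'.2 _ (hG.1 j).2]

theorem isConv_iff (h : Q.ThomZ τ ζ) (hf : Q.FamV c) (hf' : Q.FamV c') (hf'' : Q.FamV c'')
    (hr : Q.Rep ζ c z) (hr' : Q.Rep ζ c' z') {z'' : Q.AA} (hr'' : Q.Rep ζ c'' z'') :
    Q.IsConv τ c c' c'' ↔ z'' = z * z' := by
  obtain ⟨m₀, H⟩ := Ev.and (Ev.and hf hr) (Ev.and (Ev.and hf' hr') (Ev.and hf'' hr''))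
  constructor
  · rintro ⟨k, hk⟩
    refine Rep.unique h.ne hr'' ⟨2 * max m₀ k, fun m d hm hd => ?_⟩
    obtain ⟨m₂, rfl⟩ : ∃ m₂, m = max m₀ k + m₂ := ⟨m - max m₀ k, by omega⟩
    have H₁ := (H (max m₀ k) _ (le_max_left _ _) le_rfl).1
    have H₂ := (H m₂ d (by omega) (by omega)).2.1
    refine ⟨supp_mul H₁.2.1 H₂.2.1, fun b hb => ?_⟩
    obtain ⟨N, α, β, hG⟩ := conv_exists h (le_refl (2 * max m₀ k)) hb
    rw [val_congr (hk _ m₂ _ d (le_max_right _ _) (by omega) le_rfl (by omega) b hb N α β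
      hG.1 hG.2)]
    exact (val_conv h le_rfl (by omega) H₁.1 H₂.1 H₁.2 H₂.2 hb hG).2
  · rintro rfl
    refine ⟨m₀, fun m₁ m₂ d₁ d₂ hm₁ hm₂ h₁ h₂ b hb N α β hj hG => ?_⟩
    have H₁ := (H m₁ d₁ hm₁ h₁).1
    have H₂ := (H m₂ d₂ hm₂ (by omega)).2.1
    have H₃ := (H (m₁ + m₂) d₂ (by omega) (by omega)).2.2
    have hv := val_conv h h₁ h₂ H₁.1 H₂.1 H₁.2 H₂.2 hb ⟨hj, hG⟩
    exact (famEq_iff_val (H₃.1 b hb) hv.1).2 (Q.Rep_inj ((H₃.2.2 b hb).trans hv.2.symm))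

theorem hasWt_iff (hζ : ζ ≠ 0) (hf : Q.FamV c) (hr : Q.Rep ζ c z) (θ : Fin Q.nI → ℤ) (k : ℤ) :
    Q.HasWt θ k c ↔ Q.WtA θ k z := by
  constructor
  · intro hw l hl
    obtain ⟨m, d, hd, H₁, H₂⟩ := (Ev.and hw hr).exists
    by_contra hk
    have h0 := (Q.locData hd hζ).unique
      (γ := fun l => if Q.wtL θ l = k then 0 else Q.cf z l) ?_ l (H₂.1 l hl)
    · simp only [if_neg (show ¬Q.wtL θ l = k from hk)] at h0
      exact hl (cf_eq_zero.1 h0)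
    · rintro f ⟨a, ha, hf⟩
      obtain ⟨a', ha', h0, he⟩ := exists_cut hd ha θ k ζ
      have h1 := H₂.2 a' ha'
      rw [val_congr (H₁ a' ha' h0), val_zero, map_zero] at h1
      refine Eq.trans (Finset.sum_congr rfl fun l hl => ?_) h1.symm
      rw [evF, he l hl, hf l hl]
      by_cases hk : Q.wtL θ l = k <;> simp [hk]
  · intro hw
    refine (Ev.and hf hr).imp fun m d hd H a ha h0 => ?_
    refine (famEq_iff_val (H.1 a ha) (IsFam.zero _ _)).2 (Q.Rep_inj ?_)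
    rw [val_zero, map_zero, H.2.2 a ha]
    refine Finset.sum_eq_zero fun l hl => ?_
    by_cases hz : z.coeff l = 0
    · rw [cf_eq_zero.2 hz, zero_mul]
    · rw [evF, ev_congr (invX_RRk hd θ k) (UL_subset_RRk hd hl (hw l hz)) h0, ev_zero, map_zero,
        mul_zero]

theorem ev_sum {S : Set Q.Tr} {l : Q.Lam} (hS : InvX Q.KK Q.actR S) (hU : Q.UL l d ⊆ S) {J : Type}
    (s : Finset J) {f : J → Fam Q.YR} (hf : ∀ j, IsFam True (Q.BR S) (f j)) :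
    Q.ev ζ l d (∑ j ∈ s, f j) = ∑ j ∈ s, Q.ev ζ l d (f j) := by
  classical
  induction s using Finset.induction_on with
  | empty => rw [Finset.sum_empty, Finset.sum_empty, ev_zero]
  | insert j s hj ih =>
    rw [Finset.sum_insert hj, Finset.sum_insert hj,
      ev_add hS hU (hf j) (IsFam.sum s fun j _ => hf j), ih]

theorem fDeg_of_hasDeg (hζ : ζ ≠ 0) (hf : Q.FamV c) (hr : Q.Rep ζ c z) {j : ℤ}
    (hj : Q.HasDeg j c) (l : Q.Lam) : Q.FDeg j (z.coeff l) := by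
  obtain ⟨m, d, hd, ⟨H₁, H₂⟩, H₃⟩ := (Ev.and (Ev.and hf hr) hj).exists
  by_cases hz : z.coeff l = 0
  · exact Or.inl hz
  have hl := H₂.1 l hz
  have h1 := (Q.locData hd hζ).deg (γ := Q.cf z) (fun l => (Q.PU l d).card)
    (j - 2 * (d : ℤ) * Q.dimN) ?_ l hl
  · obtain ⟨e, he, hs⟩ := Q.phi_hom hl hd
    have h2 := h1.mul he
    rw [cf_mul_phi] at h2
    have hs' : (e : ℤ) + ((Q.PU l d).card : ℤ) = d * Q.dimN := by exact_mod_cast hs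
    convert h2 using 1
    linarith
  · rintro f ⟨a, ha, hf⟩
    obtain ⟨N, hN⟩ := ha.eq_sum
    refine ⟨N, fun k => Q.evF ζ d (prF k a), fun l hl => ?_, fun k => ⟨fun l hl =>
      ev_hom (Q.invX_RR m d) (Q.UL_subset_RR hl d) (ha.prF k) (homog_prF k a) ζ,
      _, (H₂.2 _ (ha.prF k)).symm, val_hom (H₁ _ (ha.prF k)) ?_⟩⟩
    · rw [hf l hl]
      conv_lhs => rw [hN]
      exact ev_sum (Q.invX_RR m d) (Q.UL_subset_RR hl d) _ fun k => ha.prF _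
    · rw [← add_sub_assoc]
      exact H₃ k _ (ha.prF k) (homog_prF k a)

theorem rep_smulA (hf : Q.FamV c) (hr : Q.Rep ζ c z) {u : Fam Q.YF}
    {p : MvPolynomial (Fin Q.nT) ℂ} (hu : IsFam False Q.BF u)
    (he : FamEq False Q.BF u (chC id p)) : Q.FamV (Q.smulA u c) ∧
      Q.Rep ζ (Q.smulA u c) (Q.iota (MvPolynomial.rename Sum.inr p) * z) := by
  have H := val_restr (lab := Q.lab) (lab' := id) (ι := Sum.inr) Sum.inr_injective
    (fun k l => by simp [lab]) (fun k x hx => by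
      cases x with
      | inl x => simp [lab] at hx
      | inr x => exact ⟨x, rfl⟩) hu (mem_Rinv_id p) he
  refine ⟨Ev.imp hf fun _ _ _ h a ha => H.1.cupF (h a ha), (Ev.and hf hr).imp fun m d _ h =>
    ⟨fun l hl => h.2.1 l (supp_iota_mul _ hl), fun a ha => ?_⟩⟩
  rw [pair_iota_mul, ← h.2.2 a ha, ← map_mul, ← H.2, ← val_cupF H.1 (h.1 a ha)]
  rfl

end Qv

end Pool.Agent.HK
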