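import Pool.Agent.P.MP_1206ce_ag.CB.EM

/-! Thom cocycles of sets with global coordinates. -/

open scoped Topology
open Filter Set

noncomputable section

namespace Pool.Agent.HK

section CBTh_general

variable {Y Y₁ Y₂ : Type} [TopologicalSpace Y] [TopologicalSpace Y₁] [TopologicalSpace Y₂]

theorem CBTh_cup_BB_right {A C : Set Y} {a b e : Coch Y} (ha : a ∈ ZZ ⊥ A) (he : Bdd e)
    (hb : b - dd e ∈ N0 A) (hC : IsCompact C) (hCA : C ⊆ A) (hs : supp A a ∩ supp A e ⊆ C) :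
    cup a b ∈ BB (cc A) A := by
  refine Comm_BB_cc (e := cup (sgC a) e) hC hCA (ha.1.1.sgC.cup he) ?_ ?_
  · refine (supp_cup A _ _).trans ?_
    rwa [supp_sgC]
  · rw [dd_cup ha.1.1.sgC.1 he.1, Basic_sgC_sgC, add_comm, ← sub_sub, ← cup_sub]
    refine sub_mem (Basic_N0_cup_right a hb) (Basic_N0_cup_left ?_ e)
    rw [Basic_dd_sgC]
    refine neg_mem ?_
    rw [mem_N0, supp_sgC]
    exact ha.2

theorem CBTh_cup_BB_left {A C : Set Y} {a b e : Coch Y} (hb : b ∈ ZZ ⊥ A) (he : Bdd e)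
    (ha : a - dd e ∈ N0 A) (hC : IsCompact C) (hCA : C ⊆ A) (hs : supp A e ∩ supp A b ⊆ C) :
    cup a b ∈ BB (cc A) A := by
  refine Comm_BB_cc (e := cup e b) hC hCA (he.cup hb.1.1) ((supp_cup A _ _).trans hs) ?_
  rw [dd_cup he.1 hb.1.1.1, ← sub_sub, ← sub_cup]
  exact sub_mem (Basic_N0_cup_left ha b) (Basic_N0_cup_right _ hb.2)

theorem CBTh_cup_cc {A : Set Y} {a b : Coch Y} (ha : a ∈ ZZ ⊥ A) (hb : b ∈ BB (cc A) A) :
    cup a b ∈ BB (cc A) A := by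
  obtain ⟨e, he, h⟩ := hb
  exact CBTh_cup_BB_right ha he.1 h (mem_CC_cc.1 he).2 (supp_subset A e) inter_subset_right

theorem CBTh_restrict_ZZ {A A' : Set Y} (h : ClosedIn A' A) {a : Coch Y}
    (ha : a ∈ ZZ (cc A) A) : a ∈ ZZ (cc A') A' := by
  have h1 := pb_mem_ZZ_cc h.properOn ha
  rwa [pb_id] at h1

theorem CBTh_restrict_BB {A A' : Set Y} (h : ClosedIn A' A) {a : Coch Y}
    (ha : a ∈ BB (cc A) A) : a ∈ BB (cc A') A' := by
  have h1 := pb_mem_BB_cc h.properOn ha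
  rwa [pb_id] at h1

theorem CBTh_restrict_BB_bot {A A' : Set Y} (h : A' ⊆ A) {a : Coch Y}
    (ha : a ∈ BB ⊥ A) : a ∈ BB ⊥ A' := by
  have h1 := pb_mem_BB (f := id) continuousOn_id h ha
  rwa [pb_id] at h1

/-- External products of compactly supported classes. -/
theorem CBTh_xp_BB {A : Set Y} {A₁ : Set Y₁} {A₂ : Set Y₂} {f₁ : Y → Y₁} {f₂ : Y → Y₂}
    (hp : ProperOn (fun x => (f₁ x, f₂ x)) A (A₁ ×ˢ A₂)) {a₁ b₁ : Coch Y₁} {a₂ b₂ : Coch Y₂}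
    (ha₂ : a₂ ∈ ZZ (cc A₂) A₂) (hb₁ : b₁ ∈ ZZ (cc A₁) A₁) (he₁ : a₁ - b₁ ∈ BB (cc A₁) A₁)
    (he₂ : a₂ - b₂ ∈ BB (cc A₂) A₂) :
    cup (pb f₁ a₁) (pb f₂ a₂) - cup (pb f₁ b₁) (pb f₂ b₂) ∈ BB (cc A) A := by
  have c₁ : ContinuousOn f₁ A := continuous_fst.comp_continuousOn hp.1
  have c₂ : ContinuousOn f₂ A := continuous_snd.comp_continuousOn hp.1
  have m₁ : MapsTo f₁ A A₁ := fun x hx => (hp.2.1 hx).1
  have m₂ : MapsTo f₂ A A₂ := fun x hx => (hp.2.1 hx).2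
  have key : ∀ (u : Coch Y₁) (v : Coch Y₂), u ∈ CC (cc A₁) A₁ → v ∈ CC (cc A₂) A₂ →
      ∃ C, IsCompact C ∧ C ⊆ A ∧ supp A (pb f₁ u) ∩ supp A (pb f₂ v) ⊆ C := by
    intro u v hu hv
    refine ⟨_, hp.2.2 (supp A₁ u ×ˢ supp A₂ v) ((mem_CC_cc.1 hu).2.prod (mem_CC_cc.1 hv).2)
      (prod_mono (supp_subset _ _) (supp_subset _ _)), inter_subset_left, fun x hx => ?_⟩
    exact ⟨supp_subset _ _ hx.1, supp_pb c₁ m₁ u hx.1, supp_pb c₂ m₂ v hx.2⟩
  have h : cup (pb f₁ a₁) (pb f₂ a₂) - cup (pb f₁ b₁) (pb f₂ b₂) =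
      cup (pb f₁ (a₁ - b₁)) (pb f₂ a₂) + cup (pb f₁ b₁) (pb f₂ (a₂ - b₂)) := by
    rw [pb_sub, pb_sub, sub_cup, cup_sub, sub_add_sub_cancel]
  rw [h]
  refine add_mem ?_ ?_
  · obtain ⟨e, he, h1⟩ := he₁
    obtain ⟨C, hC, hCA, hs⟩ := key e a₂ he ha₂.1
    refine CBTh_cup_BB_left (e := pb f₁ e) (pb_mem_ZZ c₂ m₂ (ZZ_cc_le_bot _ ha₂)) (he.1.pb f₁) ?_
      hC hCA hs
    rw [← pb_dd, ← pb_sub]
    exact Basic_pb_mem_N0 c₁ m₁ h1
  · obtain ⟨e, he, h1⟩ := he₂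
    obtain ⟨C, hC, hCA, hs⟩ := key b₁ e hb₁.1 he
    refine CBTh_cup_BB_right (e := pb f₂ e) (pb_mem_ZZ c₁ m₁ (ZZ_cc_le_bot _ hb₁)) (he.1.pb f₂) ?_
      hC hCA hs
    rw [← pb_dd, ← pb_sub]
    exact Basic_pb_mem_N0 c₂ m₂ h1

theorem CBTh_homeo_unit {A : Set Y} {f : Y → Y₁} {g : Y₁ → Y} (h : HomeoOn f g A univ) :
    HomeoOn (fun x => ((fun _ => ()) x, f x)) (fun p : Unit × Y₁ => g p.2) A (univ ×ˢ univ) :=
  ⟨continuousOn_const.prodMk h.1, h.2.1.comp continuous_snd.continuousOn fun _ _ => mem_univ _,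
    fun _ _ => ⟨mem_univ _, mem_univ _⟩, fun _ _ => h.2.2.2.1 (mem_univ _),
    fun x hx => h.2.2.2.2.1 x hx, fun p _ => Prod.ext rfl (h.2.2.2.2.2 p.2 (mem_univ _))⟩

end CBTh_general

variable {V Λ Λ₀ X X₁ X₂ ι κ κ₀ : Type} [Fintype V] [DecidableEq V] [TopologicalSpace X]
  [TopologicalSpace X₁] [TopologicalSpace X₂] [Nice X] [Nice X₁] [Nice X₂] [Fintype ι] [Fintype κ]
  [Fintype κ₀] {lab₀ : V → Λ₀} {L L₁ L₂ : Set (Matrix V V ℂ)}
  {act : Matrix V V ℂ → X → X} {act₁ : Matrix V V ℂ → X₁ → X₁} {act₂ : Matrix V V ℂ → X₂ → X₂}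
  {S : Set X} {S₁ : Set X₁} {S₂ : Set X₂} {E E' : Set (Fr V)} {co : X → ι → ℂ}
  {t t' : Coch (Bor L act)}

omit [DecidableEq V] [Nice X] in
theorem CBTh_thom_iff :
    IsThomFor L act ptAct (S ×ˢ E) (univ ×ˢ E) (fun _ => ()) co t ↔
      TwOK (BS L ptAct univ E) (BS L act S E) (bmap L ptAct (fun _ => ()) id) t ∧
        HomC (2 * (Fintype.card ι : ℤ)) t ∧ ∀ e ∈ E, (∃ g, HomeoOn co g S univ) ∧
          pb (fib L act e) t - pb co (genC ι) ∈ BB (cc S) S := by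
  have hs : ∀ p : Unit × Fr V, p.2 ∈ E →
      {x : X | (x, p.2) ∈ (S ×ˢ E : Set (X × Fr V)) ∧ (fun _ => ()) x = p.1} = S :=
    fun p hp => Set.ext fun x => ⟨fun h => h.1.1, fun h => ⟨⟨h, hp⟩, rfl⟩⟩
  rw [BS_eq, BS_eq]
  refine and_congr_right fun _ => and_congr_right fun _ => ⟨fun h e he => ?_, fun h p hp => ?_⟩
  · have h1 := h ((), e) ⟨mem_univ _, he⟩
    rwa [hs ((), e) he] at h1
  · rw [hs p hp.2]
    exact h p.2 hp.2

omit [Nice X] in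
theorem CBTh_base_compact (hE : IsCompact E) : IsCompact (BS L (ptAct (V := V)) univ E) :=
  isCompact_BS hE isCompact_univ

omit [Nice X] in
theorem CBTh_of_thomFor (hE : IsCompact E)
    (ht : IsThomFor L act ptAct (S ×ˢ E) (univ ×ˢ E) (fun _ => ()) co t) : IsTh L act S E co t := by
  obtain ⟨h1, h2, h3⟩ := CBTh_thom_iff.1 ht
  exact ⟨(TauK_cc_of_twOK (CBTh_base_compact hE) h1).1, h2, fun e he => (h3 e he).2⟩

omit [Nice X] in
theorem CBTh_twOK (h : IsAct L act) (ht : t ∈ ZZ (cc (BS L act S E)) (BS L act S E)) :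
    TwOK (BS L ptAct univ E) (BS L act S E) (bmap L ptAct (fun _ => ()) id) t := by
  refine TauK_twOK_of_cc (h.continuous_toPt subset_rfl).continuousOn ?_ ht
  rw [BS_eq S E]
  exact h.mapsTo_toPt subset_rfl fun p hp => hp.2

omit [Nice X] in
theorem CBTh_cd_change (h : Cd lab₀ L act S co) {co' : X → κ → ℂ}
    (A : (ι → ℂ) ≃ₗ[ℂ] (κ → ℂ)) (hA : ∀ x ∈ S, co' x = A (co x)) : Cd lab₀ L act S co' := by
  obtain ⟨g, hg⟩ := h.homeo
  have c1 : Continuous A := A.toLinearMap.continuous_of_finiteDimensional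
  have c2 : Continuous A.symm := A.symm.toLinearMap.continuous_of_finiteDimensional
  refine ⟨h.ha, h.le, h.inv, fun v => g (A.symm v), (c1.comp_continuousOn hg.1).congr hA,
    hg.2.1.comp c2.continuousOn fun _ _ => mem_univ _, fun _ _ => mem_univ _,
    fun _ _ => hg.2.2.2.1 (mem_univ _), fun x hx => ?_, fun v _ => ?_⟩
  · show g (A.symm (co' x)) = x
    rw [hA x hx, A.symm_apply_apply]
    exact hg.2.2.2.2.1 x hx
  · rw [hA _ (hg.2.2.2.1 (mem_univ _)), hg.2.2.2.2.2 _ (mem_univ _), A.apply_symm_apply]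

omit [Fintype ι] [TopologicalSpace X] [Nice X] in
theorem CBTh_sub_Inj (hE : FrOK lab₀ E) : ∃ n, E ⊆ Inj (id : V → V) n := by
  obtain ⟨n, hn⟩ := hE.sub
  exact ⟨n, (hn.trans (St_subset_Inj lab₀ n)).trans (Inj_subset_id lab₀ n)⟩

omit [Nice X] in
theorem Cd.lc (h : Cd lab₀ L act S co) : LC S := by
  obtain ⟨g, hg⟩ := h.homeo
  exact LC.of_homeoOn hg LC.univ
omit [Nice X] [Fintype ι] in
theorem Cd.mono (h : Cd lab₀ L act S co) (h₁ : IsGrp L₁) (hs : L₁ ⊆ L) : Cd lab₀ L₁ act S co :=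
  ⟨h.ha.mono h₁ hs, hs.trans h.le, fun u hu => h.inv u (hs hu), h.homeo⟩
omit [Nice X] in
theorem Cd.isGenOn (h : Cd lab₀ L act S co) : IsGenOn S (pb co (genC ι)) := by
  obtain ⟨g, hg⟩ := h.homeo
  refine IsGenOn.of_homeoOn hg isGenOn_genC (pb_mem_ZZ_cc hg.properOn Gen_genC_ZZ) ?_
  rw [sub_self]
  exact zero_mem _
omit [Nice X] [Fintype ι] in
/-- Bounded coordinates give a compact set. -/
theorem Cd.isCompact (h : Cd lab₀ L act S co) (R : ℝ) :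
    IsCompact {x | x ∈ S ∧ ∀ i, ‖co x i‖ ≤ R} := by
  obtain ⟨g, hg⟩ := h.homeo
  have h1 := hg.properOn.2.2 (Set.pi univ fun _ : ι => Metric.closedBall (0 : ℂ) R)
    (isCompact_univ_pi fun _ => isCompact_closedBall _ _) (subset_univ _)
  convert h1 using 1
  ext x
  simp
omit [Nice X] in
theorem IsTh.isThomFor (h : Cd lab₀ L act S co) (hE : FrOK lab₀ E) (ht : IsTh L act S E co t) :
    IsThomFor L act ptAct (S ×ˢ E) (univ ×ˢ E) (fun _ => ()) co t := by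
  have _ := hE
  exact CBTh_thom_iff.2 ⟨CBTh_twOK h.ha ht.mem, ht.hom, fun e he => ⟨h.homeo, ht.fibre e he⟩⟩
/-- The Thom isomorphism. -/
theorem IsTh.bij (h : Cd lab₀ L act S co) (hE : FrOK lab₀ E) (ht : IsTh L act S E co t) :
    TwOK (BS L ptAct univ E) (BS L act S E) (bmap L ptAct (fun _ => ()) id) t ∧
    Function.Bijective
      (tw (BS L ptAct univ E) (BS L act S E) (bmap L ptAct (fun _ => ()) id) t) := by
  refine ⟨CBTh_twOK h.ha ht.mem, ?_⟩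
  have hlc := LC.of_isCompact hE.cpt
  rw [BS_eq, BS_eq]
  exact IsThomFor.bijective (isAct_pt h.ha.grp) h.ha (hE.inv_prod h.le h.inv)
    (hE.inv_prod h.le fun _ _ _ _ => mem_univ _) (h.lc.prod hlc) (LC.univ.prod hlc)
    (fun _ _ _ _ => rfl) continuousOn_const
    (fun p hp u hu e he => hE.freeOn h.le u hu e (he ▸ hp.2)) (ht.isThomFor h hE)
theorem IsTh.unique (h : Cd lab₀ L act S co) (hE : FrOK lab₀ E) (ht : IsTh L act S E co t)
    {co' : X → κ → ℂ} (ht' : IsTh L act S E co' t') (A : (ι → ℂ) ≃ₗ[ℂ] (κ → ℂ))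
    (hA : ∀ x ∈ S, co' x = A (co x)) : t - t' ∈ BB (cc (BS L act S E)) (BS L act S E) := by
  have hlc := LC.of_isCompact hE.cpt
  have h' := CBTh_cd_change h A hA
  have h1 := IsThomFor.tw_eq (isAct_pt h.ha.grp) h.ha (hE.inv_prod h.le h.inv)
    (hE.inv_prod h.le fun _ _ _ _ => mem_univ _) (h.lc.prod hlc) (LC.univ.prod hlc)
    (fun _ _ _ _ => rfl) continuousOn_const
    (fun p hp u hu e he => hE.freeOn h.le u hu e (he ▸ hp.2)) (ht.isThomFor h hE)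
    (ht'.isThomFor h' hE) fun _ _ => ⟨A, 0, fun x hx _ => by rw [add_zero]; exact hA x hx.1⟩
  rw [← BS_eq, ← BS_eq] at h1
  rw [← cls_eq_iff ht.mem ht'.mem]
  have h2 := (TauK_cc_of_twOK (CBTh_base_compact hE.cpt) (CBTh_twOK h.ha ht.mem)).2
  have h3 := (TauK_cc_of_twOK (CBTh_base_compact hE.cpt) (CBTh_twOK h.ha ht'.mem)).2
  rw [h1] at h2
  exact h2.symm.trans h3
omit [Nice X] in
theorem IsTh.change (h : Cd lab₀ L act S co) (ht : IsTh L act S E co t) {co' : X → κ → ℂ}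
    (A : (ι → ℂ) ≃ₗ[ℂ] (κ → ℂ)) (hA : ∀ x ∈ S, co' x = A (co x)) :
    Cd lab₀ L act S co' ∧ IsTh L act S E co' t := by
  have hc : Fintype.card κ = Fintype.card ι := by
    have h1 := A.finrank_eq
    rw [Module.finrank_fintype_fun_eq_card, Module.finrank_fintype_fun_eq_card] at h1
    exact h1.symm
  refine ⟨CBTh_cd_change h A hA, ht.mem, by rw [hc]; exact ht.hom, fun e he => ?_⟩
  obtain ⟨g, hg⟩ := h.homeo
  have h1 := pb_mem_BB_cc hg.properOn (genC_linear A 0)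
  rw [pb_sub, pb_pb] at h1
  have h2 : pb ((fun v => A v + 0) ∘ co) (genC κ) - pb co' (genC κ) ∈ BB (cc S) S :=
    N0_le_BB _ _ (supp_pb_congr (fun x hx => by
      simp only [Function.comp_apply, add_zero]; exact (hA x hx).symm) _)
  exact Line_trans (ht.fibre e he) (Line_trans (Line_symm h1) h2)
omit [Nice X] in
theorem IsTh.congr (h : Cd lab₀ L act S co) (hE : FrOK lab₀ E) (ht : IsTh L act S E co t)
    (hz : t' ∈ ZZ (cc (BS L act S E)) (BS L act S E)) (hk : HomC (2 * (Fintype.card ι : ℤ)) t')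
    (he : t - t' ∈ BB (cc (BS L act S E)) (BS L act S E)) : IsTh L act S E co t' := by
  refine ⟨hz, hk, fun e he' => ?_⟩
  have h1 := pb_mem_BB_cc (hE.proper_fib h.ha h.le h.inv he') he
  rw [pb_sub] at h1
  exact Line_trans (Line_symm h1) (ht.fibre e he')
omit [Nice X] in
theorem IsTh.mono (h : Cd lab₀ L act S co) (hE : FrOK lab₀ E) (hE' : FrOK lab₀ E') (hs : E' ⊆ E)
    (ht : IsTh L act S E co t) : IsTh L act S E' co t :=
  ⟨CBTh_restrict_ZZ (hE.closedIn_frames hE' hs h.ha h.le h.inv) ht.mem, ht.hom,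
    fun e he => ht.fibre e (hs he)⟩
theorem IsTh.isFam (h : Cd lab₀ L act S co) {τ : Fam (Bor L act)}
    (ht : ∀ n, IsTh L act S (St lab₀ n) co (τ n)) : IsFam True (BL L act S lab₀) τ := by
  refine isFam_true.2 ⟨fun n => (ht n).mem, fun n => ?_, 2 * Fintype.card ι + 1, fun n l hl => ?_⟩
  · exact IsTh.unique h (frOK_St lab₀ n) (IsTh.mono h (frOK_St lab₀ (n + 1)) (frOK_St lab₀ n)
      (St_mono lab₀ (Nat.le_succ n)) (ht (n + 1))) (ht n) (LinearEquiv.refl ℂ _) fun _ _ => rfl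
  · exact (ht n).hom l (by omega)
omit [Nice X] in
theorem isTh_tauT (h : Cd lab₀ (TT V) act S co) (hE : FrOK lab₀ E) {χ : ι → V → ℤ}
    (hc : IsCoord (TT V) act S co χ) : IsTh (TT V) act S E co (tauT (TT V) act co χ) := by
  obtain ⟨g, hg⟩ := h.homeo
  obtain ⟨n, hn⟩ := CBTh_sub_Inj hE
  exact CBTh_of_thomFor hE.cpt (isThomFor_tauT (isAct_pt h.ha.grp) h.ha subset_rfl h.inv hc
    (S := univ) (fun _ _ _ _ => mem_univ _) (fun _ _ _ _ => rfl) (CBTh_homeo_unit hg)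
    (fun u hu => hE.inv u (h.le hu)) hn)
omit [Nice X] in
theorem CBTh_pb {f : X → X₁} (hf : EM lab₀ L act S L₁ act₁ S₁ f) {g : X₁ → X}
    (hg : HomeoOn f g S S₁) (hE : FrOK lab₀ E) {co₁ : X₁ → ι → ℂ} {t₁ : Coch (Bor L₁ act₁)}
    (ht : IsTh L₁ act₁ S₁ E co₁ t₁) :
    IsTh L act S E (co₁ ∘ f) (pb (bmap L₁ act₁ f id) t₁) := by
  refine ⟨pb_mem_ZZ_cc (hf.proper hE hg.properOn) ht.mem, ht.hom.pb _, fun e he => ?_⟩
  have h1 := pb_mem_BB_cc hg.properOn (ht.fibre e he)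
  rw [pb_sub, pb_pb co₁ f] at h1
  exact Line_trans (N0_le_BB _ _ (hf.pb_fib e t₁)) h1
omit [Nice X] in
theorem IsTh.pb {f : X → X₁} (hf : EM lab₀ L act S L₁ act₁ S₁ f) {g : X₁ → X}
    (hg : HomeoOn f g S S₁) (hE : FrOK lab₀ E) {co₁ : X₁ → ι → ℂ} {t₁ : Coch (Bor L₁ act₁)}
    (ht : IsTh L₁ act₁ S₁ E co₁ t₁) :
    IsTh L act S E (co₁ ∘ f) (pb (bmap L₁ act₁ f id) t₁) := CBTh_pb hf hg hE ht
omit [Nice X] [Nice X₁] [Nice X₂] [Fintype ι] [Fintype κ] in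
theorem CBTh_homeo_sum {f₁ : X → X₁} {f₂ : X → X₂} {g : X₁ × X₂ → X}
    (hg : HomeoOn (fun x => (f₁ x, f₂ x)) g S (S₁ ×ˢ S₂)) {co₁ : X₁ → ι → ℂ}
    {co₂ : X₂ → κ → ℂ} {g₁ : (ι → ℂ) → X₁} {g₂ : (κ → ℂ) → X₂} (hg₁ : HomeoOn co₁ g₁ S₁ univ)
    (hg₂ : HomeoOn co₂ g₂ S₂ univ) :
    HomeoOn (fun x => Sum.elim (co₁ (f₁ x)) (co₂ (f₂ x)))
      (fun v : ι ⊕ κ → ℂ => g (g₁ fun i => v (Sum.inl i), g₂ fun i => v (Sum.inr i))) S univ := by
  have c₁ : ContinuousOn f₁ S := continuous_fst.comp_continuousOn hg.1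
  have c₂ : ContinuousOn f₂ S := continuous_snd.comp_continuousOn hg.1
  have m₁ : MapsTo f₁ S S₁ := fun x hx => (hg.2.2.1 hx).1
  have m₂ : MapsTo f₂ S S₂ := fun x hx => (hg.2.2.1 hx).2
  have hm : ∀ v : ι ⊕ κ → ℂ,
      (g₁ fun i => v (Sum.inl i), g₂ fun i => v (Sum.inr i)) ∈ S₁ ×ˢ S₂ :=
    fun v => ⟨hg₁.2.2.2.1 (mem_univ _), hg₂.2.2.2.1 (mem_univ _)⟩
  refine ⟨continuousOn_pi.2 fun i => ?_, hg.2.1.comp (ContinuousOn.prodMk ?_ ?_) fun v _ => hm v,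
    fun _ _ => mem_univ _, fun v _ => hg.2.2.2.1 (hm v), fun x hx => ?_, fun v _ => ?_⟩
  · rcases i with i | i
    · exact (continuous_apply i).comp_continuousOn (hg₁.1.comp c₁ m₁)
    · exact (continuous_apply i).comp_continuousOn (hg₂.1.comp c₂ m₂)
  · exact hg₁.2.1.comp (continuous_pi fun i => continuous_apply _).continuousOn
      fun _ _ => mem_univ _
  · exact hg₂.2.1.comp (continuous_pi fun i => continuous_apply _).continuousOn
      fun _ _ => mem_univ _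
  · have e₁ : g₁ (co₁ (f₁ x)) = f₁ x := hg₁.2.2.2.2.1 _ (m₁ hx)
    have e₂ : g₂ (co₂ (f₂ x)) = f₂ x := hg₂.2.2.2.2.1 _ (m₂ hx)
    show g (g₁ (co₁ (f₁ x)), g₂ (co₂ (f₂ x))) = x
    rw [e₁, e₂]
    exact hg.2.2.2.2.1 x hx
  · have e := hg.2.2.2.2.2 _ (hm v)
    have e₁ := congrArg Prod.fst e
    have e₂ := congrArg Prod.snd e
    dsimp only at e₁ e₂ ⊢
    rw [e₁, e₂, hg₁.2.2.2.2.2 _ (mem_univ _), hg₂.2.2.2.2.2 _ (mem_univ _)]
    funext i
    rcases i with i | i <;> rfl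
omit [Nice X] [Nice X₁] [Nice X₂] in
theorem CBTh_prod {f₁ : X → X₁} {f₂ : X → X₂} (h₁ : EM lab₀ L act S L₁ act₁ S₁ f₁)
    (h₂ : EM lab₀ L act S L₂ act₂ S₂ f₂) {g : X₁ × X₂ → X}
    (hg : HomeoOn (fun x => (f₁ x, f₂ x)) g S (S₁ ×ˢ S₂)) (hE : FrOK lab₀ E) {co₁ : X₁ → ι → ℂ}
    {co₂ : X₂ → κ → ℂ} (c₁ : Cd lab₀ L₁ act₁ S₁ co₁) (c₂ : Cd lab₀ L₂ act₂ S₂ co₂)
    {t₁ : Coch (Bor L₁ act₁)} {t₂ : Coch (Bor L₂ act₂)} (ht₁ : IsTh L₁ act₁ S₁ E co₁ t₁)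
    (ht₂ : IsTh L₂ act₂ S₂ E co₂ t₂) :
    Cd lab₀ L act S (fun x => Sum.elim (co₁ (f₁ x)) (co₂ (f₂ x))) ∧
    IsTh L act S E (fun x => Sum.elim (co₁ (f₁ x)) (co₂ (f₂ x)))
      (cup (pb (bmap L₁ act₁ f₁ id) t₁) (pb (bmap L₂ act₂ f₂ id) t₂)) := by
  obtain ⟨g₁, hg₁⟩ := c₁.homeo
  obtain ⟨g₂, hg₂⟩ := c₂.homeo
  have hh := CBTh_homeo_sum hg hg₁ hg₂
  refine ⟨⟨h₁.ha, h₁.sub.trans h₁.le, h₁.inv, _, hh⟩, xp_ZZ h₁ h₂ hg.properOn hE ht₁.mem ht₂.mem,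
    ?_, fun e he => ?_⟩
  · have h := (ht₁.hom.pb (bmap L₁ act₁ f₁ id : Bor L act → _)).cup
      (ht₂.hom.pb (bmap L₂ act₂ f₂ id : Bor L act → _))
    rwa [← mul_add, ← Nat.cast_add, ← Fintype.card_sum] at h
  · have e1 : cup (pb (fib L act e) (pb (bmap L₁ act₁ f₁ id) t₁))
        (pb (fib L act e) (pb (bmap L₂ act₂ f₂ id) t₂)) -
        cup (pb f₁ (pb (fib L₁ act₁ e) t₁)) (pb f₂ (pb (fib L₂ act₂ e) t₂)) ∈ N0 S := by
      rw [← sub_add_sub_cancel _ (cup (pb f₁ (pb (fib L₁ act₁ e) t₁))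
        (pb (fib L act e) (pb (bmap L₂ act₂ f₂ id) t₂))), ← sub_cup, ← cup_sub]
      exact add_mem (Basic_N0_cup_left (h₁.pb_fib e t₁) _) (Basic_N0_cup_right _ (h₂.pb_fib e t₂))
    have e2 := CBTh_xp_BB hg.properOn
      (pb_mem_ZZ_cc (hE.proper_fib c₂.ha c₂.le c₂.inv he) ht₂.mem) c₁.isGenOn.1 (ht₁.fibre e he)
      (ht₂.fibre e he)
    have e3 := pb_mem_BB_cc hh.properOn (genC_sum (ι := ι) (κ := κ))
    rw [pb_sub, pb_cup, pb_pb, pb_pb] at e3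
    rw [pb_cup]
    refine Line_trans (N0_le_BB _ _ e1) (Line_trans e2 ?_)
    rw [pb_pb, pb_pb]
    exact Line_symm e3
omit [Nice X] [Nice X₁] [Nice X₂] in
theorem IsTh.prod {f₁ : X → X₁} {f₂ : X → X₂} (h₁ : EM lab₀ L act S L₁ act₁ S₁ f₁)
    (h₂ : EM lab₀ L act S L₂ act₂ S₂ f₂) {g : X₁ × X₂ → X}
    (hg : HomeoOn (fun x => (f₁ x, f₂ x)) g S (S₁ ×ˢ S₂)) (hE : FrOK lab₀ E) {co₁ : X₁ → ι → ℂ}
    {co₂ : X₂ → κ → ℂ} (c₁ : Cd lab₀ L₁ act₁ S₁ co₁) (c₂ : Cd lab₀ L₂ act₂ S₂ co₂)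
    {t₁ : Coch (Bor L₁ act₁)} {t₂ : Coch (Bor L₂ act₂)} (ht₁ : IsTh L₁ act₁ S₁ E co₁ t₁)
    (ht₂ : IsTh L₂ act₂ S₂ E co₂ t₂) :
    Cd lab₀ L act S (fun x => Sum.elim (co₁ (f₁ x)) (co₂ (f₂ x))) ∧
    IsTh L act S E (fun x => Sum.elim (co₁ (f₁ x)) (co₂ (f₂ x)))
      (cup (Pool.Agent.HK.pb (bmap L₁ act₁ f₁ id) t₁) (Pool.Agent.HK.pb (bmap L₂ act₂ f₂ id) t₂)) :=
  CBTh_prod h₁ h₂ hg hE c₁ c₂ ht₁ ht₂
omit [Nice X] in
theorem CBTh_wmap {lab : V → Λ} (ha : IsAct (KG lab) act) {w : Equiv.Perm V} (hw : w ∈ Wl lab)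
    (hS : InvX (TT V) act S) {S' : Set X} (hS' : act (pmat w) '' S = S') {n : ℕ}
    {t₁ : Coch (Bor (TT V) act)} (ht : IsTh (TT V) act S' (St lab n) co t₁) :
    ProperOn (wmap act w) (BS (TT V) act S (St lab n)) (BS (TT V) act S' (St lab n)) ∧
    IsTh (TT V) act S (St lab n) (co ∘ act (pmat w)) (pb (wmap act w) t₁) := by
  have hW := pmat_mem_KG hw
  have hW' := ha.grp.star _ hW
  have hI := invF_St (subset_rfl (a := KG lab)) n
  have him : bact act (pmat w) '' (S ×ˢ St lab n) = S' ×ˢ St lab n := by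
    rw [← hS']
    refine Subset.antisymm ?_ ?_
    · rintro _ ⟨p, hp, rfl⟩
      exact ⟨⟨p.1, hp.1, rfl⟩, hI _ hW _ hp.2⟩
    · rintro ⟨_, e⟩ ⟨⟨x, hx, rfl⟩, he⟩
      refine ⟨(x, frAct (star (pmat w)) e), ⟨hx, hI _ hW' _ he⟩, Prod.ext rfl ?_⟩
      show frAct (pmat w) (frAct (star (pmat w)) e) = e
      rw [← frAct_mul, ha.grp.mul_star hW, frAct_one]
  have hp : ProperOn (wmap act w) (BS (TT V) act S (St lab n)) (BS (TT V) act S' (St lab n)) := by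
    have h1 := (homeoOn_wmap ha hw (Inv.prod hS (invF_St (TT_subset lab) n))).properOn
    rwa [him, ← BS_eq, ← BS_eq] at h1
  have hl : ∀ x, act (star (pmat w)) (act (pmat w) x) = x := fun x =>
    congrArg Prod.fst (ha.bact_star hW (x, 0)).1
  have hx : HomeoOn (act (pmat w)) (act (star (pmat w))) S S' := by
    rw [← hS']
    refine ⟨(ha.continuous hW).continuousOn, (ha.continuous hW').continuousOn, mapsTo_image _ _,
      ?_, fun x _ => hl x, ?_⟩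
    · rintro _ ⟨x, hx, rfl⟩
      rw [hl]
      exact hx
    · rintro _ ⟨x, -, rfl⟩
      rw [hl]
  refine ⟨hp, pb_mem_ZZ_cc hp ht.mem, ht.hom.pb _, fun e he => ?_⟩
  have e1 : wmap act w ∘ fib (TT V) act e = fib (TT V) act (frAct (pmat w) e) ∘ act (pmat w) := by
    funext x
    exact wmap_bmk ha hw (x, e)
  have h4 := pb_mem_BB_cc hx.properOn (ht.fibre _ (hI _ hW e he))
  rw [pb_sub, pb_pb, pb_pb, ← e1] at h4
  rw [pb_pb]
  exact h4
omit [Nice X] in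
/-- Transport by a Weyl group element. -/
theorem IsTh.wmap {lab : V → Λ} (ha : IsAct (KG lab) act) {w : Equiv.Perm V} (hw : w ∈ Wl lab)
    (hS : InvX (TT V) act S) {S' : Set X} (hS' : act (pmat w) '' S = S') {n : ℕ}
    {t₁ : Coch (Bor (TT V) act)} (ht : IsTh (TT V) act S' (St lab n) co t₁) :
    ProperOn (wmap act w) (BS (TT V) act S (St lab n)) (BS (TT V) act S' (St lab n)) ∧
    IsTh (TT V) act S (St lab n) (co ∘ act (pmat w)) (Pool.Agent.HK.pb (wmap act w) t₁) :=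
  CBTh_wmap ha hw hS hS' ht
omit [Nice X] in
/-- Existence for modules. -/
theorem exists_isTh {lab : V → Λ} (hr : Refines lab lab₀) (h : Cd lab₀ (KG lab) act S co)
    {ρ : Matrix V V ℂ → (ι → ℂ) → ι → ℂ} {χ : ι → V → ℤ} (hρ : IsMod lab ρ χ)
    (he : ∀ u ∈ KG lab, ∀ x ∈ S, co (act u x) = ρ u (co x)) :
    ∃ τ : Fam (Bor (KG lab) act), ∀ n, IsTh (KG lab) act S (St lab₀ n) co (τ n) := by
  obtain ⟨g, hg⟩ := h.homeo
  have hem : EM lab₀ (KG lab) act S (KG lab) ρ univ co :=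
    ⟨h.ha, hρ.act, subset_rfl, h.le, h.inv, fun _ _ _ _ => mem_univ _, he, hg.1,
      fun _ _ => mem_univ _⟩
  have hcd : Cd lab (KG lab) ρ univ id :=
    ⟨hρ.act, subset_rfl, fun _ _ _ _ => mem_univ _, id, continuousOn_id, continuousOn_id,
      mapsTo_id _, mapsTo_id _, fun _ _ => rfl, fun _ _ => rfl⟩
  have key : ∀ n, ∃ τ : Coch (Bor (KG lab) act), IsTh (KG lab) act S (St lab₀ n) co τ := by
    intro n
    obtain ⟨τ, h1, h2, h3⟩ := TauK_St hρ n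
    have h4 : IsTh (KG lab) ρ univ (St lab n) id τ :=
      ⟨by rw [BS_eq]; exact h1, h2, fun e he => by rw [pb_id]; exact h3 e he⟩
    have h5 := IsTh.mono hcd (frOK_St lab n)
      ⟨⟨n, St_anti hr n⟩, isCompact_St lab₀ n, invF_St (KG_mono hr) n⟩ (St_anti hr n) h4
    exact ⟨_, CBTh_pb hem hg (frOK_St lab₀ n) h5⟩
  choose τ hτ using key
  exact ⟨τ, hτ⟩
/-- A family of the right degree is a multiple of the Thom class. -/
theorem exists_scalar {lab : V → Λ} (h : Cd lab (KG lab) act S co) {τ₀ τ : Fam (Bor (KG lab) act)}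
    (h₀ : ∀ n, IsTh (KG lab) act S (St lab n) co (τ₀ n))
    (hτ : IsFam True (BL (KG lab) act S lab) τ) (hk : Homog (2 * (Fintype.card ι : ℤ)) τ) :
    ∃ ζ : ℂ, FamEq True (BL (KG lab) act S lab) τ (ζ • τ₀) := by
  obtain ⟨hz, hc, -⟩ := isFam_true.1 hτ
  obtain ⟨-, hc₀, -⟩ := isFam_true.1 (IsTh.isFam h h₀)
  have hb := fun n => IsTh.bij h (frOK_St lab n) (h₀ n)
  have hB : ∀ n, IsCompact (BS (KG lab) (ptAct (V := V)) univ (St lab n)) := fun n =>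
    CBTh_base_compact (isCompact_St lab n)
  have key : ∀ n, ∃ a ∈ ZZ (cc (BS (KG lab) (ptAct (V := V)) univ (St lab n)))
      (BS (KG lab) ptAct univ (St lab n)), HomC 0 a ∧
      tw (BS (KG lab) ptAct univ (St lab n)) (BS (KG lab) act S (St lab n))
        (bmap (KG lab) ptAct (fun _ => ()) id) (τ₀ n) (clc _ a) = clc _ (τ n) := by
    intro n
    obtain ⟨x, hx⟩ := (hb n).2.2 (clc _ (τ n))
    have h1 := tw_prH (hb n).1 (h₀ n).hom 0 x
    rw [hx, zero_add, prH_cls _ (hz n), (homog_iff.1 hk n).prC_self] at h1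
    obtain ⟨a, ha, ha0, rfl⟩ := exists_homC_of_prH ((hb n).2.1 (hx.trans h1)).symm
    exact ⟨a, ha, ha0, hx⟩
  choose a ha ha0 hx using key
  have hcl : ∀ n, ClosedIn (BS (KG lab) (ptAct (V := V)) univ (St lab n))
      (BS (KG lab) ptAct univ (St lab (n + 1))) := fun n =>
    closedIn_BL (isAct_pt h.ha.grp) subset_rfl (fun _ _ _ _ => mem_univ _) n
  have hfam : IsFam False (fun n => BS (KG lab) ptAct univ (St lab n)) a := by
    refine isFam_false.2 ⟨fun n => ZZ_cc_le_bot _ (ha n), fun n => BB_cc_le_bot _ ?_, 1,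
      fun n l hl => ha0 n l (by omega)⟩
    have ha' := CBTh_restrict_ZZ (hcl n) (ha (n + 1))
    rw [← cls_eq_iff ha' (ha n)]
    refine (hb n).2.1 ?_
    rw [hx n, tw_cls (hb n).1 ha', cls_eq_iff ((hb n).1.mem_ZZ ha') (hz n)]
    have h1 := hx (n + 1)
    rw [tw_cls (hb (n + 1)).1 (ha (n + 1)),
      cls_eq_iff ((hb (n + 1)).1.mem_ZZ (ha (n + 1))) (hz (n + 1))] at h1
    have h2 := CBTh_restrict_BB (closedIn_BL h.ha h.le h.inv n) h1
    have h3 := CBTh_cup_cc (pb_mem_ZZ (hb n).1.1 (hb n).1.2.1 (ZZ_cc_le_bot _ ha')) (hc₀ n)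
    rw [cup_sub] at h3
    exact Line_trans (Line_symm h3) (Line_trans h2 (hc n))
  obtain ⟨p, hp, hpe, hpd⟩ := fam_ch_surj (lab := lab) (lab₀ := lab) (fun _ _ h => h) hfam
  obtain ⟨ζ, rfl⟩ : ∃ ζ : ℂ, p = ζ • (1 : MvPolynomial V ℂ) := by
    rcases hpd 0 (fun n => ha0 n) with h0 | ⟨d, hd, hh⟩
    · exact ⟨0, by rw [h0, zero_smul]⟩
    · have hd0 : d = 0 := by omega
      subst hd0
      refine ⟨MvPolynomial.coeff 0 p, ?_⟩
      rw [MvPolynomial.smul_eq_C_mul, mul_one]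
      exact MvPolynomial.totalDegree_eq_zero_iff_eq_C.1
        ((MvPolynomial.totalDegree_zero_iff_isHomogeneous _).2 hh)
  refine ⟨ζ, famEq_true.2 fun n => ?_⟩
  have hs : BS (KG lab) (ptAct (V := V)) univ (St lab n) ⊆ BS (KG lab) ptAct univ (Inj lab n) := by
    rw [BS_eq, BS_eq]
    exact BI_mono (prod_mono Subset.rfl (St_subset_Inj lab n))
  have h1 : a n - ζ • one ∈ BB ⊥ (BS (KG lab) (ptAct (V := V)) univ (St lab n)) := by
    have h2 := Submodule.smul_mem _ ζ (chC_one lab n)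
    rw [smul_sub] at h2
    exact Line_trans (famEq_false.1 hpe n) (CBTh_restrict_BB_bot hs
      (Line_trans (chC_smul ζ (one_mem _) n) h2))
  have h2 : (one : Coch (Bor (KG lab) (ptAct (V := V)))) ∈
      ZZ (cc (BS (KG lab) ptAct univ (St lab n))) (BS (KG lab) ptAct univ (St lab n)) := by
    rw [ZZ_cc_eq_bot (hB n)]
    exact one_mem_ZZ _
  rw [← BB_cc_eq_bot (hB n), ← cls_eq_iff (ha n) (Submodule.smul_mem _ ζ h2), cls_smul ζ h2] at h1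
  have h3 := hx n
  rw [show clc _ (a n) = _ from h1, map_smul, (TauK_cc_of_twOK (hB n) (hb n).1).2,
    ← cls_smul ζ (h₀ n).mem] at h3
  exact (cls_eq_iff (hz n) (Submodule.smul_mem _ ζ (h₀ n).mem)).1 h3.symm
/-- Redundant weight functions contribute their Euler class. -/
theorem tauT_change (h : Cd lab₀ (TT V) act S co) (hE : FrOK lab₀ E) {χ : ι → V → ℤ}
    (hc : IsCoord (TT V) act S co χ) {co' : X → κ → ℂ} {χ' : κ → V → ℤ}
    (hc' : IsCoord (TT V) act S co' χ') (j : κ₀ → κ) (hj : Function.Injective j)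
    [DecidablePred fun i => i ∈ Set.range j] (A : (ι → ℂ) ≃ₗ[ℂ] (κ₀ → ℂ))
    (hA : ∀ x ∈ S, ∀ k, co' x (j k) = A (co x) k) :
    tauT (TT V) act co' χ' ∈ ZZ (cc (BS (TT V) act S E)) (BS (TT V) act S E) ∧
    tauT (TT V) act co' χ' - cup
      (polyX (TT V) act (∏ i ∈ Finset.univ.filter (fun i => i ∉ Set.range j), linF (χ' i)))
      (tauT (TT V) act co χ) ∈ BB (cc (BS (TT V) act S E)) (BS (TT V) act S E) := by
  have hA' : ∀ x ∈ S, (fun k => co' x (j k)) = A (co x) := fun x hx => funext (hA x hx)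
  have h'' : Cd lab₀ (TT V) act S fun x k => co' x (j k) := CBTh_cd_change h A hA'
  have hc'' : IsCoord (TT V) act S (fun x k => co' x (j k)) fun k => χ' (j k) :=
    ⟨continuousOn_pi.2 fun k => (continuous_apply (j k)).comp_continuousOn hc'.1,
      fun u hu x hx k => hc'.2 u hu x hx (j k)⟩
  obtain ⟨g, hg⟩ := h''.homeo
  obtain ⟨n, hn⟩ := CBTh_sub_Inj hE
  have hd := discOK_of_homeo (isAct_pt h.ha.grp) h.ha h.inv (S := univ)
    (fun _ _ _ _ => mem_univ _) (fun _ _ _ _ => rfl) (CBTh_homeo_unit hg)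
    (E := E) fun u hu => hE.inv u (h.le hu)
  obtain ⟨h1, h2⟩ := tw_tauT_split h.ha subset_rfl hc' (hE.inv_prod h.le h.inv)
    (prod_mono Subset.rfl hn) j hj hd
  rw [← BS_eq, ← BS_eq] at h1 h2
  have hB : IsCompact (BS (TT V) (ptAct (V := V)) univ E) := CBTh_base_compact hE.cpt
  have t1 := isTh_tauT h hE hc
  have t2 := isTh_tauT h'' hE hc''
  have hp : ∀ p, polyX (TT V) act p ∈ ZZ ⊥ (BS (TT V) act S E) := fun p => by
    rw [BS_eq]
    exact polyX_mem_ZZ h.ha subset_rfl (fun q hq => hn hq.2) p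
  obtain ⟨h3, h4⟩ := TauK_cc_of_twOK hB h1
  obtain ⟨h5, h6⟩ := TauK_cc_of_twOK hB ((CBTh_twOK h.ha t2.mem).cup_left
    (hp (∏ i ∈ Finset.univ.filter (fun i => i ∉ Set.range j), linF (χ' i))))
  refine ⟨h3, ?_⟩
  rw [h2] at h4
  have h7 := (cls_eq_iff h3 h5).1 (h4.symm.trans h6)
  have h8 := CBTh_cup_cc (hp (∏ i ∈ Finset.univ.filter (fun i => i ∉ Set.range j), linF (χ' i)))
    (IsTh.unique h hE t1 t2 A hA')
  rw [cup_sub] at h8
  exact Line_trans h7 (Line_symm h8)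
omit [Nice X] in
/-- Splitting of the product Thom cocycle. -/
theorem tauT_sum (ha : IsAct (TT V) act) (hS : InvX (TT V) act S) (hE : FrOK lab₀ E)
    {χ : ι → V → ℤ} (hc : IsCoord (TT V) act S co χ) {co' : X → κ → ℂ} {χ' : κ → V → ℤ}
    (hc' : IsCoord (TT V) act S co' χ')
    (hK : IsCompact {x | x ∈ S ∧ (∀ i, ‖co x i‖ ≤ 1) ∧ ∀ i, ‖co' x i‖ ≤ 1}) :
    tauT (TT V) act (fun x => Sum.elim (co x) (co' x)) (Sum.elim χ χ') -
      cup (tauT (TT V) act co χ) (tauT (TT V) act co' χ') ∈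
      BB (cc (BS (TT V) act S E)) (BS (TT V) act S E) := by
  classical
  obtain ⟨n, hn⟩ := CBTh_sub_Inj hE
  have hP : Inv (TT V) act (S ×ˢ E) := hE.inv_prod (TT_subset lab₀) hS
  have hn' : S ×ˢ E ⊆ S ×ˢ Inj (id : V → V) n := prod_mono Subset.rfl hn
  have hs : IsCoord (TT V) act S (fun x => Sum.elim (co x) (co' x)) (Sum.elim χ χ') := by
    refine ⟨continuousOn_pi.2 fun i => ?_, fun u hu x hx i => ?_⟩
    · rcases i with i | i
      · exact (continuous_apply i).comp_continuousOn hc.1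
      · exact (continuous_apply i).comp_continuousOn hc'.1
    · rcases i with i | i
      · exact hc.2 u hu x hx i
      · exact hc'.2 u hu x hx i
  have hperm : (Finset.univ : Finset (ι ⊕ κ)).toList.Perm
      ((Finset.univ : Finset ι).toList.map Sum.inl ++
        (Finset.univ : Finset κ).toList.map Sum.inr) := by
    refine (List.perm_ext_iff_of_nodup (Finset.nodup_toList _) ?_).2 fun i => ?_
    · refine List.Nodup.append ((Finset.nodup_toList _).map Sum.inl_injective)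
        ((Finset.nodup_toList _).map Sum.inr_injective) ?_
      intro i hi hi'
      obtain ⟨k, -, rfl⟩ := List.mem_map.1 hi
      obtain ⟨k', -, h⟩ := List.mem_map.1 hi'
      exact Sum.inr_ne_inl h
    · refine ⟨fun _ => List.mem_append.2 ?_, fun _ => Finset.mem_toList.2 (Finset.mem_univ i)⟩
      rcases i with i | i
      · exact Or.inl (List.mem_map.2 ⟨i, Finset.mem_toList.2 (Finset.mem_univ i), rfl⟩)
      · exact Or.inr (List.mem_map.2 ⟨i, Finset.mem_toList.2 (Finset.mem_univ i), rfl⟩)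
  obtain ⟨e, he, hse, hN⟩ := cupL_perm (A := BI (TT V) act (S ×ˢ E))
    (hperm.map (Thom_w (TT V) act (fun x => Sum.elim (co x) (co' x)) (Sum.elim χ χ'))) (by
      intro w hw
      obtain ⟨i, -, rfl⟩ := List.mem_map.1 hw
      exact ⟨Thom_w_ZZ ha subset_rfl hs hP hn' i, 2, Thom_w_homC _ _ i, even_two⟩)
  rw [List.map_append, cupL_append, List.map_map, List.map_map] at hN
  rw [BS_eq]
  refine Comm_BB_cc (isCompact_BI (hK.prod hE.cpt)) (BI_mono (prod_mono (fun x hx => hx.1)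
    Subset.rfl)) he (fun q hq => ?_) hN
  obtain ⟨p, hp, rfl⟩ := supp_subset _ _ hq
  have h1 : ∀ i, ‖Sum.elim (co p.1) (co' p.1) i‖ ≤ 1 := fun i =>
    Thom_w_supp ha subset_rfl hs hP hn' i hp
      (hse _ (List.mem_map.2 ⟨i, Finset.mem_toList.2 (Finset.mem_univ _), rfl⟩) hq)
  exact ⟨p, ⟨⟨hp.1, fun i => h1 (Sum.inl i), fun i => h1 (Sum.inr i)⟩, hp.2⟩, rfl⟩

end Pool.Agent.HK
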