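import Pool.Agent.P.MP_1206ce_ag.CB.Th

/-! Torus equivariant classes of coordinate spaces as polynomials. -/

open scoped Topology
open Filter Set

noncomputable section

namespace Pool.Agent.HK

variable {V Λ Λ₀ X X₁ X₂ ι κ κ₀ : Type} [Fintype V] [DecidableEq V] [TopologicalSpace X]
  [TopologicalSpace X₁] [TopologicalSpace X₂] [Nice X] [Nice X₁] [Nice X₂] [Fintype ι] [Fintype κ]
  [Fintype κ₀] {lab₀ : V → Λ₀}
  {act : Matrix V V ℂ → X → X} {act₁ : Matrix V V ℂ → X₁ → X₁} {act₂ : Matrix V V ℂ → X₂ → X₂}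
  {S : Set X} {S₁ : Set X₁} {S₂ : Set X₂} {co : X → ι → ℂ} {χ : ι → V → ℤ}
  {a b : Fam (Bor (TT V) act)} {p q : MvPolynomial V ℂ}

section CBTr_abstract

variable {Y : Type} [TopologicalSpace Y] {A : Set Y}

theorem CBTr_CC_right {v a : Coch Y} (hv : Bdd v) (ha : a ∈ CC (cc A) A) :
    cup v a ∈ CC (cc A) A :=
  ⟨hv.cup ha.1, mem_of_superset ha.2
    (compl_subset_compl.2 ((supp_cup A v a).trans inter_subset_right))⟩

theorem CBTr_cup_ZZ {v a : Coch Y} (hv : v ∈ ZZ ⊥ A) (ha : a ∈ ZZ (cc A) A) :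
    cup v a ∈ ZZ (cc A) A :=
  ⟨CBTr_CC_right hv.1.1 ha.1, (cup_mem_ZZ hv (ZZ_cc_le_bot A ha)).2⟩

theorem CBTr_cup_BB_left {v a : Coch Y} (hv : v ∈ BB ⊥ A) (ha : a ∈ ZZ (cc A) A) :
    cup v a ∈ BB (cc A) A := by
  obtain ⟨e, he, h⟩ := hv
  refine ⟨cup e a, CBTr_CC_right he.1 ha.1, ?_⟩
  rw [dd_cup he.1.1 ha.1.1.1, ← sub_sub, ← sub_cup]
  exact sub_mem (Basic_N0_cup_left h a) (Basic_N0_cup_right _ ha.2)

theorem CBTr_cup_BB_right {v a : Coch Y} (hv : v ∈ ZZ ⊥ A) (ha : a ∈ BB (cc A) A) :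
    cup v a ∈ BB (cc A) A := by
  obtain ⟨e, he, h⟩ := ha
  refine ⟨cup (sgC v) e, CBTr_CC_right hv.1.1.sgC he, ?_⟩
  rw [dd_cup hv.1.1.sgC.1 he.1.1, Basic_sgC_sgC, add_comm, ← sub_sub, ← cup_sub]
  refine sub_mem (Basic_N0_cup_right v h) (Basic_N0_cup_left ?_ e)
  rw [Basic_dd_sgC]
  refine neg_mem ?_
  rw [mem_N0, supp_sgC]
  exact hv.2

theorem CBTr_congr_right {v a b : Coch Y} (hv : v ∈ ZZ ⊥ A) (h : a - b ∈ BB (cc A) A) :
    cup v a - cup v b ∈ BB (cc A) A := by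
  rw [← cup_sub]
  exact CBTr_cup_BB_right hv h

theorem CBTr_congr_left {v v' a : Coch Y} (h : v - v' ∈ BB ⊥ A) (ha : a ∈ ZZ (cc A) A) :
    cup v a - cup v' a ∈ BB (cc A) A := by
  rw [← sub_cup]
  exact CBTr_cup_BB_left h ha

theorem CBTr_comm {v t : Coch Y} (hv : v ∈ ZZ ⊥ A) (ht : t ∈ ZZ (cc A) A) {m : ℤ}
    (hm : HomC (2 * m) t) : cup v t - cup t v ∈ BB (cc A) A := by
  obtain ⟨e, he, hs, h⟩ := cup_comm_even hv (ZZ_cc_le_bot A ht) hm (even_two_mul m)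
  exact Comm_BB_cc (mem_CC_cc.1 ht.1).2 (supp_subset A t) he (hs.trans inter_subset_right) h

theorem CBTr_trans {F : Filter Y} {a b c : Coch Y} (h : a - b ∈ BB F A) (h' : b - c ∈ BB F A) :
    a - c ∈ BB F A := by
  have := add_mem h h'
  rwa [sub_add_sub_cancel] at this

theorem CBTr_symm {F : Filter Y} {a b : Coch Y} (h : a - b ∈ BB F A) : b - a ∈ BB F A := by
  have := neg_mem h
  rwa [neg_sub] at this

theorem CBTr_restrict {B : Set Y} (hB : ClosedIn B A) {a : Coch Y} (ha : a ∈ BB (cc A) A) :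
    a ∈ BB (cc B) B := by
  have := pb_mem_BB_cc hB.properOn ha
  rwa [pb_id] at this

end CBTr_abstract

omit [TopologicalSpace X] [Nice X] in
theorem CBTr_hn (lab₀ : V → Λ₀) (S : Set X) (n : ℕ) :
    ∀ p ∈ S ×ˢ St lab₀ n, p.2 ∈ Inj (id : V → V) n := fun _ hp =>
  Inj_subset_id lab₀ n (St_subset_Inj lab₀ n hp.2)

omit [Nice X] in
theorem CBTr_polyX_ZZ (ha : IsAct (TT V) act) (lab₀ : V → Λ₀) (S : Set X) (n : ℕ)
    (p : MvPolynomial V ℂ) : polyX (TT V) act p ∈ ZZ ⊥ (BS (TT V) act S (St lab₀ n)) := by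
  rw [BS_eq]
  exact polyX_mem_ZZ ha subset_rfl (CBTr_hn lab₀ S n) p

omit [Nice X] in
theorem CBTr_mul_poly (ha : IsAct (TT V) act) {n : ℕ} {t : Coch (Bor (TT V) act)}
    (ht : t ∈ ZZ (cc (BS (TT V) act S (St lab₀ n))) (BS (TT V) act S (St lab₀ n)))
    (p q : MvPolynomial V ℂ) :
    cup (polyX (TT V) act p) (cup (polyX (TT V) act q) t) - cup (polyX (TT V) act (p * q)) t ∈
      BB (cc (BS (TT V) act S (St lab₀ n))) (BS (TT V) act S (St lab₀ n)) := by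
  rw [← cup_assoc]
  refine CBTr_congr_left (CBTr_symm ?_) ht
  rw [BS_eq]
  exact polyX_mul ha subset_rfl (CBTr_hn lab₀ S n) p q

theorem CBTr_tau_ZZ (h : Cd lab₀ (TT V) act S co) (hc : IsCoord (TT V) act S co χ) (n : ℕ) :
    tauT (TT V) act co χ ∈
      ZZ (cc (BS (TT V) act S (St lab₀ n))) (BS (TT V) act S (St lab₀ n)) :=
  (isTh_tauT h (frOK_St lab₀ n) hc).mem

theorem CBTr_compact_pt (lab₀ : V → Λ₀) (n : ℕ) :
    IsCompact (BS (TT V) (ptAct (V := V)) univ (St lab₀ n)) :=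
  Ch_compact_BS (isCompact_St lab₀ n)

theorem CBTr_St_sub (lab₀ : V → Λ₀) (n : ℕ) : St lab₀ n ⊆ Inj (id : V → V) n :=
  (St_subset_Inj lab₀ n).trans (Inj_subset_id lab₀ n)

theorem CBTr_chC_id (lab₀ : V → Λ₀) (p : MvPolynomial V ℂ) (n : ℕ) :
    chC (id : V → V) p n - polyC p ∈ BB ⊥ (BS (TT V) (ptAct (V := V)) univ (St lab₀ n)) :=
  VB_BB_mono (Ch_BS_mono (CBTr_St_sub lab₀ n)) (chC_id p n)

omit [Fintype V] [DecidableEq V] in
theorem CBTr_refines (lab₀ : V → Λ₀) : Refines (id : V → V) lab₀ := fun _ _ h => congrArg lab₀ h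

/-- Injectivity of the Thom map on cochains. -/
theorem CBTr_inj (h : Cd lab₀ (TT V) act S co) (hc : IsCoord (TT V) act S co χ) {n : ℕ}
    {w w' : Coch (BT V)} (hw : w ∈ ZZ ⊥ (BS (TT V) (ptAct (V := V)) univ (St lab₀ n)))
    (hw' : w' ∈ ZZ ⊥ (BS (TT V) (ptAct (V := V)) univ (St lab₀ n)))
    (he : cup (pb (bmap (TT V) ptAct (fun _ => ()) id) w) (tauT (TT V) act co χ) -
      cup (pb (bmap (TT V) ptAct (fun _ => ()) id) w') (tauT (TT V) act co χ) ∈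
      BB (cc (BS (TT V) act S (St lab₀ n))) (BS (TT V) act S (St lab₀ n))) :
    w - w' ∈ BB ⊥ (BS (TT V) (ptAct (V := V)) univ (St lab₀ n)) := by
  obtain ⟨hok, hb⟩ := (isTh_tauT h (frOK_St lab₀ n) hc).bij h (frOK_St lab₀ n)
  have hC := CBTr_compact_pt lab₀ n
  rw [← ZZ_cc_eq_bot hC] at hw hw'
  rw [← BB_cc_eq_bot hC, ← cls_eq_iff hw hw']
  apply hb.1
  rw [tw_cls hok hw, tw_cls hok hw', cls_eq_iff (hok.mem_ZZ hw) (hok.mem_ZZ hw')]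
  exact he

/-- Surjectivity of the Thom map on cochains. -/
theorem CBTr_surj (h : Cd lab₀ (TT V) act S co) (hc : IsCoord (TT V) act S co χ) {n : ℕ}
    {c : Coch (Bor (TT V) act)}
    (hz : c ∈ ZZ (cc (BS (TT V) act S (St lab₀ n))) (BS (TT V) act S (St lab₀ n))) {k : ℤ}
    (hk : HomC k c) : ∃ w ∈ ZZ ⊥ (BS (TT V) (ptAct (V := V)) univ (St lab₀ n)),
      HomC (k - 2 * (Fintype.card ι : ℤ)) w ∧
      c - cup (pb (bmap (TT V) ptAct (fun _ => ()) id) w) (tauT (TT V) act co χ) ∈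
        BB (cc (BS (TT V) act S (St lab₀ n))) (BS (TT V) act S (St lab₀ n)) := by
  have ht := isTh_tauT h (frOK_St lab₀ n) hc
  obtain ⟨hok, hb⟩ := ht.bij h (frOK_St lab₀ n)
  obtain ⟨x, hx⟩ := hb.2 (clc _ c)
  obtain ⟨w, hw, rfl⟩ := cls_surj x
  rw [tw_cls hok hw, eq_comm, cls_eq_iff hz (hok.mem_ZZ hw)] at hx
  refine ⟨prC (k - 2 * (Fintype.card ι : ℤ)) w, prC_mem_ZZ _ (ZZ_cc_le_bot _ hw),
    HomC.prC _ w, ?_⟩
  have h1 := prC_mem_BB k hx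
  rw [Basic_prC_sub, hk.prC_self] at h1
  rw [← prC_pb, ← prC_cup_right _ _ ht.hom, sub_add_cancel]
  exact h1

theorem CBTr_unique (h : Cd lab₀ (TT V) act S co) (hc : IsCoord (TT V) act S co χ)
    (h₁ : TRel act S lab₀ co χ a p) (h₂ : TRel act S lab₀ co χ a q) : p = q := by
  refine fam_ch_inj (CBTr_refines lab₀) (mem_Rinv_id p) (mem_Rinv_id q) fun n =>
    cohom_false.2 ?_
  have h3 := CBTr_inj h hc (Ch_polyC_ZZ (CBTr_St_sub lab₀ n) p)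
    (Ch_polyC_ZZ (CBTr_St_sub lab₀ n) q) (CBTr_trans (CBTr_symm (h₁ n)) (h₂ n))
  exact CBTr_trans (CBTr_trans (CBTr_chC_id lab₀ p n) h3) (CBTr_symm (CBTr_chC_id lab₀ q n))

theorem CBTr_exists_hom (h : Cd lab₀ (TT V) act S co) (hc : IsCoord (TT V) act S co χ)
    (ha : IsFam True (BL (TT V) act S lab₀) a) {k : ℤ} (hk : Homog k a) :
    ∃ p, TRel act S lab₀ co χ a p ∧
      (p = 0 ∨ ∃ d : ℕ, k = 2 * (d : ℤ) + 2 * (Fintype.card ι : ℤ) ∧ p.IsHomogeneous d) := by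
  choose w hw hwk hwb using fun n =>
    CBTr_surj h hc (cocycle_true.1 (ha.1 n)) (k := k) (fun l hl => hk n l hl)
  have hfam : IsFam False (fun n => BS (TT V) (ptAct (V := V)) univ (St lab₀ n)) w := by
    refine ⟨fun n => cocycle_false.2 (hw n), fun n => cohom_false.2 ?_,
      (k - 2 * (Fintype.card ι : ℤ) + 1).toNat, fun n l hl => hwk n l (by omega)⟩
    refine CBTr_inj h hc (Ch_ZZ_mono (Ch_BS_mono (St_mono lab₀ (Nat.le_succ n))) (hw (n + 1)))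
      (hw n) ?_
    have h1 := CBTr_restrict (closedIn_BL h.ha h.le h.inv n) (hwb (n + 1))
    exact CBTr_trans (CBTr_trans (CBTr_symm h1) (cohom_true.1 (ha.2.1 n))) (hwb n)
  obtain ⟨p, -, hp, hd⟩ := fam_ch_surj (CBTr_refines lab₀) hfam
  refine ⟨p, fun n => CBTr_trans (hwb n) ?_, ?_⟩
  · refine CBTr_congr_left ?_ (CBTr_tau_ZZ h hc n)
    have hE := EM.toPt (lab₀ := lab₀) h.ha h.ha.grp subset_rfl h.le h.inv
    rw [polyX, ← pb_sub]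
    exact pb_mem_BB (hE.contOn (frOK_St lab₀ n)) (hE.mapsTo _)
      (CBTr_trans (cohom_false.1 (hp n)) (CBTr_chC_id lab₀ p n))
  · rcases hd _ (fun n l hl => hwk n l hl) with h0 | ⟨d, h1, h2⟩
    · exact Or.inl h0
    · exact Or.inr ⟨d, by omega, h2⟩

omit [Nice X] in
theorem CBTr_zero : TRel act S lab₀ co χ 0 0 := fun n => by
  rw [polyX, map_zero, pb_zero, zero_cup, Pi.zero_apply, sub_zero]
  exact zero_mem _

omit [Nice X] in
theorem CBTr_add (h₁ : TRel act S lab₀ co χ a p) (h₂ : TRel act S lab₀ co χ b q) :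
    TRel act S lab₀ co χ (a + b) (p + q) := fun n => by
  rw [polyX_add, add_cup, Pi.add_apply, add_sub_add_comm]
  exact add_mem (h₁ n) (h₂ n)

omit [Nice X] in
theorem CBTr_sum {J : Type} (s : Finset J) {f : J → Fam (Bor (TT V) act)}
    {g : J → MvPolynomial V ℂ} (h : ∀ j ∈ s, TRel act S lab₀ co χ (f j) (g j)) :
    TRel act S lab₀ co χ (∑ j ∈ s, f j) (∑ j ∈ s, g j) := by
  classical
  induction s using Finset.induction_on with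
  | empty =>
    rw [Finset.sum_empty, Finset.sum_empty]
    exact CBTr_zero
  | insert i s hi ih =>
    rw [Finset.sum_insert hi, Finset.sum_insert hi]
    exact CBTr_add (h i (Finset.mem_insert_self i s))
      (ih fun j hj => h j (Finset.mem_insert_of_mem hj))

theorem CBTr_pb (h : Cd lab₀ (TT V) act S co) (hc : IsCoord (TT V) act S co χ) {f : X → X₁}
    (hf : EM lab₀ (TT V) act S (TT V) act₁ S₁ f) (hp : ProperOn f S S₁) {co₁ : X₁ → κ → ℂ}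
    {χ₁ : κ → V → ℤ} (hc₁ : IsCoord (TT V) act₁ S₁ co₁ χ₁) (j : κ₀ → κ)
    (hj : Function.Injective j) [DecidablePred fun i => i ∈ Set.range j]
    (A : (ι → ℂ) ≃ₗ[ℂ] (κ₀ → ℂ)) (hA : ∀ x ∈ S, ∀ k, co₁ (f x) (j k) = A (co x) k)
    {a₁ : Fam (Bor (TT V) act₁)} (h₁ : TRel act₁ S₁ lab₀ co₁ χ₁ a₁ p) :
    TRel act S lab₀ co χ (pbF (bmap (TT V) act₁ f id) a₁)
      (p * ∏ i ∈ Finset.univ.filter (fun i => i ∉ Set.range j), linF (χ₁ i)) := by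
  intro n
  have hE := frOK_St lab₀ n
  have hP := CBTr_polyX_ZZ h.ha lab₀ S n p
  have h1 := pb_mem_BB_cc (hf.proper hE hp) (h₁ n)
  rw [pb_sub, pb_cup, pb_polyX hf.ha₁ subset_rfl] at h1
  have hout : ∀ q ∈ BS (TT V) act S (St lab₀ n), f (Quot.out q).1 ∈ S₁ := by
    intro q hq
    rw [BS_eq] at hq
    exact hf.maps ((h.ha.out_mem (hE.inv_prod h.le h.inv)).1 hq).1
  have h2 := pb_tauT (act' := act) hf.ha₁ subset_rfl hf.inv₁ hc₁ f hout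
  have hc' : IsCoord (TT V) act S (co₁ ∘ f) χ₁ := by
    refine ⟨hc₁.1.comp hf.cont hf.maps, fun u hu x hx i => ?_⟩
    simp only [Function.comp_apply]
    rw [hf.eqv u hu x hx]
    exact hc₁.2 u hu _ (hf.maps hx) i
  have h3 := (tauT_change h hE hc hc' j hj A hA).2
  refine CBTr_trans h1 (CBTr_trans (CBTr_congr_right hP (N0_le_BB _ _ h2))
    (CBTr_trans (CBTr_congr_right hP h3) ?_))
  exact CBTr_mul_poly h.ha (CBTr_tau_ZZ h hc n) _ _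

theorem CBTr_xp (h : Cd lab₀ (TT V) act S co) (hc : IsCoord (TT V) act S co χ) {f₁ : X → X₁}
    {f₂ : X → X₂} (h₁ : EM lab₀ (TT V) act S (TT V) act₁ S₁ f₁)
    (h₂ : EM lab₀ (TT V) act S (TT V) act₂ S₂ f₂) {g : X₁ × X₂ → X}
    (hg : HomeoOn (fun x => (f₁ x, f₂ x)) g S (S₁ ×ˢ S₂)) {co₁ : X₁ → κ → ℂ} {χ₁ : κ → V → ℤ}
    {co₂ : X₂ → κ₀ → ℂ} {χ₂ : κ₀ → V → ℤ} (c₁ : Cd lab₀ (TT V) act₁ S₁ co₁)
    (hc₁ : IsCoord (TT V) act₁ S₁ co₁ χ₁) (c₂ : Cd lab₀ (TT V) act₂ S₂ co₂)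
    (hc₂ : IsCoord (TT V) act₂ S₂ co₂ χ₂) (A : (κ ⊕ κ₀ → ℂ) ≃ₗ[ℂ] (ι → ℂ))
    (hA : ∀ x ∈ S, co x = A (Sum.elim (co₁ (f₁ x)) (co₂ (f₂ x)))) {a₁ : Fam (Bor (TT V) act₁)}
    {a₂ : Fam (Bor (TT V) act₂)} (ha₁ : IsFam True (BL (TT V) act₁ S₁ lab₀) a₁)
    (r₁ : TRel act₁ S₁ lab₀ co₁ χ₁ a₁ p) (r₂ : TRel act₂ S₂ lab₀ co₂ χ₂ a₂ q) :
    TRel act S lab₀ co χ
      (cupF (pbF (bmap (TT V) act₁ f₁ id) a₁) (pbF (bmap (TT V) act₂ f₂ id) a₂)) (p * q) := by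
  intro n
  have hE := frOK_St lab₀ n
  have t₁ := isTh_tauT c₁ hE hc₁
  have t₂ := isTh_tauT c₂ hE hc₂
  have hQ₂ := CBTr_polyX_ZZ c₂.ha lab₀ S₂ n q
  have hP := CBTr_polyX_ZZ h.ha lab₀ S n p
  have hQ := CBTr_polyX_ZZ h.ha lab₀ S n q
  have hb₂ : cup (tauT (TT V) act₂ co₂ χ₂) (polyX (TT V) act₂ q) ∈
      ZZ (cc (BS (TT V) act₂ S₂ (St lab₀ n))) (BS (TT V) act₂ S₂ (St lab₀ n)) := by
    have := ((ClosedIn.refl _).properOn.twOK hQ₂).mem_ZZ t₂.mem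
    rwa [pb_id] at this
  have h1 := xp_BB h₁ h₂ hg.properOn hE (cocycle_true.1 (ha₁.1 n)) hb₂ (r₁ n)
    (CBTr_trans (r₂ n) (CBTr_comm hQ₂ t₂.mem t₂.hom))
  rw [pb_cup, pb_cup, pb_polyX h₁.ha₁ subset_rfl, pb_polyX h₂.ha₁ subset_rfl, cup_assoc,
    ← cup_assoc _ _ (polyX (TT V) act q)] at h1
  obtain ⟨cP, tP⟩ := IsTh.prod h₁ h₂ hg hE c₁ c₂ t₁ t₂
  have h2 := IsTh.unique cP hE tP (isTh_tauT h hE hc) A hA
  refine CBTr_trans h1 (CBTr_trans (CBTr_congr_right hP (CBTr_trans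
    (CBTr_symm (CBTr_comm hQ tP.mem tP.hom)) (CBTr_congr_right hQ h2))) ?_)
  exact CBTr_mul_poly h.ha (CBTr_tau_ZZ h hc n) _ _

theorem CBTr_wmap {lab : V → Λ} (ha : IsAct (KG lab) act) {w : Equiv.Perm V} (hw : w ∈ Wl lab)
    (h : Cd lab (TT V) act S co) (hc : IsCoord (TT V) act S co χ) {S' : Set X}
    (hS' : act (pmat w) '' S = S') {co' : X → κ → ℂ} {χ' : κ → V → ℤ}
    (h' : Cd lab (TT V) act S' co') (hc' : IsCoord (TT V) act S' co' χ')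
    (A : (ι → ℂ) ≃ₗ[ℂ] (κ → ℂ)) (hA : ∀ x ∈ S, co' (act (pmat w) x) = A (co x))
    (r : TRel act S' lab co' χ' a p) :
    TRel act S lab co χ (pbF (wmap act w) a) (MvPolynomial.rename w.symm p) := by
  intro n
  have hE := frOK_St lab n
  obtain ⟨hp, ht⟩ := IsTh.wmap ha hw h.inv hS' (isTh_tauT h' hE hc')
  have h1 := pb_mem_BB_cc hp (r n)
  rw [pb_sub, pb_cup] at h1
  have h2 : pb (wmap act w) (polyX (TT V) act p) -
      polyX (TT V) act (MvPolynomial.rename w.symm p) ∈ BB ⊥ (BS (TT V) act S (St lab n)) := by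
    rw [BS_eq]
    exact pb_wmap_polyX ha hw (CBTr_hn lab S n) p
  have h3 := IsTh.unique h hE (isTh_tauT h hE hc) ht A hA
  exact CBTr_trans h1 (CBTr_trans (CBTr_congr_left h2 ht.mem)
    (CBTr_congr_right (CBTr_polyX_ZZ h.ha lab S n _) (CBTr_symm h3)))

theorem isFam_poly_tauT (h : Cd lab₀ (TT V) act S co) (hc : IsCoord (TT V) act S co χ)
    (p : MvPolynomial V ℂ) : IsFam True (BL (TT V) act S lab₀)
      fun _ => cup (polyX (TT V) act p) (tauT (TT V) act co χ) := by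
  have hz := fun n => CBTr_cup_ZZ (CBTr_polyX_ZZ h.ha lab₀ S n p) (CBTr_tau_ZZ h hc n)
  obtain ⟨N, hN⟩ := (hz 0).1.1.2
  refine ⟨fun n => cocycle_true.2 (hz n), fun n => cohom_true.2 ?_, N, fun _ l hl => hN l hl⟩
  rw [sub_self]
  exact zero_mem _
theorem exists_tRel (h : Cd lab₀ (TT V) act S co) (hc : IsCoord (TT V) act S co χ)
    (ha : IsFam True (BL (TT V) act S lab₀) a) : ∃ p, TRel act S lab₀ co χ a p ∧
      ∀ k, Homog k a → p = 0 ∨ ∃ d : ℕ, k = 2 * (d : ℤ) + 2 * (Fintype.card ι : ℤ) ∧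
        p.IsHomogeneous d := by
  obtain ⟨N, hN⟩ := ha.eq_sum
  choose g hg _ using fun k : ℕ => CBTr_exists_hom h hc (ha.prF k) (homog_prF k a)
  have h1 : TRel act S lab₀ co χ a (∑ k ∈ Finset.range N, g k) := by
    have := CBTr_sum (Finset.range N) fun k _ => hg k
    rwa [← hN] at this
  refine ⟨_, h1, fun k hk => ?_⟩
  obtain ⟨p, hp, hd⟩ := CBTr_exists_hom h hc ha hk
  rw [CBTr_unique h hc h1 hp]
  exact hd
theorem TRel.unique (h : Cd lab₀ (TT V) act S co) (hc : IsCoord (TT V) act S co χ)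
    (h₁ : TRel act S lab₀ co χ a p) (h₂ : TRel act S lab₀ co χ a q) : p = q :=
  CBTr_unique h hc h₁ h₂
theorem TRel.congr (h₁ : TRel act S lab₀ co χ a p) (he : FamEq True (BL (TT V) act S lab₀) a b) :
    TRel act S lab₀ co χ b p := fun n =>
  CBTr_trans (CBTr_symm (cohom_true.1 (he n))) (h₁ n)
theorem TRel.famEq (h₁ : TRel act S lab₀ co χ a p) (h₂ : TRel act S lab₀ co χ b p) :
    FamEq True (BL (TT V) act S lab₀) a b := fun n =>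
  cohom_true.2 (CBTr_trans (h₁ n) (CBTr_symm (h₂ n)))
theorem TRel.zero : TRel act S lab₀ co χ 0 0 := CBTr_zero
theorem TRel.add (h₁ : TRel act S lab₀ co χ a p) (h₂ : TRel act S lab₀ co χ b q) :
    TRel act S lab₀ co χ (a + b) (p + q) := CBTr_add h₁ h₂
theorem TRel.smul (z : ℂ) (h₁ : TRel act S lab₀ co χ a p) :
    TRel act S lab₀ co χ (z • a) (z • p) := fun n => by
  rw [polyX_smul, smul_cup, Pi.smul_apply, ← smul_sub]
  exact Submodule.smul_mem _ z (h₁ n)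
theorem TRel.sum {J : Type} (s : Finset J) {f : J → Fam (Bor (TT V) act)}
    {g : J → MvPolynomial V ℂ} (h : ∀ j ∈ s, TRel act S lab₀ co χ (f j) (g j)) :
    TRel act S lab₀ co χ (∑ j ∈ s, f j) (∑ j ∈ s, g j) := CBTr_sum s h
theorem TRel.mul (h : Cd lab₀ (TT V) act S co) (hc : IsCoord (TT V) act S co χ)
    (ha : IsFam True (BL (TT V) act S lab₀) a) (h₁ : TRel act S lab₀ co χ a p)
    {v : Fam (Bor (TT V) act)} (hv : ∀ n, v n ∈ ZZ ⊥ (BS (TT V) act S (St lab₀ n)) ∧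
      v n - polyX (TT V) act q ∈ BB ⊥ (BS (TT V) act S (St lab₀ n))) :
    TRel act S lab₀ co χ (cupF v a) (q * p) := fun n =>
  CBTr_trans (CBTr_congr_left (hv n).2 (cocycle_true.1 (ha.1 n)))
    (CBTr_trans (CBTr_congr_right (CBTr_polyX_ZZ h.ha lab₀ S n q) (h₁ n))
      (CBTr_mul_poly h.ha (CBTr_tau_ZZ h hc n) q p))
theorem tRel_of_isTh (h : Cd lab₀ (TT V) act S co) (hc : IsCoord (TT V) act S co χ)
    (ha : ∀ n, IsTh (TT V) act S (St lab₀ n) co (a n)) : TRel act S lab₀ co χ a 1 := fun n => by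
  rw [polyX_one, one_cup (CBTr_tau_ZZ h hc n).1.1.1]
  exact IsTh.unique h (frOK_St lab₀ n) (ha n) (isTh_tauT h (frOK_St lab₀ n) hc)
    (LinearEquiv.refl ℂ _) fun _ _ => rfl
/-- Restriction along a proper map onto which the coordinates `j` restrict isomorphically. -/
theorem TRel.pb (h : Cd lab₀ (TT V) act S co) (hc : IsCoord (TT V) act S co χ) {f : X → X₁}
    (hf : EM lab₀ (TT V) act S (TT V) act₁ S₁ f) (hp : ProperOn f S S₁) {co₁ : X₁ → κ → ℂ}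
    {χ₁ : κ → V → ℤ} (hc₁ : IsCoord (TT V) act₁ S₁ co₁ χ₁) (j : κ₀ → κ)
    (hj : Function.Injective j) [DecidablePred fun i => i ∈ Set.range j]
    (A : (ι → ℂ) ≃ₗ[ℂ] (κ₀ → ℂ)) (hA : ∀ x ∈ S, ∀ k, co₁ (f x) (j k) = A (co x) k)
    {a₁ : Fam (Bor (TT V) act₁)} (h₁ : TRel act₁ S₁ lab₀ co₁ χ₁ a₁ p) :
    TRel act S lab₀ co χ (pbF (bmap (TT V) act₁ f id) a₁)
      (p * ∏ i ∈ Finset.univ.filter (fun i => i ∉ Set.range j), linF (χ₁ i)) :=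
  CBTr_pb h hc hf hp hc₁ j hj A hA h₁
/-- External products. -/
theorem TRel.xp (h : Cd lab₀ (TT V) act S co) (hc : IsCoord (TT V) act S co χ) {f₁ : X → X₁}
    {f₂ : X → X₂} (h₁ : EM lab₀ (TT V) act S (TT V) act₁ S₁ f₁)
    (h₂ : EM lab₀ (TT V) act S (TT V) act₂ S₂ f₂) {g : X₁ × X₂ → X}
    (hg : HomeoOn (fun x => (f₁ x, f₂ x)) g S (S₁ ×ˢ S₂)) {co₁ : X₁ → κ → ℂ} {χ₁ : κ → V → ℤ}
    {co₂ : X₂ → κ₀ → ℂ} {χ₂ : κ₀ → V → ℤ} (c₁ : Cd lab₀ (TT V) act₁ S₁ co₁)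
    (hc₁ : IsCoord (TT V) act₁ S₁ co₁ χ₁) (c₂ : Cd lab₀ (TT V) act₂ S₂ co₂)
    (hc₂ : IsCoord (TT V) act₂ S₂ co₂ χ₂) (A : (κ ⊕ κ₀ → ℂ) ≃ₗ[ℂ] (ι → ℂ))
    (hA : ∀ x ∈ S, co x = A (Sum.elim (co₁ (f₁ x)) (co₂ (f₂ x)))) {a₁ : Fam (Bor (TT V) act₁)}
    {a₂ : Fam (Bor (TT V) act₂)} (ha₁ : IsFam True (BL (TT V) act₁ S₁ lab₀) a₁)
    (ha₂ : IsFam True (BL (TT V) act₂ S₂ lab₀) a₂) (r₁ : TRel act₁ S₁ lab₀ co₁ χ₁ a₁ p)
    (r₂ : TRel act₂ S₂ lab₀ co₂ χ₂ a₂ q) :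
    TRel act S lab₀ co χ
      (cupF (pbF (bmap (TT V) act₁ f₁ id) a₁) (pbF (bmap (TT V) act₂ f₂ id) a₂)) (p * q) := by
  have _ := ha₂
  exact CBTr_xp h hc h₁ h₂ hg c₁ hc₁ c₂ hc₂ A hA ha₁ r₁ r₂
/-- Transport by a Weyl group element. -/
theorem TRel.wmap {lab : V → Λ} (ha : IsAct (KG lab) act) {w : Equiv.Perm V} (hw : w ∈ Wl lab)
    (h : Cd lab (TT V) act S co) (hc : IsCoord (TT V) act S co χ) {S' : Set X}
    (hS' : act (pmat w) '' S = S') {co' : X → κ → ℂ} {χ' : κ → V → ℤ}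
    (h' : Cd lab (TT V) act S' co') (hc' : IsCoord (TT V) act S' co' χ')
    (A : (ι → ℂ) ≃ₗ[ℂ] (κ → ℂ)) (hA : ∀ x ∈ S, co' (act (pmat w) x) = A (co x))
    (r : TRel act S' lab co' χ' a p) :
    TRel act S lab co χ (pbF (wmap act w) a) (MvPolynomial.rename w.symm p) :=
  CBTr_wmap ha hw h hc hS' h' hc' A hA r

end Pool.Agent.HK
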